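import Pool.Agent.Lib.MP_46876e_al_PP.PDefs

/-!
# MP_46876e_al, project PP, module PRot: the matrices of the free family
-/

set_option autoImplicit false

noncomputable section

namespace Pool.Agent.MP_46876e_al_PP

open MeasureTheory MulOpposite Filter Topology Pool.Agent.Forest46876e
open scoped ENNReal

private theorem PRot_pow (i : ℕ) : ∃ C S : ℤ, RR ^ i = !![C, -S; S, C] ∧
    RI ^ i = !![C, S; -S, C] ∧ C ^ 2 + S ^ 2 = 25 ^ i := by
  induction i with
  | zero =>
    refine ⟨1, 0, ?_, ?_, by norm_num⟩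
    · rw [pow_zero, Matrix.one_fin_two, neg_zero]
    · rw [pow_zero, Matrix.one_fin_two, neg_zero]
  | succ i ih =>
    obtain ⟨C, S, h1, h2, h3⟩ := ih
    refine ⟨3 * C - 4 * S, 4 * C + 3 * S, ?_, ?_, ?_⟩
    · rw [pow_succ, h1, RR, Matrix.mul_fin_two]
      congr 1
      ext a b
      fin_cases a <;> fin_cases b <;> simp <;> ring
    · rw [pow_succ, h2, RI, Matrix.mul_fin_two]
      congr 1
      ext a b
      fin_cases a <;> fin_cases b <;> simp <;> ring
    · have h4 : (25 : ℤ) ^ (i + 1) = 25 * 25 ^ i := by ring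
      rw [h4, ← h3]
      ring

private theorem PRot_RI_RR : RI * RR = (25 : ℤ) • (1 : Matrix (Fin 2) (Fin 2) ℤ) := by
  rw [RI, RR, Matrix.mul_fin_two, Matrix.one_fin_two]
  ext a b
  fin_cases a <;> fin_cases b <;> simp

private theorem PRot_RR_RI : RR * RI = (25 : ℤ) • (1 : Matrix (Fin 2) (Fin 2) ℤ) := by
  rw [RI, RR, Matrix.mul_fin_two, Matrix.one_fin_two]
  ext a b
  fin_cases a <;> fin_cases b <;> simp

private theorem PRot_EE : EE false * EE true =
    (15625 ^ 2 : ℤ) • (1 : Matrix (Fin 2) (Fin 2) ℤ) := by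
  simp only [EE, Bool.false_eq_true, if_false, if_true]
  rw [Matrix.mul_fin_two, Matrix.one_fin_two]
  ext a b
  fin_cases a <;> fin_cases b <;> simp

private theorem PRot_pow_mul {A B : Matrix (Fin 2) (Fin 2) ℤ}
    (h : A * B = (25 : ℤ) • (1 : Matrix (Fin 2) (Fin 2) ℤ)) (i : ℕ) :
    A ^ i * B ^ i = (25 ^ i : ℤ) • (1 : Matrix (Fin 2) (Fin 2) ℤ) := by
  induction i with
  | zero => simp
  | succ i ih =>
    have e1 : A ^ (i + 1) * B ^ (i + 1) = A ^ i * (A * B) * B ^ i := by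
      rw [pow_succ, pow_succ' B]
      simp only [Matrix.mul_assoc]
    rw [e1, h, Matrix.mul_smul, Matrix.mul_one, Matrix.smul_mul, ih, smul_smul]
    congr 1
    ring

/-- Proof: `RR ^ i = !![C, -S; S, C]`, `RI ^ i = !![C, S; -S, C]` with `C² + S² = 25 ^ i`
(induction),
`EE true = 15625 • 1 + !![1, 125; 125, 0]`, so
`Lt (i, true) = KK i • 1 + !![C² - 250 C S, C S + 125 (C² - S²); same, S² + 250 C S]`, and
`|2 C S| ≤ C² + S²`, `|C² - S²| ≤ C² + S²`: the entries are at most `126 * 25 ^ i` in absolute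
value, and `12600 ≤ 15625`. -/
theorem Lt_true (i : ℕ) : ∃ x y w : ℤ, Lt (i, true) = !![KK i + x, y; y, KK i + w] ∧
    100 * |x| ≤ KK i ∧ 100 * |y| ≤ KK i ∧ 100 * |w| ≤ KK i := by
  obtain ⟨C, S, h1, h2, h3⟩ := PRot_pow i
  refine ⟨C ^ 2 - 250 * (C * S), C * S + 125 * (C ^ 2 - S ^ 2), S ^ 2 + 250 * (C * S),
    ?_, ?_, ?_, ?_⟩
  · have hE : EE true = !![15626, 125; 125, 15625] := by simp [EE]
    simp only [Lt, KK]
    rw [h1, h2, hE, Matrix.mul_fin_two, Matrix.mul_fin_two, ← h3]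
    congr 1
    ext a b
    fin_cases a <;> fin_cases b <;> simp <;> ring
  · have h4 : |C ^ 2 - 250 * (C * S)| ≤ 126 * (C ^ 2 + S ^ 2) := by
      rw [abs_le]
      constructor
      · nlinarith [sq_nonneg (C - S), sq_nonneg C, sq_nonneg S]
      · nlinarith [sq_nonneg (C + S), sq_nonneg C, sq_nonneg S]
    have h5 : (0 : ℤ) ≤ C ^ 2 + S ^ 2 := by positivity
    rw [KK, ← h3]
    linarith
  · have h4 : |C * S + 125 * (C ^ 2 - S ^ 2)| ≤ 126 * (C ^ 2 + S ^ 2) := by
      rw [abs_le]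
      constructor
      · nlinarith [sq_nonneg (C + S), sq_nonneg C, sq_nonneg S]
      · nlinarith [sq_nonneg (C - S), sq_nonneg C, sq_nonneg S]
    have h5 : (0 : ℤ) ≤ C ^ 2 + S ^ 2 := by positivity
    rw [KK, ← h3]
    linarith
  · have h4 : |S ^ 2 + 250 * (C * S)| ≤ 126 * (C ^ 2 + S ^ 2) := by
      rw [abs_le]
      constructor
      · nlinarith [sq_nonneg (C + S), sq_nonneg C, sq_nonneg S]
      · nlinarith [sq_nonneg (C - S), sq_nonneg C, sq_nonneg S]
    have h5 : (0 : ℤ) ≤ C ^ 2 + S ^ 2 := by positivity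
    rw [KK, ← h3]
    linarith

/-- Proof: `det RR = det RI = 25`, `det (EE e) = 15625 ^ 2`. -/
theorem Lt_det (u : ℕ × Bool) : (Lt u).det = KK u.1 ^ 2 := by
  have hR : RR.det = 25 := by rw [RR, Matrix.det_fin_two_of]; norm_num
  have hI : RI.det = 25 := by rw [RI, Matrix.det_fin_two_of]; norm_num
  have hE : (EE u.2).det = 15625 ^ 2 := by
    cases u.2
    · simp only [EE, Bool.false_eq_true, if_false]
      rw [Matrix.det_fin_two_of]
      norm_num
    · simp only [EE, if_true]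
      rw [Matrix.det_fin_two_of]
      norm_num
  rw [Lt, Matrix.det_mul, Matrix.det_mul, Matrix.det_pow, Matrix.det_pow, hR, hI, hE, KK]
  ring

/-- Proof: `RI * RR = 25`, `EE false * EE true = 15625 ^ 2`. -/
theorem Lt_mul (i : ℕ) :
    Lt (i, false) * Lt (i, true) = (KK i ^ 2) • (1 : Matrix (Fin 2) (Fin 2) ℤ) := by
  have h1 : Lt (i, false) * Lt (i, true) =
      RR ^ i * (EE false * (RI ^ i * RR ^ i) * EE true) * RI ^ i := by
    simp only [Lt, Matrix.mul_assoc]
  rw [h1, PRot_pow_mul PRot_RI_RR, Matrix.mul_smul, Matrix.mul_one, Matrix.smul_mul, PRot_EE,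
    smul_smul, Matrix.mul_smul, Matrix.mul_one, Matrix.smul_mul, PRot_pow_mul PRot_RR_RI,
    smul_smul, KK]
  congr 1
  ring

end Pool.Agent.MP_46876e_al_PP
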