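import Pool.Agent.Lib.MP_46876e_al_PP.PDefs
import Pool.Agent.Lib.MP_46876e_al_PP.PRot

/-!
# MP_46876e_al, project PP, module PMod: reduced words are not scalar matrices
-/

set_option autoImplicit false

noncomputable section

namespace Pool.Agent.MP_46876e_al_PP

open MeasureTheory MulOpposite Filter Topology Pool.Agent.Forest46876e
open scoped ENNReal

/-- `A (j - i)`: the power of `RR` or `RI` left over in `RI ^ i * RR ^ j`. -/
private def PMod_B (i j : ℕ) : Matrix (Fin 2) (Fin 2) ℤ :=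
  if i ≤ j then RR ^ (j - i) else RI ^ (i - j)

/-- The middle part of the product of a word. -/
private def PMod_P : ℕ × Bool → List (ℕ × Bool) → Matrix (Fin 2) (Fin 2) ℤ
  | u, [] => EE u.2
  | u, v :: L => EE u.2 * PMod_B u.1 v.1 * PMod_P v L

/-- The last letter. -/
private def PMod_l : ℕ × Bool → List (ℕ × Bool) → ℕ × Bool
  | u, [] => u
  | _, v :: L => PMod_l v L

private def PMod_s (e : Bool) : Fin 2 := if e then 0 else 1

/-- Reduction modulo 5. -/
private def PMod_f : Matrix (Fin 2) (Fin 2) ℤ →+* Matrix (Fin 2) (Fin 2) (ZMod 5) :=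
  (Int.castRingHom (ZMod 5)).mapMatrix

private theorem PMod_RIRR : RI * RR = (25 : ℤ) • (1 : Matrix (Fin 2) (Fin 2) ℤ) := by
  unfold RI RR
  ext a b
  fin_cases a <;> fin_cases b <;> simp [Matrix.mul_apply, Fin.sum_univ_two]

private theorem PMod_RRRI : RR * RI = (25 : ℤ) • (1 : Matrix (Fin 2) (Fin 2) ℤ) := by
  unfold RI RR
  ext a b
  fin_cases a <;> fin_cases b <;> simp [Matrix.mul_apply, Fin.sum_univ_two]

private theorem PMod_comm : Commute RI RR := by
  rw [Commute, SemiconjBy, PMod_RIRR, PMod_RRRI]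

private theorem PMod_pow (i : ℕ) :
    RI ^ i * RR ^ i = (25 ^ i : ℤ) • (1 : Matrix (Fin 2) (Fin 2) ℤ) := by
  rw [← PMod_comm.mul_pow, PMod_RIRR, smul_pow, one_pow]

private theorem PMod_mulB (i j : ℕ) :
    RI ^ i * RR ^ j = (25 ^ (min i j) : ℤ) • PMod_B i j := by
  unfold PMod_B
  split_ifs with h
  · obtain ⟨c, rfl⟩ := Nat.exists_eq_add_of_le h
    rw [Nat.add_sub_cancel_left, pow_add, ← mul_assoc, PMod_pow, min_eq_left h, smul_mul_assoc,
      one_mul]
  · obtain ⟨c, rfl⟩ := Nat.exists_eq_add_of_le (not_le.1 h).le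
    rw [Nat.add_sub_cancel_left, min_eq_right (Nat.le_add_right j c), add_comm j c, pow_add,
      mul_assoc, PMod_pow, mul_smul_comm, mul_one]

private theorem PMod_EE (e : Bool) :
    PMod_f (EE e) = Matrix.single (PMod_s e) (PMod_s e) 1 := by
  cases e <;> unfold PMod_f EE PMod_s <;> ext a b <;> fin_cases a <;> fin_cases b <;> decide

private theorem PMod_RR (k : ℕ) : PMod_f RR ^ (k + 1) = !![3, 1; 4, 3] := by
  have h0 : PMod_f RR = !![3, 1; 4, 3] := by
    unfold PMod_f RR
    ext a b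
    fin_cases a <;> fin_cases b <;> decide
  induction k with
  | zero => rw [zero_add, pow_one, h0]
  | succ k ih => rw [pow_succ, ih, h0]; decide

private theorem PMod_RI (k : ℕ) : PMod_f RI ^ (k + 1) = !![3, 4; 1, 3] := by
  have h0 : PMod_f RI = !![3, 4; 1, 3] := by
    unfold PMod_f RI
    ext a b
    fin_cases a <;> fin_cases b <;> decide
  induction k with
  | zero => rw [zero_add, pow_one, h0]
  | succ k ih => rw [pow_succ, ih, h0]; decide

private theorem PMod_Bne {i j : ℕ} (h : i ≠ j) (a b : Fin 2) : PMod_f (PMod_B i j) a b ≠ 0 := by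
  unfold PMod_B
  split_ifs with h1
  · obtain ⟨c, hc⟩ : ∃ c, j - i = c + 1 := ⟨j - i - 1, by omega⟩
    rw [hc, map_pow, PMod_RR]
    fin_cases a <;> fin_cases b <;> decide
  · obtain ⟨c, hc⟩ : ∃ c, i - j = c + 1 := ⟨i - j - 1, by omega⟩
    rw [hc, map_pow, PMod_RI]
    fin_cases a <;> fin_cases b <;> decide

private theorem PMod_Beq (i : ℕ) : PMod_B i i = 1 := by
  unfold PMod_B
  rw [if_pos le_rfl, Nat.sub_self, pow_zero]

private theorem PMod_main (u : ℕ × Bool) (L : List (ℕ × Bool)) (h : Red (u :: L)) :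
    ∃ c : ZMod 5, c ≠ 0 ∧
      PMod_f (PMod_P u L) = Matrix.single (PMod_s u.2) (PMod_s (PMod_l u L).2) c := by
  induction L generalizing u with
  | nil => exact ⟨1, by decide, PMod_EE u.2⟩
  | cons v L ih =>
    unfold Red at h
    rw [List.isChain_cons_cons] at h
    have hp : Fact (Nat.Prime 5) := ⟨by norm_num⟩
    obtain ⟨c, hc, e⟩ := ih v h.2
    refine ⟨PMod_f (PMod_B u.1 v.1) (PMod_s u.2) (PMod_s v.2) * c, mul_ne_zero ?_ hc, ?_⟩
    · by_cases h1 : u.1 = v.1
      · have h2 : u.2 = v.2 := by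
          by_contra h2
          exact h.1 ⟨h1, h2⟩
        rw [h1, h2, PMod_Beq, map_one, Matrix.one_apply_eq]
        exact one_ne_zero
      · exact PMod_Bne h1 _ _
    · rw [PMod_P, map_mul, map_mul, e, PMod_EE, Matrix.single_mul_mul_single, one_mul]
      rfl

private theorem PMod_prod (u : ℕ × Bool) (L : List (ℕ × Bool)) :
    ∃ r : ℤ, r ≠ 0 ∧ ((u :: L).map Lt).prod =
      r • (RR ^ u.1 * PMod_P u L * RI ^ (PMod_l u L).1) := by
  induction L generalizing u with
  | nil => exact ⟨1, one_ne_zero, by simp [Lt, PMod_P, PMod_l]⟩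
  | cons v L ih =>
    obtain ⟨r, hr, e⟩ := ih v
    refine ⟨r * 25 ^ (min u.1 v.1), mul_ne_zero hr (pow_ne_zero _ (by norm_num)), ?_⟩
    rw [List.map_cons, List.prod_cons, e, Lt, PMod_P]
    change _ = (r * 25 ^ (min u.1 v.1)) •
      (RR ^ u.1 * (EE u.2 * PMod_B u.1 v.1 * PMod_P v L) * RI ^ (PMod_l v L).1)
    have h1 : RR ^ u.1 * EE u.2 * RI ^ u.1 * (r • (RR ^ v.1 * PMod_P v L * RI ^ (PMod_l v L).1)) =
        r • (RR ^ u.1 * EE u.2 * (RI ^ u.1 * RR ^ v.1) * PMod_P v L * RI ^ (PMod_l v L).1) := by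
      rw [mul_smul_comm]
      simp only [mul_assoc]
    rw [h1, PMod_mulB, mul_smul_comm, smul_mul_assoc, smul_mul_assoc, smul_smul]
    simp only [mul_assoc]

private theorem PMod_cast (M : Matrix (Fin 2) (Fin 2) ℤ) (a b : Fin 2) :
    PMod_f M a b = ((M a b : ℤ) : ZMod 5) := rfl

/-- Proof (all matrices integer). For `k : ℤ` let `A k = RR ^ k` for `k ≥ 0` and `RI ^ (-k)` for
`k ≤ 0`, so `RI ^ i * RR ^ j = 25 ^ (min i j) • A (j - i)`. For a nonempty word
`L = (i₁,e₁) ... (iₙ,eₙ)` let `P L = EE e₁ * A (i₂ - i₁) * EE e₂ * ... * EE eₙ`. By induction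
`(L.map Lt).prod = r • RR ^ i₁ * P L * RI ^ iₙ` with `r > 0` (a power of `25`).
Modulo 5 (`ZMod 5`, `decide`): `RR ^ k = RR = !![3, 1; 4, 3]` and `RI ^ k = RI = !![3, 4; 1, 3]` for
`k ≥ 1` (idempotent, all entries nonzero), `EE true = !![1, 0; 0, 0]`, `EE false = !![0, 0; 0, 1]`.
So
modulo 5 `P L` is a nonzero multiple of the matrix unit `E_(s(e₁), s(eₙ))`, `s true = 0`,
`s false = 1`: consecutive letters contribute the entry `A(i' - i)_(s(e), s(e'))`, nonzero if
`i ≠ i'`, and `1` if `i = i'`, because then `e = e'` (`Red`).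
If `(L.map Lt).prod = m • 1`, multiply by `RI ^ i₁` on the left and `RR ^ iₙ` on the right:
`r * 25 ^ (i₁ + iₙ) • P L = m • RI ^ i₁ * RR ^ iₙ = m * 25 ^ min • A (iₙ - i₁)`, and with
`A k * A (-k) = 25 ^ |k|`: a nonzero multiple of `P L * A (i₁ - iₙ)` is a scalar matrix, so
`P L * A (i₁ - iₙ) = m' • 1` with `m' : ℤ`. Modulo 5 the left side is not zero (a nonzero row of
`A`), but its determinant is zero, so `m' ^ 2 = 0` in `ZMod 5`, `m' = 0`, contradiction. -/
theorem Lt_prod_ne (L : List (ℕ × Bool)) (hL : L ≠ []) (hr : Red L) (m : ℤ) :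
    (L.map Lt).prod ≠ m • (1 : Matrix (Fin 2) (Fin 2) ℤ) := by
  intro H
  obtain ⟨u, L, rfl⟩ := List.exists_cons_of_ne_nil hL
  obtain ⟨r, hr0, e⟩ := PMod_prod u L
  obtain ⟨c, hc, e2⟩ := PMod_main u L hr
  rw [H] at e
  set i := u.1
  set j := (PMod_l u L).1
  set P := PMod_P u L
  set α : ℤ := r * 25 ^ i * 25 ^ j with hα
  set β : ℤ := m * 25 ^ (min i j) with hβ
  have hα0 : α ≠ 0 := mul_ne_zero (mul_ne_zero hr0 (pow_ne_zero _ (by norm_num)))
    (pow_ne_zero _ (by norm_num))
  have key : α • P = β • PMod_B i j := by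
    have h1 : RI ^ i * (m • (1 : Matrix (Fin 2) (Fin 2) ℤ)) * RR ^ j = β • PMod_B i j := by
      rw [mul_smul_comm, mul_one, smul_mul_assoc, PMod_mulB, smul_smul]
    have h2 : RI ^ i * (r • (RR ^ i * P * RI ^ j)) * RR ^ j = α • P := by
      have h3 : RI ^ i * (r • (RR ^ i * P * RI ^ j)) * RR ^ j =
          r • ((RI ^ i * RR ^ i) * P * (RI ^ j * RR ^ j)) := by
        rw [mul_smul_comm, smul_mul_assoc]
        simp only [mul_assoc]
      rw [h3, PMod_pow, PMod_pow, smul_mul_assoc, one_mul, mul_smul_comm, mul_one, smul_smul,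
        smul_smul, hα]
      congr 1
      ring
    rw [← h2, ← h1, e]
  have hent : ∀ a b, α * P a b = β * PMod_B i j a b := by
    intro a b
    have := congrFun (congrFun key a) b
    simpa using this
  set s := PMod_s u.2
  set t := PMod_s (PMod_l u L).2
  have hPst : ((P s t : ℤ) : ZMod 5) ≠ 0 := by
    rw [← PMod_cast, e2, Matrix.single_apply_same]
    exact hc
  have hPst0 : P s t ≠ 0 := fun h0 => hPst (by rw [h0, Int.cast_zero])
  have hβ0 : β ≠ 0 := by
    intro h0
    have := hent s t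
    rw [h0, zero_mul] at this
    exact (mul_ne_zero hα0 hPst0) this
  -- a second entry of `B` not divisible by 5
  obtain ⟨a, b, hab, hB⟩ : ∃ a b : Fin 2, (a, b) ≠ (s, t) ∧
      ((PMod_B i j a b : ℤ) : ZMod 5) ≠ 0 := by
    by_cases hij : i = j
    · have hB1 : PMod_B i j = 1 := by rw [hij, PMod_Beq]
      have h01 : ∀ x : Fin 2, ((PMod_B i j x x : ℤ) : ZMod 5) ≠ 0 := by
        intro x
        rw [hB1, Matrix.one_apply_eq, Int.cast_one]
        decide
      by_cases hs : s = 0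
      · refine ⟨1, 1, ?_, h01 1⟩
        intro h1
        have := (Prod.mk.inj h1).1
        rw [hs] at this
        exact absurd this (by decide)
      · refine ⟨0, 0, ?_, h01 0⟩
        intro h1
        exact hs (Prod.mk.inj h1).1.symm
    · refine ⟨s + 1, t, ?_, ?_⟩
      · intro h1
        have h2 := (Prod.mk.inj h1).1
        revert h2
        generalize s = s'
        revert s'
        decide
      · rw [← PMod_cast]
        exact PMod_Bne hij _ _
  have hPab : ((P a b : ℤ) : ZMod 5) = 0 := by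
    rw [← PMod_cast, e2]
    rw [Matrix.single_apply, if_neg]
    rintro ⟨h1, h2⟩
    exact hab (by rw [h1, h2])
  have h1 := hent a b
  have h2 := hent s t
  have h3 : P a b * PMod_B i j s t = P s t * PMod_B i j a b := by
    have : α * β * (P a b * PMod_B i j s t) = α * β * (P s t * PMod_B i j a b) := by
      linear_combination (β * PMod_B i j s t) * h1 - (β * PMod_B i j a b) * h2
    exact mul_left_cancel₀ (mul_ne_zero hα0 hβ0) this
  have h4 := congrArg (Int.cast : ℤ → ZMod 5) h3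
  rw [Int.cast_mul, Int.cast_mul, hPab, zero_mul] at h4
  have : Fact (Nat.Prime 5) := ⟨by norm_num⟩
  exact mul_ne_zero hPst hB h4.symm

end Pool.Agent.MP_46876e_al_PP
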