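import Pool.Agent.Lib.MP_46876e_al_PP.PDefs
import Pool.Agent.Lib.MP_46876e_al_PP.PRot
import Pool.Agent.Lib.MP_46876e_al_PP.PMod

/-!
# MP_46876e_al, project PP, module PRun: runs and matrices
-/

set_option autoImplicit false

noncomputable section

namespace Pool.Agent.MP_46876e_al_PP

open MeasureTheory MulOpposite Filter Topology Pool.Agent.Forest46876e
open scoped ENNReal

/-- One letter. -/
private theorem PRun_den (i : ℕ) {b : ℝ} (hb : b ∈ Set.Icc (0 : ℝ) 1) :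
    0 < (Lt (i, true) 1 0 : ℝ) * b + (Lt (i, true) 1 1 : ℝ) := by
  obtain ⟨x, y, w, h, hx, hy, hw⟩ := Lt_true i
  have hK : (0 : ℤ) < KK i := by
    unfold KK
    positivity
  have hK' : (0 : ℝ) < (KK i : ℝ) := by exact_mod_cast hK
  have hy' : 100 * |(y : ℝ)| ≤ (KK i : ℝ) := by exact_mod_cast hy
  have hw' : 100 * |(w : ℝ)| ≤ (KK i : ℝ) := by exact_mod_cast hw
  have e1 : Lt (i, true) 1 0 = y := by rw [h]; rfl
  have e2 : Lt (i, true) 1 1 = KK i + w := by rw [h]; rfl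
  rw [e1, e2]
  push_cast
  have h1 : -|(y : ℝ)| ≤ (y : ℝ) * b := by
    have h2 : |(y : ℝ) * b| ≤ |(y : ℝ)| := by
      rw [abs_mul, abs_of_nonneg hb.1]
      exact mul_le_of_le_one_right (abs_nonneg _) hb.2
    linarith [neg_abs_le ((y : ℝ) * b)]
  have h3 := neg_abs_le (w : ℝ)
  linarith

private theorem PRun_step (u : ℕ × Bool) (a b : ℝ) (h : Stp u b a) :
    ∃ l : ℝ, l ≠ 0 ∧ (Lt u 0 0 : ℝ) * b + (Lt u 0 1 : ℝ) = l * a ∧
      (Lt u 1 0 : ℝ) * b + (Lt u 1 1 : ℝ) = l := by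
  obtain ⟨i, e⟩ := u
  cases e
  · -- `b = b_i a`
    have h' : a ∈ Set.Icc (0 : ℝ) 1 ∧ b = mob (Lt (i, true)) a := h
    obtain ⟨ha, hb⟩ := h'
    have hD := PRun_den i ha
    set D : ℝ := (Lt (i, true) 1 0 : ℝ) * a + (Lt (i, true) 1 1 : ℝ) with hDdef
    have hK : (0 : ℤ) < KK i := by
      unfold KK
      positivity
    have hK' : (0 : ℝ) < (KK i : ℝ) := by exact_mod_cast hK
    have hbD : b * D = (Lt (i, true) 0 0 : ℝ) * a + (Lt (i, true) 0 1 : ℝ) := by
      rw [hb, mob, div_mul_cancel₀ _ hD.ne']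
    have hM := Lt_mul i
    have m00 := congrFun (congrFun hM 0) 0
    have m01 := congrFun (congrFun hM 0) 1
    have m10 := congrFun (congrFun hM 1) 0
    have m11 := congrFun (congrFun hM 1) 1
    rw [Matrix.mul_apply, Fin.sum_univ_two, Matrix.smul_apply] at m00 m01 m10 m11
    rw [Matrix.one_apply_eq] at m00 m11
    rw [Matrix.one_apply_ne (by decide)] at m01 m10
    have r00 : (Lt (i, false) 0 0 : ℝ) * (Lt (i, true) 0 0 : ℝ) +
        (Lt (i, false) 0 1 : ℝ) * (Lt (i, true) 1 0 : ℝ) = (KK i : ℝ) ^ 2 := by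
      have := congrArg (Int.cast : ℤ → ℝ) m00
      simpa using this
    have r01 : (Lt (i, false) 0 0 : ℝ) * (Lt (i, true) 0 1 : ℝ) +
        (Lt (i, false) 0 1 : ℝ) * (Lt (i, true) 1 1 : ℝ) = 0 := by
      have := congrArg (Int.cast : ℤ → ℝ) m01
      simpa using this
    have r10 : (Lt (i, false) 1 0 : ℝ) * (Lt (i, true) 0 0 : ℝ) +
        (Lt (i, false) 1 1 : ℝ) * (Lt (i, true) 1 0 : ℝ) = 0 := by
      have := congrArg (Int.cast : ℤ → ℝ) m10
      simpa using this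
    have r11 : (Lt (i, false) 1 0 : ℝ) * (Lt (i, true) 0 1 : ℝ) +
        (Lt (i, false) 1 1 : ℝ) * (Lt (i, true) 1 1 : ℝ) = (KK i : ℝ) ^ 2 := by
      have := congrArg (Int.cast : ℤ → ℝ) m11
      simpa using this
    refine ⟨(KK i : ℝ) ^ 2 / D, by positivity, ?_, ?_⟩
    · rw [div_mul_eq_mul_div, eq_div_iff hD.ne']
      have e1 : ((Lt (i, false) 0 0 : ℝ) * b + (Lt (i, false) 0 1 : ℝ)) * D =
          (Lt (i, false) 0 0 : ℝ) * (b * D) + (Lt (i, false) 0 1 : ℝ) * D := by ring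
      rw [e1, hbD, hDdef]
      linear_combination a * r00 + r01
    · rw [eq_div_iff hD.ne']
      have e1 : ((Lt (i, false) 1 0 : ℝ) * b + (Lt (i, false) 1 1 : ℝ)) * D =
          (Lt (i, false) 1 0 : ℝ) * (b * D) + (Lt (i, false) 1 1 : ℝ) * D := by ring
      rw [e1, hbD, hDdef]
      linear_combination a * r10 + r11
  · have h' : b ∈ Set.Icc (0 : ℝ) 1 ∧ a = mob (Lt (i, true)) b := h
    obtain ⟨hb, ha⟩ := h'
    have hD := PRun_den i hb
    refine ⟨_, hD.ne', ?_, rfl⟩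
    rw [ha, mob, mul_div_cancel₀ _ hD.ne']

/-- Proof: induction on `L`. One letter: if `q' = mob (Lt (i, true)) q`, `q ∈ [0,1]`, the
denominator
`l = M 1 0 * q + M 1 1` is positive (`Lt_true`), and `M (q, 1) = l (q', 1)`; for a letter
`(i, false)`: `q = mob (Lt (i, true)) q'` with `q' ∈ [0,1]`, so `Lt (i, true) (q', 1) = l (q, 1)`,
and
multiplying with `Lt (i, false)` (`Lt_mul`) `KK i ^ 2 (q', 1) = l Lt (i, false) (q, 1)`.
Note the order: `Run (u :: L) x y` means `Stp u (q x₁) (q x)` and `Run L x₁ y`. -/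
theorem run_vec {X : Type*} (q : X → ℝ) (L : List (ℕ × Bool)) (x y : X)
    (h : Run (fun u x x₁ => Stp u (q x₁) (q x)) L x y) :
    ∃ l : ℝ, l ≠ 0 ∧
      ((L.map Lt).prod 0 0 : ℝ) * q y + ((L.map Lt).prod 0 1 : ℝ) = l * q x ∧
      ((L.map Lt).prod 1 0 : ℝ) * q y + ((L.map Lt).prod 1 1 : ℝ) = l := by
  induction L generalizing x with
  | nil =>
    have hxy : x = y := h
    refine ⟨1, one_ne_zero, ?_, ?_⟩
    · simp [hxy]
    · simp
  | cons u L ih =>
    obtain ⟨x₁, h1, h2⟩ := h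
    obtain ⟨l₁, hl₁, e1, e2⟩ := ih x₁ h2
    obtain ⟨l, hl, f1, f2⟩ := PRun_step u (q x) (q x₁) h1
    refine ⟨l₁ * l, mul_ne_zero hl₁ hl, ?_, ?_⟩
    · rw [List.map_cons, List.prod_cons, Matrix.mul_apply, Matrix.mul_apply, Fin.sum_univ_two,
        Fin.sum_univ_two]
      push_cast
      linear_combination (Lt u 0 0 : ℝ) * e1 + (Lt u 0 1 : ℝ) * e2 + l₁ * f1
    · rw [List.map_cons, List.prod_cons, Matrix.mul_apply, Matrix.mul_apply, Fin.sum_univ_two,
        Fin.sum_univ_two]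
      push_cast
      linear_combination (Lt u 1 0 : ℝ) * e1 + (Lt u 1 1 : ℝ) * e2 + l₁ * f2

/-- Proof: `run_vec` with `y = x`: with `M = (L.map Lt).prod`,
`M 1 0 * q² + (M 1 1 - M 0 0) * q - M 0 1 = 0`, and not all coefficients are `0` by `Lt_prod_ne`
(`m = M 0 0`). So `q x` is a root of a nonzero polynomial of degree at most two. -/
theorem run_algebraic {X : Type*} (q : X → ℝ) (L : List (ℕ × Bool)) (hL : L ≠ []) (hr : Red L)
    (x : X) (h : Run (fun u x x₁ => Stp u (q x₁) (q x)) L x x) : IsAlgebraic ℚ (q x) := by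
  obtain ⟨l, _, e1, e2⟩ := run_vec q L x x h
  have hne := Lt_prod_ne L hL hr
  set M := (L.map Lt).prod with hM
  refine ⟨Polynomial.C ((M 1 0 : ℤ) : ℚ) * Polynomial.X ^ 2 +
    Polynomial.C ((M 1 1 - M 0 0 : ℤ) : ℚ) * Polynomial.X + Polynomial.C ((-M 0 1 : ℤ) : ℚ),
    ?_, ?_⟩
  · intro h0
    have c2 := congrArg (fun P => Polynomial.coeff P 2) h0
    have c1 := congrArg (fun P => Polynomial.coeff P 1) h0
    have c0 := congrArg (fun P => Polynomial.coeff P 0) h0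
    simp only [Polynomial.coeff_add, Polynomial.coeff_C_mul, Polynomial.coeff_X_pow,
      Polynomial.coeff_X, Polynomial.coeff_C, Polynomial.coeff_zero] at c2 c1 c0
    norm_num at c2 c1 c0
    have d1 : M 1 1 - M 0 0 = 0 := by exact_mod_cast c1
    apply hne (M 0 0)
    ext a b
    fin_cases a <;> fin_cases b
    · simp
    · simpa using c0
    · simpa using c2
    · simp only [Matrix.smul_apply, smul_eq_mul]
      simp
      linarith
  · simp only [map_add, map_mul, map_pow, Polynomial.aeval_C, Polynomial.aeval_X]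
    simp only [eq_ratCast, Rat.cast_intCast]
    push_cast
    linear_combination (-1 : ℝ) * e1 + (q x) * e2

end Pool.Agent.MP_46876e_al_PP
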