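import Pool.Agent.Lib.MP_46876e_al_PP.PDefs

/-!
# MP_46876e_al, project PP, module PTrail: trails give reduced words
-/

set_option autoImplicit false

noncomputable section

namespace Pool.Agent.MP_46876e_al_PP

open MeasureTheory MulOpposite Filter Topology Pool.Agent.Forest46876e
open scoped ENNReal

/-- Proof: induction on the walk (`Walk.cons h p`). Use `R' u x y := y = (...) ∧ R u x y` in the
induction so that the group relation of the first letter is remembered. If the new letter `u` and
the first letter `v` of the word of `p` have `u.1 = v.1`, `u.2 ≠ v.2`, then the second vertex of `p`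
is `x` again, so the first edge of `p` is `s(x, x₁)`, the edge of `h`; this contradicts the trail
property of `cons h p` (`Walk.cons_isTrail_iff`). -/
theorem trail_run {G : Type*} [Group G] (h : ℕ → G) (Γ : SimpleGraph G)
    (R : ℕ × Bool → G → G → Prop)
    (hR : ∀ x y, Γ.Adj x y → ∃ u : ℕ × Bool,
      y = (if u.2 then x * (h u.1)⁻¹ else x * h u.1) ∧ R u x y)
    {x y : G} (p : Γ.Walk x y) (hp : p.IsTrail) :
    ∃ L : List (ℕ × Bool), L.length = p.length ∧ Red L ∧ Run R L x y := by
  suffices H : ∃ L : List (ℕ × Bool), L.length = p.length ∧ Red L ∧ Run R L x y ∧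
      ∀ v L', L = v :: L' → s(x, if v.2 then x * (h v.1)⁻¹ else x * h v.1) ∈ p.edges by
    obtain ⟨L, h1, h2, h3, -⟩ := H
    exact ⟨L, h1, h2, h3⟩
  induction p with
  | nil => exact ⟨[], rfl, List.IsChain.nil, rfl, fun v L' h => by simp at h⟩
  | @cons x x₁ y hadj p ih =>
    rw [SimpleGraph.Walk.isTrail_cons] at hp
    obtain ⟨L, h1, h2, h3, h4⟩ := ih hp.1
    obtain ⟨u, hu1, hu2⟩ := hR x x₁ hadj
    refine ⟨u :: L, by simp [h1], ?_, ⟨x₁, hu2, h3⟩, ?_⟩
    · cases L with
      | nil => exact List.IsChain.singleton _
      | cons v L' =>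
        refine List.isChain_cons_cons.2 ⟨?_, h2⟩
        rintro ⟨huv1, huv2⟩
        have h5 := h4 v L' rfl
        apply hp.2
        have h6 : (if v.2 then x₁ * (h v.1)⁻¹ else x₁ * h v.1) = x := by
          rw [← huv1, hu1]
          cases hb : u.2 <;> cases hc : v.2
          · rw [hb, hc] at huv2
            exact absurd rfl huv2
          · simp
          · simp
          · rw [hb, hc] at huv2
            exact absurd rfl huv2
        rw [h6, Sym2.eq_swap] at h5
        exact h5
    · intro v L' hv
      obtain ⟨rfl, rfl⟩ := List.cons.inj hv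
      rw [SimpleGraph.Walk.edges_cons, ← hu1]
      exact List.mem_cons_self

end Pool.Agent.MP_46876e_al_PP
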