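import Pool.Agent.Lib.MP_46876e_al_PP.PDefs
import Pool.Agent.Lib.MP_46876e_al_PP.PRun
import Pool.Agent.Lib.MP_46876e_al_PP.PTrail

/-!
# MP_46876e_al, project PP, module PAcyc: acyclic orbit graphs on the plane
-/

set_option autoImplicit false

noncomputable section

namespace Pool.Agent.MP_46876e_al_PP

open MeasureTheory MulOpposite Filter Topology Pool.Agent.Forest46876e
open scoped ENNReal

/-- Proof: `q x = x⁻¹ z.1`. `op x • z` has first coordinate `q x` (`pl_smul`). If `{x, y}` is an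
edge
of `orbGraph A z` then either `op x • z ∈ A (h i)`, `y = x * h i`, `q x ∈ [0,1]`,
`q y = (h i)⁻¹ (q x) = mob (Lt (i, true)) (q x)`: letter `(i, false)`,
`Stp (i, false) (q y) (q x)`; or
`op y • z ∈ A (h i)`, `x = y * h i`, `q y ∈ [0,1]`, `q x = mob (Lt (i, true)) (q y)`: letter
`(i, true)`. A cycle at `x` is a nonempty closed trail, so `trail_run` and `run_algebraic`
show that `q x` is algebraic: contradiction. -/
theorem orbGraph_acyclic (G : Subgroup (ℝ ≃o ℝ)) (h : ℕ → G)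
    (hh : ∀ i, ∀ x ∈ Set.Icc (0 : ℝ) 1, (((h i)⁻¹ : G) : ℝ ≃o ℝ) x = mob (Lt (i, true)) x)
    (A : G → Set (Pl G))
    (hA : ∀ g, ∀ z ∈ A g, (∃ i, g = h i) ∧ z.1 ∈ Set.Icc (0 : ℝ) 1)
    (z : Pl G) (hz : ∀ x : G, ¬ IsAlgebraic ℚ (((x⁻¹ : G) : ℝ ≃o ℝ) z.1)) :
    (orbGraph A z).IsAcyclic := by
  intro v c hc
  have hfst : ∀ x : G, (op x • z).1 = ((x⁻¹ : G) : ℝ ≃o ℝ) z.1 := fun x => by rw [pl_smul]
  have hmul : ∀ x g : G, (((x * g)⁻¹ : G) : ℝ ≃o ℝ) z.1 =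
      ((g⁻¹ : G) : ℝ ≃o ℝ) (((x⁻¹ : G) : ℝ ≃o ℝ) z.1) := by
    intro x g
    rw [mul_inv_rev]
    rfl
  obtain ⟨L, hlen, hred, hrun⟩ := trail_run h (orbGraph A z)
    (fun u x x₁ => Stp u (((x₁⁻¹ : G) : ℝ ≃o ℝ) z.1) (((x⁻¹ : G) : ℝ ≃o ℝ) z.1)) (by
      intro x y hxy
      unfold orbGraph at hxy
      rw [SimpleGraph.fromRel_adj] at hxy
      obtain ⟨-, ⟨g, hg, hy⟩ | ⟨g, hg, hx⟩⟩ := hxy
      · obtain ⟨⟨i, hi⟩, hI⟩ := hA g _ hg
        rw [hfst] at hI
        refine ⟨(i, false), ?_, ?_⟩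
        · simp [hy, hi]
        · unfold Stp
          rw [if_neg (by simp)]
          refine ⟨hI, ?_⟩
          rw [hy, hmul, hi]
          exact hh i _ hI
      · obtain ⟨⟨i, hi⟩, hI⟩ := hA g _ hg
        rw [hfst] at hI
        refine ⟨(i, true), ?_, ?_⟩
        · simp [hx, hi]
        · unfold Stp
          rw [if_pos rfl]
          refine ⟨hI, ?_⟩
          rw [hx, hmul, hi]
          exact hh i _ hI) c hc.isTrail
  refine hz v (run_algebraic (fun x : G => ((x⁻¹ : G) : ℝ ≃o ℝ) z.1) L ?_ hred v hrun)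
  intro h0
  rw [h0] at hlen
  have h3 := hc.three_le_length
  simp only [List.length_nil] at hlen
  omega

/-- Proof: `Algebraic.countable` gives countably many algebraic reals; the set of bad first
coordinates is the union over `x : G` of their images under `x`, countable; a set of the plane with
countable projection is null (`Measure.prod`, or `Set.Countable.measure_zero` and
`Measure.measure_prod_null`). -/
theorem ae_not_algebraic (G : Subgroup (ℝ ≃o ℝ)) [Countable G] :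
    ∀ᵐ z ∂(plVol G), ∀ x : G, ¬ IsAlgebraic ℚ (((x⁻¹ : G) : ℝ ≃o ℝ) z.1) := by
  have hS : {p : ℝ | ∃ x : G, IsAlgebraic ℚ (((x⁻¹ : G) : ℝ ≃o ℝ) p)}.Countable := by
    have e : {p : ℝ | ∃ x : G, IsAlgebraic ℚ (((x⁻¹ : G) : ℝ ≃o ℝ) p)} =
        ⋃ x : G, (((x⁻¹ : G) : ℝ ≃o ℝ) : ℝ → ℝ) ⁻¹' {a | IsAlgebraic ℚ a} := by
      ext p
      simp
    rw [e]
    exact Set.countable_iUnion fun x =>
      (Algebraic.countable ℚ ℝ).preimage (OrderIso.injective _)
  have h0 : (volume : Measure (ℝ × ℝ))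
      ({p : ℝ | ∃ x : G, IsAlgebraic ℚ (((x⁻¹ : G) : ℝ ≃o ℝ) p)} ×ˢ Set.univ) = 0 := by
    rw [Measure.volume_eq_prod, Measure.prod_prod, hS.measure_zero, zero_mul]
  have h1 : (plVol G) {z : Pl G | ¬ ∀ x : G, ¬ IsAlgebraic ℚ (((x⁻¹ : G) : ℝ ≃o ℝ) z.1)} = 0 := by
    refine measure_mono_null ?_ h0
    intro z hz
    simp only [Set.mem_ofPred_eq, not_forall, not_not] at hz
    exact ⟨hz, Set.mem_univ _⟩
  exact h1

end Pool.Agent.MP_46876e_al_PP
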