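import Pool.Agent.Lib.MP_46876e_al_PP.PDefs

/-!
# MP_46876e_al, project PP, module PPlane: the action on the plane preserves Lebesgue measure
-/

set_option autoImplicit false

noncomputable section

namespace Pool.Agent.MP_46876e_al_PP

open MeasureTheory MulOpposite Filter Topology Pool.Agent.Forest46876e
open scoped ENNReal

theorem coc_pos (G : Subgroup (ℝ ≃o ℝ)) (g : ℝ ≃o ℝ) (hg : g ∈ G) (p : ℝ) :
    0 < coc G g p := by
  unfold coc
  split_ifs with hp
  · exact one_pos
  · by_contra H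
    exact hp ⟨g, hg, 1, G.one_mem, fun H' => H H'.2⟩

/-- Proof: `measurable_deriv`, and the bad set is countable. -/
theorem measurable_coc (G : Subgroup (ℝ ≃o ℝ)) (hG : (badPts G).Countable) (g : ℝ ≃o ℝ) :
    Measurable (coc G g) := by
  unfold coc
  exact Measurable.ite hG.measurableSet measurable_const (measurable_deriv _)

private theorem image_compl (G : Subgroup (ℝ ≃o ℝ)) {k : ℝ ≃o ℝ} (hk : k ∈ G) :
    k '' (badPts G)ᶜ = (badPts G)ᶜ := by
  ext q
  constructor
  · rintro ⟨p, hp, rfl⟩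
    exact fun h => hp ((mem_badPts_iff G hk p).1 h)
  · intro hq
    refine ⟨k.symm q, fun h => hq ?_, k.apply_symm_apply q⟩
    have := (mem_badPts_iff G hk (k.symm q)).2 h
    rwa [k.apply_symm_apply] at this

private theorem deriv_off (G : Subgroup (ℝ ≃o ℝ)) {k : ℝ ≃o ℝ} (hk : k ∈ G) {p : ℝ}
    (hp : p ∈ (badPts G)ᶜ) : HasDerivAt k (coc G k p) p := by
  have h1 : DifferentiableAt ℝ k p := by
    by_contra H
    exact hp ⟨k, hk, 1, G.one_mem, fun H' => H H'.1⟩
  have h2 : coc G k p = deriv k p := by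
    unfold coc
    exact if_neg hp
  rw [h2]
  exact h1.hasDerivAt

private theorem meas_map (G : Subgroup (ℝ ≃o ℝ)) (hG : (badPts G).Countable) (k : ℝ ≃o ℝ) :
    Measurable (fun z : ℝ × ℝ => (k z.1, z.2 / coc G k z.1)) :=
  (k.continuous.measurable.comp measurable_fst).prodMk
    (measurable_snd.div ((measurable_coc G hG k).comp measurable_fst))

private theorem prod_preserving (G : Subgroup (ℝ ≃o ℝ)) (hG : (badPts G).Countable)
    {k : ℝ ≃o ℝ} (hk : k ∈ G) :
    MeasurePreserving (fun z : ℝ × ℝ => (k z.1, z.2 / coc G k z.1))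
      (volume : Measure (ℝ × ℝ)) volume := by
  refine ⟨meas_map G hG k, Measure.ext fun E hE => ?_⟩
  rw [Measure.map_apply (meas_map G hG k) hE, Measure.volume_eq_prod,
    Measure.prod_apply (meas_map G hG k hE), Measure.prod_apply hE]
  have h1 : ∀ p : ℝ, volume (Prod.mk p ⁻¹' ((fun z : ℝ × ℝ => (k z.1, z.2 / coc G k z.1)) ⁻¹' E))
      = ENNReal.ofReal |coc G k p| * volume (Prod.mk (k p) ⁻¹' E) := by
    intro p
    have hc : coc G k p ≠ 0 := (coc_pos G k hk p).ne'
    have h2 := Real.volume_preimage_mul_left (inv_ne_zero hc) (Prod.mk (k p) ⁻¹' E)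
    rw [inv_inv] at h2
    rw [← h2]
    congr 1
    ext t
    simp only [Set.mem_preimage]
    rw [div_eq_inv_mul]
  have hae : ∀ᵐ x ∂(volume : Measure ℝ), x ∈ (badPts G)ᶜ := hG.ae_notMem volume
  have hres : (volume : Measure ℝ).restrict (badPts G)ᶜ = volume :=
    Measure.restrict_eq_self_of_ae_mem hae
  have h3 := lintegral_image_eq_lintegral_abs_deriv_mul (f := k) (f' := coc G k)
    hG.measurableSet.compl (fun x hx => (deriv_off G hk hx).hasDerivWithinAt)
    k.injective.injOn (fun q => volume (Prod.mk q ⁻¹' E))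
  rw [image_compl G hk, hres] at h3
  rw [h3]
  exact lintegral_congr h1

/-- Proof: let `k = g⁻¹`, `T (p, t) = (k p, t / coc G k p)` (`pl_smul`). For measurable `E`:
`vol (T⁻¹ E) = ∫⁻ p, vol {t | (k p, t / coc G k p) ∈ E} = ∫⁻ p, ofReal (coc G k p) * F (k p)`, where
`F q = vol {t | (q, t) ∈ E}` (scaling of Lebesgue measure on `ℝ`:
`Real.volume_preimage_mul_left` or `Measure.addHaar_smul`). The integral over the null set
`badPts G` does not matter; off it `coc G k p = deriv k p > 0` and `k` has this derivative, so by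
`MeasureTheory.lintegral_image_eq_lintegral_abs_deriv_mul` with `s = (badPts G)ᶜ` the integral is
`∫⁻ q in k '' (badPts G)ᶜ, F q`, and `k '' (badPts G)ᶜ = (badPts G)ᶜ` (`mem_badPts_iff`), so it is
`∫⁻ q, F q = vol E` (`Measure.prod_apply`). -/
theorem pl_measurePreserving (G : Subgroup (ℝ ≃o ℝ)) (hG : (badPts G).Countable) (g : G) :
    MeasurePreserving (fun z : Pl G => op g • z) (plVol G) (plVol G) :=
  prod_preserving G hG (k := ((g⁻¹ : G) : ℝ ≃o ℝ)) (g⁻¹ : G).2

end Pool.Agent.MP_46876e_al_PP
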