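import Pool.Agent.Lib.MP_46876e_al_PP.PDefs
import Pool.Agent.Lib.MP_46876e_al_PP.PPlane

/-!
# MP_46876e_al, project PP, module PArea: the area of the edge sets
-/

set_option autoImplicit false

noncomputable section

namespace Pool.Agent.MP_46876e_al_PP

open MeasureTheory MulOpposite Filter Topology Pool.Agent.Forest46876e
open scoped ENNReal

/-- The unit square. -/
def sq (G : Subgroup (ℝ ≃o ℝ)) : Set (Pl G) :=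
  {z | z.1 ∈ Set.Icc (0 : ℝ) 1 ∧ z.2 ∈ Set.Icc (0 : ℝ) 1}

theorem measurableSet_sq (G : Subgroup (ℝ ≃o ℝ)) : MeasurableSet (sq G) :=
  (measurableSet_Icc.prod measurableSet_Icc :
    MeasurableSet (Set.Icc (0 : ℝ) 1 ×ˢ Set.Icc (0 : ℝ) 1))

theorem plVol_sq (G : Subgroup (ℝ ≃o ℝ)) : plVol G (sq G) = 1 := by
  change (volume : Measure (ℝ × ℝ)) (Set.Icc (0 : ℝ) 1 ×ˢ Set.Icc (0 : ℝ) 1) = 1
  rw [Measure.volume_eq_prod, Measure.prod_prod, Real.volume_Icc]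
  norm_num

/-- Proof: the set contains `{(p, t) | p ∈ (1/20, 19/20) minus badPts G, t ∈ [0, 19/20]}` of area
`(9/10) * (19/20)`: `k⁻¹ p ∈ [0,1]` as `|k⁻¹ p - p| ≤ 1/20`, `coc G k⁻¹ p = deriv k⁻¹ p ≥ 19/20`, so
`0 ≤ t / coc ≤ 1` (`pl_smul`). -/
theorem area_ge (G : Subgroup (ℝ ≃o ℝ)) (hG : (badPts G).Countable) (k : G)
    (h1 : ∀ x ∈ Set.Icc (0 : ℝ) 1, |((k⁻¹ : G) : ℝ ≃o ℝ) x - x| ≤ 1 / 20)
    (h2 : ∀ x ∈ Set.Ioo (0 : ℝ) 1, DifferentiableAt ℝ ((k⁻¹ : G) : ℝ ≃o ℝ) x ∧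
      19 / 20 ≤ deriv ((k⁻¹ : G) : ℝ ≃o ℝ) x) :
    1 / 2 ≤ plVol G {z | z ∈ sq G ∧ op k • z ∈ sq G} := by
  have hsub : ((Set.Ioo (1 / 20 : ℝ) (19 / 20) \ badPts G) ×ˢ Set.Icc (0 : ℝ) (19 / 20) :
      Set (ℝ × ℝ)) ⊆ ({z | z ∈ sq G ∧ op k • z ∈ sq G} : Set (Pl G)) := by
    rintro ⟨p, t⟩ ⟨⟨hp, hpb⟩, ht⟩
    have hp1 : (1 / 20 : ℝ) < p := hp.1
    have hp2 : p < (19 / 20 : ℝ) := hp.2
    have ht1 : (0 : ℝ) ≤ t := ht.1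
    have ht2 : t ≤ (19 / 20 : ℝ) := ht.2
    have hk := abs_le.1 (h1 p ⟨by linarith, by linarith⟩)
    have hd := (h2 p ⟨by linarith, by linarith⟩).2
    have hc : coc G ((k⁻¹ : G) : ℝ ≃o ℝ) p = deriv ((k⁻¹ : G) : ℝ ≃o ℝ) p := if_neg hpb
    refine ⟨⟨⟨by linarith, by linarith⟩, ⟨ht1, by linarith⟩⟩, ?_⟩
    rw [pl_smul]
    refine ⟨⟨?_, ?_⟩, ⟨?_, ?_⟩⟩
    · change (0 : ℝ) ≤ ((k⁻¹ : G) : ℝ ≃o ℝ) p
      linarith [hk.1]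
    · change ((k⁻¹ : G) : ℝ ≃o ℝ) p ≤ 1
      linarith [hk.2]
    · change (0 : ℝ) ≤ t / coc G ((k⁻¹ : G) : ℝ ≃o ℝ) p
      rw [hc]
      exact div_nonneg ht1 (by linarith)
    · change t / coc G ((k⁻¹ : G) : ℝ ≃o ℝ) p ≤ 1
      rw [hc, div_le_one (by linarith)]
      linarith
  have hvol : (volume : Measure (ℝ × ℝ)) ((Set.Ioo (1 / 20 : ℝ) (19 / 20) \ badPts G) ×ˢ
      Set.Icc (0 : ℝ) (19 / 20)) = ENNReal.ofReal (9 / 10) * ENNReal.ofReal (19 / 20) := by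
    rw [Measure.volume_eq_prod, Measure.prod_prod, measure_sdiff_null (hG.measure_zero _),
      Real.volume_Ioo, Real.volume_Icc]
    norm_num
  have hhalf : (1 / 2 : ℝ≥0∞) ≤ ENNReal.ofReal (9 / 10) * ENNReal.ofReal (19 / 20) := by
    rw [← ENNReal.ofReal_mul (by norm_num)]
    have : (1 / 2 : ℝ≥0∞) = ENNReal.ofReal (1 / 2) := by
      rw [ENNReal.ofReal_div_of_pos (by norm_num), ENNReal.ofReal_one, ENNReal.ofReal_ofNat]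
    rw [this]
    exact ENNReal.ofReal_le_ofReal (by norm_num)
  rw [← hvol] at hhalf
  exact hhalf.trans (measure_mono hsub)

end Pool.Agent.MP_46876e_al_PP
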