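import Pool.Agent.Lib.MP_46876e_al_PP.PDefs

/-!
# MP_46876e_al, project PP, module PDer: derivatives of piecewise projective maps
-/

set_option autoImplicit false

noncomputable section

namespace Pool.Agent.MP_46876e_al_PP

open MeasureTheory MulOpposite Filter Topology Pool.Agent.Forest46876e
open scoped ENNReal

/-- Proof: near `x` the map is `(a y + b) / (c y + d)`, with derivative `1 / (c x + d) ^ 2 > 0`. -/
theorem locMob_deriv (f : ℝ → ℝ) (x : ℝ) (h : LocMob f x) :
    DifferentiableAt ℝ f x ∧ 0 < deriv f x := by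
  obtain ⟨a, b, c, d, h1, h2⟩ := h
  have hx : c * x + d ≠ 0 := h2.self_of_nhds.1
  have hE : f =ᶠ[𝓝 x] fun y => (a * y + b) / (c * y + d) := by
    filter_upwards [h2] with y hy using hy.2
  have hn : HasDerivAt (fun y : ℝ => a * y + b) a x := by
    simpa using ((hasDerivAt_id x).const_mul a).add_const b
  have hd : HasDerivAt (fun y : ℝ => c * y + d) c x := by
    simpa using ((hasDerivAt_id x).const_mul c).add_const d
  have hq : HasDerivAt (fun y : ℝ => (a * y + b) / (c * y + d))
      ((a * (c * x + d) - (a * x + b) * c) / (c * x + d) ^ 2) x := hn.div hd hx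
  have hf : HasDerivAt f ((a * (c * x + d) - (a * x + b) * c) / (c * x + d) ^ 2) x :=
    hq.congr_of_eventuallyEq hE
  refine ⟨hf.differentiableAt, ?_⟩
  rw [hf.deriv]
  have e : a * (c * x + d) - (a * x + b) * c = 1 := by linarith
  rw [e]
  positivity

/-- Proof: the union over `g, h ∈ G` of the preimages under `h` of finite sets (`locMob_deriv`). -/
theorem badPts_countable (G : Subgroup (ℝ ≃o ℝ)) [Countable G] (hG : G ≤ PPH) :
    (badPts G).Countable := by
  have hfin : ∀ g : G, ∃ S : Set ℝ, S.Finite ∧ ∀ x ∉ S, LocMob (g : ℝ ≃o ℝ) x :=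
    fun g => hG g.2
  choose S hS hS' using hfin
  have hsub : badPts G ⊆ ⋃ g : G, ⋃ h : G, ((h : ℝ ≃o ℝ) : ℝ → ℝ) ⁻¹' S g := by
    rintro p ⟨g, hg, h, hh, H⟩
    refine Set.mem_iUnion.2 ⟨⟨g, hg⟩, Set.mem_iUnion.2 ⟨⟨h, hh⟩, ?_⟩⟩
    by_contra hp
    exact H (locMob_deriv _ _ (hS' ⟨g, hg⟩ (h p) hp))
  refine Set.Countable.mono hsub ?_
  refine Set.countable_iUnion fun g => Set.countable_iUnion fun h => ?_
  exact (hS g).countable.preimage (h : ℝ ≃o ℝ).injective

end Pool.Agent.MP_46876e_al_PP
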