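import Pool.Agent.Lib.MP_46876e_al_PP.PDefs
import Pool.Agent.Lib.MP_46876e_al_PP.PRot

/-!
# MP_46876e_al, project PP, module PGraft: the grafts
-/

set_option autoImplicit false

noncomputable section

namespace Pool.Agent.MP_46876e_al_PP

open MeasureTheory MulOpposite Filter Topology Pool.Agent.Forest46876e
open scoped ENNReal

private theorem PGraft_den {c d x : ℝ} (hc : |c| ≤ 1 / 100) (hd : |d - 1| ≤ 1 / 100)
    (hx : x ∈ Set.Icc (0 : ℝ) 1) :
    0 < c * x + d ∧ 98 / 100 ≤ c * x + d ∧ c * x + d ≤ 102 / 100 := by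
  obtain ⟨h1, h2⟩ := abs_le.1 hc
  obtain ⟨h3, h4⟩ := abs_le.1 hd
  obtain ⟨h5, h6⟩ := hx
  have h7 : -(1 / 100) ≤ c * x := by nlinarith
  have h8 : c * x ≤ 1 / 100 := by nlinarith
  refine ⟨by linarith, by linarith, by linarith⟩

private theorem PGraft_dist {a b c d x : ℝ} (ha : |a - 1| ≤ 1 / 100)
    (hb : |b| ≤ 1 / 100) (hc : |c| ≤ 1 / 100) (hd : |d - 1| ≤ 1 / 100)
    (hx : x ∈ Set.Icc (0 : ℝ) 1) : |(a * x + b) / (c * x + d) - x| ≤ 1 / 20 := by
  obtain ⟨h0, h1, h2⟩ := PGraft_den hc hd hx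
  have e : (a * x + b) / (c * x + d) - x = (a * x + b - x * (c * x + d)) / (c * x + d) := by
    rw [sub_div, mul_div_cancel_right₀ x h0.ne']
  rw [e, abs_div, abs_of_pos h0, div_le_iff₀ h0]
  obtain ⟨ha1, ha2⟩ := abs_le.1 ha
  obtain ⟨hb1, hb2⟩ := abs_le.1 hb
  obtain ⟨hc1, hc2⟩ := abs_le.1 hc
  obtain ⟨hd1, hd2⟩ := abs_le.1 hd
  obtain ⟨hx1, hx2⟩ := hx
  have hxx : x * x ≤ 1 := by nlinarith
  have hxx0 : 0 ≤ x * x := mul_nonneg hx1 hx1
  have k1 : (a - d) * x ≤ 2 / 100 := by nlinarith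
  have k2 : -(2 / 100) ≤ (a - d) * x := by nlinarith
  have k3 : c * (x * x) ≤ 1 / 100 := by nlinarith
  have k4 : -(1 / 100) ≤ c * (x * x) := by nlinarith
  have e2 : a * x + b - x * (c * x + d) = (a - d) * x + b - c * (x * x) := by ring
  rw [e2, abs_le]
  constructor <;> linarith

private theorem PGraft_mono {a b c d : ℝ} (h : a * d - b * c = 1)
    (hc : |c| ≤ 1 / 100) (hd : |d - 1| ≤ 1 / 100) {u v : ℝ}
    (hu : u ∈ Set.Icc (0 : ℝ) 1) (hv : v ∈ Set.Icc (0 : ℝ) 1) (huv : u < v) :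
    (a * u + b) / (c * u + d) < (a * v + b) / (c * v + d) := by
  obtain ⟨h1, -, -⟩ := PGraft_den hc hd hu
  obtain ⟨h2, -, -⟩ := PGraft_den hc hd hv
  rw [div_lt_div_iff₀ h1 h2]
  have e : (a * v + b) * (c * u + d) - (a * u + b) * (c * v + d) = (a * d - b * c) * (v - u) := by
    ring
  rw [h, one_mul] at e
  linarith

private theorem PGraft_real (a b c d : ℝ) (h : a * d - b * c = 1) (ha : |a - 1| ≤ 1 / 100)
    (hb : |b| ≤ 1 / 100) (hc : |c| ≤ 1 / 100) (hd : |d - 1| ≤ 1 / 100) :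
    ∃ f : ℝ ≃o ℝ, (∀ x : ℝ, x ≤ 0 → f x = x + f 0) ∧
      (∀ x : ℝ, 1 ≤ x → f x = x + (f 1 - 1)) ∧
      (∀ x ∈ Set.Icc (0 : ℝ) 1, f x = (a * x + b) / (c * x + d)) ∧
      (∀ x ∈ Set.Icc (0 : ℝ) 1, |f x - x| ≤ 1 / 20) ∧
      ∀ x ∈ Set.Ioo (0 : ℝ) 1, DifferentiableAt ℝ f x ∧ 19 / 20 ≤ deriv f x := by
  set cl : ℝ → ℝ := fun x => max 0 (min x 1) with hcl
  have hcl1 : ∀ x, cl x ∈ Set.Icc (0 : ℝ) 1 := fun x =>
    ⟨le_max_left _ _, max_le zero_le_one (min_le_right _ _)⟩
  have hclc : Continuous cl := by fun_prop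
  have hcl0 : ∀ x, x ≤ 0 → cl x = 0 := fun x hx => by
    simp only [hcl]
    rw [max_eq_left ((min_le_left _ _).trans hx)]
  have hcl2 : ∀ x, 1 ≤ x → cl x = 1 := fun x hx => by
    simp only [hcl]
    rw [min_eq_right hx, max_eq_right zero_le_one]
  have hcl3 : ∀ x ∈ Set.Icc (0 : ℝ) 1, cl x = x := fun x hx => by
    simp only [hcl]
    rw [min_eq_left hx.2, max_eq_right hx.1]
  have hmono1 : Monotone cl := fun x y hxy => max_le_max le_rfl (min_le_min hxy le_rfl)
  have hmono2 : Monotone fun x => x - cl x := by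
    intro x y hxy
    simp only [hcl]
    rcases le_total x 1 with hx | hx
    · rcases le_total y 1 with hy | hy
      · rw [min_eq_left hx, min_eq_left hy]
        rcases le_total 0 x with hx0 | hx0
        · rw [max_eq_right hx0, max_eq_right (hx0.trans hxy)]
          simp
        · rw [max_eq_left hx0]
          rcases le_total 0 y with hy0 | hy0
          · rw [max_eq_right hy0]
            linarith
          · rw [max_eq_left hy0]
            linarith
      · rw [min_eq_left hx, min_eq_right hy, max_eq_right (zero_le_one (α := ℝ))]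
        rcases le_total 0 x with hx0 | hx0
        · rw [max_eq_right hx0]
          linarith
        · rw [max_eq_left hx0]
          linarith
    · rw [min_eq_right hx, min_eq_right (hx.trans hxy)]
      linarith
  set m : ℝ → ℝ := fun u => (a * u + b) / (c * u + d) with hm
  set F : ℝ → ℝ := fun x => (x - cl x) + m (cl x) with hF
  have hFcont : Continuous F := by
    refine (continuous_id.sub hclc).add ?_
    refine Continuous.div (by fun_prop) (by fun_prop) fun x => ?_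
    exact (PGraft_den hc hd (hcl1 x)).1.ne'
  have hFmono : StrictMono F := by
    intro x y hxy
    have h1 : x - cl x ≤ y - cl y := hmono2 hxy.le
    rcases (hmono1 hxy.le).lt_or_eq with h2 | h2
    · have h3 : m (cl x) < m (cl y) := PGraft_mono h hc hd (hcl1 x) (hcl1 y) h2
      show (x - cl x) + m (cl x) < (y - cl y) + m (cl y)
      linarith
    · show (x - cl x) + m (cl x) < (y - cl y) + m (cl y)
      rw [h2]
      linarith
  have hFd : ∀ x, |F x - x| ≤ 1 / 20 := by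
    intro x
    have e : F x - x = m (cl x) - cl x := by
      show (x - cl x) + m (cl x) - x = m (cl x) - cl x
      ring
    rw [e]
    exact PGraft_dist ha hb hc hd (hcl1 x)
  have hFs : Function.Surjective F := by
    refine hFcont.surjective ?_ ?_
    · have h1 : Tendsto (fun x : ℝ => x + -(1 / 20 : ℝ)) atTop atTop :=
        tendsto_atTop_add_const_right _ _ tendsto_id
      refine tendsto_atTop_mono (fun x => ?_) h1
      have := (abs_le.1 (hFd x)).1
      linarith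
    · have h1 : Tendsto (fun x : ℝ => x + (1 / 20 : ℝ)) atBot atBot :=
        tendsto_atBot_add_const_right _ _ tendsto_id
      refine tendsto_atBot_mono (fun x => ?_) h1
      have := (abs_le.1 (hFd x)).2
      linarith
  have hF3 : ∀ x ∈ Set.Icc (0 : ℝ) 1, F x = (a * x + b) / (c * x + d) := by
    intro x hx
    show (x - cl x) + m (cl x) = _
    rw [hcl3 x hx, sub_self, zero_add]
  refine ⟨hFmono.orderIsoOfSurjective F hFs, ?_, ?_, ?_, ?_, ?_⟩
  · intro x hx
    show (x - cl x) + m (cl x) = x + ((0 - cl 0) + m (cl 0))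
    rw [hcl0 x hx, hcl0 0 le_rfl]
    ring
  · intro x hx
    show (x - cl x) + m (cl x) = x + (((1 - cl 1) + m (cl 1)) - 1)
    rw [hcl2 x hx, hcl2 1 le_rfl]
    ring
  · intro x hx
    exact hF3 x hx
  · intro x _
    exact hFd x
  · intro x hx
    have hxI : x ∈ Set.Icc (0 : ℝ) 1 := ⟨hx.1.le, hx.2.le⟩
    obtain ⟨h1, h2, h3⟩ := PGraft_den hc hd hxI
    have hd1 : HasDerivAt (fun u : ℝ => a * u + b) a x := by
      simpa using ((hasDerivAt_id x).const_mul a).add_const b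
    have hd2 : HasDerivAt (fun u : ℝ => c * u + d) c x := by
      simpa using ((hasDerivAt_id x).const_mul c).add_const d
    have hd3 := hd1.div hd2 h1.ne'
    have he : F =ᶠ[𝓝 x] fun u => (a * u + b) / (c * u + d) := by
      filter_upwards [Ioo_mem_nhds hx.1 hx.2] with u hu
      exact hF3 u ⟨hu.1.le, hu.2.le⟩
    have hd4 : HasDerivAt F ((a * (c * x + d) - (a * x + b) * c) / (c * x + d) ^ 2) x :=
      hd3.congr_of_eventuallyEq he
    refine ⟨hd4.differentiableAt, ?_⟩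
    have hd5 : deriv F x = 1 / (c * x + d) ^ 2 := by
      rw [hd4.deriv]
      congr 1
      linear_combination h
    show 19 / 20 ≤ deriv F x
    rw [hd5, div_le_div_iff₀ (by norm_num) (by positivity)]
    nlinarith

/-- Proof: for `0 ≤ x ≤ 1` the denominator `c x + d` is in `[98/100, 102/100]` and
`x ↦ (a x + b) / (c x + d)` is strictly increasing and continuous (derivative `1 / (c x + d)²`). Let
`F x = x + b / d` for `x ≤ 0`, the Möbius map on `[0,1]`, and
`F x = x + ((a + b) / (c + d) - 1)` for `x ≥ 1`: strictly increasing, continuous, and surjective (it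
tends to `±∞`); `StrictMono.orderIsoOfSurjective`. `f x - x = ((a - d) x + b - c x²) / (c x + d)`,
numerator `≤ 4/100`. Derivative: on the open interval `f` agrees locally with the Möbius map,
and `1 / (102/100)² ≥ 19/20`. -/
theorem exists_graft (a b c d : ℚ) (h : a * d - b * c = 1) (ha : |a - 1| ≤ 1 / 100)
    (hb : |b| ≤ 1 / 100) (hc : |c| ≤ 1 / 100) (hd : |d - 1| ≤ 1 / 100) :
    ∃ f : ℝ ≃o ℝ, IsGraft f ∧
      (∀ x ∈ Set.Icc (0 : ℝ) 1, f x = (a * x + b) / (c * x + d)) ∧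
      (∀ x ∈ Set.Icc (0 : ℝ) 1, |f x - x| ≤ 1 / 20) ∧
      ∀ x ∈ Set.Ioo (0 : ℝ) 1, DifferentiableAt ℝ f x ∧ 19 / 20 ≤ deriv f x := by
  have hr : (a : ℝ) * d - b * c = 1 := by exact_mod_cast h
  have har : |(a : ℝ) - 1| ≤ 1 / 100 := by
    have : ((|a - 1| : ℚ) : ℝ) ≤ ((1 / 100 : ℚ) : ℝ) := by exact_mod_cast ha
    push_cast at this
    exact this
  have hbr : |(b : ℝ)| ≤ 1 / 100 := by
    have : ((|b| : ℚ) : ℝ) ≤ ((1 / 100 : ℚ) : ℝ) := by exact_mod_cast hb
    push_cast at this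
    exact this
  have hcr : |(c : ℝ)| ≤ 1 / 100 := by
    have : ((|c| : ℚ) : ℝ) ≤ ((1 / 100 : ℚ) : ℝ) := by exact_mod_cast hc
    push_cast at this
    exact this
  have hdr : |(d : ℝ) - 1| ≤ 1 / 100 := by
    have : ((|d - 1| : ℚ) : ℝ) ≤ ((1 / 100 : ℚ) : ℝ) := by exact_mod_cast hd
    push_cast at this
    exact this
  obtain ⟨f, h1, h2, h3, h4, h5⟩ := PGraft_real (a : ℝ) b c d hr har hbr hcr hdr
  refine ⟨f, ⟨⟨a, b, c, d, h, fun x hx => ⟨(PGraft_den hcr hdr hx).1.ne', h3 x hx⟩⟩, h1, h2⟩,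
    h3, h4, h5⟩

/-- Proof: `exists_graft` for the entries of `Lt (i, true)` divided by `KK i` (`Lt_true`,
`Lt_det`), and choice. -/
theorem graft_family : ∃ f : ℕ → (ℝ ≃o ℝ), ∀ i, IsGraft (f i) ∧
    (∀ x ∈ Set.Icc (0 : ℝ) 1, f i x = mob (Lt (i, true)) x) ∧
    (∀ x ∈ Set.Icc (0 : ℝ) 1, |f i x - x| ≤ 1 / 20) ∧
    ∀ x ∈ Set.Ioo (0 : ℝ) 1, DifferentiableAt ℝ (f i) x ∧ 19 / 20 ≤ deriv (f i) x := by
  have key : ∀ i : ℕ, ∃ f : ℝ ≃o ℝ, IsGraft f ∧
      (∀ x ∈ Set.Icc (0 : ℝ) 1, f x = mob (Lt (i, true)) x) ∧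
      (∀ x ∈ Set.Icc (0 : ℝ) 1, |f x - x| ≤ 1 / 20) ∧
      ∀ x ∈ Set.Ioo (0 : ℝ) 1, DifferentiableAt ℝ f x ∧ 19 / 20 ≤ deriv f x := by
    intro i
    obtain ⟨x, y, w, hL, hx, hy, hw⟩ := Lt_true i
    have hK : (0 : ℤ) < KK i := by
      unfold KK
      positivity
    have hKq : (0 : ℚ) < (KK i : ℚ) := by exact_mod_cast hK
    have hKr : (0 : ℝ) < (KK i : ℝ) := by exact_mod_cast hK
    have hdet : (KK i + x) * (KK i + w) - y * y = KK i ^ 2 := by
      have := Lt_det (i, true)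
      rw [hL, Matrix.det_fin_two_of] at this
      exact this
    have hdq : ((KK i : ℚ) + x) * (KK i + w) - y * y = (KK i : ℚ) ^ 2 := by exact_mod_cast hdet
    have hab : ∀ z : ℤ, 100 * |z| ≤ KK i → |(z : ℚ) / KK i| ≤ 1 / 100 := by
      intro z hz
      have h1 : (100 : ℚ) * |(z : ℚ)| ≤ KK i := by exact_mod_cast hz
      rw [abs_div, abs_of_pos hKq, div_le_div_iff₀ hKq (by norm_num)]
      linarith
    obtain ⟨f, h1, h2, h3, h4⟩ := exists_graft (((KK i : ℚ) + x) / KK i) ((y : ℚ) / KK i)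
      ((y : ℚ) / KK i) (((KK i : ℚ) + w) / KK i) (by
        field_simp
        linear_combination hdq) (by
        have e : ((KK i : ℚ) + x) / KK i - 1 = (x : ℚ) / KK i := by
          field_simp
          ring
        rw [e]
        exact hab x hx) (hab y hy) (hab y hy) (by
        have e : ((KK i : ℚ) + w) / KK i - 1 = (w : ℚ) / KK i := by
          field_simp
          ring
        rw [e]
        exact hab w hw)
    refine ⟨f, h1, fun q hq => ?_, h3, h4⟩
    rw [h2 q hq, hL]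
    unfold mob
    simp only [Matrix.of_apply, Matrix.cons_val', Matrix.cons_val_zero, Matrix.cons_val_one,
      Matrix.cons_val_fin_one]
    push_cast
    have e1 : ((KK i : ℝ) + x) / KK i * q + y / KK i = (((KK i : ℝ) + x) * q + y) / KK i := by
      field_simp
    have e2 : (y : ℝ) / KK i * q + ((KK i : ℝ) + w) / KK i = (y * q + ((KK i : ℝ) + w)) / KK i := by
      field_simp
    rw [e1, e2, div_div_div_cancel_right₀ hKr.ne']
  choose f hf using key
  exact ⟨f, hf⟩

end Pool.Agent.MP_46876e_al_PP
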