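import Pool.Agent.Lib.MP_46876e_al_PP.PDefs

/-!
# MP_46876e_al, project PP, module PExt: cylinders determine a measure on Conf G
-/

set_option autoImplicit false

noncomputable section

namespace Pool.Agent.MP_46876e_al_PP

open MeasureTheory MulOpposite Filter Topology Pool.Agent.Forest46876e
open scoped ENNReal

variable {G : Type*}

/-- A finite intersection of preimages of points under the (continuous) evaluations
`η ↦ η t`. -/
theorem cyl_clopen (T : Finset (G × G)) (s : G × G → Bool) :
    IsClopen {η : Conf G | ∀ t ∈ T, η t = s t} := by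
  have h1 : {η : Conf G | ∀ t ∈ T, η t = s t} =
      ⋂ t ∈ T, (fun η : Conf G => η t) ⁻¹' {s t} := by
    ext η
    simp
  rw [h1]
  refine isClopen_biInter_finset fun t _ => ?_
  have h2 : Continuous (fun η : Conf G => η t) :=
    (continuous_apply t : Continuous fun η : G × G → Bool => η t)
  exact (isClopen_discrete _).preimage h2

theorem measurable_conf_smul [Group G] (g : G) : Measurable (fun η : Conf G => op g • η) := by
  have h : Measurable (fun (η : G × G → Bool) (p : G × G) => η (g * p.1, p.2)) :=
    measurable_pi_lambda _ fun p => measurable_pi_apply _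
  exact h

/-- Proof: the cylinders `{η | ∀ t ∈ T, η t = s t}` together with `∅` form a pi-system which
generates the product sigma-algebra of `G × G → Bool` (`Conf G` unfolds to it); `univ` is the
cylinder with `T = ∅`. `MeasureTheory.ext_of_generate_finite`. (Or: `Measure.ext_of_...` for
products, or equality of all finite dimensional marginals, e.g. `IsProjectiveLimit.unique`.) -/
theorem conf_ext [Countable G] (τ τ' : Measure (Conf G)) [IsProbabilityMeasure τ]
    [IsProbabilityMeasure τ']
    (h : ∀ (T : Finset (G × G)) (s : G × G → Bool),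
      τ {η | ∀ t ∈ T, η t = s t} = τ' {η | ∀ t ∈ T, η t = s t}) : τ = τ' := by
  classical
  refine ext_of_generate_finite
    {A : Set (Conf G) | ∃ (T : Finset (G × G)) (s : G × G → Bool), A = {η | ∀ t ∈ T, η t = s t}}
    ?_ ?_ ?_ ?_
  · refine le_antisymm ?_ (MeasurableSpace.generateFrom_le ?_)
    · have key : ∀ t : G × G, @Measurable (Conf G) Bool (MeasurableSpace.generateFrom
          {A : Set (Conf G) | ∃ (T : Finset (G × G)) (s : G × G → Bool),
            A = {η | ∀ t ∈ T, η t = s t}}) _ (fun η => η t) := by
        intro t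
        refine @measurable_to_bool _ (_) _ (MeasurableSpace.measurableSet_generateFrom ?_)
        refine ⟨{t}, fun _ => true, ?_⟩
        ext η
        simp
      exact iSup_le fun t => (key t).comap_le
    · rintro A ⟨T, s, rfl⟩
      exact (cyl_clopen T s).isClosed.measurableSet
  · rintro A ⟨T, s, rfl⟩ B ⟨T', s', rfl⟩ ⟨η₀, h1, h2⟩
    refine ⟨T ∪ T', η₀, ?_⟩
    ext η
    change (∀ t ∈ T, η₀ t = s t) at h1
    change (∀ t ∈ T', η₀ t = s' t) at h2
    change ((∀ t ∈ T, η t = s t) ∧ ∀ t ∈ T', η t = s' t) ↔ ∀ t ∈ T ∪ T', η t = η₀ t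
    simp only [Finset.mem_union]
    constructor
    · rintro ⟨h3, h4⟩ t (ht | ht)
      · rw [h3 t ht, h1 t ht]
      · rw [h4 t ht, h2 t ht]
    · intro h3
      exact ⟨fun t ht => by rw [h3 t (Or.inl ht), h1 t ht],
        fun t ht => by rw [h3 t (Or.inr ht), h2 t ht]⟩
  · rintro A ⟨T, s, rfl⟩
    exact h T s
  · rw [measure_univ, measure_univ]

end Pool.Agent.MP_46876e_al_PP
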