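import Pool.Agent.Lib.MP_46876e_al_PP.PDefs
import Pool.Agent.Lib.MP_46876e_al_PP.PExt

/-!
# MP_46876e_al, project PP, module PCyc: the set of forests is closed
-/

set_option autoImplicit false

noncomputable section

namespace Pool.Agent.MP_46876e_al_PP

open MeasureTheory MulOpposite Filter Topology Pool.Agent.Forest46876e
open scoped ENNReal

variable {G : Type*} [Group G]

private theorem PCyc_label (η : Conf G) (e : Sym2 G) (he : e ∈ (confGraph η).edgeSet) :
    ∃ t : G × G, η t = true ∧ e = s(t.1, t.1 * t.2) := by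
  induction e with
  | _ x y =>
    rw [SimpleGraph.mem_edgeSet, confGraph, SimpleGraph.fromRel_adj] at he
    obtain ⟨-, ⟨g, hg, hy⟩ | ⟨g, hg, hx⟩⟩ := he
    · exact ⟨(x, g), hg, by rw [hy]⟩
    · exact ⟨(y, g), hg, by rw [hx, Sym2.eq_swap]⟩

/-- Proof: ← take `η' = η`. → A cycle of `confGraph η` has finitely many edges; for each edge of the
cycle choose a label `t` with `η t = true` giving it; `T` is the set of these labels. If
`η' t = true`
on `T` the cycle transfers to `confGraph η'` (`SimpleGraph.Walk.transfer`, `IsCycle.transfer`). -/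
theorem not_acyclic_iff (η : Conf G) : ¬ (confGraph η).IsAcyclic ↔
    ∃ T : Finset (G × G), (∀ t ∈ T, η t = true) ∧
      ∀ η' : Conf G, (∀ t ∈ T, η' t = true) → ¬ (confGraph η').IsAcyclic := by
  classical
  constructor
  · intro h
    simp only [SimpleGraph.IsAcyclic, not_forall, not_not] at h
    obtain ⟨v, c, hc⟩ := h
    have hsel : ∀ e : Sym2 G, ∃ t : G × G, e ∈ (confGraph η).edgeSet →
        η t = true ∧ e = s(t.1, t.1 * t.2) := by
      intro e
      by_cases he : e ∈ (confGraph η).edgeSet
      · obtain ⟨t, ht⟩ := PCyc_label η e he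
        exact ⟨t, fun _ => ht⟩
      · exact ⟨(1, 1), fun h => absurd h he⟩
    choose f hf using hsel
    refine ⟨c.edges.toFinset.image f, ?_, ?_⟩
    · intro t ht
      simp only [Finset.mem_image, List.mem_toFinset] at ht
      obtain ⟨e, he, rfl⟩ := ht
      exact (hf e (c.edges_subset_edgeSet he)).1
    · intro η' hη' hac
      have htr : ∀ e ∈ c.edges, e ∈ (confGraph η').edgeSet := by
        intro e he
        have heS := c.edges_subset_edgeSet he
        obtain ⟨-, h2⟩ := hf e heS
        have h3 : η' (f e) = true := hη' _ (by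
          simp only [Finset.mem_image, List.mem_toFinset]
          exact ⟨e, he, rfl⟩)
        have hne : (f e).1 ≠ (f e).1 * (f e).2 := by
          have hd := (confGraph η).not_isDiag_of_mem_edgeSet heS
          rw [h2, Sym2.mk_isDiag_iff] at hd
          exact hd
        rw [h2, SimpleGraph.mem_edgeSet, confGraph, SimpleGraph.fromRel_adj]
        exact ⟨hne, Or.inl ⟨(f e).2, h3, rfl⟩⟩
      exact hac _ (hc.transfer htr)
  · rintro ⟨T, hT, hb⟩
    exact hb η hT

private theorem PCyc_compl : {η : Conf G | (confGraph η).IsAcyclic}ᶜ =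
    ⋃ T ∈ {T : Finset (G × G) | ∀ η' : Conf G, (∀ t ∈ T, η' t = true) →
      ¬ (confGraph η').IsAcyclic}, {η : Conf G | ∀ t ∈ T, η t = true} := by
  ext η
  simp only [Set.mem_compl_iff, Set.mem_setOf_eq, Set.mem_iUnion, exists_prop]
  rw [not_acyclic_iff]
  constructor
  · rintro ⟨T, h1, h2⟩
    exact ⟨T, h2, h1⟩
  · rintro ⟨T, h2, h1⟩
    exact ⟨T, h1, h2⟩

/-- Proof: by `not_acyclic_iff` the complement is the union over the (countably many) finite sets
`T` with the second property of the clopen sets `{η | ∀ t ∈ T, η t = true}` (`cyl_clopen` with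
`s = fun _ => true`). -/
theorem measurableSet_acyclic [Countable G] :
    MeasurableSet {η : Conf G | (confGraph η).IsAcyclic} := by
  rw [← MeasurableSet.compl_iff, PCyc_compl]
  refine MeasurableSet.biUnion (Set.to_countable _) fun T _ => ?_
  exact (cyl_clopen T fun _ => true).isOpen.measurableSet

/-- Proof: as in `measurableSet_acyclic`: each clopen set `{η | ∀ t ∈ T, η t = true}`, `T` bad, has
`θ n`-measure `0` for all `n`, so `τ`-measure `0` (`tendsto_nhds_unique`, `u` is `NeBot`); a
countable union of null sets is null. -/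
theorem limit_acyclic [Countable G] (θ : ℕ → Measure (Conf G)) (τ : Measure (Conf G))
    (u : Ultrafilter ℕ)
    (h : ∀ C : Set (Conf G), IsClopen C → Tendsto (fun n => θ n C) u (𝓝 (τ C)))
    (h0 : ∀ n, ∀ᵐ η ∂(θ n), (confGraph η).IsAcyclic) :
    ∀ᵐ η ∂τ, (confGraph η).IsAcyclic := by
  rw [ae_iff]
  have e : {η : Conf G | ¬ (confGraph η).IsAcyclic} =
      {η : Conf G | (confGraph η).IsAcyclic}ᶜ := rfl
  rw [e, PCyc_compl]
  rw [measure_biUnion_null_iff (Set.to_countable _)]
  intro T hT
  have h1 := h _ (cyl_clopen T fun _ => true)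
  have h2 : ∀ n, θ n {η : Conf G | ∀ t ∈ T, η t = true} = 0 := by
    intro n
    refine measure_mono_null ?_ (ae_iff.1 (h0 n))
    intro η hη
    exact hT η hη
  have h3 : Tendsto (fun n => θ n {η : Conf G | ∀ t ∈ T, η t = true}) u (𝓝 0) := by
    simp only [h2]
    exact tendsto_const_nhds
  exact tendsto_nhds_unique h1 h3

end Pool.Agent.MP_46876e_al_PP
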