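import Pool.Agent.Lib.MP_46876e_al_PP.PDefs
import Pool.Agent.Lib.MP_46876e_al_PP.PCyc

/-!
# MP_46876e_al, project PP, module PProd: from a random forest to a forest family on the product
-/

set_option autoImplicit false

noncomputable section

namespace Pool.Agent.MP_46876e_al_PP

open MeasureTheory MulOpposite Filter Topology Pool.Agent.Forest46876e
open scoped ENNReal

variable {G W : Type*} [Group G]

private theorem pprod_adj_iff (η : Conf G) (x y : G) :
    (confGraph η).Adj x y ↔ x ≠ y ∧ ((∃ g, η (x, g) = true ∧ y = x * g) ∨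
      ∃ g, η (y, g) = true ∧ x = y * g) := SimpleGraph.fromRel_adj _ _ _

/-- Proof: `y ↦ g * y` is an isomorphism from `confGraph (op g • η)` to `confGraph η`
(`conf_smul`). -/
theorem confGraph_smul_acyclic (g : G) (η : Conf G) :
    (confGraph (op g • η)).IsAcyclic ↔ (confGraph η).IsAcyclic := by
  have e : confGraph (op g • η) ≃g confGraph η :=
    { toEquiv := Equiv.mulLeft g
      map_rel_iff' := by
        intro x y
        simp only [Equiv.coe_mulLeft, pprod_adj_iff, conf_smul, ne_eq, mul_right_inj,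
          mul_assoc] }
  exact e.isAcyclic_iff

private theorem pprod_step [MulAction Gᵐᵒᵖ W] {A' : G → Set (Conf G × W)}
    (hA1 : ∀ g p, p ∈ A' g → g ≠ 1) (hA2 : ∀ g p, p ∈ A' g → p.1 (1, g) = true)
    {p r : Conf G × W} {x : G} (h : (edgeGraph A').Adj (op x • p) r) :
    ∃ y, r = op y • p ∧ (confGraph p.1).Adj x y := by
  rw [edgeGraph, SimpleGraph.fromRel_adj] at h
  obtain ⟨-, ⟨g, hg, rfl⟩ | ⟨g, hg, he⟩⟩ := h
  · refine ⟨x * g, by rw [op_mul, mul_smul], (pprod_adj_iff _ _ _).2 ⟨fun h => ?_, Or.inl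
      ⟨g, ?_, rfl⟩⟩⟩
    · exact hA1 g _ hg (left_eq_mul.1 h)
    · have h1 := hA2 g _ hg
      change (op x • p.1) (1, g) = true at h1
      rwa [conf_smul, mul_one] at h1
  · have hr : r = op (x * g⁻¹) • p := by
      rw [op_mul, mul_smul, he, ← mul_smul, ← op_mul, mul_inv_cancel, op_one, one_smul]
    refine ⟨x * g⁻¹, hr, (pprod_adj_iff _ _ _).2 ⟨fun h => ?_, Or.inr
      ⟨g, ?_, by rw [inv_mul_cancel_right]⟩⟩⟩
    · exact hA1 g _ hg (inv_eq_one.1 (left_eq_mul.1 h))
    · have h1 := hA2 g _ hg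
      rw [hr] at h1
      change (op (x * g⁻¹) • p.1) (1, g) = true at h1
      rwa [conf_smul, mul_one] at h1

private theorem pprod_inj [MulAction Gᵐᵒᵖ W] {w : W} (hw : ∀ g : G, g ≠ 1 → op g • w ≠ w)
    {x y : G} (h : op x • w = op y • w) : x = y := by
  by_contra hne
  refine hw (x * y⁻¹) (fun h' => hne (mul_inv_eq_one.mp h')) ?_
  rw [op_mul, mul_smul, h, ← mul_smul, ← op_mul, mul_inv_cancel, op_one, one_smul]

private theorem pprod_free [MulAction Gᵐᵒᵖ W] {w : W} (hw : ∀ g : G, g ≠ 1 → op g • w ≠ w)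
    (x : G) : ∀ g : G, g ≠ 1 → op g • op x • w ≠ op x • w := by
  intro g hg h
  rw [← mul_smul, ← op_mul] at h
  exact hg (mul_eq_left.1 (pprod_inj hw h))

private theorem pprod_acyclic [MulAction Gᵐᵒᵖ W] {A' : G → Set (Conf G × W)}
    (hA1 : ∀ g p, p ∈ A' g → g ≠ 1) (hA2 : ∀ g p, p ∈ A' g → p.1 (1, g) = true)
    (hA3 : ∀ g p, p ∈ A' g → (confGraph p.1).IsAcyclic)
    (hA4 : ∀ g p, p ∈ A' g → ∀ k : G, k ≠ 1 → op k • p.2 ≠ p.2) :
    (edgeGraph A').IsAcyclic := by
  rw [SimpleGraph.isAcyclic_iff_forall_adj_isBridge]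
  intro p q hpq
  have hpp : (confGraph p.1).IsAcyclic ∧ ∀ k : G, k ≠ 1 → op k • p.2 ≠ p.2 := by
    have h := hpq
    rw [edgeGraph, SimpleGraph.fromRel_adj] at h
    obtain ⟨-, ⟨g, hg, -⟩ | ⟨g, hg, he⟩⟩ := h
    · exact ⟨hA3 g p hg, hA4 g p hg⟩
    · rw [he]
      exact ⟨(confGraph_smul_acyclic g q.1).2 (hA3 g q hg), pprod_free (hA4 g q hg) g⟩
  obtain ⟨hac, hfr⟩ := hpp
  obtain ⟨xq, hxq, hadj⟩ : ∃ y, q = op y • p ∧ (confGraph p.1).Adj 1 y := by
    apply pprod_step hA1 hA2
    rwa [op_one, one_smul]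
  rw [SimpleGraph.isBridge_iff, SimpleGraph.reachable_iff_reflTransGen]
  intro hreach
  have key : ∀ r, Relation.ReflTransGen ((edgeGraph A').deleteEdges {s(p, q)}).Adj p r →
      ∃ x, r = op x • p ∧ ((confGraph p.1).deleteEdges {s(1, xq)}).Reachable 1 x := by
    intro r hr
    induction hr with
    | refl => exact ⟨1, by rw [op_one, one_smul], SimpleGraph.Reachable.refl _⟩
    | tail _ h2 ih =>
      obtain ⟨x, rfl, hx⟩ := ih
      rw [SimpleGraph.deleteEdges_adj] at h2
      obtain ⟨y, rfl, hy⟩ := pprod_step hA1 hA2 h2.1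
      refine ⟨y, rfl, hx.trans (SimpleGraph.Adj.reachable ?_)⟩
      rw [SimpleGraph.deleteEdges_adj]
      refine ⟨hy, fun hmem => h2.2 ?_⟩
      rw [Set.mem_singleton_iff] at hmem ⊢
      have h3 := congrArg (Sym2.map fun g : G => op g • p) hmem
      rw [Sym2.map_mk, Sym2.map_mk] at h3
      change s(op x • p, op y • p) = s(op (1 : G) • p, op xq • p) at h3
      rw [h3, op_one, one_smul, hxq]
  obtain ⟨x, hx1, hx2⟩ := key q hreach
  rw [hxq] at hx1
  have hxx : xq = x := pprod_inj hfr (congrArg Prod.snd hx1)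
  rw [← hxx] at hx2
  exact SimpleGraph.isBridge_iff.1
    (SimpleGraph.isAcyclic_iff_forall_adj_isBridge.1 hac hadj) hx2

/-- Proof: `W₀ = {w | ∀ g ≠ 1, op g • w ≠ w}` (measurable: `measurableSet_freePts` of
Lib/MP_46876e_al/Labels.lean, or countable intersection of complements of equality sets
(`measurableSet_eq_fun`); invariant; conull).
`A' g = {(η, w) | g ≠ 1, η (1, g) = true, confGraph η acyclic, w ∈ W₀}`. No loops: the second
coordinate is moved. Measure: `A' g` is a product up to a null set. Acyclic: a cycle of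
`edgeGraph A'` at `(η, w)` consists of points `(op x • η, op x • w)`, `x : G`; `x` is unique as
`w ∈ W₀`; `(op x • η) (1, g) = η (x, g)`; so the cycle is the image of a cycle of `confGraph η`.
For instance: `φ : confGraph-like graph on G → edgeGraph A'`, or: define for walks of `edgeGraph A'`
starting at `(op x • η, op x • w)` a walk of `confGraph η` starting at `x` by induction. -/
theorem prod_forest [Countable G] [MeasurableSpace W] [StandardBorelSpace W] [MulAction Gᵐᵒᵖ W]
    (τ : Measure (Conf G)) [IsProbabilityMeasure τ] (hac : ∀ᵐ η ∂τ, (confGraph η).IsAcyclic)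
    (μ : Measure W) [IsProbabilityMeasure μ]
    (hmp : ∀ g : G, MeasurePreserving (fun w : W => op g • w) μ μ)
    (hfree : ∀ᵐ w ∂μ, ∀ g : G, g ≠ 1 → op g • w ≠ w) :
    ∃ A' : G → Set (Conf G × W), IsForestFamily A' ∧
      ∀ g : G, g ≠ 1 → τ {η | η (1, g) = true} ≤ (τ.prod μ) (A' g) := by
  classical
  have hWm : MeasurableSet {w : W | ∀ g : G, g ≠ 1 → op g • w ≠ w} := by
    have : {w : W | ∀ g : G, g ≠ 1 → op g • w ≠ w} =
        ⋂ g : {g : G // g ≠ 1}, {w : W | op (g : G) • w = w}ᶜ := by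
      ext w
      simp
    rw [this]
    exact MeasurableSet.iInter fun g =>
      (measurableSet_eq_fun (hmp g).measurable measurable_id).compl
  have hSm : ∀ g : G, MeasurableSet {η : Conf G | η (1, g) = true ∧
      (confGraph η).IsAcyclic} := by
    intro g
    have h1 : Measurable fun η : Conf G => η (1, g) :=
      measurable_pi_apply (X := fun _ : G × G => Bool) (1, g)
    exact (h1 (measurableSet_singleton true)).inter measurableSet_acyclic
  refine ⟨fun g => {p | g ≠ 1 ∧ p ∈ {η : Conf G | η (1, g) = true ∧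
      (confGraph η).IsAcyclic} ×ˢ {w : W | ∀ g : G, g ≠ 1 → op g • w ≠ w}}, ⟨?_, ?_, ?_⟩, ?_⟩
  · intro g
    exact (MeasurableSet.const _).inter ((hSm g).prod hWm)
  · rintro g p ⟨hg, hp⟩ h
    exact hp.2 g hg (congrArg Prod.snd h)
  · exact pprod_acyclic (fun g p hp => hp.1) (fun g p hp => hp.2.1.1)
      (fun g p hp => hp.2.1.2) (fun g p hp => hp.2.2)
  · intro g hg
    have h1 : {p : Conf G × W | g ≠ 1 ∧ p ∈ {η : Conf G | η (1, g) = true ∧
        (confGraph η).IsAcyclic} ×ˢ {w : W | ∀ g : G, g ≠ 1 → op g • w ≠ w}} =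
        {η : Conf G | η (1, g) = true ∧
        (confGraph η).IsAcyclic} ×ˢ {w : W | ∀ g : G, g ≠ 1 → op g • w ≠ w} := by
      ext p
      exact ⟨fun h => h.2, fun h => ⟨hg, h⟩⟩
    have h2 : μ {w : W | ∀ g : G, g ≠ 1 → op g • w ≠ w} = 1 := by
      rw [← prob_compl_eq_zero_iff hWm]
      exact hfree
    change τ {η | η (1, g) = true} ≤ (τ.prod μ) {p : Conf G × W | g ≠ 1 ∧
        p ∈ {η : Conf G | η (1, g) = true ∧
        (confGraph η).IsAcyclic} ×ˢ {w : W | ∀ g : G, g ≠ 1 → op g • w ≠ w}}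
    rw [h1, Measure.prod_prod, h2, mul_one]
    apply measure_mono_ae
    filter_upwards [hac] with η hη h
    exact ⟨h, hη⟩

end Pool.Agent.MP_46876e_al_PP
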