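import Pool.Agent.Lib.MP_46876e_al_PP.PDefs

/-!
# MP_46876e_al, project PP, module PEta: one sample point per cycle
-/

set_option autoImplicit false

noncomputable section

namespace Pool.Agent.MP_46876e_al_PP

open MeasureTheory MulOpposite Filter Topology Pool.Agent.Forest46876e
open scoped ENNReal

variable {G Z : Type*} [Group G] [MulAction Gᵐᵒᵖ Z]

/-- The point `j` is the only index seen in `B` from `x`. -/
private def PEtaU (B : Set Z) {N : ℕ} (ω : Fin N → Z ⊕ Unit) (x : G) (j : Fin N) : Prop :=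
  ∀ j', Sees x B (ω j') ↔ j' = j

private theorem PEtaU_unique {B : Set Z} {N : ℕ} {ω : Fin N → Z ⊕ Unit} {x : G} {i j : Fin N}
    (hi : PEtaU B ω x i) (hj : PEtaU B ω x j) : i = j :=
  (hj i).1 ((hi i).2 rfl)

private theorem PEta_label (B : Set Z) (A : G → Set Z) (hAB : ∀ g, A g ⊆ B)
    (hAg : ∀ g, ∀ z ∈ A g, op g • z ∈ B) {N : ℕ} (ω : Fin N → Z ⊕ Unit) {x g : G}
    (hx : eta B A ω (x, g) = true) :
    ∃ j, PEtaU B ω x j ∧ PEtaU B ω (x * g) j ∧ ∃ z, ω j = Sum.inl z ∧ op x • z ∈ A g := by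
  obtain ⟨j, ⟨z, hz, hzA⟩, hj⟩ := (eta_eq_true B A ω (x, g)).1 hx
  have hmul : ∀ z' : Z, op (x * g) • z' = op g • op x • z' := by
    intro z'
    rw [op_mul, mul_smul]
  refine ⟨j, fun j' => ⟨fun h => ?_, fun h => ?_⟩, fun j' => ⟨fun h => ?_, fun h => ?_⟩, z, hz,
    hzA⟩
  · by_contra hne
    obtain ⟨z', hz', hz'B⟩ := h
    exact hj j' hne ⟨z', hz', Or.inl hz'B⟩
  · rw [h]
    exact ⟨z, hz, hAB g hzA⟩
  · by_contra hne
    obtain ⟨z', hz', hz'B⟩ := h
    rw [hmul] at hz'B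
    exact hj j' hne ⟨z', hz', Or.inr hz'B⟩
  · rw [h]
    refine ⟨z, hz, ?_⟩
    rw [hmul]
    exact hAg g _ hzA

private theorem PEta_edge (B : Set Z) (A : G → Set Z) (hAB : ∀ g, A g ⊆ B)
    (hAg : ∀ g, ∀ z ∈ A g, op g • z ∈ B) {N : ℕ} (ω : Fin N → Z ⊕ Unit) {x y : G}
    (hxy : (confGraph (eta B A ω)).Adj x y) :
    ∃ j, PEtaU B ω x j ∧ PEtaU B ω y j ∧ ∃ z, ω j = Sum.inl z ∧ (orbGraph A z).Adj x y := by
  unfold confGraph at hxy
  rw [SimpleGraph.fromRel_adj] at hxy
  obtain ⟨hne, ⟨g, hg, hy⟩ | ⟨g, hg, hx⟩⟩ := hxy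
  · obtain ⟨j, h1, h2, z, hz, hzA⟩ := PEta_label B A hAB hAg ω hg
    refine ⟨j, h1, by rw [hy]; exact h2, z, hz, ?_⟩
    unfold orbGraph
    rw [SimpleGraph.fromRel_adj]
    exact ⟨hne, Or.inl ⟨g, hzA, hy⟩⟩
  · obtain ⟨j, h1, h2, z, hz, hzA⟩ := PEta_label B A hAB hAg ω hg
    refine ⟨j, by rw [hx]; exact h2, h1, z, hz, ?_⟩
    unfold orbGraph
    rw [SimpleGraph.fromRel_adj]
    exact ⟨hne, Or.inr ⟨g, hzA, hx⟩⟩

private theorem PEta_walk (B : Set Z) (A : G → Set Z) (hAB : ∀ g, A g ⊆ B)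
    (hAg : ∀ g, ∀ z ∈ A g, op g • z ∈ B) {N : ℕ} (ω : Fin N → Z ⊕ Unit) {j : Fin N} {z : Z}
    (hz : ω j = Sum.inl z) {x y : G} (p : (confGraph (eta B A ω)).Walk x y)
    (hx : PEtaU B ω x j) : ∀ e ∈ p.edges, e ∈ (orbGraph A z).edgeSet := by
  induction p with
  | nil => simp
  | @cons u v w h p ih =>
    obtain ⟨i, h1, h2, z', hz', hadj⟩ := PEta_edge B A hAB hAg ω h
    obtain rfl : i = j := PEtaU_unique h1 hx
    obtain rfl : z' = z := by
      rw [hz] at hz'
      exact (Sum.inl.inj hz').symm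
    intro e he
    rw [SimpleGraph.Walk.edges_cons, List.mem_cons] at he
    rcases he with he | he
    · rw [he, SimpleGraph.mem_edgeSet]
      exact hadj
    · exact ih h2 e he

/-- Proof. Let `η = eta B A ω`. If `η (x, g) = true` with witness `j` (`eta_eq_true`), then `j` is
the unique index seen in `B` from `x` and also the unique index seen in `B` from `x g`: for `j`
itself use `A g ⊆ B` and `hAg` (`op (x * g) • z = op g • op x • z`), the other `j'` are not seen in
`Win B g` from `x`. So if two edges of `confGraph η` share a vertex they have the same witness `j`,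
and all edges of a walk have the same witness `j`, `ω j = inl z` (the same `z`), and `{x, x g}` is
an edge of `orbGraph A z`. A cycle of `confGraph η` transfers to a cycle of `orbGraph A z`
(`SimpleGraph.Walk.transfer`, `IsCycle.transfer`): contradiction.
Convenient: prove by induction on walks `p : (confGraph η).Walk x y`: if `j` is the unique index
with `Sees x B (ω j)` (that is `∀ j', Sees x B (ω j') ↔ j' = j`) and `ω j = inl z` then every edge
of `p` is in `(orbGraph A z).edgeSet`. -/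
theorem eta_acyclic (B : Set Z) (A : G → Set Z) (hAB : ∀ g, A g ⊆ B)
    (hAg : ∀ g, ∀ z ∈ A g, op g • z ∈ B) {N : ℕ} (ω : Fin N → Z ⊕ Unit)
    (h : ∀ j z, ω j = Sum.inl z → (orbGraph A z).IsAcyclic) :
    (confGraph (eta B A ω)).IsAcyclic := by
  intro v c hc
  have hstep : ∃ y, (confGraph (eta B A ω)).Adj v y := by
    cases c with
    | nil => exact absurd hc (by simp)
    | cons h p => exact ⟨_, h⟩
  obtain ⟨y, hy⟩ := hstep
  obtain ⟨j, h1, -, z, hz, -⟩ := PEta_edge B A hAB hAg ω hy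
  have htr := PEta_walk B A hAB hAg ω hz c h1
  exact h j z hz (c.transfer _ htr) (hc.transfer htr)

end Pool.Agent.MP_46876e_al_PP
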