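import Pool.Agent.Lib.MP_46876e_al_PP.PDefs

/-!
# MP_46876e_al, project PP, module PPt: the law of one sample point
-/

set_option autoImplicit false

noncomputable section

namespace Pool.Agent.MP_46876e_al_PP

open MeasureTheory MulOpposite Filter Topology Pool.Agent.Forest46876e
open scoped ENNReal

variable {Z : Type*} [MeasurableSpace Z]

private theorem inl_emb : MeasurableEmbedding (Sum.inl : Z → Z ⊕ Unit) where
  injective := Sum.inl_injective
  measurable := measurable_inl
  measurableSet_image' := fun _ hs => hs.inl_image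

private theorem inl_map_apply (μ : Measure Z) (T : Set (Z ⊕ Unit)) :
    (μ.map Sum.inl) T = μ (Sum.inl ⁻¹' T) :=
  inl_emb.map_apply μ T

private theorem ptLaw_of_notMem (ζ : Measure Z) (U : Set Z) (N : ℕ) (T : Set (Z ⊕ Unit))
    (h1 : Sum.inr () ∉ T) :
    ptLaw ζ U N T = (ζ.restrict U) (Sum.inl ⁻¹' T) / N := by
  have e : (Sum.inr () : Z ⊕ Unit) ∉ T := h1
  rw [ptLaw, Measure.add_apply, Measure.smul_apply, Measure.smul_apply, inl_map_apply,
    smul_eq_mul, smul_eq_mul]
  have hd : Measure.dirac (Sum.inr () : Z ⊕ Unit) T = 0 := by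
    have hm : MeasurableSet (Set.range (Sum.inl : Z → Z ⊕ Unit)) := measurableSet_range_inl
    refine measure_mono_null (t := Set.range (Sum.inl : Z → Z ⊕ Unit)) ?_ ?_
    · rintro (x | x) hx
      · exact ⟨x, rfl⟩
      · exact absurd hx e
    · rw [Measure.dirac_apply' _ hm]
      simp
  rw [hd, mul_zero, add_zero, ENNReal.div_eq_inv_mul]

theorem ptLaw_prob (ζ : Measure Z) (U : Set Z) (N : ℕ) (hN : N ≠ 0) (hU : ζ U ≤ N) :
    IsProbabilityMeasure (ptLaw ζ U N) := by
  refine ⟨?_⟩
  rw [ptLaw, Measure.add_apply, Measure.smul_apply, Measure.smul_apply, inl_map_apply,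
    Set.preimage_univ, Measure.restrict_apply_univ, measure_univ, smul_eq_mul, smul_eq_mul,
    mul_one, ← ENNReal.div_eq_inv_mul]
  refine add_tsub_cancel_of_le ?_
  exact ENNReal.div_le_of_le_mul (by rwa [one_mul])

/-- Proof: `Sum.inl` is a measurable embedding. -/
theorem ptLaw_apply (ζ : Measure Z) (U : Set Z) (N : ℕ) (A : Set Z) (hA : MeasurableSet A)
    (hAU : A ⊆ U) : ptLaw ζ U N (Sum.inl '' A) = ζ A / N := by
  have e : (Sum.inl : Z → Z ⊕ Unit) ⁻¹' (Sum.inl '' A) = A :=
    Set.preimage_image_eq A Sum.inl_injective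
  rw [ptLaw_of_notMem ζ U N _ (by simp), e, Measure.restrict_apply hA,
    Set.inter_eq_self_of_subset_left hAU]

theorem ptLaw_null (ζ : Measure Z) (U : Set Z) (N : ℕ) (A : Set Z) (hA : ζ A = 0) :
    ptLaw ζ U N (Sum.inl '' A) = 0 := by
  have e : (Sum.inl : Z → Z ⊕ Unit) ⁻¹' (Sum.inl '' A) = A :=
    Set.preimage_image_eq A Sum.inl_injective
  have h : (ζ.restrict U) A = 0 := Measure.absolutelyContinuous_of_le Measure.restrict_le_self hA
  rw [ptLaw_of_notMem ζ U N _ (by simp), e, h, ENNReal.zero_div]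

/-- Proof: `Q` is finite with measurable points: compare the masses of the points `q`. For
`q ≠ c (inr ())` the preimage is `Sum.inl '' {z | c (inl z) = q}` with `{z | ...} ⊆ U`, and
`ptLaw_apply`; both laws are probability measures, so the mass of the remaining point
`c (inr ())` is the same (complement). -/
theorem ptLaw_map_eq {Q : Type*} [Finite Q] [MeasurableSpace Q] [MeasurableSingletonClass Q]
    (ζ : Measure Z) (U : Set Z) (N : ℕ) (hN : N ≠ 0) (hU : ζ U ≤ N) (c c' : Z ⊕ Unit → Q)
    (hc : Measurable c) (hc' : Measurable c') (h0 : c (Sum.inr ()) = c' (Sum.inr ()))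
    (h1 : ∀ z, c (Sum.inl z) ≠ c (Sum.inr ()) → z ∈ U)
    (h2 : ∀ z, c' (Sum.inl z) ≠ c' (Sum.inr ()) → z ∈ U)
    (h3 : ∀ q, q ≠ c (Sum.inr ()) → ζ {z | c (Sum.inl z) = q} = ζ {z | c' (Sum.inl z) = q}) :
    (ptLaw ζ U N).map c = (ptLaw ζ U N).map c' := by
  have hp := ptLaw_prob ζ U N hN hU
  have hp1 : IsProbabilityMeasure ((ptLaw ζ U N).map c) :=
    Measure.isProbabilityMeasure_map hc.aemeasurable
  have hp2 : IsProbabilityMeasure ((ptLaw ζ U N).map c') :=
    Measure.isProbabilityMeasure_map hc'.aemeasurable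
  -- the mass of a point `q ≠ c (inr ())`
  have key : ∀ (d : Z ⊕ Unit → Q), Measurable d →
      (∀ z, d (Sum.inl z) ≠ d (Sum.inr ()) → z ∈ U) → ∀ q, q ≠ d (Sum.inr ()) →
      (ptLaw ζ U N).map d {q} = ζ {z | d (Sum.inl z) = q} / N := by
    intro d hd h q hq
    rw [Measure.map_apply hd (measurableSet_singleton q)]
    have e : d ⁻¹' {q} = Sum.inl '' {z | d (Sum.inl z) = q} := by
      ext x
      rcases x with z | u
      · simp
      · simp only [Set.mem_preimage, Set.mem_singleton_iff, Set.mem_image, Set.mem_ofPred_eq,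
          reduceCtorEq, and_false, exists_false, iff_false]
        exact fun h' => hq h'.symm
    rw [e]
    refine ptLaw_apply ζ U N _ ?_ ?_
    · exact (hd.comp measurable_inl) (measurableSet_singleton q)
    · intro z hz
      have hz' : d (Sum.inl z) = q := hz
      exact h z (by rw [hz']; exact hq)
  have hq1 : ∀ q, q ≠ c (Sum.inr ()) →
      (ptLaw ζ U N).map c {q} = (ptLaw ζ U N).map c' {q} := by
    intro q hq
    rw [key c hc h1 q hq, key c' hc' h2 q (h0 ▸ hq), h3 q hq]
  -- the complement of the remaining point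
  have hcompl : (ptLaw ζ U N).map c {c (Sum.inr ())}ᶜ =
      (ptLaw ζ U N).map c' {c (Sum.inr ())}ᶜ := by
    have hfin : ({c (Sum.inr ())}ᶜ : Set Q).Finite := Set.toFinite _
    rw [← hfin.coe_toFinset, ← sum_measure_singleton, ← sum_measure_singleton]
    refine Finset.sum_congr rfl fun q hq => hq1 q ?_
    simpa using hq
  refine Measure.ext_of_singleton ?_
  intro q
  by_cases hq : q = c (Sum.inr ())
  · subst hq
    have e1 := prob_compl_eq_one_sub (μ := (ptLaw ζ U N).map c)
      (measurableSet_singleton (c (Sum.inr ()))).compl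
    have e2 := prob_compl_eq_one_sub (μ := (ptLaw ζ U N).map c')
      (measurableSet_singleton (c (Sum.inr ()))).compl
    rw [compl_compl] at e1 e2
    rw [e1, e2, hcompl]
  · exact hq1 q hq

end Pool.Agent.MP_46876e_al_PP
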