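import Pool.Agent.Lib.MP_46876e_al_PP.PDefs

/-!
# MP_46876e_al, project PP, module PSamp: independent sample points
-/

set_option autoImplicit false

noncomputable section

namespace Pool.Agent.MP_46876e_al_PP

open MeasureTheory MulOpposite Filter Topology Pool.Agent.Forest46876e
open scoped ENNReal

variable {Ω Q : Type*} [MeasurableSpace Ω] [MeasurableSpace Q]

/-- Proof: `Measure.pi_map_pi`: the law of `(c (ω j))_j` is the product of the laws `π.map c`. -/
theorem pi_law_eq (π : Measure Ω) [IsProbabilityMeasure π] (N : ℕ) (c c' : Ω → Q)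
    (hc : Measurable c) (hc' : Measurable c') (h : π.map c = π.map c') (E : Set (Fin N → Q))
    (hE : MeasurableSet E) :
    Measure.pi (fun _ : Fin N => π) {ω | (fun j => c (ω j)) ∈ E} =
      Measure.pi (fun _ : Fin N => π) {ω | (fun j => c' (ω j)) ∈ E} := by
  have key : ∀ d : Ω → Q, Measurable d →
      Measure.pi (fun _ : Fin N => π) {ω | (fun j => d (ω j)) ∈ E} =
        Measure.pi (fun _ : Fin N => π.map d) E := by
    intro d hd
    have : IsProbabilityMeasure (π.map d) := Measure.isProbabilityMeasure_map hd.aemeasurable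
    have h1 : (Measure.pi (fun _ : Fin N => π)).map (fun (ω : Fin N → Ω) j => d (ω j)) =
        Measure.pi (fun _ : Fin N => π.map d) :=
      Measure.pi_map_pi (fun _ => hd.aemeasurable)
    have hm : Measurable (fun (ω : Fin N → Ω) (j : Fin N) => d (ω j)) :=
      measurable_pi_lambda _ fun j => hd.comp (measurable_pi_apply j)
    rw [← h1, Measure.map_apply hm hE]
    rfl
  rw [key c hc, key c' hc', h]

/-- Proof: the set is the disjoint union over `j` of the boxes `{ω | ω j ∈ D, ω j' ∉ V for j' ≠ j}`
(disjoint because `D ⊆ V`), and `Measure.pi_pi` gives `π D * (π Vᶜ) ^ (N - 1)` for each box. -/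
theorem one_hit (π : Measure Ω) [IsProbabilityMeasure π] (N : ℕ) (D V : Set Ω)
    (hD : MeasurableSet D) (hV : MeasurableSet V) (hDV : D ⊆ V) :
    Measure.pi (fun _ : Fin N => π) {ω | ∃ j, ω j ∈ D ∧ ∀ j', j' ≠ j → ω j' ∉ V} =
      N * (π D * (π Vᶜ) ^ (N - 1)) := by
  classical
  have h1 : {ω : Fin N → Ω | ∃ j, ω j ∈ D ∧ ∀ j', j' ≠ j → ω j' ∉ V} =
      ⋃ j : Fin N, Set.pi Set.univ (fun j' => if j' = j then D else Vᶜ) := by
    ext ω
    simp only [Set.mem_ofPred_eq, Set.mem_iUnion, Set.mem_pi, Set.mem_univ, true_implies]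
    refine exists_congr fun j => ⟨fun hj j' => ?_, fun hj => ⟨?_, fun j' hj' => ?_⟩⟩
    · by_cases hjj : j' = j
      · rw [if_pos hjj, hjj]
        exact hj.1
      · rw [if_neg hjj]
        exact hj.2 j' hjj
    · have h2 := hj j
      rwa [if_pos rfl] at h2
    · have h2 := hj j'
      rwa [if_neg hj'] at h2
  have hdisj : Pairwise (Function.onFun Disjoint
      (fun j : Fin N => Set.pi Set.univ (fun j' : Fin N => if j' = j then D else Vᶜ))) := by
    intro j k hjk
    rw [Function.onFun, Set.disjoint_left]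
    intro ω hω hω'
    have h2 := hω j (Set.mem_univ _)
    have h3 := hω' j (Set.mem_univ _)
    simp only [if_true] at h2
    simp only [if_neg hjk] at h3
    exact h3 (hDV h2)
  have hmeas : ∀ j : Fin N, MeasurableSet
      (Set.pi Set.univ (fun j' : Fin N => if j' = j then D else Vᶜ)) := by
    intro j
    refine MeasurableSet.univ_pi fun j' => ?_
    split_ifs
    · exact hD
    · exact hV.compl
  have hbox : ∀ j : Fin N, Measure.pi (fun _ : Fin N => π)
      (Set.pi Set.univ (fun j' : Fin N => if j' = j then D else Vᶜ)) =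
        π D * (π Vᶜ) ^ (N - 1) := by
    intro j
    rw [Measure.pi_pi, ← Finset.mul_prod_erase Finset.univ _ (Finset.mem_univ j), if_pos rfl]
    congr 1
    rw [Finset.prod_congr rfl (fun x hx => by rw [if_neg (Finset.ne_of_mem_erase hx)]),
      Finset.prod_const, Finset.card_erase_of_mem (Finset.mem_univ j), Finset.card_univ,
      Fintype.card_fin]
  rw [h1, measure_iUnion hdisj hmeas, tsum_fintype, Finset.sum_congr rfl fun j _ => hbox j,
    Finset.sum_const, Finset.card_univ, Fintype.card_fin, nsmul_eq_mul]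

end Pool.Agent.MP_46876e_al_PP
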