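import Pool.Agent.Lib.MP_46876e_al_PP.PDefs
import Pool.Agent.Lib.MP_46876e_al_PP.PEta
import Pool.Agent.Lib.MP_46876e_al_PP.PPt
import Pool.Agent.Lib.MP_46876e_al_PP.PSamp

/-!
# MP_46876e_al, project PP, module PEtaMeas: measurability of eta, almost sure forests
-/

set_option autoImplicit false

noncomputable section

namespace Pool.Agent.MP_46876e_al_PP

open MeasureTheory MulOpposite Filter Topology Pool.Agent.Forest46876e
open scoped ENNReal

variable {G Z : Type*} [Group G] [MeasurableSpace Z] [MulAction Gᵐᵒᵖ Z]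

/-- Proof: `{o | Sees x S o} = Sum.inl '' {z | op x • z ∈ S}`. -/
theorem measurableSet_sees (hm : ∀ g : G, Measurable (fun z : Z => op g • z)) (x : G)
    (S : Set Z) (hS : MeasurableSet S) : MeasurableSet {o : Z ⊕ Unit | Sees x S o} := by
  have h : {o : Z ⊕ Unit | Sees x S o} = Sum.inl '' {z | op x • z ∈ S} := by
    ext o
    constructor
    · rintro ⟨z, hz, hzS⟩
      exact ⟨z, hzS, hz.symm⟩
    · rintro ⟨z, hzS, hz⟩
      exact ⟨z, hz.symm, hzS⟩
  rw [h]
  exact (hm x hS).inl_image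

/-- Proof: coordinatewise (`measurable_pi_iff`), `measurableSet_sees`, finite unions and
intersections over `Fin N`. -/
theorem measurable_eta (hm : ∀ g : G, Measurable (fun z : Z => op g • z)) (B : Set Z)
    (hB : MeasurableSet B) (A : G → Set Z) (hA : ∀ g, MeasurableSet (A g)) (N : ℕ) :
    Measurable (fun ω : Fin N → Z ⊕ Unit => eta B A ω) := by
  have hwin : ∀ g : G, MeasurableSet (Win B g) := fun g => hB.union (hm g hB)
  have hs : ∀ (x : G) (S : Set Z) (j : Fin N), MeasurableSet S →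
      MeasurableSet {ω : Fin N → Z ⊕ Unit | Sees x S (ω j)} := fun x S j hS =>
    (measurable_pi_apply (X := fun _ : Fin N => Z ⊕ Unit) j) (measurableSet_sees hm x S hS)
  change Measurable (fun ω : Fin N → Z ⊕ Unit => (eta B A ω : G × G → Bool))
  refine measurable_pi_iff.2 fun p => measurable_to_bool ?_
  have h : (fun ω : Fin N → Z ⊕ Unit => eta B A ω p) ⁻¹' {true} =
      ⋃ j, ({ω | Sees p.1 (A p.2) (ω j)} ∩
        ⋂ j', ⋂ _ : j' ≠ j, {ω | Sees p.1 (Win B p.2) (ω j')}ᶜ) := by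
    ext ω
    simp only [Set.mem_preimage, Set.mem_singleton_iff, eta_eq_true, Set.mem_iUnion,
      Set.mem_inter_iff, Set.mem_setOf_eq, Set.mem_iInter, Set.mem_compl_iff]
  rw [h]
  refine MeasurableSet.iUnion fun j => (hs _ _ _ (hA _)).inter ?_
  exact MeasurableSet.iInter fun j' => MeasurableSet.iInter fun _ => (hs _ _ _ (hwin _)).compl

/-- Proof: the set of bad `z` is `ζ`-null, so (`ptLaw_null`) for each `j` the set of `ω` with `ω j`
bad is null (`Measure.pi`: the map `ω ↦ ω j` is measure preserving, or `ae_eval`), finite union,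
`eta_acyclic`. -/
theorem eta_ae_acyclic (ζ : Measure Z) (U : Set Z) (N : ℕ) (hN : N ≠ 0) (hU : ζ U ≤ N)
    (B : Set Z) (A : G → Set Z) (hAB : ∀ g, A g ⊆ B) (hAg : ∀ g, ∀ z ∈ A g, op g • z ∈ B)
    (hac : ∀ᵐ z ∂ζ, (orbGraph A z).IsAcyclic) :
    ∀ᵐ ω ∂(sampLaw ζ U N), (confGraph (eta B A ω)).IsAcyclic := by
  have := ptLaw_prob ζ U N hN hU
  have h1 : ∀ᵐ o ∂(ptLaw ζ U N), ∀ z, o = Sum.inl z → (orbGraph A z).IsAcyclic := by
    rw [ae_iff]
    refine measure_mono_null ?_ (ptLaw_null ζ U N {z | ¬ (orbGraph A z).IsAcyclic} hac)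
    intro o ho
    simp only [Set.mem_setOf_eq, not_forall] at ho
    obtain ⟨z, hz, hbad⟩ := ho
    exact ⟨z, hbad, hz.symm⟩
  have h2 : ∀ j : Fin N, ∀ᵐ ω ∂(sampLaw ζ U N),
      ∀ z, ω j = Sum.inl z → (orbGraph A z).IsAcyclic := fun j =>
    (Measure.tendsto_eval_ae_ae (μ := fun _ : Fin N => ptLaw ζ U N) (i := j)).eventually h1
  filter_upwards [ae_all_iff.2 h2] with ω hω
  exact eta_acyclic B A hAB hAg ω hω

end Pool.Agent.MP_46876e_al_PP
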