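import Pool.Agent.Lib.MP_46876e_al_PP.PDefs
import Pool.Agent.Lib.MP_46876e_al_PP.PPt
import Pool.Agent.Lib.MP_46876e_al_PP.PSamp
import Pool.Agent.Lib.MP_46876e_al_PP.PEtaMeas

/-!
# MP_46876e_al, project PP, module PEtaMass: lower bound for the mass of an edge
-/

set_option autoImplicit false

noncomputable section

namespace Pool.Agent.MP_46876e_al_PP

open MeasureTheory MulOpposite Filter Topology Pool.Agent.Forest46876e
open scoped ENNReal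

private theorem pow_bound_real (N : ℕ) (hN : 4 ≤ N) :
    (1 / 16 : ℝ) ≤ (1 - 2 / (N : ℝ)) ^ (N - 1) := by
  have hN' : (4 : ℝ) ≤ N := by exact_mod_cast hN
  have hNpos : (0 : ℝ) < N := by linarith
  have h2 : 2 / (N : ℝ) ≤ 1 / 2 := by
    rw [div_le_div_iff₀ hNpos (by norm_num)]
    linarith
  have h2' : 0 < 2 / (N : ℝ) := by positivity
  have hb0 : 0 ≤ 1 - 2 / (N : ℝ) := by linarith
  have hb1 : 1 - 2 / (N : ℝ) ≤ 1 := by linarith
  have hB : 1 + (N / 4 : ℝ) * (-(2 / (N : ℝ))) ≤ (1 + -(2 / (N : ℝ))) ^ (N / 4 : ℝ) :=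
    one_add_mul_self_le_rpow_one_add (by linarith) (by linarith)
  have hB' : (1 / 2 : ℝ) ≤ (1 - 2 / (N : ℝ)) ^ (N / 4 : ℝ) := by
    have e : 1 + (N / 4 : ℝ) * (-(2 / (N : ℝ))) = 1 / 2 := by
      field_simp
      ring
    rw [e] at hB
    simpa [sub_eq_add_neg] using hB
  have h4 : (1 / 16 : ℝ) ≤ ((1 - 2 / (N : ℝ)) ^ (N / 4 : ℝ)) ^ 4 := by
    have := pow_le_pow_left₀ (by norm_num : (0 : ℝ) ≤ 1 / 2) hB' 4
    calc (1 / 16 : ℝ) = (1 / 2) ^ 4 := by norm_num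
      _ ≤ _ := this
  have h5 : ((1 - 2 / (N : ℝ)) ^ (N / 4 : ℝ)) ^ 4 = (1 - 2 / (N : ℝ)) ^ N := by
    rw [← Real.rpow_natCast, ← Real.rpow_mul hb0, ← Real.rpow_natCast]
    congr 1
    push_cast
    ring
  rw [h5] at h4
  exact h4.trans (pow_le_pow_of_le_one hb0 hb1 (Nat.sub_le N 1))

/-- Proof: `1 - t ≥ 4^(-t)` for `0 ≤ t ≤ 1/2` (concavity of `log`, or Bernoulli), so with
`t = v / N ≤ 2 / N ≤ 1 / 2`, `(1 - v/N)^(N-1) ≥ (1 - 2/N)^N ≥ 4^(-2) = 1/16`. Another way: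
`(1 - 2/N)^N` is increasing in `N ≥ 4` with value `1/16` at `N = 4`: Bernoulli / AM-GM
(`inner_le_nnorm_mul_nnorm` not needed). -/
theorem pow_bound (N : ℕ) (hN : 4 ≤ N) (v : ℝ≥0∞) (hv : v ≤ 2) :
    1 / 16 ≤ (1 - v / N) ^ (N - 1) := by
  have hN' : (4 : ℝ) ≤ N := by exact_mod_cast hN
  have hNpos : (0 : ℝ) < N := by linarith
  have h1 : ENNReal.ofReal (1 - 2 / (N : ℝ)) ≤ 1 - v / N := by
    rw [ENNReal.ofReal_sub _ (by positivity), ENNReal.ofReal_one,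
      ENNReal.ofReal_div_of_pos hNpos, ENNReal.ofReal_natCast, ENNReal.ofReal_ofNat]
    exact tsub_le_tsub_left (ENNReal.div_le_div_right hv _) _
  have h2 : ENNReal.ofReal (1 / 16) ≤ ENNReal.ofReal ((1 - 2 / (N : ℝ)) ^ (N - 1)) :=
    ENNReal.ofReal_le_ofReal (pow_bound_real N hN)
  have hb0 : 0 ≤ 1 - 2 / (N : ℝ) := by
    have h2 : 2 / (N : ℝ) ≤ 1 / 2 := by
      rw [div_le_div_iff₀ hNpos (by norm_num)]
      linarith
    linarith
  rw [ENNReal.ofReal_pow hb0] at h2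
  have h3 : ENNReal.ofReal (1 / 16) = 1 / 16 := by
    rw [ENNReal.ofReal_div_of_pos (by norm_num), ENNReal.ofReal_one, ENNReal.ofReal_ofNat]
  rw [h3] at h2
  exact h2.trans (pow_le_pow_left₀ zero_le h1 _)

variable {G Z : Type*} [Group G] [MeasurableSpace Z] [MulAction Gᵐᵒᵖ Z]

omit [MeasurableSpace Z] in
private theorem sees_one_iff (S : Set Z) (o : Z ⊕ Unit) :
    Sees (1 : G) S o ↔ o ∈ (Sum.inl '' S : Set (Z ⊕ Unit)) := by
  unfold Sees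
  constructor
  · rintro ⟨z, rfl, hz⟩
    rw [op_one, one_smul] at hz
    exact ⟨z, hz, rfl⟩
  · rintro ⟨z, hz, rfl⟩
    refine ⟨z, rfl, ?_⟩
    rw [op_one, one_smul]
    exact hz

/-- Proof: `op 1 • z = z`; the set is
`{ω | ∃ j, ω j ∈ inl '' A g ∧ ∀ j' ≠ j, ω j' ∉ inl '' Win B g}`;
`one_hit` and `ptLaw_apply` give `N * (ζ (A g) / N * (1 - ζ (Win B g) / N) ^ (N - 1))`;
`ζ (Win B g) ≤ ζ B + ζ {z | op g • z ∈ B} = 2 ζ B ≤ 2` and `pow_bound`. (`ζ (A g) ≤ ζ B ≤ 1` is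
finite.) -/
theorem eta_mass (ζ : Measure Z) (hmp : ∀ g : G, MeasurePreserving (fun z : Z => op g • z) ζ ζ)
    (U : Set Z) (hUm : MeasurableSet U) (N : ℕ) (hN : 4 ≤ N) (hU : ζ U ≤ N) (B : Set Z)
    (hB : MeasurableSet B) (hB1 : ζ B ≤ 1) (A : G → Set Z) (hA : ∀ g, MeasurableSet (A g))
    (hAB : ∀ g, A g ⊆ B) (g : G) (hg : Win B g ⊆ U) :
    ζ (A g) / 16 ≤ sampLaw ζ U N {ω | eta B A ω (1, g) = true} := by
  have hN0 : N ≠ 0 := by omega
  have := ptLaw_prob ζ U N hN0 hU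
  have hWm : MeasurableSet (Win B g) := hB.union ((hmp g).measurable hB)
  have hset : {ω : Fin N → Z ⊕ Unit | eta B A ω (1, g) = true} =
      {ω | ∃ j, ω j ∈ (Sum.inl '' A g : Set (Z ⊕ Unit)) ∧
        ∀ j', j' ≠ j → ω j' ∉ (Sum.inl '' Win B g : Set (Z ⊕ Unit))} := by
    ext ω
    rw [Set.mem_ofPred_eq, Set.mem_ofPred_eq, eta_eq_true]
    simp only [sees_one_iff]
  have hAW : A g ⊆ Win B g := fun z hz => Or.inl (hAB g hz)
  have hm := one_hit (ptLaw ζ U N) N (Sum.inl '' A g) (Sum.inl '' Win B g)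
    (hA g).inl_image hWm.inl_image (Set.image_mono hAW)
  have hW2 : ζ (Win B g) ≤ 2 := by
    have h1 : ζ (Win B g) ≤ ζ B + ζ ((fun z : Z => op g • z) ⁻¹' B) := measure_union_le _ _
    rw [(hmp g).measure_preimage hB.nullMeasurableSet] at h1
    calc ζ (Win B g) ≤ ζ B + ζ B := h1
      _ ≤ 1 + 1 := add_le_add hB1 hB1
      _ = 2 := one_add_one_eq_two
  have hpb := pow_bound N hN (ζ (Win B g)) hW2
  unfold sampLaw
  rw [hset, hm, ptLaw_apply ζ U N (A g) (hA g) (hAW.trans hg),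
    prob_compl_eq_one_sub hWm.inl_image, ptLaw_apply ζ U N (Win B g) hWm hg, ← mul_assoc,
    ENNReal.mul_div_cancel (by exact_mod_cast hN0) (ENNReal.natCast_ne_top N)]
  calc ζ (A g) / 16 = ζ (A g) * (1 / 16) := by rw [one_div, div_eq_mul_inv]
    _ ≤ _ := mul_le_mul_right hpb _

end Pool.Agent.MP_46876e_al_PP
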