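import Pool.Agent.Lib.MP_46876e_al_PP.PDefs

/-!
# MP_46876e_al, project PP, module PLim: limit measure along an ultrafilter
-/

set_option autoImplicit false

noncomputable section

namespace Pool.Agent.MP_46876e_al_PP

open MeasureTheory MulOpposite Filter Topology Pool.Agent.Forest46876e
open scoped ENNReal

/-- Proof: `u = Filter.hyperfilter ℕ` (`≤ atTop`: `Nat.hyperfilter_le_atTop`). The instance
`CompactSpace (ProbabilityMeasure E)` (Mathlib.MeasureTheory.Measure.Prokhorov) gives a limit `τ` of
the ultrafilter `u.map θ` (`isCompact_univ.ultrafilter_le_nhds`). For a clopen `C` the indicator is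
a bounded continuous function (`IsClopen.continuous_indicator` or by hand), so its integral, resp.
lintegral, converges (`ProbabilityMeasure.tendsto_iff_forall_lintegral_tendsto`, or
`tendsto_iff_forall_integral_tendsto`), and this is the measure of `C`. -/
theorem exists_limit {E : Type*} [TopologicalSpace E] [CompactSpace E] [T2Space E]
    [MeasurableSpace E] [BorelSpace E] (θ : ℕ → Measure E)
    (hθ : ∀ n, IsProbabilityMeasure (θ n)) :
    ∃ (τ : Measure E) (u : Ultrafilter ℕ), IsProbabilityMeasure τ ∧ (u : Filter ℕ) ≤ atTop ∧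
      ∀ C : Set E, IsClopen C → Tendsto (fun n => θ n C) u (𝓝 (τ C)) := by
  obtain ⟨Θ, hΘ⟩ : ∃ Θ : ℕ → ProbabilityMeasure E, ∀ n, (Θ n : Measure E) = θ n :=
    ⟨fun n => ⟨θ n, hθ n⟩, fun n => rfl⟩
  obtain ⟨τ, -, hτ⟩ := (isCompact_univ (X := ProbabilityMeasure E)).ultrafilter_le_nhds
    ((Filter.hyperfilter ℕ).map Θ) (by simp)
  refine ⟨τ, Filter.hyperfilter ℕ, inferInstance, Nat.hyperfilter_le_atTop, fun C hC => ?_⟩
  have ht : Tendsto Θ (Filter.hyperfilter ℕ : Filter ℕ) (𝓝 τ) := hτ
  rw [ProbabilityMeasure.tendsto_iff_forall_lintegral_tendsto] at ht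
  have hcont : Continuous (C.indicator fun _ => (1 : NNReal)) :=
    continuous_const.indicator fun a ha => by
      rw [hC.frontier_eq] at ha
      exact absurd ha (Set.notMem_empty a)
  have h2 := ht (BoundedContinuousFunction.mkOfCompact ⟨_, hcont⟩)
  have h3 : ∀ μ : Measure E,
      ∫⁻ x, ((BoundedContinuousFunction.mkOfCompact
        (⟨C.indicator fun _ => (1 : NNReal), hcont⟩ : C(E, NNReal)) x : NNReal) : ℝ≥0∞) ∂μ =
        μ C := by
    intro μ
    rw [← lintegral_indicator_one (μ := μ) hC.isOpen.measurableSet]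
    refine lintegral_congr fun x => ?_
    rw [BoundedContinuousFunction.mkOfCompact_apply, ContinuousMap.coe_mk]
    by_cases hx : x ∈ C
    · rw [Set.indicator_of_mem hx, Set.indicator_of_mem hx]
      rfl
    · rw [Set.indicator_of_notMem hx, Set.indicator_of_notMem hx]
      rfl
  simp only [h3, hΘ] at h2
  exact h2

end Pool.Agent.MP_46876e_al_PP
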