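import Pool.Agent.Lib.MP_46876e_al_PP.PDefs
import Pool.Agent.Lib.MP_46876e_al_PP.PLim
import Pool.Agent.Lib.MP_46876e_al_PP.PExt
import Pool.Agent.Lib.MP_46876e_al_PP.PCyc
import Pool.Agent.Lib.MP_46876e_al_PP.PEtaMass
import Pool.Agent.Lib.MP_46876e_al_PP.PEtaInv

/-!
# MP_46876e_al, project PP, module PTau: the invariant law on forests
-/

set_option autoImplicit false

noncomputable section

namespace Pool.Agent.MP_46876e_al_PP

open MeasureTheory MulOpposite Filter Topology Pool.Agent.Forest46876e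
open scoped ENNReal

variable {G Z : Type*} [Group G] [MeasurableSpace Z] [MulAction Gᵐᵒᵖ Z]

private theorem PTau_win_meas (ζ : Measure Z)
    (hmp : ∀ g : G, MeasurePreserving (fun z : Z => op g • z) ζ ζ) (B : Set Z)
    (hB : MeasurableSet B) (g : G) : MeasurableSet (Win B g) := by
  have h : Win B g = B ∪ (fun z : Z => op g • z) ⁻¹' B := rfl
  rw [h]
  exact hB.union ((hmp g).measurable hB)

private theorem PTau_win_le (ζ : Measure Z)
    (hmp : ∀ g : G, MeasurePreserving (fun z : Z => op g • z) ζ ζ) (B : Set Z)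
    (hB : MeasurableSet B) (hB1 : ζ B ≤ 1) (x g : G) :
    ζ {z | op x • z ∈ Win B g} ≤ 2 := by
  have h1 : ζ {z | op x • z ∈ Win B g} = ζ (Win B g) :=
    (hmp x).measure_preimage (PTau_win_meas ζ hmp B hB g).nullMeasurableSet
  have h2 : ζ ((fun z : Z => op g • z) ⁻¹' B) = ζ B :=
    (hmp g).measure_preimage hB.nullMeasurableSet
  rw [h1]
  calc ζ (Win B g) ≤ ζ B + ζ ((fun z : Z => op g • z) ⁻¹' B) := measure_union_le _ _
    _ ≤ 1 + 1 := by
        rw [h2]
        exact add_le_add hB1 hB1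
    _ = 2 := by norm_num

/-- The windows of the first `n` labels. -/
private def PTau_U (B : Set Z) (e : ℕ → G × G) (n : ℕ) : Set Z :=
  ⋃ k ∈ Finset.range n, {z | op (e k).1 • z ∈ Win B (e k).2}

private theorem PTau_U_meas (ζ : Measure Z)
    (hmp : ∀ g : G, MeasurePreserving (fun z : Z => op g • z) ζ ζ) (B : Set Z)
    (hB : MeasurableSet B) (e : ℕ → G × G) (n : ℕ) : MeasurableSet (PTau_U B e n) := by
  refine Finset.measurableSet_biUnion _ fun k _ => ?_
  exact (hmp (e k).1).measurable (PTau_win_meas ζ hmp B hB (e k).2)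

private theorem PTau_U_le (ζ : Measure Z)
    (hmp : ∀ g : G, MeasurePreserving (fun z : Z => op g • z) ζ ζ) (B : Set Z)
    (hB : MeasurableSet B) (hB1 : ζ B ≤ 1) (e : ℕ → G × G) (n : ℕ) :
    ζ (PTau_U B e n) ≤ ((2 * n + 4 : ℕ) : ℝ≥0∞) := by
  calc ζ (PTau_U B e n) ≤ ∑ k ∈ Finset.range n, ζ {z | op (e k).1 • z ∈ Win B (e k).2} :=
        measure_biUnion_finset_le _ _
    _ ≤ ∑ _k ∈ Finset.range n, 2 :=
        Finset.sum_le_sum fun k _ => PTau_win_le ζ hmp B hB hB1 _ _
    _ = ((2 * n : ℕ) : ℝ≥0∞) := by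
        rw [Finset.sum_const, Finset.card_range, nsmul_eq_mul]
        push_cast
        ring
    _ ≤ _ := by exact_mod_cast Nat.le_add_right _ _

omit [MeasurableSpace Z] in
private theorem PTau_mem (B : Set Z) (e : ℕ → G × G) {n k : ℕ} (hk : k < n) {t : G × G}
    (ht : e k = t) {z : Z} (hz : op t.1 • z ∈ Win B t.2) : z ∈ PTau_U B e n := by
  refine Set.mem_biUnion (Finset.mem_coe.2 (Finset.mem_range.2 hk)) ?_
  rw [Set.mem_ofPred_eq, ht]
  exact hz

/-- The laws of the samples. -/
private def PTau_law (ζ : Measure Z) (B : Set Z) (A : G → Set Z) (e : ℕ → G × G) (n : ℕ) :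
    Measure (Conf G) :=
  (sampLaw ζ (PTau_U B e n) (2 * n + 4)).map
    (fun ω : Fin (2 * n + 4) → Z ⊕ Unit => eta B A ω)

private theorem PTau_law_apply [Countable G] (ζ : Measure Z)
    (hmp : ∀ g : G, MeasurePreserving (fun z : Z => op g • z) ζ ζ) (B : Set Z)
    (hB : MeasurableSet B) (A : G → Set Z) (hA : ∀ g, MeasurableSet (A g))
    (e : ℕ → G × G) (n : ℕ) (C : Set (Conf G)) (hC : MeasurableSet C) :
    PTau_law ζ B A e n C =
      sampLaw ζ (PTau_U B e n) (2 * n + 4) {ω | eta B A ω ∈ C} :=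
  Measure.map_apply (measurable_eta (fun g => (hmp g).measurable) B hB A hA _) hC

private theorem PTau_cyl_smul (T : Finset (G × G)) (s : G × G → Bool) (g : G) :
    IsClopen {η : Conf G | ∀ t ∈ T, η (g * t.1, t.2) = s t} := by
  classical
  have h : {η : Conf G | ∀ t ∈ T, η (g * t.1, t.2) = s t} =
      {η : Conf G | ∀ t ∈ T.image (fun t : G × G => (g * t.1, t.2)),
        η t = (fun t : G × G => s (g⁻¹ * t.1, t.2)) t} := by
    ext η
    simp only [Set.mem_ofPred_eq, Finset.mem_image, forall_exists_index, and_imp]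
    constructor
    · rintro H _ t ht rfl
      simpa using H t ht
    · intro H t ht
      simpa using H _ t ht rfl
  rw [h]
  exact cyl_clopen _ _

/-- Proof: enumerate `G × G` (countable, nonempty): `e : ℕ → G × G` surjective.
`U n = ⋃ k < n, {z | op (e k).1 • z ∈ Win B (e k).2}` (measurable, of finite measure: each set has
measure `≤ 2`, as `op x •` preserves `ζ`), `N n` a natural number with `4 ≤ N n`, `ζ (U n) ≤ N n`.
`θ n = (sampLaw ζ (U n) (N n)).map (eta B A)`: probability measures (`ptLaw_prob`,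
`measurable_eta`).
`exists_limit` gives `τ, u`. Acyclic: `limit_acyclic` and `eta_ae_acyclic`
(`measurableSet_acyclic` for `ae_map_iff`). Mass: `{η | η (1, g) = true}` is clopen, `eta_mass` for
`n`
large (`(1, g) = e k`, `k < n`), `ge_of_tendsto` along `u ≤ atTop`. Invariance: `conf_ext` for `τ`
and
`τ.map (op g • ·)`; the preimage of a cylinder `{η | ∀ t ∈ T, η t = s t}` under `η ↦ op g • η` is
`{η | ∀ t ∈ T, η (g * t.1, t.2) = s t}`, clopen (preimage under a continuous map, or a cylinder);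
for `n` large `eta_inv` says that the two have the same `θ n`-measure; `tendsto_nhds_unique`. -/
theorem exists_tau [Countable G] (ζ : Measure Z)
    (hmp : ∀ g : G, MeasurePreserving (fun z : Z => op g • z) ζ ζ) (B : Set Z)
    (hB : MeasurableSet B) (hB1 : ζ B ≤ 1) (A : G → Set Z) (hA : ∀ g, MeasurableSet (A g))
    (hAB : ∀ g, A g ⊆ B) (hAg : ∀ g, ∀ z ∈ A g, op g • z ∈ B)
    (hac : ∀ᵐ z ∂ζ, (orbGraph A z).IsAcyclic) :
    ∃ τ : Measure (Conf G), IsProbabilityMeasure τ ∧
      (∀ g : G, MeasurePreserving (fun η : Conf G => op g • η) τ τ) ∧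
      (∀ᵐ η ∂τ, (confGraph η).IsAcyclic) ∧
      ∀ g, ζ (A g) / 16 ≤ τ {η | η (1, g) = true} := by
  obtain ⟨e, he⟩ := exists_surjective_nat (G × G)
  have hm : ∀ g : G, Measurable (fun z : Z => op g • z) := fun g => (hmp g).measurable
  have hUle := PTau_U_le ζ hmp B hB hB1 e
  have hprob : ∀ n, IsProbabilityMeasure (PTau_law ζ B A e n) := by
    intro n
    have h1 : IsProbabilityMeasure (ptLaw ζ (PTau_U B e n) (2 * n + 4)) :=
      ptLaw_prob ζ _ _ (by omega) (hUle n)
    have h2 : IsProbabilityMeasure (sampLaw ζ (PTau_U B e n) (2 * n + 4)) := by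
      unfold sampLaw
      infer_instance
    exact Measure.isProbabilityMeasure_map (measurable_eta hm B hB A hA _).aemeasurable
  obtain ⟨τ, u, hτ, hu, hlim⟩ := exists_limit (PTau_law ζ B A e) hprob
  have hev : ∀ t : G × G, ∀ᶠ n in (u : Filter ℕ), ∀ z : Z, op t.1 • z ∈ Win B t.2 →
      z ∈ PTau_U B e n := by
    intro t
    obtain ⟨k, hk⟩ := he t
    filter_upwards [hu (eventually_gt_atTop k)] with n hn z hz
    exact PTau_mem B e hn hk hz
  refine ⟨τ, hτ, ?_, ?_, ?_⟩
  · intro g
    refine ⟨measurable_conf_smul g, ?_⟩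
    have hpm : IsProbabilityMeasure (τ.map (fun η : Conf G => op g • η)) :=
      Measure.isProbabilityMeasure_map (measurable_conf_smul g).aemeasurable
    refine conf_ext _ _ fun T s => ?_
    have hc1 := cyl_clopen T s
    have hc2 := PTau_cyl_smul T s g
    have hm1 : MeasurableSet {η : Conf G | ∀ t ∈ T, η t = s t} := hc1.1.measurableSet
    have hm2 : MeasurableSet {η : Conf G | ∀ t ∈ T, η (g * t.1, t.2) = s t} :=
      hc2.1.measurableSet
    rw [Measure.map_apply (measurable_conf_smul g) hm1]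
    have hpre : (fun η : Conf G => op g • η) ⁻¹' {η | ∀ t ∈ T, η t = s t} =
        {η : Conf G | ∀ t ∈ T, η (g * t.1, t.2) = s t} := rfl
    rw [hpre]
    refine tendsto_nhds_unique (hlim _ hc2) ((hlim _ hc1).congr' ?_)
    have h1 : ∀ᶠ n in (u : Filter ℕ), ∀ t ∈ T, ∀ z : Z, op t.1 • z ∈ Win B t.2 →
        z ∈ PTau_U B e n :=
      (Filter.eventually_all_finset T).2 fun t _ => hev t
    have h2 : ∀ᶠ n in (u : Filter ℕ), ∀ t ∈ T, ∀ z : Z, op (g * t.1) • z ∈ Win B t.2 →
        z ∈ PTau_U B e n :=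
      (Filter.eventually_all_finset T).2 fun t _ => hev (g * t.1, t.2)
    filter_upwards [h1, h2] with n hn1 hn2
    rw [PTau_law_apply ζ hmp B hB A hA e n _ hm1,
      PTau_law_apply ζ hmp B hB A hA e n _ hm2]
    exact eta_inv ζ hmp (PTau_U B e n) (2 * n + 4) (by omega) (hUle n) B hB A hA hAB T s g
      hn1 hn2
  · refine limit_acyclic (PTau_law ζ B A e) τ u hlim fun n => ?_
    exact (ae_map_iff (measurable_eta hm B hB A hA _).aemeasurable measurableSet_acyclic).2
      (eta_ae_acyclic ζ (PTau_U B e n) (2 * n + 4) (by omega) (hUle n) B A hAB hAg hac)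
  · intro g
    have hC : IsClopen {η : Conf G | η (1, g) = true} := by
      have h := cyl_clopen ({(1, g)} : Finset (G × G)) (fun _ => true)
      simpa using h
    have hCm : MeasurableSet {η : Conf G | η (1, g) = true} := hC.1.measurableSet
    refine ge_of_tendsto (hlim _ hC) ?_
    filter_upwards [hev (1, g)] with n hn
    rw [PTau_law_apply ζ hmp B hB A hA e n _ hCm]
    refine eta_mass ζ hmp (PTau_U B e n) (PTau_U_meas ζ hmp B hB e n) (2 * n + 4) (by omega)
      (hUle n) B hB hB1 A hA hAB g fun z hz => hn z ?_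
    rw [op_one, one_smul]
    exact hz

end Pool.Agent.MP_46876e_al_PP
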