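import Pool.Agent.Lib.MP_46876e_al_PP.PDefs
import Pool.Agent.Lib.MP_46876e_al_PP.PTau
import Pool.Agent.Lib.MP_46876e_al_PP.PProd

/-!
# MP_46876e_al, project PP, module PTransfer: the transfer principle
-/

set_option autoImplicit false

noncomputable section

namespace Pool.Agent.MP_46876e_al_PP

open MeasureTheory MulOpposite Filter Topology Pool.Agent.Forest46876e
open scoped ENNReal

/-- Proof: `Y = Conf G` with `τ` from `exists_tau`, and `prod_forest`. -/
theorem transfer (G Z : Type) [Group G] [Countable G] [MeasurableSpace Z] [MulAction Gᵐᵒᵖ Z]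
    (ζ : Measure Z) (hmp : ∀ g : G, MeasurePreserving (fun z : Z => op g • z) ζ ζ) (B : Set Z)
    (hB : MeasurableSet B) (hB1 : ζ B ≤ 1) (A : G → Set Z) (hA : ∀ g, MeasurableSet (A g))
    (hAB : ∀ g, A g ⊆ B) (hAg : ∀ g, ∀ z ∈ A g, op g • z ∈ B)
    (hac : ∀ᵐ z ∂ζ, (orbGraph A z).IsAcyclic) :
    ForestExtension G (fun g => ζ (A g) / 16) := by
  obtain ⟨τ, hτ, hτmp, hτac, hτm⟩ := exists_tau ζ hmp B hB hB1 A hA hAB hAg hac
  refine ⟨Conf G, inferInstance, inferInstance, inferInstance, τ, hτ, hτmp, ?_⟩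
  intro W _ _ _ μ _ hμ hfree
  obtain ⟨A', hA', hm⟩ := prod_forest τ hτac μ hμ hfree
  exact ⟨A', hA', fun g hg => (hτm g).trans (hm g hg)⟩

end Pool.Agent.MP_46876e_al_PP
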