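import Pool.Agent.Lib.MP_46876e_al_PP.PDefs
import Pool.Agent.Lib.MP_46876e_al_PP.PTransfer
import Pool.Agent.Lib.MP_46876e_al_PP.PDer
import Pool.Agent.Lib.MP_46876e_al_PP.PPlane
import Pool.Agent.Lib.MP_46876e_al_PP.PGraft
import Pool.Agent.Lib.MP_46876e_al_PP.PAcyc
import Pool.Agent.Lib.MP_46876e_al_PP.PArea

/-!
# MP_46876e_al, project PP, module PConc: Monod groups
-/

set_option autoImplicit false

noncomputable section

namespace Pool.Agent.MP_46876e_al_PP

open MeasureTheory MulOpposite Filter Topology Pool.Agent.Forest46876e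
open scoped ENNReal

/-- Proof: `graft_family` gives `f i ∈ G`; `h i = (f i)⁻¹`. `h` is injective: if `h i = h j`,
`i < j`,
then `mob (Lt (i, true)) = mob (Lt (j, true))` on `[0,1]`, so for a transcendental
`q ∈ (1/20, 19/20)`
the run along the reduced word `[(i, false), (j, true)]` (or the direct comparison of the matrices,
`Lt_prod_ne`) gives a contradiction with `run_algebraic`. `B = sq G`,
`A g = {z | (∃ i, g = h i) ∧ z ∈ sq G ∧ op g • z ∈ sq G}`; `transfer` with `ζ = plVol G`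
(`pl_measurePreserving`, `badPts_countable`, `orbGraph_acyclic`, `ae_not_algebraic`), `area_ge`:
`1/2 ≤ ζ (A (h i))`. -/
theorem monod_extension (G : Subgroup (ℝ ≃o ℝ)) [Countable G] (hG : G ≤ PPH)
    (hg : ∀ f, IsGraft f → f ∈ G) :
    ∃ m : G → ℝ≥0∞, ForestExtension G m ∧ {g : G | 1 / 32 ≤ m g}.Infinite := by
  obtain ⟨f, hf⟩ := graft_family
  have hfG : ∀ i, f i ∈ G := fun i => hg (f i) (hf i).1
  have hB := badPts_countable G hG
  obtain ⟨h, hh⟩ : ∃ h : ℕ → G, ∀ i, (((h i)⁻¹ : G) : ℝ ≃o ℝ) = f i :=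
    ⟨fun i => (⟨f i, hfG i⟩ : G)⁻¹, fun i => by rw [inv_inv]⟩
  obtain ⟨p, hp, hp1⟩ : ∃ p : ℝ, p ∈ Set.Icc (0 : ℝ) 1 ∧ ¬ IsAlgebraic ℚ p := by
    by_contra H
    push Not at H
    have h1 : (Set.Icc (0 : ℝ) 1).Countable :=
      (Algebraic.countable ℚ ℝ).mono fun x hx => H x hx
    have h2 := h1.measure_zero (volume : Measure ℝ)
    rw [Real.volume_Icc] at h2
    norm_num at h2
  have hinj : Function.Injective h := by
    intro i j hij
    by_contra hne
    have h1 : f i = f j := by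
      rw [← hh i, ← hh j, hij]
    have h2 : f i p = mob (Lt (i, true)) p := (hf i).2.1 p hp
    have h3 : f i p = mob (Lt (j, true)) p := by
      rw [h1]
      exact (hf j).2.1 p hp
    refine hp1 (run_algebraic (fun x : ℝ => x) [(i, false), (j, true)] (List.cons_ne_nil _ _)
      ?_ p ⟨f i p, ?_, p, ?_, rfl⟩)
    · simp [Red, hne]
    · change Stp (i, false) (f i p) p
      unfold Stp
      rw [if_neg Bool.false_ne_true]
      exact ⟨hp, h2⟩
    · change Stp (j, true) p (f i p)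
      unfold Stp
      rw [if_pos rfl]
      exact ⟨hp, h3⟩
  have hmp := pl_measurePreserving G hB
  have hT := transfer G (Pl G) (plVol G) hmp (sq G) (measurableSet_sq G) (plVol_sq G).le
    (fun g => {z | (∃ i, g = h i) ∧ z ∈ sq G ∧ op g • z ∈ sq G}) (by
      intro g
      by_cases hgi : ∃ i, g = h i
      · have e : {z : Pl G | (∃ i, g = h i) ∧ z ∈ sq G ∧ op g • z ∈ sq G} =
            sq G ∩ (fun z : Pl G => op g • z) ⁻¹' sq G := by
          ext z
          simp only [Set.mem_ofPred_eq, Set.mem_inter_iff, Set.mem_preimage]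
          exact ⟨fun H => H.2, fun H => ⟨hgi, H⟩⟩
        rw [e]
        exact (measurableSet_sq G).inter ((hmp g).measurable (measurableSet_sq G))
      · have e : {z : Pl G | (∃ i, g = h i) ∧ z ∈ sq G ∧ op g • z ∈ sq G} = ∅ := by
          ext z
          simp only [Set.mem_ofPred_eq, Set.mem_empty_iff_false, iff_false]
          exact fun H => hgi H.1
        rw [e]
        exact MeasurableSet.empty) (fun g z hz => hz.2.1) (fun g z hz => hz.2.2) (by
      filter_upwards [ae_not_algebraic G] with z hz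
      refine orbGraph_acyclic G h (fun i x hx => ?_) _ (fun g z hz' => ⟨hz'.1, hz'.2.1.1⟩) z hz
      rw [hh i]
      exact (hf i).2.1 x hx)
  refine ⟨_, hT, ?_⟩
  refine (Set.infinite_range_of_injective hinj).mono ?_
  rintro _ ⟨i, rfl⟩
  have h1 : 1 / 2 ≤ plVol G {z | z ∈ sq G ∧ op (h i) • z ∈ sq G} := by
    refine area_ge G hB (h i) ?_ ?_
    · rw [hh i]
      exact (hf i).2.2.1
    · rw [hh i]
      exact (hf i).2.2.2
  have h2 : {z : Pl G | z ∈ sq G ∧ op (h i) • z ∈ sq G} ⊆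
      {z | (∃ j, h i = h j) ∧ z ∈ sq G ∧ op (h i) • z ∈ sq G} := fun z hz => ⟨⟨i, rfl⟩, hz⟩
  have h3 : (1 / 32 : ℝ≥0∞) = 1 / 2 / 16 := by
    rw [one_div, one_div, ENNReal.div_eq_inv_mul,
      ← ENNReal.mul_inv (by norm_num) (by norm_num)]
    norm_num
  change 1 / 32 ≤ plVol G {z | (∃ j, h i = h j) ∧ z ∈ sq G ∧ op (h i) • z ∈ sq G} / 16
  rw [h3]
  exact ENNReal.div_le_div_right (h1.trans (measure_mono h2)) 16

end Pool.Agent.MP_46876e_al_PP
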