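import Pool.Agent.Lib.MP_46876e_al_PP.PDefs

/-!
# MP_46876e_al, project PP, module PFree1: commuting elements of a free group
-/

set_option autoImplicit false

noncomputable section

namespace Pool.Agent.MP_46876e_al_PP

open MeasureTheory MulOpposite Filter Topology Pool.Agent.Forest46876e
open scoped ENNReal

/-- Proof: if `w = 1` or `u = 1` trivial. The subgroup `H` generated by `w` and `u` is abelian, and
free (`subgroupIsFreeOfIsFree`), so its set of free generators has at most one element (two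
different generators do not commute), so `H` is cyclic, `w = t ^ a`, `u = t ^ b`, `w ^ b = u ^ a`;
if
`a = b = 0` then `w = u = 1`. -/
theorem free_commute {X : Type*} (w u : FreeGroup X) (h : Commute w u) :
    ∃ i j : ℤ, (i ≠ 0 ∨ j ≠ 0) ∧ w ^ i = u ^ j := by
  classical
  obtain ⟨H, hH⟩ : ∃ H : Subgroup (FreeGroup X), H = Subgroup.closure {w, u} := ⟨_, rfl⟩
  have hcomm : ∀ x ∈ ({w, u} : Set (FreeGroup X)), ∀ y ∈ ({w, u} : Set (FreeGroup X)),
      x * y = y * x := by
    intro x hx y hy
    rcases hx with rfl | hx <;> rcases hy with rfl | hy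
    · rfl
    · rw [Set.mem_singleton_iff.mp hy]
      exact h
    · rw [Set.mem_singleton_iff.mp hx]
      exact h.symm
    · rw [Set.mem_singleton_iff.mp hx, Set.mem_singleton_iff.mp hy]
  have hab : ∀ x y : H, x * y = y * x := by
    subst hH
    exact (Subgroup.isMulCommutative_closure hcomm).is_comm.comm
  have hw : w ∈ H := by
    rw [hH]
    exact Subgroup.subset_closure (Or.inl rfl)
  have hu : u ∈ H := by
    rw [hH]
    exact Subgroup.subset_closure (Or.inr rfl)
  have e : H ≃* FreeGroup (IsFreeGroup.Generators H) := IsFreeGroup.toFreeGroup H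
  have hab' : ∀ x y : FreeGroup (IsFreeGroup.Generators H), x * y = y * x := by
    intro x y
    apply e.symm.injective
    rw [map_mul, map_mul]
    exact hab _ _
  have hsub : Subsingleton (IsFreeGroup.Generators H) := by
    refine ⟨fun x y => ?_⟩
    by_contra hxy
    have h1 := congrArg (FreeGroup.lift fun z => if z = x then Equiv.swap (0 : Fin 3) 1 else
      Equiv.swap (1 : Fin 3) 2) (hab' (FreeGroup.of x) (FreeGroup.of y))
    rw [map_mul, map_mul, FreeGroup.lift_apply_of, FreeGroup.lift_apply_of, if_pos rfl,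
      if_neg (fun h => hxy h.symm)] at h1
    exact absurd h1 (by decide)
  have hcyc : IsCyclic (FreeGroup (IsFreeGroup.Generators H)) := by
    rcases isEmpty_or_nonempty (IsFreeGroup.Generators H) with hE | ⟨⟨x⟩⟩
    · infer_instance
    · have hU : Unique (IsFreeGroup.Generators H) := ⟨⟨x⟩, fun y => Subsingleton.elim y x⟩
      infer_instance
  obtain ⟨t, ht⟩ := hcyc.exists_generator
  obtain ⟨a, ha⟩ := Subgroup.mem_zpowers_iff.mp (ht (e ⟨w, hw⟩))
  obtain ⟨b, hb⟩ := Subgroup.mem_zpowers_iff.mp (ht (e ⟨u, hu⟩))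
  have key : ∀ i j : ℤ, a * i = b * j → w ^ i = u ^ j := by
    intro i j hij
    have h1 : e (⟨w, hw⟩ ^ i) = e (⟨u, hu⟩ ^ j) := by
      rw [map_zpow, map_zpow, ← ha, ← hb, ← zpow_mul, ← zpow_mul, hij]
    exact congrArg (fun z : H => (z : FreeGroup X)) (e.injective h1)
  by_cases h0 : a = 0 ∧ b = 0
  · exact ⟨1, 0, Or.inl one_ne_zero, key 1 0 (by rw [h0.1, h0.2]; ring)⟩
  · refine ⟨b, a, ?_, key b a (mul_comm _ _)⟩
    by_contra hc
    push Not at hc
    exact h0 ⟨hc.2, hc.1⟩

open scoped commutatorElement in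
private theorem pfree1_aux (a b : FreeGroup (Fin 2)) (ha : a = FreeGroup.of 0)
    (hb : b = FreeGroup.of 1) : ∃ w ∈ derivedSeries (FreeGroup (Fin 2)) 2, w ≠ 1 := by
  have h1 : ∀ x y : FreeGroup (Fin 2), ⁅x, y⁆ ∈ derivedSeries (FreeGroup (Fin 2)) 1 := by
    intro x y
    rw [derivedSeries_succ, derivedSeries_zero]
    exact Subgroup.commutator_mem_commutator (Subgroup.mem_top _) (Subgroup.mem_top _)
  refine ⟨⁅⁅a, b⁆, ⁅a, b⁻¹⁆⁆, ?_, ?_⟩
  · rw [derivedSeries_succ]
    exact Subgroup.commutator_mem_commutator (h1 _ _) (h1 _ _)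
  · intro hw
    obtain ⟨σ, hσ⟩ : ∃ σ : Equiv.Perm (Fin 4), σ = Equiv.swap 2 3 := ⟨_, rfl⟩
    obtain ⟨τ, hτ⟩ : ∃ τ : Equiv.Perm (Fin 4), τ = Equiv.swap 0 1 * Equiv.swap 1 2 :=
      ⟨_, rfl⟩
    have h2 := congrArg (FreeGroup.lift ![σ, τ]) hw
    rw [ha, hb] at h2
    simp only [commutatorElement_def, map_mul, map_inv, FreeGroup.lift_apply_of, map_one,
      Matrix.cons_val_zero, Matrix.cons_val_one] at h2
    have h3 := DFunLike.congr_fun h2 0
    rw [hσ, hτ] at h3
    revert h3
    decide +kernel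

/-- Proof: `w = ⁅⁅a, b⁆, ⁅a, b⁻¹⁆⁆` with the two generators; `w ≠ 1` by `decide` (reduced words of
`FreeGroup (Fin 2)` are decidable, `FreeGroup.toWord`) or by a homomorphism to a concrete group
(for example permutations: `Equiv.Perm (Fin 5)`, which is not solvable of length 2, `decide`). -/
theorem free_not_metab : ∃ w ∈ derivedSeries (FreeGroup (Fin 2)) 2, w ≠ 1 := by
  exact pfree1_aux _ _ rfl rfl

end Pool.Agent.MP_46876e_al_PP
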