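import Pool.Agent.Lib.MP_46876e_al_PP.PDefs

/-!
# MP_46876e_al, project PP, module PMove: moving points, components
-/

set_option autoImplicit false

noncomputable section

namespace Pool.Agent.MP_46876e_al_PP

open MeasureTheory MulOpposite Filter Topology Pool.Agent.Forest46876e
open scoped ENNReal

/-- Proof: otherwise `s = sSup {act g x}` is in `[x, y]`, and every `act g` permutes the orbit of
`x`, so fixes `s` (`OrderIso.map_csSup`): contradiction. -/
theorem move {F : Type*} [Group F] (act : F →* (ℝ ≃o ℝ)) (x y : ℝ) (hxy : x ≤ y)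
    (hno : ∀ z ∈ Set.Icc x y, ∃ g, act g z ≠ z) : ∃ g, y < act g x := by
  by_contra hcon
  push Not at hcon
  obtain ⟨S, hS⟩ : ∃ S : Set ℝ, S = Set.range fun g => act g x := ⟨_, rfl⟩
  have hne : S.Nonempty := ⟨act 1 x, by rw [hS]; exact ⟨1, rfl⟩⟩
  have hbdd : BddAbove S := ⟨y, by
    rw [hS]
    rintro _ ⟨g, rfl⟩
    exact hcon g⟩
  have hx : x ∈ S := by
    rw [hS]
    refine ⟨1, ?_⟩
    change act 1 x = x
    rw [map_one]
    rfl
  have h1 : x ≤ sSup S := le_csSup hbdd hx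
  have h2 : sSup S ≤ y := csSup_le hne (by
    rw [hS]
    rintro _ ⟨g, rfl⟩
    exact hcon g)
  obtain ⟨g, hg⟩ := hno (sSup S) ⟨h1, h2⟩
  apply hg
  rw [OrderIso.map_csSup' (act g) hne hbdd]
  congr 1
  rw [hS]
  ext z
  constructor
  · rintro ⟨_, ⟨h, rfl⟩, rfl⟩
    refine ⟨g * h, ?_⟩
    change act (g * h) x = act g (act h x)
    rw [map_mul]
    rfl
  · rintro ⟨h, rfl⟩
    refine ⟨act (g⁻¹ * h) x, ⟨g⁻¹ * h, rfl⟩, ?_⟩
    change act g (act (g⁻¹ * h) x) = act h x
    have e : act g (act (g⁻¹ * h) x) = act (g * (g⁻¹ * h)) x := by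
      rw [map_mul act g]
      rfl
    rw [e, mul_inv_cancel_left]

private theorem PMove_cl {C s : Set ℝ} (hd : ∀ z ∈ C, ∀ᶠ y in 𝓝 z, y ∉ s) {z : ℝ}
    (hz : z ∈ closure s) : z ∉ C := by
  intro hzC
  rw [mem_closure_iff_frequently] at hz
  exact hz (hd z hzC)

private theorem PMove_nhds {C : Set ℝ} (hC : IsClosed C) {z : ℝ} (hz : z ∉ C) :
    Set.ordConnectedComponent Cᶜ z ∈ 𝓝 z :=
  Set.ordConnectedComponent_mem_nhds.2 (hC.isOpen_compl.mem_nhds hz)

/-- Proof: the closure of `s` is compact and disjoint from `C`; the components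
`Set.ordConnectedComponent Cᶜ x`, `x ∉ C`, are open (`IsClosed.isOpen_compl`,
`Set.ordConnectedComponent` of an open set of `ℝ` is open: it is the connected component) and cover
it. -/
theorem comp_cover (C : Set ℝ) (hC : IsClosed C) (s : Set ℝ) (hb : Bornology.IsBounded s)
    (hd : ∀ z ∈ C, ∀ᶠ y in 𝓝 z, y ∉ s) :
    ∃ E : Finset ℝ, (∀ x ∈ E, x ∉ C) ∧
      ∀ y ∈ s, ∃ x ∈ E, y ∈ Set.ordConnectedComponent Cᶜ x := by
  have hK : IsCompact (closure s) := hb.isCompact_closure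
  obtain ⟨E, hE1, hE2⟩ := hK.elim_nhds_subcover (fun x => Set.ordConnectedComponent Cᶜ x)
    (fun x hx => PMove_nhds hC (PMove_cl hd hx))
  refine ⟨E, fun x hx => PMove_cl hd (hE1 x hx), fun y hy => ?_⟩
  have h := hE2 (subset_closure hy)
  rw [Set.mem_iUnion₂] at h
  obtain ⟨x, hx, hxy⟩ := h
  exact ⟨x, hx, hxy⟩

/-- Proof: `closure s ∩ component` is compact (it is `closure s` minus the union of the other
components), take `c, d` its minimum and maximum (with `x` added), components are order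
connected. -/
theorem comp_bounds (C : Set ℝ) (hC : IsClosed C) (s : Set ℝ) (hb : Bornology.IsBounded s)
    (hd : ∀ z ∈ C, ∀ᶠ y in 𝓝 z, y ∉ s) (x : ℝ) (hx : x ∉ C) :
    ∃ c d : ℝ, c ≤ d ∧ Set.Icc c d ⊆ Set.ordConnectedComponent Cᶜ x ∧
      s ∩ Set.ordConnectedComponent Cᶜ x ⊆ Set.Icc c d := by
  have hK : IsCompact (closure s) := hb.isCompact_closure
  obtain ⟨K, hKd⟩ : ∃ K : Set ℝ, K = insert x
      (closure s ∩ closure (Set.ordConnectedComponent Cᶜ x)) := ⟨_, rfl⟩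
  have hKc : IsCompact K := by
    rw [hKd]
    exact (hK.inter_right isClosed_closure).insert x
  have hxK : x ∈ K := by
    rw [hKd]
    exact Set.mem_insert _ _
  have hxx : x ∈ Set.ordConnectedComponent Cᶜ x := Set.self_mem_ordConnectedComponent.2 hx
  have hKs : K ⊆ Set.ordConnectedComponent Cᶜ x := by
    rw [hKd]
    intro z hz
    rcases Set.mem_insert_iff.1 hz with rfl | ⟨hz1, hz2⟩
    · exact hxx
    · have h1 := PMove_nhds hC (PMove_cl hd hz1)
      obtain ⟨w, hw1, hw2⟩ := mem_closure_iff_nhds.1 hz2 _ h1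
      exact Set.mem_ordConnectedComponent_trans hw2 (Set.mem_ordConnectedComponent_comm.1 hw1)
  refine ⟨sInf K, sSup K, ?_, ?_, ?_⟩
  · exact (csInf_le hKc.bddBelow hxK).trans (le_csSup hKc.bddAbove hxK)
  · exact Set.OrdConnected.out inferInstance (hKs (hKc.sInf_mem ⟨x, hxK⟩))
      (hKs (hKc.sSup_mem ⟨x, hxK⟩))
  · rintro y ⟨hy1, hy2⟩
    have hyK : y ∈ K := by
      rw [hKd]
      exact Set.mem_insert_of_mem _ ⟨subset_closure hy1, subset_closure hy2⟩
    exact ⟨csInf_le hKc.bddBelow hyK, le_csSup hKc.bddAbove hyK⟩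

end Pool.Agent.MP_46876e_al_PP
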