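import Pool.Agent.Lib.MP_46876e_al_PP.PDefs
import Pool.Agent.Lib.MP_46876e_al_PP.PFree1
import Pool.Agent.Lib.MP_46876e_al_PP.PMove

/-!
# MP_46876e_al, project PP, module PCore: the induction on the number of components
-/

set_option autoImplicit false

noncomputable section

namespace Pool.Agent.MP_46876e_al_PP

open MeasureTheory MulOpposite Filter Topology Pool.Agent.Forest46876e
open scoped ENNReal

private theorem pcore_pow_ne (f : ℝ ≃o ℝ) (y : ℝ) (h : f y ≠ y) (n : ℕ) :
    (f ^ (n + 1)) y ≠ y := by
  rcases lt_or_gt_of_ne h with h | h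
  · have : ∀ n : ℕ, (f ^ (n + 1)) y < y := by
      intro n
      induction n with
      | zero => simpa using h
      | succ n ih =>
        have e : (f ^ (n + 1 + 1)) y = f ((f ^ (n + 1)) y) := by
          rw [pow_succ' f (n + 1)]; rfl
        rw [e]
        exact (f.strictMono ih).trans h
    exact (this n).ne
  · have : ∀ n : ℕ, y < (f ^ (n + 1)) y := by
      intro n
      induction n with
      | zero => simpa using h
      | succ n ih =>
        have e : (f ^ (n + 1 + 1)) y = f ((f ^ (n + 1)) y) := by
          rw [pow_succ' f (n + 1)]; rfl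
        rw [e]
        exact lt_trans h (f.strictMono ih)
    exact (this n).ne'

private theorem pcore_zpow_ne (f : ℝ ≃o ℝ) (y : ℝ) (h : f y ≠ y) (j : ℤ) (hj : j ≠ 0) :
    (f ^ j) y ≠ y := by
  obtain ⟨n, hn | hn⟩ := j.eq_nat_or_neg
  · subst hn
    obtain ⟨m, rfl⟩ : ∃ m, n = m + 1 := Nat.exists_eq_succ_of_ne_zero (by simpa using hj)
    rw [zpow_natCast]
    exact pcore_pow_ne f y h m
  · subst hn
    obtain ⟨m, rfl⟩ : ∃ m, n = m + 1 := Nat.exists_eq_succ_of_ne_zero (by simpa using hj)
    intro hc
    apply pcore_pow_ne f y h m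
    rw [zpow_neg, zpow_natCast] at hc
    have e : (f ^ (m + 1)) ((f ^ (m + 1))⁻¹ y) = y := by
      change (f ^ (m + 1) * (f ^ (m + 1))⁻¹) y = y
      rw [mul_inv_cancel]; rfl
    rw [hc] at e
    exact e

private theorem pcore_zpow_eq (f : ℝ ≃o ℝ) (y : ℝ) (h : f y = y) (j : ℤ) : (f ^ j) y = y := by
  have key : ∀ n : ℕ, (f ^ n) y = y := by
    intro n
    induction n with
    | zero => simp
    | succ n ih =>
      have e : (f ^ (n + 1)) y = f ((f ^ n) y) := by
        rw [pow_succ' f n]; rfl
      rw [e, ih, h]
  obtain ⟨n, hn | hn⟩ := j.eq_nat_or_neg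
  · subst hn
    rw [zpow_natCast]
    exact key n
  · subst hn
    rw [zpow_neg, zpow_natCast]
    have e : (f ^ n)⁻¹ ((f ^ n) y) = y := by
      change ((f ^ n)⁻¹ * (f ^ n)) y = y
      rw [inv_mul_cancel]; rfl
    rw [key n] at e
    exact e

section

variable (act : FreeGroup (Fin 2) →* (ℝ ≃o ℝ))

private theorem pcore_mul (a b : FreeGroup (Fin 2)) (y : ℝ) :
    act (a * b) y = act a (act b y) := by
  rw [map_mul]; rfl

private theorem pcore_inv (a : FreeGroup (Fin 2)) (y : ℝ) : act a (act a⁻¹ y) = y := by
  rw [← pcore_mul, mul_inv_cancel, map_one]; rfl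

private theorem pcore_inv' (a : FreeGroup (Fin 2)) (y : ℝ) : act a⁻¹ (act a y) = y := by
  rw [← pcore_mul, inv_mul_cancel, map_one]; rfl

private theorem pcore_mem (C : Set ℝ) (hC : ∀ z ∈ C, ∀ g, act g z = z) (y : ℝ) (hy : y ∉ C)
    (h : FreeGroup (Fin 2)) : act h y ∈ Set.ordConnectedComponent Cᶜ y := by
  rw [Set.mem_ordConnectedComponent]
  intro z hz hzC
  have hfz : act h z = z := hC z hzC h
  rw [Set.mem_uIcc] at hz
  rcases hz with ⟨h1, h2⟩ | ⟨h1, h2⟩
  · have h3 : act h y ≤ act h z := (act h).monotone h1
    rw [hfz] at h3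
    have h4 : act h y = act h z := by rw [hfz]; exact le_antisymm h3 h2
    exact hy ((act h).injective h4 ▸ hzC)
  · have h3 : act h z ≤ act h y := (act h).monotone h2
    rw [hfz] at h3
    have h4 : act h y = act h z := by rw [hfz]; exact le_antisymm h1 h3
    exact hy ((act h).injective h4 ▸ hzC)

private theorem pcore_trans (C : Set ℝ) {x y z : ℝ}
    (h1 : y ∈ Set.ordConnectedComponent Cᶜ x) (h2 : z ∈ Set.ordConnectedComponent Cᶜ y) :
    z ∈ Set.ordConnectedComponent Cᶜ x := by
  rw [Set.ordConnectedComponent_eq h1]
  exact h2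

end

/-- Proof. `C = {z | ∀ g, act g z = z}` is closed. For `w` put `s w = {x | act w x ≠ x}`.
Claim: for all `n`, for all `w ∈ derivedSeries _ 2` and finite sets `E` of at most `n` points off
`C`
with `s w ⊆ ⋃ x ∈ E, I x`, `I x = ordConnectedComponent Cᶜ x`: `w = 1`. By `comp_cover` this gives
the theorem (boundedness of `s w` from `atTop`, `atBot`). Induction on `n`. `n = 0`: `s w = ∅`,
`act w = 1`. Step: let `x ∈ E`; if `s w` does not meet `I x` use `E.erase x`. Otherwise
`comp_bounds`:
`s w ∩ I x ⊆ [c, d] ⊆ I x`; no point of `[c, d]` is in `C`, so `move` gives `h` with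
`d < act h c`. `act h` maps each `I x'` onto itself (monotone, fixes `C`). `u = h * w * h⁻¹`:
`s u = act h '' s w`, so `s u ∩ I x ⊆ [act h c, act h d]` is disjoint from `s w ∩ I x`, and `w`, `u`
commute on `I x`. `v = ⁅w, u⁆ ∈ derivedSeries _ 2` (normal subgroup), `s v` is contained in the
`I x'`, `x' ∈ E.erase x` (components are equal or disjoint). So `v = 1`, `Commute w u`,
`free_commute`: `w ^ i = u ^ j`. At `y ∈ s w ∩ I x`: `act u y = y`, so `act (w ^ i) y = y`, and
`act w y ≠ y` (monotone: iterates move `y` further), so `i = 0`, `j ≠ 0`, `u ^ j = 1`, `u` acts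
trivially, `u = 1`, `w = 1`. -/
theorem core (act : FreeGroup (Fin 2) →* (ℝ ≃o ℝ)) (hinj : Function.Injective act)
    (htriv : ∀ w ∈ derivedSeries (FreeGroup (Fin 2)) 2,
      (∀ z, (∀ g, act g z = z) → ∀ᶠ x in 𝓝 z, act w x = x) ∧
      (∀ᶠ x in atTop, act w x = x) ∧ ∀ᶠ x in atBot, act w x = x) :
    ∀ w ∈ derivedSeries (FreeGroup (Fin 2)) 2, w = 1 := by
  set C : Set ℝ := {z | ∀ g, act g z = z} with hCdef
  have hCfix : ∀ z ∈ C, ∀ g, act g z = z := fun z hz => hz
  have hC : IsClosed C := by
    have : C = ⋂ g, {z | act g z = z} := by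
      ext z; simp [hCdef]
    rw [this]
    exact isClosed_iInter fun g => isClosed_eq (act g).continuous continuous_id
  have hb : ∀ w ∈ derivedSeries (FreeGroup (Fin 2)) 2,
      Bornology.IsBounded {x | act w x ≠ x} := by
    intro w hw
    obtain ⟨-, h1, h2⟩ := htriv w hw
    obtain ⟨M, hM⟩ := Filter.eventually_atTop.1 h1
    obtain ⟨m, hm⟩ := Filter.eventually_atBot.1 h2
    refine (Metric.isBounded_Icc m M).subset ?_
    intro x hx
    constructor
    · by_contra hc
      exact hx (hm x (not_le.1 hc).le)
    · by_contra hc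
      exact hx (hM x (not_le.1 hc).le)
  have hd : ∀ w ∈ derivedSeries (FreeGroup (Fin 2)) 2,
      ∀ z ∈ C, ∀ᶠ y in 𝓝 z, y ∉ {x | act w x ≠ x} := by
    intro w hw z hz
    filter_upwards [(htriv w hw).1 z hz] with y hy hy'
    exact hy' hy
  have hone : ∀ w : FreeGroup (Fin 2), (∀ y, act w y = y) → w = 1 := by
    intro w h
    apply hinj
    rw [map_one]
    ext y
    exact h y
  have hmem := pcore_mem act C hCfix
  have claim : ∀ n : ℕ, ∀ E : Finset ℝ, E.card = n → (∀ x ∈ E, x ∉ C) →
      ∀ w ∈ derivedSeries (FreeGroup (Fin 2)) 2,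
      (∀ y, act w y ≠ y → ∃ x ∈ E, y ∈ Set.ordConnectedComponent Cᶜ x) → w = 1 := by
    intro n
    induction n with
    | zero =>
      intro E hE _ w _ hs
      rw [Finset.card_eq_zero] at hE
      subst hE
      apply hone
      intro y
      by_contra hy
      obtain ⟨x, hx, _⟩ := hs y hy
      simp at hx
    | succ n ih =>
      intro E hE hEC w hw hs
      obtain ⟨x, hx⟩ : E.Nonempty := by
        rw [← Finset.card_pos, hE]; omega
      have hcard : (E.erase x).card = n := by
        rw [Finset.card_erase_of_mem hx, hE]; rfl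
      have hECe : ∀ x' ∈ E.erase x, x' ∉ C := fun x' hx' => hEC x' (Finset.mem_of_mem_erase hx')
      by_cases hall : ∀ y ∈ Set.ordConnectedComponent Cᶜ x, act w y = y
      · apply ih (E.erase x) hcard hECe w hw
        intro y hy
        obtain ⟨x', hx', hyx'⟩ := hs y hy
        refine ⟨x', ?_, hyx'⟩
        rw [Finset.mem_erase]
        refine ⟨?_, hx'⟩
        rintro rfl
        exact hy (hall y hyx')
      · push Not at hall
        obtain ⟨y0, hy0, hwy0⟩ := hall
        have hxC : x ∉ C := hEC x hx
        obtain ⟨c, d, hcd, hIcc, hsub⟩ := comp_bounds C hC {x | act w x ≠ x} (hb w hw) (hd w hw)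
          x hxC
        have hcompC : ∀ y x', y ∈ Set.ordConnectedComponent Cᶜ x' → y ∉ C := fun y x' hy =>
          Set.ordConnectedComponent_subset hy
        obtain ⟨h, hh⟩ := move act c d hcd (by
          intro z hz
          have h1 : z ∉ C := hcompC z x (hIcc hz)
          by_contra h2
          push Not at h2
          exact h1 h2)
        obtain ⟨u, hu⟩ : ∃ u : FreeGroup (Fin 2), u = h * w * h⁻¹ := ⟨_, rfl⟩
        have huact : ∀ y, act u y = act h (act w (act h⁻¹ y)) := by
          intro y
          rw [hu, pcore_mul act (h * w) h⁻¹, pcore_mul act h w]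
        have huD : u ∈ derivedSeries (FreeGroup (Fin 2)) 2 := by
          rw [hu]
          exact (derivedSeries_normal (FreeGroup (Fin 2)) 2).conj_mem w hw h
        -- the two supports in the component
        have hA : ∀ y ∈ Set.ordConnectedComponent Cᶜ x, act w y ≠ y → y ≤ d := fun y hy hwy =>
          (hsub ⟨hwy, hy⟩).2
        have hB : ∀ y ∈ Set.ordConnectedComponent Cᶜ x, act u y ≠ y → d < y := by
          intro y hy huy
          have h1 : act h⁻¹ y ∈ Set.ordConnectedComponent Cᶜ x :=
            pcore_trans C hy (hmem y (hcompC y x hy) h⁻¹)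
          have h2 : act w (act h⁻¹ y) ≠ act h⁻¹ y := by
            intro h3
            apply huy
            rw [huact, h3, pcore_inv]
          have h3 : c ≤ act h⁻¹ y := (hsub ⟨h2, h1⟩).1
          have h4 : act h c ≤ act h (act h⁻¹ y) := (act h).monotone h3
          rw [pcore_inv] at h4
          exact lt_of_lt_of_le hh h4
        have hcomm : ∀ y ∈ Set.ordConnectedComponent Cᶜ x, act (w * u) y = act (u * w) y := by
          intro y hy
          rw [pcore_mul act w u, pcore_mul act u w]
          by_cases hwy : act w y = y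
          · by_cases huy : act u y = y
            · rw [hwy, huy, hwy]
            · rw [hwy]
              by_contra hcon
              have h1 : act u y ∈ Set.ordConnectedComponent Cᶜ x :=
                pcore_trans C hy (hmem y (hcompC y x hy) u)
              have h2 : act u (act u y) ≠ act u y := fun h3 => huy ((act u).injective h3)
              have h4 := hB _ h1 h2
              have h5 := hA _ h1 hcon
              exact absurd h4 (not_lt.2 h5)
          · have h1 : act w y ∈ Set.ordConnectedComponent Cᶜ x :=
              pcore_trans C hy (hmem y (hcompC y x hy) w)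
            have h2 : act w (act w y) ≠ act w y := fun h3 => hwy ((act w).injective h3)
            have h3 : act u (act w y) = act w y := by
              by_contra hcon
              exact absurd (hB _ h1 hcon) (not_lt.2 (hA _ h1 h2))
            have h4 : act u y = y := by
              by_contra hcon
              exact absurd (hB _ hy hcon) (not_lt.2 (hA _ hy hwy))
            rw [h3, h4]
        obtain ⟨v, hv⟩ : ∃ v : FreeGroup (Fin 2), v = w * u * (u * w)⁻¹ := ⟨_, rfl⟩
        have hvD : v ∈ derivedSeries (FreeGroup (Fin 2)) 2 := by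
          rw [hv]
          exact mul_mem (mul_mem hw huD) (inv_mem (mul_mem huD hw))
        have hvx : ∀ y ∈ Set.ordConnectedComponent Cᶜ x, act v y = y := by
          intro y hy
          have h1 : act (u * w)⁻¹ y ∈ Set.ordConnectedComponent Cᶜ x :=
            pcore_trans C hy (hmem y (hcompC y x hy) _)
          rw [hv, pcore_mul act (w * u), hcomm _ h1, pcore_inv]
        have hv1 : v = 1 := by
          apply ih (E.erase x) hcard hECe v hvD
          intro y hvy
          have hyC : y ∉ C := fun hyC => hvy (hCfix y hyC v)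
          have hex : ∃ y1 ∈ Set.ordConnectedComponent Cᶜ y, act w y1 ≠ y1 := by
            by_contra hcon
            push Not at hcon
            apply hvy
            have hyy : y ∈ Set.ordConnectedComponent Cᶜ y := by
              rw [Set.self_mem_ordConnectedComponent]
              exact hyC
            have hu1 : ∀ y1 ∈ Set.ordConnectedComponent Cᶜ y, act u y1 = y1 := by
              intro y1 hy1
              rw [huact, hcon _ (pcore_trans C hy1 (hmem y1 (hcompC y1 y hy1) h⁻¹)), pcore_inv]
            have h1 : act (u * w)⁻¹ y ∈ Set.ordConnectedComponent Cᶜ y := hmem y hyC _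
            have h2 : act (u * w) (act (u * w)⁻¹ y) = act (u * w)⁻¹ y := by
              rw [pcore_mul act u w, hcon _ h1, hu1 _ h1]
            rw [pcore_inv] at h2
            rw [hv, pcore_mul act (w * u), ← h2, pcore_mul act w u, hu1 _ hyy, hcon _ hyy]
          obtain ⟨y1, hy1, hwy1⟩ := hex
          obtain ⟨x', hx', hy1x'⟩ := hs y1 hwy1
          have hyx' : y ∈ Set.ordConnectedComponent Cᶜ x' := by
            apply pcore_trans C hy1x'
            rw [Set.mem_ordConnectedComponent_comm]
            exact hy1
          refine ⟨x', ?_, hyx'⟩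
          rw [Finset.mem_erase]
          refine ⟨?_, hx'⟩
          rintro rfl
          exact hvy (hvx y hyx')
        have hcom : Commute w u := by
          rw [hv, mul_inv_eq_one] at hv1
          exact hv1
        obtain ⟨i, j, hij, hwu⟩ := free_commute w u hcom
        have huy0 : act u y0 = y0 := by
          by_contra hcon
          exact absurd (hB _ hy0 hcon) (not_lt.2 (hA _ hy0 hwy0))
        have h1 : ((act w) ^ i) y0 = y0 := by
          rw [← map_zpow, hwu, map_zpow]
          exact pcore_zpow_eq _ _ huy0 j
        have hi : i = 0 := by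
          by_contra hi
          exact pcore_zpow_ne _ _ hwy0 i hi h1
        have hj : j ≠ 0 := by
          rcases hij with h2 | h2
          · exact absurd hi h2
          · exact h2
        rw [hi, zpow_zero] at hwu
        have hu1 : u = 1 := by
          apply hone
          intro y
          by_contra hcon
          apply pcore_zpow_ne _ _ hcon j hj
          rw [← map_zpow, ← hwu, map_one]
          rfl
        rw [hu, mul_inv_eq_one] at hu1
        have : h * w = h * 1 := by rw [hu1, mul_one]
        exact mul_left_cancel this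
  intro w hw
  obtain ⟨E, hE, hcov⟩ := comp_cover C hC {x | act w x ≠ x} (hb w hw) (hd w hw)
  exact claim E.card E rfl hE w hw hcov

end Pool.Agent.MP_46876e_al_PP
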