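import Mathlib
import Pool.Agent.Lib.MP_46876e_al.Defs

/-!
# MP_46876e_al, project PP: definitions

Forests for groups of piecewise projective homeomorphisms. The group `G` acts on the right; in
Lean this is `MulAction Gᵐᵒᵖ X`, and the point `x g` is `op g • x`. Paper text:
/team-store/MP_46876e_PP_text.md.
-/

set_option autoImplicit false

noncomputable section

namespace Pool.Agent.MP_46876e_al_PP

open MeasureTheory MulOpposite Filter Topology Pool.Agent.Forest46876e
open scoped ENNReal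

/-! ## Graphs on the group -/

/-- The graph on `G` whose edges are the pairs `{x, x g}` with `z x ∈ A g`. -/
def orbGraph {G Z : Type*} [Group G] [MulAction Gᵐᵒᵖ Z] (A : G → Set Z) (z : Z) :
    SimpleGraph G :=
  SimpleGraph.fromRel fun x y => ∃ g, op x • z ∈ A g ∧ y = x * g

/-- Configurations of labelled edges on `G`: the label `(x, g)` stands for the edge
`{x, x g}`. -/
def Conf (G : Type*) : Type _ := G × G → Bool

section conf

variable (G : Type*)

instance : TopologicalSpace (Conf G) := inferInstanceAs (TopologicalSpace (G × G → Bool))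

instance : CompactSpace (Conf G) := inferInstanceAs (CompactSpace (G × G → Bool))

instance : T2Space (Conf G) := inferInstanceAs (T2Space (G × G → Bool))

instance : MeasurableSpace (Conf G) := inferInstanceAs (MeasurableSpace (G × G → Bool))

instance [Countable G] : BorelSpace (Conf G) := inferInstanceAs (BorelSpace (G × G → Bool))

instance [Countable G] : StandardBorelSpace (Conf G) :=
  inferInstanceAs (StandardBorelSpace (G × G → Bool))

/-- The right translation action: `(η g) (x, l) = η (g x, l)`. -/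
instance [Group G] : MulAction Gᵐᵒᵖ (Conf G) where
  smul a η := fun p => η (a.unop * p.1, p.2)
  one_smul η := by
    funext p
    change η (1 * p.1, p.2) = η p
    rw [one_mul]
  mul_smul a b η := by
    funext p
    change η ((a * b).unop * p.1, p.2) = η (b.unop * (a.unop * p.1), p.2)
    rw [unop_mul, mul_assoc]

end conf

theorem conf_smul {G : Type*} [Group G] (g : G) (η : Conf G) (p : G × G) :
    (op g • η) p = η (g * p.1, p.2) := rfl

/-- The graph on `G` of a configuration: the edges are `{x, x g}` with `η (x, g) = true`. -/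
def confGraph {G : Type*} [Group G] (η : Conf G) : SimpleGraph G :=
  SimpleGraph.fromRel fun x y => ∃ g, η (x, g) = true ∧ y = x * g

/-! ## Sampling -/

section samp

variable {G Z : Type*} [Group G] [MulAction Gᵐᵒᵖ Z]

/-- The sample point `o` (a point of `Z`, or no point) is in `S` when seen from `x`:
`o = z` with `z x ∈ S`. -/
def Sees (x : G) (S : Set Z) (o : Z ⊕ Unit) : Prop := ∃ z, o = Sum.inl z ∧ op x • z ∈ S

/-- The window of the label `g`: `z ∈ B` or `z g ∈ B`. -/
def Win (B : Set Z) (g : G) : Set Z := {z | z ∈ B ∨ op g • z ∈ B}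

open scoped Classical in
/-- The configuration of the sample `ω`: the label `(x, g)` is present if some sample point is in
`A g` as seen from `x`, and no other sample point is in the window of `g` as seen from `x`. -/
def eta (B : Set Z) (A : G → Set Z) {N : ℕ} (ω : Fin N → Z ⊕ Unit) : Conf G := fun p =>
  decide (∃ j, Sees p.1 (A p.2) (ω j) ∧ ∀ j', j' ≠ j → ¬ Sees p.1 (Win B p.2) (ω j'))

theorem eta_eq_true (B : Set Z) (A : G → Set Z) {N : ℕ} (ω : Fin N → Z ⊕ Unit) (p : G × G) :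
    eta B A ω p = true ↔
      ∃ j, Sees p.1 (A p.2) (ω j) ∧ ∀ j', j' ≠ j → ¬ Sees p.1 (Win B p.2) (ω j') := by
  simp [eta]

/-- The law of one sample point: `ζ` restricted to `U`, divided by `N`; the remaining mass is at
the point `inr ()` (no point). -/
def ptLaw {Z : Type*} [MeasurableSpace Z] (ζ : Measure Z) (U : Set Z) (N : ℕ) :
    Measure (Z ⊕ Unit) :=
  (N : ℝ≥0∞)⁻¹ • (ζ.restrict U).map Sum.inl + (1 - ζ U / N) • Measure.dirac (Sum.inr ())

/-- The law of `N` independent sample points. -/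
def sampLaw {Z : Type*} [MeasurableSpace Z] (ζ : Measure Z) (U : Set Z) (N : ℕ) :
    Measure (Fin N → Z ⊕ Unit) :=
  Measure.pi fun _ => ptLaw ζ U N

end samp

/-! ## Extensions with large forests -/

/-- One probability measure preserving action `(Y, ν)` of `G` such that for every essentially free
probability measure preserving action `(W, μ)` of `G` the product `Y × W` has a forest family `A`
with `m g ≤ (ν × μ) (A g)` for all `g ≠ 1`. -/
def ForestExtension (G : Type) [Group G] (m : G → ℝ≥0∞) : Prop :=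
  ∃ (Y : Type) (_ : MeasurableSpace Y) (_ : StandardBorelSpace Y) (_ : MulAction Gᵐᵒᵖ Y)
    (ν : Measure Y), IsProbabilityMeasure ν ∧
    (∀ g : G, MeasurePreserving (fun y : Y => op g • y) ν ν) ∧
    ∀ (W : Type) [MeasurableSpace W] [StandardBorelSpace W] [MulAction Gᵐᵒᵖ W] (μ : Measure W)
      [IsProbabilityMeasure μ],
      (∀ g : G, MeasurePreserving (fun w : W => op g • w) μ μ) →
      (∀ᵐ w ∂μ, ∀ g : G, g ≠ 1 → op g • w ≠ w) →
      ∃ A : G → Set (Y × W), IsForestFamily A ∧ ∀ g : G, g ≠ 1 → m g ≤ (ν.prod μ) (A g)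

/-! ## Piecewise projective homeomorphisms of the line -/

/-- `f` is a Möbius map `y ↦ (a y + b) / (c y + d)`, `a d - b c = 1`, near `x`. -/
def LocMob (f : ℝ → ℝ) (x : ℝ) : Prop :=
  ∃ a b c d : ℝ, a * d - b * c = 1 ∧ ∀ᶠ y in 𝓝 x, c * y + d ≠ 0 ∧ f y = (a * y + b) / (c * y + d)

theorem LocMob.id (x : ℝ) : LocMob (fun y => y) x :=
  ⟨1, 0, 0, 1, by norm_num, Eventually.of_forall fun y => ⟨by norm_num, by simp⟩⟩

theorem LocMob.comp {f g : ℝ → ℝ} {x : ℝ} (hf : LocMob f (g x)) (hg : LocMob g x)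
    (hc : ContinuousAt g x) : LocMob (fun y => f (g y)) x := by
  obtain ⟨a, b, c, d, h1, h2⟩ := hf
  obtain ⟨a', b', c', d', h3, h4⟩ := hg
  refine ⟨a * a' + b * c', a * b' + b * d', c * a' + d * c', c * b' + d * d', ?_, ?_⟩
  · have : (a * a' + b * c') * (c * b' + d * d') - (a * b' + b * d') * (c * a' + d * c') =
        (a * d - b * c) * (a' * d' - b' * c') := by ring
    rw [this, h1, h3, one_mul]
  · filter_upwards [hc.eventually h2, h4] with y hy1 hy2
    obtain ⟨hy1, hy1'⟩ := hy1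
    obtain ⟨hy2, hy2'⟩ := hy2
    have hgy : g y * (c' * y + d') = a' * y + b' := by
      rw [hy2', div_mul_cancel₀ _ hy2]
    have key : (c * a' + d * c') * y + (c * b' + d * d') = (c * g y + d) * (c' * y + d') := by
      linear_combination (-c) * hgy
    have hne : (c * a' + d * c') * y + (c * b' + d * d') ≠ 0 := by
      rw [key]
      exact mul_ne_zero hy1 hy2
    refine ⟨hne, ?_⟩
    rw [hy1', div_eq_div_iff hy1 hne, key]
    linear_combination (a * (c * g y + d) * 1) * hgy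

theorem LocMob.inv (f : ℝ ≃o ℝ) {x : ℝ} (hf : LocMob f (f.symm x)) :
    LocMob (fun y => f.symm y) x := by
  obtain ⟨a, b, c, d, h1, h2⟩ := hf
  refine ⟨d, -b, -c, a, by linarith, ?_⟩
  have hc : ContinuousAt f.symm x := f.symm.continuous.continuousAt
  filter_upwards [hc.eventually h2] with y hy
  obtain ⟨hy1, hy2⟩ := hy
  rw [f.apply_symm_apply] at hy2
  set u := f.symm y
  have hy3 : y * (c * u + d) = a * u + b := by
    rw [hy2, div_mul_cancel₀ _ hy1]
  have h3 : (-c * y + a) * (c * u + d) = 1 := by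
    have : (-c * y + a) * (c * u + d) = -c * (y * (c * u + d)) + a * (c * u + d) := by ring
    rw [this, hy3]
    linarith
  have h4 : -c * y + a ≠ 0 := by
    intro h
    rw [h, zero_mul] at h3
    exact zero_ne_one h3
  refine ⟨h4, ?_⟩
  rw [eq_div_iff h4]
  have h5 : (c * u + d) * (u * (-c * y + a)) = (c * u + d) * (d * y + -b) := by
    have e1 : (c * u + d) * (u * (-c * y + a)) = u * ((-c * y + a) * (c * u + d)) := by ring
    have e2 : (c * u + d) * (d * y + -b) = d * (y * (c * u + d)) - b * (c * u + d) := by ring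
    rw [e1, e2, h3, hy3]
    linear_combination (-u) * h1
  exact mul_left_cancel₀ hy1 h5

/-- Monod's group of piecewise projective homeomorphisms of `ℝ`: the increasing bijections of `ℝ`
which off a finite set are locally Möbius maps. -/
def PPH : Subgroup (ℝ ≃o ℝ) where
  carrier := {f | ∃ S : Set ℝ, S.Finite ∧ ∀ x ∉ S, LocMob f x}
  one_mem' := ⟨∅, Set.finite_empty, fun x _ => LocMob.id x⟩
  mul_mem' := by
    rintro f g ⟨S, hS, hf⟩ ⟨T, hT, hg⟩
    refine ⟨T ∪ g ⁻¹' S, hT.union (hS.preimage g.injective.injOn), fun x hx => ?_⟩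
    rw [Set.mem_union, not_or] at hx
    exact LocMob.comp (f := f) (g := g) (hf (g x) hx.2) (hg x hx.1) g.continuous.continuousAt
  inv_mem' := by
    rintro f ⟨S, hS, hf⟩
    refine ⟨f '' S, hS.image f, fun x hx => ?_⟩
    refine LocMob.inv f (hf _ fun h => hx ⟨_, h, f.apply_symm_apply x⟩)

/-- `f` is a rational Möbius map on `[0,1]` and a translation on `(-∞,0]` and on `[1,∞)`. -/
def IsGraft (f : ℝ ≃o ℝ) : Prop :=
  (∃ a b c d : ℚ, a * d - b * c = 1 ∧ ∀ x ∈ Set.Icc (0 : ℝ) 1,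
    (c : ℝ) * x + d ≠ 0 ∧ f x = (a * x + b) / (c * x + d)) ∧
  (∀ x : ℝ, x ≤ 0 → f x = x + f 0) ∧ (∀ x : ℝ, 1 ≤ x → f x = x + (f 1 - 1))

/-! ## The action on the plane -/

/-- The points with some `h p`, `h ∈ G`, where some element of `G` is not differentiable with
positive derivative. -/
def badPts (G : Subgroup (ℝ ≃o ℝ)) : Set ℝ :=
  {p | ∃ g ∈ G, ∃ h ∈ G, ¬ (DifferentiableAt ℝ g (h p) ∧ 0 < deriv g (h p))}

open scoped Classical in
/-- The derivative of `g` at `p`, and `1` at the bad points. -/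
def coc (G : Subgroup (ℝ ≃o ℝ)) (g : ℝ ≃o ℝ) (p : ℝ) : ℝ :=
  if p ∈ badPts G then 1 else deriv g p

theorem mem_badPts_iff (G : Subgroup (ℝ ≃o ℝ)) {k : ℝ ≃o ℝ} (hk : k ∈ G) (p : ℝ) :
    k p ∈ badPts G ↔ p ∈ badPts G := by
  constructor
  · rintro ⟨g, hg, h, hh, H⟩
    exact ⟨g, hg, h * k, G.mul_mem hh hk, H⟩
  · rintro ⟨g, hg, h, hh, H⟩
    refine ⟨g, hg, h * k⁻¹, G.mul_mem hh (G.inv_mem hk), ?_⟩
    have : (h * k⁻¹) (k p) = h p := by
      change h (k.symm (k p)) = h p
      rw [k.symm_apply_apply]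
    rw [this]
    exact H

theorem coc_mul (G : Subgroup (ℝ ≃o ℝ)) {g h : ℝ ≃o ℝ} (hg : g ∈ G) (hh : h ∈ G) (p : ℝ) :
    coc G (g * h) p = coc G g (h p) * coc G h p := by
  unfold coc
  by_cases hp : p ∈ badPts G
  · rw [if_pos hp, if_pos ((mem_badPts_iff G hh p).2 hp), if_pos hp, one_mul]
  · rw [if_neg hp, if_neg (fun H => hp ((mem_badPts_iff G hh p).1 H)), if_neg hp]
    have h1 : DifferentiableAt ℝ h p := by
      by_contra H
      exact hp ⟨h, hh, 1, G.one_mem, fun H' => H H'.1⟩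
    have h2 : DifferentiableAt ℝ g (h p) := by
      by_contra H
      exact hp ⟨g, hg, h, hh, fun H' => H H'.1⟩
    exact deriv_comp p h2 h1

theorem coc_one (G : Subgroup (ℝ ≃o ℝ)) (p : ℝ) : coc G 1 p = 1 := by
  unfold coc
  split_ifs
  · rfl
  · exact deriv_id p

/-- The plane, with the right action of `G`. -/
def Pl (_G : Subgroup (ℝ ≃o ℝ)) : Type := ℝ × ℝ

instance (G : Subgroup (ℝ ≃o ℝ)) : MeasurableSpace (Pl G) :=
  inferInstanceAs (MeasurableSpace (ℝ × ℝ))

/-- Lebesgue measure of the plane. -/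
def plVol (G : Subgroup (ℝ ≃o ℝ)) : Measure (Pl G) := (volume : Measure (ℝ × ℝ))

/-- The right action on the plane: `(p, t) g = (g⁻¹ p, t / (g⁻¹)' (p))`. -/
instance (G : Subgroup (ℝ ≃o ℝ)) : MulAction (G)ᵐᵒᵖ (Pl G) where
  smul a z := ((((a.unop)⁻¹ : G) : ℝ ≃o ℝ) z.1, z.2 / coc G (((a.unop)⁻¹ : G) : ℝ ≃o ℝ) z.1)
  one_smul z := by
    change ((((1 : G)⁻¹ : G) : ℝ ≃o ℝ) z.1, z.2 / coc G (((1 : G)⁻¹ : G) : ℝ ≃o ℝ) z.1) = z
    rw [inv_one, OneMemClass.coe_one, coc_one, div_one]
    rfl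
  mul_smul a b z := by
    obtain ⟨p, t⟩ := z
    set g : G := (a.unop)⁻¹ with hg
    set h : G := (b.unop)⁻¹ with hh
    have e : (((a * b).unop)⁻¹ : G) = g * h := by
      rw [unop_mul, mul_inv_rev]
    change ((((a * b).unop⁻¹ : G) : ℝ ≃o ℝ) p, t / coc G (((a * b).unop⁻¹ : G) : ℝ ≃o ℝ) p) =
      ((g : ℝ ≃o ℝ) ((h : ℝ ≃o ℝ) p),
        t / coc G (h : ℝ ≃o ℝ) p / coc G (g : ℝ ≃o ℝ) ((h : ℝ ≃o ℝ) p))
    rw [e, Subgroup.coe_mul, coc_mul G g.2 h.2, div_div]
    rw [mul_comm (coc G (g : ℝ ≃o ℝ) _)]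
    rfl

theorem pl_smul {G : Subgroup (ℝ ≃o ℝ)} (g : G) (z : Pl G) :
    op g • z = (((g⁻¹ : G) : ℝ ≃o ℝ) z.1, z.2 / coc G ((g⁻¹ : G) : ℝ ≃o ℝ) z.1) := rfl

/-! ## The free family -/

/-- Five times the rotation `a`, and five times its inverse. -/
def RR : Matrix (Fin 2) (Fin 2) ℤ := !![3, -4; 4, 3]

@[inherit_doc RR]
def RI : Matrix (Fin 2) (Fin 2) ℤ := !![3, 4; -4, 3]

/-- `15625` times `b` (for `true`) or `b⁻¹` (for `false`), where `b = (1 + x², x; x, 1)`,
`x = 1/125`. -/
def EE (e : Bool) : Matrix (Fin 2) (Fin 2) ℤ :=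
  if e then !![15626, 125; 125, 15625] else !![15625, -125; -125, 15626]

/-- `25^i * 15625` times `b_i = a^i b a^(-i)` (for `true`) or its inverse (for `false`). -/
def Lt (u : ℕ × Bool) : Matrix (Fin 2) (Fin 2) ℤ := RR ^ u.1 * EE u.2 * RI ^ u.1

/-- The scale factor of `Lt`. -/
def KK (i : ℕ) : ℤ := 25 ^ i * 15625

/-- The Möbius map of an integer matrix. -/
def mob (M : Matrix (Fin 2) (Fin 2) ℤ) (q : ℝ) : ℝ := (M 0 0 * q + M 0 1) / (M 1 0 * q + M 1 1)

/-- One step: `q' = b_i q` with `q ∈ [0,1]` (for `true`), or `q = b_i q'` with `q' ∈ [0,1]`. -/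
def Stp (u : ℕ × Bool) (q q' : ℝ) : Prop :=
  if u.2 then q ∈ Set.Icc (0 : ℝ) 1 ∧ q' = mob (Lt (u.1, true)) q
  else q' ∈ Set.Icc (0 : ℝ) 1 ∧ q = mob (Lt (u.1, true)) q'

/-- Reduced words: a letter is never followed by its inverse. -/
def Red (L : List (ℕ × Bool)) : Prop := L.IsChain fun u v => ¬ (u.1 = v.1 ∧ u.2 ≠ v.2)

/-- A run along a word: `R u x x₁` for the first letter, and so on. -/
def Run {X : Type*} (R : ℕ × Bool → X → X → Prop) : List (ℕ × Bool) → X → X → Prop
  | [], x, y => x = y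
  | u :: L, x, y => ∃ x₁, R u x x₁ ∧ Run R L x₁ y

end Pool.Agent.MP_46876e_al_PP
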