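import Pool.Agent.Lib.MP_46876e_al_PP.PDefs

/-!
# MP_46876e_al, project PP, module PEnd: affine germs: the second derived group acts trivially
-/

set_option autoImplicit false

noncomputable section

namespace Pool.Agent.MP_46876e_al_PP

open MeasureTheory MulOpposite Filter Topology Pool.Agent.Forest46876e
open scoped ENNReal

/-- Proof: call `g` a translation germ if `∀ᶠ x in l, c (g x) = c x + b` for some `b`. The inverse
of
an affine germ `a * c x + b` is `(c x - b) / a` (put `x = g⁻¹ y`, `Tendsto (act g⁻¹) l l`), so a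
commutator is a translation germ; translation germs are closed under products and inverses, so
all elements of `derivedSeries F 1 = ⁅⊤, ⊤⁆` are translation germs (`Subgroup.closure_induction`
/ `commutator_le`). The commutator of two translation germs satisfies `c (w x) = c x` eventually, so
`w x = x` (`c` injective), and such `w` form a subgroup. -/
theorem germ_trivial {F : Type*} [Group F] (act : F →* (ℝ ≃o ℝ)) (l : Filter ℝ) (c : ℝ → ℝ)
    (hc : Function.Injective c) (ht : ∀ g, Tendsto (act g) l l)
    (hg : ∀ g, ∃ a b : ℝ, a ≠ 0 ∧ ∀ᶠ x in l, c (act g x) = a * c x + b) (w : F)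
    (hw : w ∈ derivedSeries F 2) : ∀ᶠ x in l, act w x = x := by
  let Aff : F → ℝ → ℝ → Prop := fun g a b => ∀ᶠ x in l, c (act g x) = a * c x + b
  have hmul : ∀ g h a b a' b', Aff g a b → Aff h a' b' → Aff (g * h) (a * a') (a * b' + b) := by
    intro g h a b a' b' h1 h2
    filter_upwards [(ht h).eventually h1, h2] with x e1 e2
    have e : act (g * h) x = act g (act h x) := by
      rw [map_mul]
      rfl
    rw [e, e1, e2]
    ring
  have hinv : ∀ g a b, a ≠ 0 → Aff g a b → Aff g⁻¹ a⁻¹ (-(a⁻¹ * b)) := by
    intro g a b ha h1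
    filter_upwards [(ht g⁻¹).eventually h1] with x e1
    have e : act g (act g⁻¹ x) = x := by
      have : act g (act g⁻¹ x) = (act g * act g⁻¹) x := rfl
      rw [this, ← map_mul, mul_inv_cancel, map_one]
      rfl
    rw [e] at e1
    rw [e1]
    field_simp
    ring
  have hcomm : ∀ g h a b a' b', a ≠ 0 → a' ≠ 0 → Aff g a b → Aff h a' b' →
      ∃ b'', Aff (g * h * g⁻¹ * h⁻¹) 1 b'' ∧ (a = 1 → a' = 1 → b'' = 0) := by
    intro g h a b a' b' ha ha' h1 h2
    have k := hmul _ _ _ _ _ _ (hmul _ _ _ _ _ _ (hmul _ _ _ _ _ _ h1 h2) (hinv _ _ _ ha h1))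
      (hinv _ _ _ ha' h2)
    have e : a * a' * a⁻¹ * a'⁻¹ = 1 := by
      field_simp
    rw [e] at k
    refine ⟨_, k, ?_⟩
    rintro rfl rfl
    simp
  let T1 : Subgroup F :=
    { carrier := {g | ∃ b, Aff g 1 b}
      mul_mem' := by
        rintro g h ⟨b, hb⟩ ⟨b', hb'⟩
        have := hmul _ _ _ _ _ _ hb hb'
        rw [one_mul] at this
        exact ⟨_, this⟩
      one_mem' := by
        refine ⟨0, Filter.Eventually.of_forall fun x => ?_⟩
        rw [map_one, one_mul, add_zero]
        rfl
      inv_mem' := by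
        rintro g ⟨b, hb⟩
        have := hinv _ _ _ one_ne_zero hb
        rw [inv_one] at this
        exact ⟨_, this⟩ }
  let T2 : Subgroup F :=
    { carrier := {g | ∀ᶠ x in l, act g x = x}
      mul_mem' := by
        intro g h hg' hh'
        have hg'' : ∀ᶠ x in l, act g x = x := hg'
        have hh'' : ∀ᶠ x in l, act h x = x := hh'
        show ∀ᶠ x in l, act (g * h) x = x
        filter_upwards [hg'', hh''] with x e1 e2
        have e : act (g * h) x = act g (act h x) := by
          rw [map_mul]
          rfl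
        rw [e, e2, e1]
      one_mem' := by
        show ∀ᶠ x in l, act 1 x = x
        refine Filter.Eventually.of_forall fun x => ?_
        rw [map_one]
        rfl
      inv_mem' := by
        intro g hg'
        have hg'' : ∀ᶠ x in l, act g x = x := hg'
        show ∀ᶠ x in l, act g⁻¹ x = x
        filter_upwards [hg''] with x e1
        have e : act g⁻¹ (act g x) = x := by
          have : act g⁻¹ (act g x) = (act g⁻¹ * act g) x := rfl
          rw [this, ← map_mul, inv_mul_cancel, map_one]
          rfl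
        rw [e1] at e
        exact e }
  have h1 : derivedSeries F 1 ≤ T1 := by
    rw [show (1 : ℕ) = 0 + 1 from rfl, derivedSeries_succ, Subgroup.commutator_le]
    intro g _ h _
    obtain ⟨a, b, ha, hab⟩ := hg g
    obtain ⟨a', b', ha', hab'⟩ := hg h
    obtain ⟨b'', hb, -⟩ := hcomm g h a b a' b' ha ha' hab hab'
    exact ⟨b'', hb⟩
  have h2 : derivedSeries F 2 ≤ T2 := by
    rw [show (2 : ℕ) = 1 + 1 from rfl, derivedSeries_succ, Subgroup.commutator_le]
    intro g hg' h hh'
    obtain ⟨b, hb⟩ := h1 hg'
    obtain ⟨b', hb'⟩ := h1 hh'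
    obtain ⟨b'', hb2, h0⟩ := hcomm g h 1 b 1 b' one_ne_zero one_ne_zero hb hb'
    rw [h0 rfl rfl] at hb2
    have hb3 : ∀ᶠ x in l, c (act (g * h * g⁻¹ * h⁻¹) x) = 1 * c x + 0 := hb2
    show ∀ᶠ x in l, act (g * h * g⁻¹ * h⁻¹) x = x
    filter_upwards [hb3] with x e
    apply hc
    rw [e]
    ring
  exact h2 hw

end Pool.Agent.MP_46876e_al_PP
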