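import Pool.Agent.Lib.MP_46876e_al_PP.PDefs

/-!
# MP_46876e_al, project PP, module PGraft2: grafts are piecewise projective and countable
-/

set_option autoImplicit false

noncomputable section

namespace Pool.Agent.MP_46876e_al_PP

open MeasureTheory MulOpposite Filter Topology Pool.Agent.Forest46876e
open scoped ENNReal

/-- Proof: off `{0, 1}` the map is locally a Möbius map (translations are). -/
theorem graft_mem (f : ℝ ≃o ℝ) (h : IsGraft f) : f ∈ PPH := by
  obtain ⟨⟨a, b, c, d, h1, h2⟩, h3, h4⟩ := h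
  refine ⟨{0, 1}, Set.toFinite _, fun x hx => ?_⟩
  rw [Set.mem_insert_iff, Set.mem_singleton_iff, not_or] at hx
  rcases lt_or_gt_of_ne hx.1 with h5 | h5
  · refine ⟨1, f 0, 0, 1, by ring, ?_⟩
    filter_upwards [Iio_mem_nhds h5] with y hy
    refine ⟨by norm_num, ?_⟩
    rw [h3 y (le_of_lt hy)]
    ring
  · rcases lt_or_gt_of_ne hx.2 with h6 | h6
    · refine ⟨a, b, c, d, by exact_mod_cast h1, ?_⟩
      filter_upwards [Ioo_mem_nhds h5 h6] with y hy
      exact h2 y ⟨hy.1.le, hy.2.le⟩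
    · refine ⟨1, f 1 - 1, 0, 1, by ring, ?_⟩
      filter_upwards [Ioi_mem_nhds h6] with y hy
      refine ⟨by norm_num, ?_⟩
      rw [h4 y (le_of_lt hy)]
      ring

/-- Proof: a graft is determined by the rational numbers `a, b, c, d` (they give `f` on `[0,1]`,
in particular `f 0` and `f 1`): an injection into `ℚ × ℚ × ℚ × ℚ` after choice. -/
theorem graft_countable : {f : ℝ ≃o ℝ | IsGraft f}.Countable := by
  have h1 : ∀ f : {f : ℝ ≃o ℝ | IsGraft f}, ∃ q : ℚ × ℚ × ℚ × ℚ, ∀ x ∈ Set.Icc (0 : ℝ) 1,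
      (f : ℝ ≃o ℝ) x = (q.1 * x + q.2.1) / (q.2.2.1 * x + q.2.2.2) := by
    rintro ⟨f, hf⟩
    obtain ⟨⟨a, b, c, d, -, h2⟩, -, -⟩ := hf
    exact ⟨(a, b, c, d), fun x hx => (h2 x hx).2⟩
  choose φ hφ using h1
  have hinj : Function.Injective φ := by
    rintro ⟨f, hf⟩ ⟨g, hg⟩ hfg
    have h2 : ∀ x ∈ Set.Icc (0 : ℝ) 1, f x = g x := fun x hx =>
      (hφ ⟨f, hf⟩ x hx).trans (by rw [hfg]; exact (hφ ⟨g, hg⟩ x hx).symm)
    have h0 : f 0 = g 0 := h2 0 ⟨le_rfl, zero_le_one⟩
    have h1 : f 1 = g 1 := h2 1 ⟨zero_le_one, le_rfl⟩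
    apply Subtype.ext
    apply RelIso.ext
    intro x
    obtain ⟨-, hf3, hf4⟩ := hf
    obtain ⟨-, hg3, hg4⟩ := hg
    rcases le_total x 0 with hx | hx
    · exact (hf3 x hx).trans ((by rw [h0] : x + f 0 = x + g 0).trans (hg3 x hx).symm)
    · rcases le_total x 1 with hx' | hx'
      · exact h2 x ⟨hx, hx'⟩
      · exact (hf4 x hx').trans ((by rw [h1] : x + (f 1 - 1) = x + (g 1 - 1)).trans
          (hg4 x hx').symm)
  exact hinj.countable

/-- Proof: `Subgroup.closure` of a countable set is countable, `graft_countable`,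
`graft_mem`. -/
theorem graft_closure : Countable (Subgroup.closure {f : ℝ ≃o ℝ | IsGraft f}) ∧
    Subgroup.closure {f : ℝ ≃o ℝ | IsGraft f} ≤ PPH := by
  refine ⟨?_, ?_⟩
  · have := graft_countable.to_subtype
    rw [FreeGroup.closure_eq_range]
    have h2 : (Set.range (FreeGroup.lift
        ((↑) : {f : ℝ ≃o ℝ | IsGraft f} → (ℝ ≃o ℝ)))).Countable :=
      Set.countable_range _
    exact h2.to_subtype
  · rw [Subgroup.closure_le]
    intro f hf
    exact graft_mem f hf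

end Pool.Agent.MP_46876e_al_PP
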