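import Pool.Agent.Lib.MP_46876e_al_PP.PDefs

/-!
# MP_46876e_al, project PP, module PSingle: a locally Moebius map on an interval is one Moebius map
-/

set_option autoImplicit false

noncomputable section

namespace Pool.Agent.MP_46876e_al_PP

open MeasureTheory MulOpposite Filter Topology Pool.Agent.Forest46876e
open scoped ENNReal

private theorem quad_zero {A B C y : ℝ} (h : ∀ᶠ t in 𝓝 y, A * t ^ 2 + B * t + C = 0) :
    A = 0 ∧ B = 0 ∧ C = 0 := by
  obtain ⟨ε, hε, hb⟩ := Metric.eventually_nhds_iff_ball.1 h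
  have h0 := hb y (Metric.mem_ball_self hε)
  have h1 := hb (y + ε / 2) (by
    rw [Metric.mem_ball, Real.dist_eq, add_sub_cancel_left, abs_of_pos (by linarith)]
    linarith)
  have h2 := hb (y - ε / 2) (by
    rw [Metric.mem_ball, Real.dist_eq, sub_sub_cancel_left, abs_neg, abs_of_pos (by linarith)]
    linarith)
  have hA : A = 0 := by
    have h3 : A * (ε ^ 2 / 2) = 0 := by linear_combination h1 + h2 - 2 * h0
    exact (mul_eq_zero.1 h3).resolve_right (by positivity)
  rw [hA] at h0 h1
  have hB : B = 0 := by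
    have h3 : B * (ε / 2) = 0 := by linear_combination h1 - h0
    exact (mul_eq_zero.1 h3).resolve_right (by positivity)
  rw [hB] at h0
  exact ⟨hA, hB, by linarith⟩

/-- Proof: fix `x₀ ∈ I` with matrix `m₀` from `LocMob f x₀`. The set `S` of `x ∈ I` such that near
`x`
`f` is the Möbius map of `m₀` (with nonzero denominator) is open; it is closed in `I`: if `x ∈ I`
is in
the closure of `S`, `f` is near `x` the Möbius map of some `m₁`, and on a nonempty open subset of
`S`
near `x` both formulas hold, so `(a y + b) (c' y + d') = (a' y + b') (c y + d)` for infinitely many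
`y`, the polynomials agree, and with both determinants `1` `m₁ = ± m₀`, so `x ∈ S`. By
preconnectedness `S = I`. -/
theorem single (f : ℝ → ℝ) (I : Set ℝ) (hI : IsOpen I) (hc : IsPreconnected I)
    (hne : I.Nonempty) (h : ∀ x ∈ I, LocMob f x) :
    ∃ a b c d : ℝ, a * d - b * c = 1 ∧
      ∀ x ∈ I, c * x + d ≠ 0 ∧ f x = (a * x + b) / (c * x + d) := by
  obtain ⟨x₀, hx₀⟩ := hne
  obtain ⟨a, b, c, d, hdet, h0⟩ := h x₀ hx₀
  obtain ⟨S, hS⟩ : ∃ S : Set ℝ, S = {x | ∀ᶠ y in 𝓝 x, c * y + d ≠ 0 ∧
    f y = (a * y + b) / (c * y + d)} := ⟨_, rfl⟩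
  have hmem : ∀ x, x ∈ S ↔ ∀ᶠ y in 𝓝 x, c * y + d ≠ 0 ∧
      f y = (a * y + b) / (c * y + d) := by
    intro x
    rw [hS]
    rfl
  have hopen : IsOpen S := by
    rw [isOpen_iff_mem_nhds]
    intro x hx
    rw [hmem, ← eventually_eventually_nhds] at hx
    filter_upwards [hx] with y hy
    exact (hmem y).2 hy
  have hsub : I ⊆ S := by
    refine hc.subset_of_closure_inter_subset hopen ⟨x₀, hx₀, (hmem x₀).2 h0⟩ ?_
    rintro x ⟨hxS, hxI⟩
    obtain ⟨a', b', c', d', hdet', h1⟩ := h x hxI
    obtain ⟨y, hy1, hy2⟩ := mem_closure_iff_nhds.1 hxS _ (eventually_eventually_nhds.2 h1)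
    have hq : ∀ᶠ t in 𝓝 y, (a * c' - a' * c) * t ^ 2 +
        (a * d' + b * c' - (a' * d + b' * c)) * t + (b * d' - b' * d) = 0 := by
      filter_upwards [(hmem y).1 hy2, hy1] with t ht1 ht2
      have e := ht1.2.symm.trans ht2.2
      rw [div_eq_div_iff ht1.1 ht2.1] at e
      linear_combination e
    obtain ⟨q2, q1, q0⟩ := quad_zero hq
    rw [hmem]
    filter_upwards [h1] with t ht
    have key : (a * t + b) * (c' * t + d') = (a' * t + b') * (c * t + d) := by
      linear_combination t ^ 2 * q2 + t * q1 + q0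
    have hne : c * t + d ≠ 0 := by
      intro h3
      rw [h3, mul_zero] at key
      have h4 : a * t + b = 0 := (mul_eq_zero.1 key).resolve_right ht.1
      have h5 : a * d - b * c = 0 := by linear_combination a * h3 - c * h4
      rw [hdet] at h5
      exact one_ne_zero h5
    refine ⟨hne, ?_⟩
    rw [ht.2, div_eq_div_iff ht.1 hne]
    linear_combination -key
  exact ⟨a, b, c, d, hdet, fun x hx => ((hmem x).1 (hsub hx)).self_of_nhds⟩

end Pool.Agent.MP_46876e_al_PP
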