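import Pool.Agent.Lib.MP_46876e_al_PP.PDefs
import Pool.Agent.Lib.MP_46876e_al_PP.PSingle

/-!
# MP_46876e_al, project PP, module PGerm: germs at fixed points and at infinity
-/

set_option autoImplicit false

noncomputable section

namespace Pool.Agent.MP_46876e_al_PP

open MeasureTheory MulOpposite Filter Topology Pool.Agent.Forest46876e
open scoped ENNReal

/-- The Möbius map stays near `a / c` where the denominator is large. -/
private theorem pgerm_far {a b c d x y : ℝ} (hdet : a * d - b * c = 1) (hc : c ≠ 0)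
    (hx : 1 + |d| ≤ |c| * |x|) (hne : c * x + d ≠ 0) (hy : y = (a * x + b) / (c * x + d)) :
    |y - a / c| ≤ 1 / |c| := by
  have h1 : 1 ≤ |c * x + d| := by
    have h2 : |c * x| - |d| ≤ |c * x + d| := by
      have h3 := abs_sub_abs_le_abs_sub (c * x) (-d)
      rw [abs_neg, sub_neg_eq_add] at h3
      exact h3
    rw [abs_mul] at h2
    linarith
  have h4 : y - a / c = -(1 / c) * (1 / (c * x + d)) := by
    have h5 : (a * x + b) * c - (c * x + d) * a = -1 := by linear_combination -hdet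
    rw [hy, div_sub_div _ _ hne hc, h5, neg_div, neg_mul, div_mul_div_comm, one_mul,
      mul_comm c (c * x + d)]
  rw [h4, abs_mul, abs_neg, abs_div, abs_div, abs_one]
  have h5 : 1 / |c * x + d| ≤ 1 := by
    rw [div_le_one (by linarith)]
    exact h1
  have h6 : 0 ≤ 1 / |c| := by positivity
  calc 1 / |c| * (1 / |c * x + d|) ≤ 1 / |c| * 1 := by gcongr
    _ = 1 / |c| := mul_one _

/-- Proof: off a finite set `f` is locally Möbius, so it is one Möbius map on some `(M, ∞)`
(`single`). As `f → ∞` at `∞` we have `c = 0` (otherwise `f → a / c`), so `d ≠ 0`,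
`f x = (a / d) x + b / d`, `a d = 1`. -/
theorem germ_atTop (f : ℝ ≃o ℝ) (hf : f ∈ PPH) :
    ∃ l m : ℝ, l ≠ 0 ∧ ∀ᶠ x in atTop, f x = l * x + m := by
  obtain ⟨S, hS, hloc⟩ := hf
  obtain ⟨M, hM⟩ := hS.bddAbove
  obtain ⟨a, b, c, d, hdet, h⟩ := single f (Set.Ioi M) isOpen_Ioi isPreconnected_Ioi
    ⟨M + 1, by simp⟩ fun x hx => hloc x fun hxS => absurd (hM hxS) (not_le.2 hx)
  have hc : c = 0 := by
    by_contra hc
    have hcp : 0 < |c| := abs_pos.2 hc
    have h1 : ∀ᶠ x in atTop, a / c + 1 / |c| < f x :=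
      f.tendsto_atTop.eventually (eventually_gt_atTop _)
    obtain ⟨x, hx1, hx2, hx3⟩ := (h1.and ((eventually_gt_atTop M).and
      (eventually_ge_atTop ((1 + |d|) / |c|)))).exists
    have hx0 : 0 ≤ x := le_trans (by positivity) hx3
    have h2 := pgerm_far (y := f x) hdet hc (by
      rw [abs_of_nonneg hx0, mul_comm]
      rwa [div_le_iff₀ hcp] at hx3) (h x hx2).1 (h x hx2).2
    rw [abs_le] at h2
    linarith [h2.2]
  subst hc
  have hd : d ≠ 0 := by
    rintro rfl
    simp at hdet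
  have ha : a ≠ 0 := by
    rintro rfl
    simp at hdet
  refine ⟨a / d, b / d, div_ne_zero ha hd, ?_⟩
  filter_upwards [eventually_gt_atTop M] with x hx
  rw [(h x hx).2, zero_mul, zero_add]
  field_simp

theorem germ_atBot (f : ℝ ≃o ℝ) (hf : f ∈ PPH) :
    ∃ l m : ℝ, l ≠ 0 ∧ ∀ᶠ x in atBot, f x = l * x + m := by
  obtain ⟨S, hS, hloc⟩ := hf
  obtain ⟨M, hM⟩ := hS.bddBelow
  obtain ⟨a, b, c, d, hdet, h⟩ := single f (Set.Iio M) isOpen_Iio isPreconnected_Iio
    ⟨M - 1, by simp⟩ fun x hx => hloc x fun hxS => absurd (hM hxS) (not_le.2 hx)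
  have hc : c = 0 := by
    by_contra hc
    have hcp : 0 < |c| := abs_pos.2 hc
    have h1 : ∀ᶠ x in atBot, f x < a / c - 1 / |c| :=
      f.tendsto_atBot.eventually (eventually_lt_atBot _)
    obtain ⟨x, hx1, hx2, hx3⟩ := (h1.and ((eventually_lt_atBot M).and
      (eventually_le_atBot (-((1 + |d|) / |c|))))).exists
    have hq : 0 ≤ (1 + |d|) / |c| := by positivity
    have hx0 : x ≤ 0 := by linarith
    have h2 := pgerm_far (y := f x) hdet hc (by
      rw [abs_of_nonpos hx0, mul_comm, ← div_le_iff₀ hcp]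
      linarith) (h x hx2).1 (h x hx2).2
    rw [abs_le] at h2
    linarith [h2.1]
  subst hc
  have hd : d ≠ 0 := by
    rintro rfl
    simp at hdet
  have ha : a ≠ 0 := by
    rintro rfl
    simp at hdet
  refine ⟨a / d, b / d, div_ne_zero ha hd, ?_⟩
  filter_upwards [eventually_lt_atBot M] with x hx
  rw [(h x hx).2, zero_mul, zero_add]
  field_simp

/-- The common computation at a fixed point. -/
private theorem pgerm_fix (f : ℝ ≃o ℝ) {p a b c d : ℝ} (hp : f p = p)
    (hdet : a * d - b * c = 1) (F : Filter ℝ) [F.NeBot] (hF : F ≤ 𝓝 p)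
    (hne : ∀ᶠ x in F, x ≠ p)
    (h : ∀ᶠ x in F, c * x + d ≠ 0 ∧ f x = (a * x + b) / (c * x + d)) :
    ∃ l m : ℝ, l ≠ 0 ∧ ∀ᶠ x in F, (f x - p)⁻¹ = l * (x - p)⁻¹ + m := by
  have hlim : p * (c * p + d) = a * p + b := by
    have h1 : Tendsto (fun x => f x * (c * x + d)) F (𝓝 (f p * (c * p + d))) := by
      have h2 : Continuous fun x : ℝ => f x * (c * x + d) := by
        have := f.continuous
        fun_prop
      exact (h2.tendsto p).mono_left hF
    have h3 : Tendsto (fun x => a * x + b) F (𝓝 (a * p + b)) := by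
      have h2 : Continuous fun x : ℝ => a * x + b := by fun_prop
      exact (h2.tendsto p).mono_left hF
    rw [hp] at h1
    refine tendsto_nhds_unique_of_eventuallyEq h1 h3 ?_
    filter_upwards [h] with x hx
    rw [hx.2, div_mul_cancel₀ _ hx.1]
  have hcp : c * p + d ≠ 0 := by
    intro h0
    rw [h0, mul_zero] at hlim
    have : a * d - b * c = 0 := by linear_combination a * h0 + c * hlim
    rw [hdet] at this
    exact one_ne_zero this
  refine ⟨(c * p + d) ^ 2, c * (c * p + d), pow_ne_zero 2 hcp, ?_⟩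
  filter_upwards [h, hne] with x hx hxp
  have hxp' : x - p ≠ 0 := sub_ne_zero.2 hxp
  have h1 : f x - p = (x - p) / ((c * x + d) * (c * p + d)) := by
    have hx1 := hx.1
    rw [hx.2, eq_div_iff (mul_ne_zero hx.1 hcp)]
    have e : ((a * x + b) / (c * x + d) - p) * ((c * x + d) * (c * p + d)) =
        ((a * x + b) - p * (c * x + d)) * (c * p + d) := by
      rw [sub_mul, ← mul_assoc ((a * x + b) / (c * x + d)), div_mul_cancel₀ _ hx.1]
      ring
    rw [e]
    linear_combination (x - p) * hdet - (c * x + d) * hlim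
  rw [h1, inv_div, div_eq_mul_inv]
  have e2 : (x - p) * (x - p)⁻¹ = 1 := mul_inv_cancel₀ hxp'
  linear_combination (c * (c * p + d)) * e2

/-- Near `p` there is no exceptional point but `p`. -/
private theorem pgerm_gap {S : Set ℝ} (hS : S.Finite) (p : ℝ) :
    ∃ e > 0, ∀ x, |x - p| < e → x ≠ p → x ∉ S := by
  have h1 : (S \ {p})ᶜ ∈ 𝓝 p := (hS.subset Set.sdiff_subset).isClosed.isOpen_compl.mem_nhds
    (by simp)
  obtain ⟨e, he, hb⟩ := Metric.mem_nhds_iff.1 h1
  refine ⟨e, he, fun x hx hxp hxS => ?_⟩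
  have h2 : x ∈ Metric.ball p e := by rw [Metric.mem_ball, Real.dist_eq]; exact hx
  exact hb h2 ⟨hxS, by simpa using hxp⟩

/-- Proof: `f x = (a x + b) / (c x + d)` on some `(p, p + δ)` (`single`). `c p + d ≠ 0`: otherwise
`(f x) (c x + d) = a x + b` gives in the limit `a p + b = 0`, contradiction to `a d - b c = 1`. So
`p = f p = (a p + b) / (c p + d)` by continuity, `f x - p = (x - p) / ((c x + d) (c p + d))`, and
`(f x - p)⁻¹ = (c p + d)² (x - p)⁻¹ + c (c p + d)`. -/
theorem germ_right (f : ℝ ≃o ℝ) (hf : f ∈ PPH) (p : ℝ) (hp : f p = p) :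
    ∃ l m : ℝ, l ≠ 0 ∧ ∀ᶠ x in 𝓝[>] p, (f x - p)⁻¹ = l * (x - p)⁻¹ + m := by
  obtain ⟨S, hS, hloc⟩ := hf
  obtain ⟨e, he, hgap⟩ := pgerm_gap hS p
  obtain ⟨a, b, c, d, hdet, h⟩ := single f (Set.Ioo p (p + e)) isOpen_Ioo isPreconnected_Ioo
    ⟨p + e / 2, by constructor <;> linarith⟩ fun x hx => hloc x (hgap x (by
      rw [abs_of_pos (by linarith [hx.1])]; linarith [hx.2]) hx.1.ne')
  refine pgerm_fix f hp hdet _ nhdsWithin_le_nhds ?_ ?_
  · filter_upwards [self_mem_nhdsWithin] with x hx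
    exact (ne_of_gt hx)
  · filter_upwards [Ioo_mem_nhdsGT (show p < p + e by linarith)] with x hx
    exact h x hx

theorem germ_left (f : ℝ ≃o ℝ) (hf : f ∈ PPH) (p : ℝ) (hp : f p = p) :
    ∃ l m : ℝ, l ≠ 0 ∧ ∀ᶠ x in 𝓝[<] p, (f x - p)⁻¹ = l * (x - p)⁻¹ + m := by
  obtain ⟨S, hS, hloc⟩ := hf
  obtain ⟨e, he, hgap⟩ := pgerm_gap hS p
  obtain ⟨a, b, c, d, hdet, h⟩ := single f (Set.Ioo (p - e) p) isOpen_Ioo isPreconnected_Ioo
    ⟨p - e / 2, by constructor <;> linarith⟩ fun x hx => hloc x (hgap x (by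
      rw [abs_of_neg (by linarith [hx.2])]; linarith [hx.1]) hx.2.ne)
  refine pgerm_fix f hp hdet _ nhdsWithin_le_nhds ?_ ?_
  · filter_upwards [self_mem_nhdsWithin] with x hx
    exact (ne_of_lt hx)
  · filter_upwards [Ioo_mem_nhdsLT (show p - e < p by linarith)] with x hx
    exact h x hx

end Pool.Agent.MP_46876e_al_PP
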