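import Pool.Agent.Lib.MP_46876e_al_PP.PDefs
import Pool.Agent.Lib.MP_46876e_al_PP.PCore
import Pool.Agent.Lib.MP_46876e_al_PP.PEnd
import Pool.Agent.Lib.MP_46876e_al_PP.PGerm
import Pool.Agent.Lib.MP_46876e_al_PP.PFree1

/-!
# MP_46876e_al, project PP, module PNoFree: no free subgroup
-/

set_option autoImplicit false

noncomputable section

namespace Pool.Agent.MP_46876e_al_PP

open MeasureTheory MulOpposite Filter Topology Pool.Agent.Forest46876e
open scoped ENNReal

private theorem PNoFree_right (f : ℝ ≃o ℝ) {z : ℝ} (hz : f z = z) :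
    Tendsto f (𝓝[>] z) (𝓝[>] z) := by
  refine tendsto_nhdsWithin_iff.2 ⟨?_, ?_⟩
  · have h : Tendsto f (𝓝 z) (𝓝 (f z)) := f.continuous.continuousAt
    rw [hz] at h
    exact h.mono_left nhdsWithin_le_nhds
  · filter_upwards [self_mem_nhdsWithin] with x hx
    have h : f z < f x := f.strictMono hx
    rw [hz] at h
    exact h

private theorem PNoFree_left (f : ℝ ≃o ℝ) {z : ℝ} (hz : f z = z) :
    Tendsto f (𝓝[<] z) (𝓝[<] z) := by
  refine tendsto_nhdsWithin_iff.2 ⟨?_, ?_⟩
  · have h : Tendsto f (𝓝 z) (𝓝 (f z)) := f.continuous.continuousAt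
    rw [hz] at h
    exact h.mono_left nhdsWithin_le_nhds
  · filter_upwards [self_mem_nhdsWithin] with x hx
    have h : f x < f z := f.strictMono hx
    rw [hz] at h
    exact h

private theorem PNoFree_inj (z : ℝ) : Function.Injective fun x : ℝ => (x - z)⁻¹ := by
  intro x y hxy
  have h : x - z = y - z := inv_injective hxy
  linarith

/-- Proof: if `φ` is injective let `act` be `φ` followed by the inclusion in `ℝ ≃o ℝ`. By
`germ_trivial`
with `(atTop, id)`, `(atBot, id)`, `(𝓝[>] z, fun x => (x - z)⁻¹)`, `(𝓝[<] z, same)` and the germ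
lemmas,
the hypothesis `htriv` of `core` holds (`𝓝 z` from the two sides and `act w z = z`); `core`
contradicts `free_not_metab`. -/
theorem pph_no_free (φ : FreeGroup (Fin 2) →* PPH) : ¬ Function.Injective φ := by
  intro hφ
  obtain ⟨w₀, hw₀, hne⟩ := free_not_metab
  refine hne (core (PPH.subtype.comp φ) (PPH.subtype_injective.comp hφ) ?_ w₀ hw₀)
  intro w hw
  have hact : ∀ g, (PPH.subtype.comp φ) g = ((φ g : PPH) : ℝ ≃o ℝ) := fun g => rfl
  refine ⟨fun z hz => ?_, ?_, ?_⟩
  · have h1 := germ_trivial (PPH.subtype.comp φ) (𝓝[>] z) (fun x => (x - z)⁻¹) (PNoFree_inj z)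
      (fun g => PNoFree_right _ (hz g)) (fun g => germ_right _ (φ g).2 z (hz g)) w hw
    have h2 := germ_trivial (PPH.subtype.comp φ) (𝓝[<] z) (fun x => (x - z)⁻¹) (PNoFree_inj z)
      (fun g => PNoFree_left _ (hz g)) (fun g => germ_left _ (φ g).2 z (hz g)) w hw
    rw [← nhdsNE_sup_pure, eventually_sup, ← nhdsLT_sup_nhdsGT, eventually_sup]
    exact ⟨⟨h2, h1⟩, hz w⟩
  · exact germ_trivial (PPH.subtype.comp φ) atTop id Function.injective_id
      (fun g => ((PPH.subtype.comp φ) g).tendsto_atTop) (fun g => germ_atTop _ (φ g).2) w hw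
  · exact germ_trivial (PPH.subtype.comp φ) atBot id Function.injective_id
      (fun g => ((PPH.subtype.comp φ) g).tendsto_atBot) (fun g => germ_atBot _ (φ g).2) w hw

end Pool.Agent.MP_46876e_al_PP
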