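import Pool.Agent.Lib.MP_46876e_al_PP.PConc
import Pool.Agent.Lib.MP_46876e_al_PP.PTransfer
import Pool.Agent.Lib.MP_46876e_al_PP.PNoFree
import Pool.Agent.Lib.MP_46876e_al_PP.PGraft2

/-!
# MP_46876e_al, project PP, module PFin: products with an extension of infinite mass
-/

set_option autoImplicit false

noncomputable section

namespace Pool.Agent.MP_46876e_al_PP

open MeasureTheory MulOpposite Filter Topology Pool.Agent.Forest46876e
open scoped ENNReal

/-- There is one probability measure preserving right action of `G` on a standard probability space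
`(Y, ν)` such that for every essentially free probability measure preserving right action of `G` on
a standard probability space `(W, μ)` the product action on `Y × W`, which is again measure
preserving and essentially free, has a forest family `A` with `∑ g, (ν × μ) (A g) ^ 2 = ∞`. -/
def HasInfiniteForests (G : Type) [Group G] : Prop :=
  ∃ (Y : Type) (_ : MeasurableSpace Y) (_ : StandardBorelSpace Y) (_ : MulAction Gᵐᵒᵖ Y)
    (ν : Measure Y), IsProbabilityMeasure ν ∧
    (∀ g : G, MeasurePreserving (fun y : Y => op g • y) ν ν) ∧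
    ∀ (W : Type) [MeasurableSpace W] [StandardBorelSpace W] [MulAction Gᵐᵒᵖ W] (μ : Measure W)
      [IsProbabilityMeasure μ],
      (∀ g : G, MeasurePreserving (fun w : W => op g • w) μ μ) →
      (∀ᵐ w ∂μ, ∀ g : G, g ≠ 1 → op g • w ≠ w) →
      (∀ g : G, MeasurePreserving (fun x : Y × W => op g • x) (ν.prod μ) (ν.prod μ)) ∧
      (∀ᵐ x ∂(ν.prod μ), ∀ g : G, g ≠ 1 → op g • x ≠ x) ∧
      ∃ A : G → Set (Y × W), IsForestFamily A ∧ ∑' g, (ν.prod μ) (A g) ^ 2 = ⊤

theorem hasInfiniteForests_of_extension (G : Type) [Group G] (m : G → ℝ≥0∞)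
    (h : ForestExtension G m) (c : ℝ≥0∞) (hc : c ≠ 0) (hm : {g : G | c ≤ m g}.Infinite) :
    HasInfiniteForests G := by
  obtain ⟨Y, hY1, hY2, hY3, ν, hν, hνmp, H⟩ := h
  refine ⟨Y, hY1, hY2, hY3, ν, hν, hνmp, ?_⟩
  intro W _ _ _ μ _ hmp hfree
  refine ⟨fun g => (hνmp g).prod (hmp g), ?_, ?_⟩
  · have h1 : ∀ᵐ x ∂(ν.prod μ), ∀ g : G, g ≠ 1 → op g • x.2 ≠ x.2 :=
      Measure.quasiMeasurePreserving_snd.ae hfree
    filter_upwards [h1] with x hx g hg hxg
    exact hx g hg (congrArg Prod.snd hxg)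
  · obtain ⟨A, hA, hAm⟩ := H W μ hmp hfree
    refine ⟨A, hA, ?_⟩
    have hinf : ({g : G | c ≤ m g} \ {1}).Infinite := hm.diff (Set.finite_singleton 1)
    haveI : Infinite ↥({g : G | c ≤ m g} \ {1}) := hinf.to_subtype
    have h2 : ∑' _ : ↥({g : G | c ≤ m g} \ {1}), c ^ 2 = ⊤ :=
      ENNReal.tsum_const_eq_top_of_ne_zero (pow_ne_zero 2 hc)
    rw [eq_top_iff, ← h2]
    calc ∑' _ : ↥({g : G | c ≤ m g} \ {1}), c ^ 2
        ≤ ∑' g : ↥({g : G | c ≤ m g} \ {1}), (ν.prod μ) (A g) ^ 2 := by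
          refine ENNReal.tsum_le_tsum fun g => ?_
          have h3 : c ≤ m g := g.2.1
          have h4 : (g : G) ≠ 1 := g.2.2
          exact pow_le_pow_left' (h3.trans (hAm g h4)) 2
      _ ≤ ∑' g, (ν.prod μ) (A g) ^ 2 :=
          ENNReal.tsum_comp_le_tsum_of_injective Subtype.val_injective _

theorem monod_forests (G : Subgroup (ℝ ≃o ℝ)) [Countable G] (hG : G ≤ PPH)
    (hg : ∀ f, IsGraft f → f ∈ G) : HasInfiniteForests G := by
  obtain ⟨m, h1, h2⟩ := monod_extension G hG hg
  exact hasInfiniteForests_of_extension G m h1 (1 / 32) (by simp) h2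

end Pool.Agent.MP_46876e_al_PP
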