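import Pool.Agent.Lib.MP_46876e_al_PP.RDefs
import Pool.Agent.Lib.MP_46876e_al_PP.PEta

/-!
# MP_46876e_al, project PP, second stage, module RAcyc: one sample point per cycle (first point
version)
-/

set_option autoImplicit false

noncomputable section

namespace Pool.Agent.MP_46876e_al_PP

open MeasureTheory MulOpposite Filter Topology Pool.Agent.Forest46876e
open scoped ENNReal

variable {G Z : Type*} [Group G] [MulAction Gᵐᵒᵖ Z]

/-- The point `j` is the first index seen in `B` from `x`. -/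
private def RAcycU (B : Set Z) {N : ℕ} (ω : Fin N → Z ⊕ Unit) (x : G) (j : Fin N) : Prop :=
  Sees x B (ω j) ∧ ∀ j', j' < j → ¬ Sees x B (ω j')

private theorem RAcycU_unique {B : Set Z} {N : ℕ} {ω : Fin N → Z ⊕ Unit} {x : G} {i j : Fin N}
    (hi : RAcycU B ω x i) (hj : RAcycU B ω x j) : i = j := by
  rcases lt_trichotomy i j with h | h | h
  · exact absurd hi.1 (hj.2 i h)
  · exact h
  · exact absurd hj.1 (hi.2 j h)

private theorem RAcyc_label (B : Set Z) (A : G → Set Z) (hAB : ∀ g, A g ⊆ B)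
    (hAg : ∀ g, ∀ z ∈ A g, op g • z ∈ B) {N : ℕ} (ω : Fin N → Z ⊕ Unit) {x g : G}
    (hx : etaL B A ω (x, g) = true) :
    ∃ j, RAcycU B ω x j ∧ RAcycU B ω (x * g) j ∧ ∃ z, ω j = Sum.inl z ∧ op x • z ∈ A g := by
  obtain ⟨j, ⟨z, hz, hzA⟩, hj⟩ := (etaL_eq_true B A ω (x, g)).1 hx
  have hmul : ∀ z' : Z, op (x * g) • z' = op g • op x • z' := by
    intro z'
    rw [op_mul, mul_smul]
  refine ⟨j, ⟨⟨z, hz, hAB g hzA⟩, fun j' hj' h => ?_⟩, ⟨⟨z, hz, ?_⟩, fun j' hj' h => ?_⟩, z, hz,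
    hzA⟩
  · obtain ⟨z', hz', hz'B⟩ := h
    exact hj j' hj' ⟨z', hz', Or.inl hz'B⟩
  · rw [hmul]
    exact hAg g _ hzA
  · obtain ⟨z', hz', hz'B⟩ := h
    rw [hmul] at hz'B
    exact hj j' hj' ⟨z', hz', Or.inr hz'B⟩

private theorem RAcyc_edge (B : Set Z) (A : G → Set Z) (hAB : ∀ g, A g ⊆ B)
    (hAg : ∀ g, ∀ z ∈ A g, op g • z ∈ B) {N : ℕ} (ω : Fin N → Z ⊕ Unit) {x y : G}
    (hxy : (confGraph (etaL B A ω)).Adj x y) :
    ∃ j, RAcycU B ω x j ∧ RAcycU B ω y j ∧ ∃ z, ω j = Sum.inl z ∧ (orbGraph A z).Adj x y := by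
  unfold confGraph at hxy
  rw [SimpleGraph.fromRel_adj] at hxy
  obtain ⟨hne, ⟨g, hg, hy⟩ | ⟨g, hg, hx⟩⟩ := hxy
  · obtain ⟨j, h1, h2, z, hz, hzA⟩ := RAcyc_label B A hAB hAg ω hg
    refine ⟨j, h1, by rw [hy]; exact h2, z, hz, ?_⟩
    unfold orbGraph
    rw [SimpleGraph.fromRel_adj]
    exact ⟨hne, Or.inl ⟨g, hzA, hy⟩⟩
  · obtain ⟨j, h1, h2, z, hz, hzA⟩ := RAcyc_label B A hAB hAg ω hg
    refine ⟨j, by rw [hx]; exact h2, h1, z, hz, ?_⟩
    unfold orbGraph
    rw [SimpleGraph.fromRel_adj]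
    exact ⟨hne, Or.inr ⟨g, hzA, hx⟩⟩

private theorem RAcyc_walk (B : Set Z) (A : G → Set Z) (hAB : ∀ g, A g ⊆ B)
    (hAg : ∀ g, ∀ z ∈ A g, op g • z ∈ B) {N : ℕ} (ω : Fin N → Z ⊕ Unit) {j : Fin N} {z : Z}
    (hz : ω j = Sum.inl z) {x y : G} (p : (confGraph (etaL B A ω)).Walk x y)
    (hx : RAcycU B ω x j) : ∀ e ∈ p.edges, e ∈ (orbGraph A z).edgeSet := by
  induction p with
  | nil => simp
  | @cons u v w h p ih =>
    obtain ⟨i, h1, h2, z', hz', hadj⟩ := RAcyc_edge B A hAB hAg ω h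
    obtain rfl : i = j := RAcycU_unique h1 hx
    obtain rfl : z' = z := by
      rw [hz] at hz'
      exact (Sum.inl.inj hz').symm
    intro e he
    rw [SimpleGraph.Walk.edges_cons, List.mem_cons] at he
    rcases he with he | he
    · rw [he, SimpleGraph.mem_edgeSet]
      exact hadj
    · exact ih h2 e he

/-- Proof: as `eta_acyclic` (PEta.lean, copy it), with `j is the first index seen in B from x` in
place
of `j is the only index`: if `etaL B A ω (x, g) = true` with witness `j` then `j` is the first index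
seen in `B` from `x` and the first index seen in `B` from `x g`. -/
theorem etaL_acyclic (B : Set Z) (A : G → Set Z) (hAB : ∀ g, A g ⊆ B)
    (hAg : ∀ g, ∀ z ∈ A g, op g • z ∈ B) {N : ℕ} (ω : Fin N → Z ⊕ Unit)
    (h : ∀ j z, ω j = Sum.inl z → (orbGraph A z).IsAcyclic) :
    (confGraph (etaL B A ω)).IsAcyclic := by
  intro v c hc
  have hstep : ∃ y, (confGraph (etaL B A ω)).Adj v y := by
    cases c with
    | nil => exact absurd hc (by simp)
    | cons h p => exact ⟨_, h⟩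
  obtain ⟨y, hy⟩ := hstep
  obtain ⟨j, h1, -, z, hz, -⟩ := RAcyc_edge B A hAB hAg ω hy
  have htr := RAcyc_walk B A hAB hAg ω hz c h1
  exact h j z hz (c.transfer _ htr) (hc.transfer htr)

end Pool.Agent.MP_46876e_al_PP
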