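import Pool.Agent.Lib.MP_46876e_al_PP.RDefs
import Pool.Agent.Lib.MP_46876e_al_PP.PPlane

/-!
# MP_46876e_al, project PP, second stage, module RArea: the proportion of the edge sets tends to one
-/

set_option autoImplicit false

noncomputable section

namespace Pool.Agent.MP_46876e_al_PP

open MeasureTheory MulOpposite Filter Topology Pool.Agent.Forest46876e
open scoped ENNReal

theorem measurableSet_box (G : Subgroup (ℝ ≃o ℝ)) (α β : ℝ) : MeasurableSet (box G α β) :=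
  (measurableSet_Icc.prod measurableSet_Icc :
    MeasurableSet (Set.Icc α β ×ˢ Set.Icc (0 : ℝ) 1))

theorem plVol_box (G : Subgroup (ℝ ≃o ℝ)) (α β : ℝ) (h : α ≤ β) :
    plVol G (box G α β) = ENNReal.ofReal (β - α) := by
  change (volume : Measure (ℝ × ℝ)) (Set.Icc α β ×ˢ Set.Icc (0 : ℝ) 1) = _
  rw [Measure.volume_eq_prod, Measure.prod_prod, Real.volume_Icc, Real.volume_Icc]
  norm_num

private theorem RArea_ge (G : Subgroup (ℝ ≃o ℝ)) (hG : (badPts G).Countable) {α β e : ℝ}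
    (h0 : 0 ≤ e) (he1 : e < 1) (k : G)
    (h1 : ∀ x ∈ Set.Icc α β, |((k⁻¹ : G) : ℝ ≃o ℝ) x - x| ≤ e)
    (h2 : ∀ x ∈ Set.Ioo α β, 1 - e ≤ deriv ((k⁻¹ : G) : ℝ ≃o ℝ) x) :
    ENNReal.ofReal ((β - α - 2 * e) * (1 - e)) ≤
      plVol G {z | z ∈ box G α β ∧ op k • z ∈ box G α β} := by
  have hsub : ((Set.Ioo (α + e) (β - e) \ badPts G) ×ˢ Set.Icc (0 : ℝ) (1 - e) :
      Set (ℝ × ℝ)) ⊆ ({z | z ∈ box G α β ∧ op k • z ∈ box G α β} : Set (Pl G)) := by
    rintro ⟨p, t⟩ ⟨⟨hp, hpb⟩, ht⟩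
    have hp1 : α + e < p := hp.1
    have hp2 : p < β - e := hp.2
    have ht1 : (0 : ℝ) ≤ t := ht.1
    have ht2 : t ≤ 1 - e := ht.2
    have hk := abs_le.1 (h1 p ⟨by linarith, by linarith⟩)
    have hd := h2 p ⟨by linarith, by linarith⟩
    have hc : coc G ((k⁻¹ : G) : ℝ ≃o ℝ) p = deriv ((k⁻¹ : G) : ℝ ≃o ℝ) p := if_neg hpb
    refine ⟨⟨⟨by linarith, by linarith⟩, ⟨ht1, by linarith⟩⟩, ?_⟩
    rw [pl_smul]
    refine ⟨⟨?_, ?_⟩, ⟨?_, ?_⟩⟩
    · change α ≤ ((k⁻¹ : G) : ℝ ≃o ℝ) p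
      linarith [hk.1]
    · change ((k⁻¹ : G) : ℝ ≃o ℝ) p ≤ β
      linarith [hk.2]
    · change (0 : ℝ) ≤ t / coc G ((k⁻¹ : G) : ℝ ≃o ℝ) p
      rw [hc]
      exact div_nonneg ht1 (by linarith)
    · change t / coc G ((k⁻¹ : G) : ℝ ≃o ℝ) p ≤ 1
      rw [hc, div_le_one (by linarith)]
      linarith
  have hvol : (volume : Measure (ℝ × ℝ)) ((Set.Ioo (α + e) (β - e) \ badPts G) ×ˢ
      Set.Icc (0 : ℝ) (1 - e)) = ENNReal.ofReal ((β - α - 2 * e) * (1 - e)) := by
    rw [Measure.volume_eq_prod, Measure.prod_prod, measure_sdiff_null (hG.measure_zero _),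
      Real.volume_Ioo, Real.volume_Icc, ENNReal.ofReal_mul' (by linarith), sub_zero]
    congr 2
    ring
  rw [← hvol]
  exact measure_mono hsub

/-- Proof: `a n = vol {z ∈ box | z k ∈ box}` is at most `b = β - α` and at least
`(β - α - 2 δ n) (1 - δ n)` for `n` large (it contains
`{(p, t) | p ∈ (α + δ, β - δ) minus badPts G, t ∈ [0, 1 - δ]}`, compare `area_ge` in PArea.lean; the
bounds at the points of `badPts G` are not needed), so `a n → b`. `vol (Win box k) = 2 b - a n`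
(`Win = box ∪ (· k)⁻¹' box`, both of measure `b` (`pl_measurePreserving`), intersection of measure
`a n`). So the quotient tends to `b / (2 b - b) = 1`. -/
theorem area_lim (G : Subgroup (ℝ ≃o ℝ)) (hG : (badPts G).Countable) (α β : ℝ) (hαβ : α < β)
    (k : ℕ → G) (δ : ℕ → ℝ) (hδ : Tendsto δ atTop (𝓝 0))
    (h1 : ∀ n, ∀ x ∈ Set.Icc α β, |(((k n)⁻¹ : G) : ℝ ≃o ℝ) x - x| ≤ δ n)
    (h2 : ∀ n, ∀ x ∈ Set.Ioo α β, DifferentiableAt ℝ (((k n)⁻¹ : G) : ℝ ≃o ℝ) x ∧
      1 - δ n ≤ deriv (((k n)⁻¹ : G) : ℝ ≃o ℝ) x) :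
    Tendsto (fun n => plVol G {z | z ∈ box G α β ∧ op (k n) • z ∈ box G α β} /
      plVol G (Win (box G α β) (k n))) atTop (𝓝 1) := by
  set b : ℝ≥0∞ := ENNReal.ofReal (β - α) with hb
  have hb0 : b ≠ 0 := (ENNReal.ofReal_pos.2 (sub_pos.2 hαβ)).ne'
  have hbt : b ≠ ⊤ := ENNReal.ofReal_ne_top
  have hbox : plVol G (box G α β) = b := plVol_box G α β hαβ.le
  set a : ℕ → ℝ≥0∞ := fun n => plVol G {z | z ∈ box G α β ∧ op (k n) • z ∈ box G α β} with ha
  have hle : ∀ n, a n ≤ b := fun n =>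
    (measure_mono fun z hz => hz.1).trans_eq hbox
  have h0 : Tendsto (fun n => |δ n|) atTop (𝓝 0) := by simpa using hδ.abs
  have hlim : Tendsto a atTop (𝓝 b) := by
    have hη : Tendsto (fun n => ENNReal.ofReal ((β - α - 2 * |δ n|) * (1 - |δ n|))) atTop
        (𝓝 b) := by
      refine ENNReal.tendsto_ofReal ?_
      have h := ((tendsto_const_nhds (x := β - α)).sub (h0.const_mul 2)).mul
        ((tendsto_const_nhds (x := (1 : ℝ))).sub h0)
      simpa using h
    refine tendsto_of_tendsto_of_tendsto_of_le_of_le' hη tendsto_const_nhds ?_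
      (Eventually.of_forall hle)
    filter_upwards [h0.eventually (gt_mem_nhds one_pos)] with n hn
    refine RArea_ge G hG (abs_nonneg _) hn (k n) (fun x hx => (h1 n x hx).trans (le_abs_self _))
      fun x hx => ?_
    have := (h2 n x hx).2
    linarith [le_abs_self (δ n)]
  have hwin : ∀ n, plVol G (Win (box G α β) (k n)) = b + b - a n := by
    intro n
    have hpre := (pl_measurePreserving G hG (k n)).measure_preimage
      (measurableSet_box G α β).nullMeasurableSet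
    have hmeas : MeasurableSet ((fun z : Pl G => op (k n) • z) ⁻¹' box G α β) :=
      (pl_measurePreserving G hG (k n)).measurable (measurableSet_box G α β)
    have hu := measure_union_add_inter (μ := plVol G) (box G α β) hmeas
    rw [hpre, hbox] at hu
    exact ENNReal.eq_sub_of_add_eq (ne_top_of_le_ne_top hbt (hle n)) hu
  have hwlim : Tendsto (fun n => plVol G (Win (box G α β) (k n))) atTop (𝓝 b) := by
    simp only [hwin]
    have h := ENNReal.Tendsto.sub (tendsto_const_nhds (x := b + b) (f := atTop (α := ℕ))) hlim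
      (Or.inr hbt)
    rwa [ENNReal.add_sub_cancel_right hbt] at h
  have h := ENNReal.Tendsto.div hlim (Or.inl hb0) hwlim (Or.inl hbt)
  rwa [ENNReal.div_self hb0 hbt] at h

end Pool.Agent.MP_46876e_al_PP
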