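import Pool.Agent.Lib.MP_46876e_al_PP.RDefs

/-!
# MP_46876e_al, project PP, second stage, module RRun: runs and matrices (general)
-/

set_option autoImplicit false

noncomputable section

namespace Pool.Agent.MP_46876e_al_PP

open MeasureTheory MulOpposite Filter Topology Pool.Agent.Forest46876e
open scoped ENNReal

private theorem RRun_letter (M : ℕ → Matrix (Fin 2) (Fin 2) ℝ) (hdet : ∀ n, (M n).det = 1)
    (I : Set ℝ) (hden : ∀ n, ∀ q ∈ I, M n 1 0 * q + M n 1 1 ≠ 0) (u : ℕ × Bool) (q q' : ℝ)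
    (h : GStp M I u q q') : ∃ m : ℝ, m ≠ 0 ∧ Ltr M u 0 0 * q + Ltr M u 0 1 = m * q' ∧
      Ltr M u 1 0 * q + Ltr M u 1 1 = m := by
  obtain ⟨n, e⟩ := u
  have hd := hdet n
  rw [Matrix.det_fin_two] at hd
  cases e with
  | true =>
    obtain ⟨h1, h2⟩ : q ∈ I ∧ q' = rmob (M n) q := h
    have h3 := hden n q h1
    have h4 : Ltr M (n, true) = M n := rfl
    rw [h4]
    refine ⟨M n 1 0 * q + M n 1 1, h3, ?_, rfl⟩
    rw [h2, rmob, mul_div_cancel₀ _ h3]
  | false =>
    obtain ⟨h1, h2⟩ : q' ∈ I ∧ q = rmob (M n) q' := h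
    have h3 := hden n q' h1
    have h4 : Ltr M (n, false) = (M n).adjugate := rfl
    have h5 : q * (M n 1 0 * q' + M n 1 1) = M n 0 0 * q' + M n 0 1 := by
      rw [h2, rmob, div_mul_cancel₀ _ h3]
    rw [h4, Matrix.adjugate_fin_two]
    refine ⟨(M n 1 0 * q' + M n 1 1)⁻¹, inv_ne_zero h3, ?_, ?_⟩
    · simp only [Matrix.of_apply, Matrix.cons_val', Matrix.cons_val_zero, Matrix.cons_val_one,
        Matrix.cons_val_fin_one]
      rw [inv_mul_eq_div, eq_div_iff h3]
      linear_combination (M n 1 1) * h5 + q' * hd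
    · simp only [Matrix.of_apply, Matrix.cons_val', Matrix.cons_val_zero, Matrix.cons_val_one,
        Matrix.cons_val_fin_one]
      rw [inv_eq_one_div, eq_div_iff h3]
      linear_combination (-(M n 1 0)) * h5 + hd

/-- Proof: induction on `L` as in `run_vec` (PRun.lean). One letter: `q' = rmob (M n) q`, `q ∈ I`:
`M n (q, 1) = l (q', 1)` with `l = M n 1 0 * q + M n 1 1 ≠ 0`; for the other direction multiply by
the
adjugate (`adjugate (M n) * M n = 1` as `det = 1`). -/
theorem grun_vec (M : ℕ → Matrix (Fin 2) (Fin 2) ℝ) (hdet : ∀ n, (M n).det = 1) (I : Set ℝ)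
    (hden : ∀ n, ∀ q ∈ I, M n 1 0 * q + M n 1 1 ≠ 0) {X : Type*} (q : X → ℝ)
    (L : List (ℕ × Bool)) (x y : X) (h : Run (fun u x x₁ => GStp M I u (q x₁) (q x)) L x y) :
    ∃ l : ℝ, l ≠ 0 ∧
      (L.map (Ltr M)).prod 0 0 * q y + (L.map (Ltr M)).prod 0 1 = l * q x ∧
      (L.map (Ltr M)).prod 1 0 * q y + (L.map (Ltr M)).prod 1 1 = l := by
  induction L generalizing x with
  | nil =>
    refine ⟨1, one_ne_zero, ?_, ?_⟩
    · have h' : x = y := h
      simp [h']
    · simp
  | cons u L ih =>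
    obtain ⟨x₁, h1, h2⟩ := h
    obtain ⟨l, hl, e0, e1⟩ := ih x₁ h2
    obtain ⟨m, hm, f0, f1⟩ := RRun_letter M hdet I hden u (q x₁) (q x) h1
    refine ⟨m * l, mul_ne_zero hm hl, ?_, ?_⟩
    · rw [List.map_cons, List.prod_cons, Matrix.mul_apply, Matrix.mul_apply, Fin.sum_univ_two,
        Fin.sum_univ_two]
      linear_combination (Ltr M u 0 0) * e0 + (Ltr M u 0 1) * e1 + l * f0
    · rw [List.map_cons, List.prod_cons, Matrix.mul_apply, Matrix.mul_apply, Fin.sum_univ_two,
        Fin.sum_univ_two]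
      linear_combination (Ltr M u 1 0) * e0 + (Ltr M u 1 1) * e1 + l * f1

theorem grun_fix (M : ℕ → Matrix (Fin 2) (Fin 2) ℝ) (hdet : ∀ n, (M n).det = 1) (I : Set ℝ)
    (hden : ∀ n, ∀ q ∈ I, M n 1 0 * q + M n 1 1 ≠ 0) {X : Type*} (q : X → ℝ)
    (L : List (ℕ × Bool)) (hL : L ≠ []) (hr : Red L) (x : X)
    (h : Run (fun u x x₁ => GStp M I u (q x₁) (q x)) L x x) : q x ∈ FixQ M := by
  obtain ⟨l, -, e0, e1⟩ := grun_vec M hdet I hden q L x x h
  refine ⟨L, hL, hr, ?_⟩
  linear_combination (q x) * e1 - e0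

/-- Proof: a countable union (over the words) of root sets of polynomials of degree at most two, not
zero by `WFree` (all three coefficients zero would mean a scalar matrix). -/
theorem fixQ_countable (M : ℕ → Matrix (Fin 2) (Fin 2) ℝ) (h : WFree M) :
    (FixQ M).Countable := by
  have hsub : FixQ M ⊆ ⋃ L : List (ℕ × Bool), {q : ℝ | L ≠ [] ∧ Red L ∧
      (L.map (Ltr M)).prod 1 0 * q ^ 2 +
      ((L.map (Ltr M)).prod 1 1 - (L.map (Ltr M)).prod 0 0) * q -
      (L.map (Ltr M)).prod 0 1 = 0} := by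
    rintro q ⟨L, hL⟩
    exact Set.mem_iUnion.2 ⟨L, hL⟩
  refine Set.Countable.mono hsub (Set.countable_iUnion fun L => Set.Finite.countable ?_)
  by_cases hL : L ≠ [] ∧ Red L
  · set P := (L.map (Ltr M)).prod with hP
    set f : Polynomial ℝ := Polynomial.C (P 1 0) * Polynomial.X ^ 2 +
      Polynomial.C (P 1 1 - P 0 0) * Polynomial.X + Polynomial.C (-(P 0 1)) with hf
    have hf0 : f ≠ 0 := by
      intro h0
      have c0 : f.coeff 0 = 0 := by rw [h0, Polynomial.coeff_zero]
      have c1 : f.coeff 1 = 0 := by rw [h0, Polynomial.coeff_zero]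
      have c2 : f.coeff 2 = 0 := by rw [h0, Polynomial.coeff_zero]
      have d0 : f.coeff 0 = -(P 0 1) := by
        rw [hf]
        simp [Polynomial.coeff_X]
      have d1 : f.coeff 1 = P 1 1 - P 0 0 := by
        rw [hf]
        simp [Polynomial.coeff_X, Polynomial.coeff_C]
      have d2 : f.coeff 2 = P 1 0 := by
        rw [hf]
        simp [Polynomial.coeff_X, Polynomial.coeff_C]
      refine h L hL.1 hL.2 (P 0 0) ?_
      rw [← hP]
      ext i j
      fin_cases i <;> fin_cases j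
      · simp
      · simp
        linarith
      · simp
        linarith
      · simp
        linarith
    refine Set.Finite.subset (f.roots.toFinset.finite_toSet) ?_
    rintro q ⟨-, -, hq⟩
    rw [Finset.mem_coe, Multiset.mem_toFinset, Polynomial.mem_roots hf0, Polynomial.IsRoot.def, hf]
    simp only [Polynomial.eval_add, Polynomial.eval_mul, Polynomial.eval_C, Polynomial.eval_pow,
      Polynomial.eval_X]
    linarith
  · refine Set.Finite.subset Set.finite_empty ?_
    rintro q ⟨h1, h2, -⟩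
    exact absurd ⟨h1, h2⟩ hL

end Pool.Agent.MP_46876e_al_PP
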