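import Pool.Agent.Lib.MP_46876e_al_PP.RDefs
import Pool.Agent.Lib.MP_46876e_al_PP.RRun
import Pool.Agent.Lib.MP_46876e_al_PP.PTrail

/-!
# MP_46876e_al, project PP, second stage, module RPlane: acyclic orbit graphs on the plane (general)
-/

set_option autoImplicit false

noncomputable section

namespace Pool.Agent.MP_46876e_al_PP

open MeasureTheory MulOpposite Filter Topology Pool.Agent.Forest46876e
open scoped ENNReal

/-- Proof: as `orbGraph_acyclic` (PAcyc.lean). -/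
theorem g_acyclic (G : Subgroup (ℝ ≃o ℝ)) (M : ℕ → Matrix (Fin 2) (Fin 2) ℝ)
    (hdet : ∀ n, (M n).det = 1) (I : Set ℝ) (hden : ∀ n, ∀ q ∈ I, M n 1 0 * q + M n 1 1 ≠ 0)
    (h : ℕ → G) (hh : ∀ n, ∀ x ∈ I, (((h n)⁻¹ : G) : ℝ ≃o ℝ) x = rmob (M n) x)
    (A : G → Set (Pl G)) (hA : ∀ g, ∀ z ∈ A g, (∃ n, g = h n) ∧ z.1 ∈ I)
    (z : Pl G) (hz : ∀ x : G, (((x⁻¹ : G) : ℝ ≃o ℝ) z.1) ∉ FixQ M) :
    (orbGraph A z).IsAcyclic := by
  intro v c hc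
  have hfst : ∀ x : G, (op x • z).1 = ((x⁻¹ : G) : ℝ ≃o ℝ) z.1 := fun x => by rw [pl_smul]
  have hmul : ∀ x g : G, (((x * g)⁻¹ : G) : ℝ ≃o ℝ) z.1 =
      ((g⁻¹ : G) : ℝ ≃o ℝ) (((x⁻¹ : G) : ℝ ≃o ℝ) z.1) := by
    intro x g
    rw [mul_inv_rev]
    rfl
  obtain ⟨L, hlen, hred, hrun⟩ := trail_run h (orbGraph A z)
    (fun u x x₁ => GStp M I u (((x₁⁻¹ : G) : ℝ ≃o ℝ) z.1) (((x⁻¹ : G) : ℝ ≃o ℝ) z.1)) (by
      intro x y hxy
      unfold orbGraph at hxy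
      rw [SimpleGraph.fromRel_adj] at hxy
      obtain ⟨-, ⟨g, hg, hy⟩ | ⟨g, hg, hx⟩⟩ := hxy
      · obtain ⟨⟨i, hi⟩, hI⟩ := hA g _ hg
        rw [hfst] at hI
        refine ⟨(i, false), ?_, ?_⟩
        · simp [hy, hi]
        · unfold GStp
          rw [if_neg (by simp)]
          refine ⟨hI, ?_⟩
          rw [hy, hmul, hi]
          exact hh i _ hI
      · obtain ⟨⟨i, hi⟩, hI⟩ := hA g _ hg
        rw [hfst] at hI
        refine ⟨(i, true), ?_, ?_⟩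
        · simp [hx, hi]
        · unfold GStp
          rw [if_pos rfl]
          refine ⟨hI, ?_⟩
          rw [hx, hmul, hi]
          exact hh i _ hI) c hc.isTrail
  refine hz v (grun_fix M hdet I hden (fun x : G => ((x⁻¹ : G) : ℝ ≃o ℝ) z.1) L ?_ hred v hrun)
  intro h0
  rw [h0] at hlen
  have h3 := hc.three_le_length
  simp only [List.length_nil] at hlen
  omega

/-- Proof: as `ae_not_algebraic` (PAcyc.lean). -/
theorem ae_not_mem (G : Subgroup (ℝ ≃o ℝ)) [Countable G] (F : Set ℝ) (hF : F.Countable) :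
    ∀ᵐ z ∂(plVol G), ∀ x : G, (((x⁻¹ : G) : ℝ ≃o ℝ) z.1) ∉ F := by
  have hS : {p : ℝ | ∃ x : G, (((x⁻¹ : G) : ℝ ≃o ℝ) p) ∈ F}.Countable := by
    have e : {p : ℝ | ∃ x : G, (((x⁻¹ : G) : ℝ ≃o ℝ) p) ∈ F} =
        ⋃ x : G, (((x⁻¹ : G) : ℝ ≃o ℝ) : ℝ → ℝ) ⁻¹' F := by
      ext p
      simp
    rw [e]
    exact Set.countable_iUnion fun x => hF.preimage (OrderIso.injective _)
  have h0 : (volume : Measure (ℝ × ℝ))
      ({p : ℝ | ∃ x : G, (((x⁻¹ : G) : ℝ ≃o ℝ) p) ∈ F} ×ˢ Set.univ) = 0 := by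
    rw [Measure.volume_eq_prod, Measure.prod_prod, hS.measure_zero, zero_mul]
  have h1 : (plVol G) {z : Pl G | ¬ ∀ x : G, (((x⁻¹ : G) : ℝ ≃o ℝ) z.1) ∉ F} = 0 := by
    refine measure_mono_null ?_ h0
    intro z hz
    simp only [Set.mem_ofPred_eq, not_forall, not_not] at hz
    exact ⟨hz, Set.mem_univ _⟩
  exact h1

end Pool.Agent.MP_46876e_al_PP
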