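import Pool.Agent.Lib.MP_46876e_al_PP.RDefs
import Pool.Agent.Lib.MP_46876e_al_PP.RRun
import Pool.Agent.Lib.MP_46876e_al_PP.RPlane
import Pool.Agent.Lib.MP_46876e_al_PP.RArea
import Pool.Agent.Lib.MP_46876e_al_PP.PDer

/-!
# MP_46876e_al, project PP, second stage, module RData: data from a free family close to the
identity
-/

set_option autoImplicit false

noncomputable section

namespace Pool.Agent.MP_46876e_al_PP

open MeasureTheory MulOpposite Filter Topology Pool.Agent.Forest46876e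
open scoped ENNReal

/-- Proof: `I = Icc α β`, `B = box G α β`, `h n = (f n)⁻¹` (as elements of `G`),
`A g = {z | (∃ n, g = h n) ∧ z ∈ B ∧ op g • z ∈ B}`, `ζ = plVol G`, `m g = ζ (A g) / ζ (Win B g)`.
`badPts_countable`, `pl_measurePreserving`, `g_acyclic` with `ae_not_mem` and `fixQ_countable`,
`area_lim`. Injectivity of `h`: if `h n = h n'`, `n ≠ n'`, take `q ∈ Icc α β` not in `FixQ M`; the
run
along `[(n', false), (n, true)]` from `q` to itself contradicts `grun_fix`
(see `monod_extension` in PConc.lean). -/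
theorem data_of_family (G : Subgroup (ℝ ≃o ℝ)) [Countable G] (hG : G ≤ PPH) (α β : ℝ)
    (hαβ : α < β) (M : ℕ → Matrix (Fin 2) (Fin 2) ℝ) (hdet : ∀ n, (M n).det = 1)
    (hM : WFree M) (hden : ∀ n, ∀ q ∈ Set.Icc α β, M n 1 0 * q + M n 1 1 ≠ 0)
    (f : ℕ → G) (hf : ∀ n, ∀ x ∈ Set.Icc α β, ((f n : G) : ℝ ≃o ℝ) x = rmob (M n) x)
    (δ : ℕ → ℝ) (hδ : Tendsto δ atTop (𝓝 0))
    (h1 : ∀ n, ∀ x ∈ Set.Icc α β, |((f n : G) : ℝ ≃o ℝ) x - x| ≤ δ n)
    (h2 : ∀ n, ∀ x ∈ Set.Ioo α β, DifferentiableAt ℝ ((f n : G) : ℝ ≃o ℝ) x ∧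
      1 - δ n ≤ deriv ((f n : G) : ℝ ≃o ℝ) x) :
    ∃ (h : ℕ → G) (m : G → ℝ≥0∞), Function.Injective h ∧ HasData G m ∧
      Tendsto (fun n => m (h n)) atTop (𝓝 1) := by
  have hB := badPts_countable G hG
  obtain ⟨h, hh⟩ : ∃ h : ℕ → G, ∀ i, (h i)⁻¹ = f i :=
    ⟨fun i => (f i)⁻¹, fun i => by rw [inv_inv]⟩
  obtain ⟨p, hp, hp1⟩ : ∃ p : ℝ, p ∈ Set.Icc α β ∧ p ∉ FixQ M := by
    by_contra H
    push Not at H
    have h3 : (Set.Icc α β).Countable := (fixQ_countable M hM).mono fun x hx => H x hx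
    have h4 := h3.measure_zero (volume : Measure ℝ)
    rw [Real.volume_Icc] at h4
    have h5 := ENNReal.ofReal_pos.2 (sub_pos.2 hαβ)
    rw [h4] at h5
    exact lt_irrefl _ h5
  have hinj : Function.Injective h := by
    intro i j hij
    by_contra hne
    have h3 : f i = f j := by
      rw [← hh i, ← hh j, hij]
    have h4 : ((f i : G) : ℝ ≃o ℝ) p = rmob (M i) p := hf i p hp
    have h5 : ((f i : G) : ℝ ≃o ℝ) p = rmob (M j) p := by
      rw [h3]
      exact hf j p hp
    refine hp1 (grun_fix M hdet (Set.Icc α β) hden (fun x : ℝ => x) [(i, false), (j, true)]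
      (List.cons_ne_nil _ _) ?_ p ⟨((f i : G) : ℝ ≃o ℝ) p, ?_, p, ?_, rfl⟩)
    · simp [Red, hne]
    · change GStp M (Set.Icc α β) (i, false) (((f i : G) : ℝ ≃o ℝ) p) p
      unfold GStp
      rw [if_neg Bool.false_ne_true]
      exact ⟨hp, h4⟩
    · change GStp M (Set.Icc α β) (j, true) p (((f i : G) : ℝ ≃o ℝ) p)
      unfold GStp
      rw [if_pos rfl]
      exact ⟨hp, h5⟩
  have hmp := pl_measurePreserving G hB
  set A : G → Set (Pl G) := fun g => {z | (∃ i, g = h i) ∧ z ∈ box G α β ∧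
    op g • z ∈ box G α β} with hA
  refine ⟨h, fun g => plVol G (A g) / plVol G (Win (box G α β) g), hinj,
    ⟨Pl G, inferInstance, inferInstance, plVol G, box G α β, A, hmp, measurableSet_box G α β,
      ?_, ?_, fun g z hz => hz.2.1, fun g z hz => hz.2.2, ?_, fun g => le_refl _⟩, ?_⟩
  · rw [plVol_box G α β hαβ.le]
    exact ENNReal.ofReal_lt_top
  · intro g
    by_cases hgi : ∃ i, g = h i
    · have e : A g = box G α β ∩ (fun z : Pl G => op g • z) ⁻¹' box G α β := by
        ext z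
        simp only [hA, Set.mem_ofPred_eq, Set.mem_inter_iff, Set.mem_preimage]
        exact ⟨fun H => H.2, fun H => ⟨hgi, H⟩⟩
      rw [e]
      exact (measurableSet_box G α β).inter ((hmp g).measurable (measurableSet_box G α β))
    · have e : A g = ∅ := by
        ext z
        simp only [hA, Set.mem_ofPred_eq, Set.mem_empty_iff_false, iff_false]
        exact fun H => hgi H.1
      rw [e]
      exact MeasurableSet.empty
  · filter_upwards [ae_not_mem G (FixQ M) (fixQ_countable M hM)] with z hz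
    refine g_acyclic G M hdet (Set.Icc α β) hden h (fun i x hx => ?_) A
      (fun g z hz' => ⟨hz'.1, hz'.2.1.1⟩) z hz
    rw [hh i]
    exact hf i x hx
  · have hlim := area_lim G hB α β hαβ h δ hδ (fun n x hx => by
      rw [hh n]
      exact h1 n x hx) (fun n x hx => by
      rw [hh n]
      exact h2 n x hx)
    have e : ∀ n, A (h n) = {z | z ∈ box G α β ∧ op (h n) • z ∈ box G α β} := by
      intro n
      ext z
      simp only [hA, Set.mem_ofPred_eq]
      exact ⟨fun H => H.2, fun H => ⟨⟨n, rfl⟩, H⟩⟩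
    simp only [e]
    exact hlim

end Pool.Agent.MP_46876e_al_PP
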