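import Pool.Agent.Lib.MP_46876e_al_PP.PDefs

/-!
# MP_46876e_al, project PP, second stage: definitions

Sharp transfer principle (the first sample point seen decides), overgroups, all Monod groups `H(A)`,
`A ≠ ℤ`, and the Lodha-Moore group.
-/

set_option autoImplicit false

noncomputable section

namespace Pool.Agent.MP_46876e_al_PP

open MeasureTheory MulOpposite Filter Topology Pool.Agent.Forest46876e
open scoped ENNReal

/-! ## Sampling: the first point decides -/

section samp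

variable {G Z : Type*} [Group G] [MulAction Gᵐᵒᵖ Z]

open scoped Classical in
/-- The configuration of the sample `ω`: the label `(x, g)` is present if some sample point is in
`A g` as seen from `x`, and no earlier sample point is in the window of `g` as seen from `x`. -/
def etaL (B : Set Z) (A : G → Set Z) {N : ℕ} (ω : Fin N → Z ⊕ Unit) : Conf G := fun p =>
  decide (∃ j, Sees p.1 (A p.2) (ω j) ∧ ∀ j', j' < j → ¬ Sees p.1 (Win B p.2) (ω j'))

theorem etaL_eq_true (B : Set Z) (A : G → Set Z) {N : ℕ} (ω : Fin N → Z ⊕ Unit) (p : G × G) :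
    etaL B A ω p = true ↔
      ∃ j, Sees p.1 (A p.2) (ω j) ∧ ∀ j', j' < j → ¬ Sees p.1 (Win B p.2) (ω j') := by
  simp [etaL]

/-- The law of `N` independent sample points, each of law `ptLaw ζ U K`. -/
def sampLawK {Z : Type*} [MeasurableSpace Z] (ζ : Measure Z) (U : Set Z) (K N : ℕ) :
    Measure (Fin N → Z ⊕ Unit) :=
  Measure.pi fun _ => ptLaw ζ U K

end samp

/-- `G` acts on the right, measure preservingly, on some measure space `(Z, ζ)` (the measure may be
infinite) with a set `B` of finite measure and measurable sets `A g ⊆ B` with `(A g) g ⊆ B` such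
that for almost all `z` the graph on `G` with the edges `{x, x g}`, `z x ∈ A g`, is acyclic; and
`m g` is at most the proportion of `A g` in the window `{z | z ∈ B or z g ∈ B}`. -/
def HasData (G : Type) [Group G] (m : G → ℝ≥0∞) : Prop :=
  ∃ (Z : Type) (_ : MeasurableSpace Z) (_ : MulAction Gᵐᵒᵖ Z) (ζ : Measure Z) (B : Set Z)
    (A : G → Set Z), (∀ g : G, MeasurePreserving (fun z : Z => op g • z) ζ ζ) ∧
    MeasurableSet B ∧ ζ B < ⊤ ∧ (∀ g, MeasurableSet (A g)) ∧ (∀ g, A g ⊆ B) ∧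
    (∀ g, ∀ z ∈ A g, op g • z ∈ B) ∧ (∀ᵐ z ∂ζ, (orbGraph A z).IsAcyclic) ∧
    ∀ g, m g ≤ ζ (A g) / ζ (Win B g)

/-! ## Words in a sequence of matrices -/

/-- The Möbius map of a real matrix. -/
def rmob (M : Matrix (Fin 2) (Fin 2) ℝ) (q : ℝ) : ℝ := (M 0 0 * q + M 0 1) / (M 1 0 * q + M 1 1)

/-- The matrix of the letter `u`: the matrix `M u.1` or its adjugate. -/
def Ltr {R : Type*} [CommRing R] (M : ℕ → Matrix (Fin 2) (Fin 2) R) (u : ℕ × Bool) :
    Matrix (Fin 2) (Fin 2) R :=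
  if u.2 then M u.1 else (M u.1).adjugate

/-- Nonempty reduced words in the `M n` and their adjugates are not scalar matrices. -/
def WFree {R : Type*} [CommRing R] (M : ℕ → Matrix (Fin 2) (Fin 2) R) : Prop :=
  ∀ L : List (ℕ × Bool), L ≠ [] → Red L → ∀ c : R,
    (L.map (Ltr M)).prod ≠ c • (1 : Matrix (Fin 2) (Fin 2) R)

/-- The matrix `(1, y; 0, 1) (1, 0; y, 1)`. -/
def bm {R : Type*} [CommRing R] (y : R) : Matrix (Fin 2) (Fin 2) R := !![1 + y ^ 2, y; y, 1]

/-- The sequence `bm (X ^ (n + 1))`. -/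
def bseq {R : Type*} [CommRing R] (X : R) (n : ℕ) : Matrix (Fin 2) (Fin 2) R := bm (X ^ (n + 1))

/-- One step along the Möbius map of `M u.1`, with the source in `I`. -/
def GStp (M : ℕ → Matrix (Fin 2) (Fin 2) ℝ) (I : Set ℝ) (u : ℕ × Bool) (q q' : ℝ) : Prop :=
  if u.2 then q ∈ I ∧ q' = rmob (M u.1) q else q' ∈ I ∧ q = rmob (M u.1) q'

/-- The fixed points of nonempty reduced words. -/
def FixQ (M : ℕ → Matrix (Fin 2) (Fin 2) ℝ) : Set ℝ :=
  {q | ∃ L : List (ℕ × Bool), L ≠ [] ∧ Red L ∧ (L.map (Ltr M)).prod 1 0 * q ^ 2 +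
    ((L.map (Ltr M)).prod 1 1 - (L.map (Ltr M)).prod 0 0) * q - (L.map (Ltr M)).prod 0 1 = 0}

/-- The box over an interval. -/
def box (G : Subgroup (ℝ ≃o ℝ)) (α β : ℝ) : Set (Pl G) :=
  {z | z.1 ∈ Set.Icc α β ∧ z.2 ∈ Set.Icc (0 : ℝ) 1}

/-! ## Monod's groups -/

/-- `f` is near `x` the Möbius map of a matrix of determinant one with entries in `A`. -/
def LocMobIn (A : Subring ℝ) (f : ℝ → ℝ) (x : ℝ) : Prop :=
  ∃ a ∈ A, ∃ b ∈ A, ∃ c ∈ A, ∃ d ∈ A, a * d - b * c = 1 ∧
    ∀ᶠ y in 𝓝 x, c * y + d ≠ 0 ∧ f y = (a * y + b) / (c * y + d)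

theorem LocMobIn.loc {A : Subring ℝ} {f : ℝ → ℝ} {x : ℝ} (h : LocMobIn A f x) : LocMob f x := by
  obtain ⟨a, _, b, _, c, _, d, _, h1, h2⟩ := h
  exact ⟨a, b, c, d, h1, h2⟩

theorem LocMobIn.id (A : Subring ℝ) (x : ℝ) : LocMobIn A (fun y => y) x :=
  ⟨1, A.one_mem, 0, A.zero_mem, 0, A.zero_mem, 1, A.one_mem, by norm_num,
    Eventually.of_forall fun y => ⟨by norm_num, by simp⟩⟩

theorem LocMobIn.comp {A : Subring ℝ} {f g : ℝ → ℝ} {x : ℝ} (hf : LocMobIn A f (g x))
    (hg : LocMobIn A g x) (hc : ContinuousAt g x) : LocMobIn A (fun y => f (g y)) x := by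
  obtain ⟨a, ha, b, hb, c, hc', d, hd, h1, h2⟩ := hf
  obtain ⟨a', ha', b', hb', c', hc'', d', hd', h3, h4⟩ := hg
  refine ⟨a * a' + b * c', A.add_mem (A.mul_mem ha ha') (A.mul_mem hb hc''), a * b' + b * d',
    A.add_mem (A.mul_mem ha hb') (A.mul_mem hb hd'), c * a' + d * c',
    A.add_mem (A.mul_mem hc' ha') (A.mul_mem hd hc''), c * b' + d * d',
    A.add_mem (A.mul_mem hc' hb') (A.mul_mem hd hd'), ?_, ?_⟩
  · have : (a * a' + b * c') * (c * b' + d * d') - (a * b' + b * d') * (c * a' + d * c') =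
        (a * d - b * c) * (a' * d' - b' * c') := by ring
    rw [this, h1, h3, one_mul]
  · filter_upwards [hc.eventually h2, h4] with y hy1 hy2
    obtain ⟨hy1, hy1'⟩ := hy1
    obtain ⟨hy2, hy2'⟩ := hy2
    have hgy : g y * (c' * y + d') = a' * y + b' := by
      rw [hy2', div_mul_cancel₀ _ hy2]
    have key : (c * a' + d * c') * y + (c * b' + d * d') = (c * g y + d) * (c' * y + d') := by
      linear_combination (-c) * hgy
    have hne : (c * a' + d * c') * y + (c * b' + d * d') ≠ 0 := by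
      rw [key]
      exact mul_ne_zero hy1 hy2
    refine ⟨hne, ?_⟩
    rw [hy1', div_eq_div_iff hy1 hne, key]
    linear_combination (a * (c * g y + d) * 1) * hgy

theorem LocMobIn.inv {A : Subring ℝ} (f : ℝ ≃o ℝ) {x : ℝ} (hf : LocMobIn A f (f.symm x)) :
    LocMobIn A (fun y => f.symm y) x := by
  obtain ⟨a, ha, b, hb, c, hc', d, hd, h1, h2⟩ := hf
  refine ⟨d, hd, -b, A.neg_mem hb, -c, A.neg_mem hc', a, ha, by linarith, ?_⟩
  have hc : ContinuousAt f.symm x := f.symm.continuous.continuousAt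
  filter_upwards [hc.eventually h2] with y hy
  obtain ⟨hy1, hy2⟩ := hy
  rw [f.apply_symm_apply] at hy2
  set u := f.symm y
  have hy3 : y * (c * u + d) = a * u + b := by
    rw [hy2, div_mul_cancel₀ _ hy1]
  have h3 : (-c * y + a) * (c * u + d) = 1 := by
    have : (-c * y + a) * (c * u + d) = -c * (y * (c * u + d)) + a * (c * u + d) := by ring
    rw [this, hy3]
    linarith
  have h4 : -c * y + a ≠ 0 := by
    intro h
    rw [h, zero_mul] at h3
    exact zero_ne_one h3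
  refine ⟨h4, ?_⟩
  rw [eq_div_iff h4]
  have h5 : (c * u + d) * (u * (-c * y + a)) = (c * u + d) * (d * y + -b) := by
    have e1 : (c * u + d) * (u * (-c * y + a)) = u * ((-c * y + a) * (c * u + d)) := by ring
    have e2 : (c * u + d) * (d * y + -b) = d * (y * (c * u + d)) - b * (c * u + d) := by ring
    rw [e1, e2, h3, hy3]
    linear_combination (-u) * h1
  exact mul_left_cancel₀ hy1 h5

/-- Monod's group `H(A)`: the increasing bijections of `ℝ` which off a finite set are locally Möbius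
maps with coefficients in `A`. -/
def MonodGrp (A : Subring ℝ) : Subgroup (ℝ ≃o ℝ) where
  carrier := {f | ∃ S : Set ℝ, S.Finite ∧ ∀ x ∉ S, LocMobIn A f x}
  one_mem' := ⟨∅, Set.finite_empty, fun x _ => LocMobIn.id A x⟩
  mul_mem' := by
    rintro f g ⟨S, hS, hf⟩ ⟨T, hT, hg⟩
    refine ⟨T ∪ g ⁻¹' S, hT.union (hS.preimage g.injective.injOn), fun x hx => ?_⟩
    rw [Set.mem_union, not_or] at hx
    exact LocMobIn.comp (f := f) (g := g) (hf (g x) hx.2) (hg x hx.1) g.continuous.continuousAt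
  inv_mem' := by
    rintro f ⟨S, hS, hf⟩
    refine ⟨f '' S, hS.image f, fun x hx => ?_⟩
    refine LocMobIn.inv f (hf _ fun h => hx ⟨_, h, f.apply_symm_apply x⟩)

theorem monodGrp_le (A : Subring ℝ) : MonodGrp A ≤ PPH := by
  rintro f ⟨S, hS, hf⟩
  exact ⟨S, hS, fun x hx => (hf x hx).loc⟩

/-! ## The Lodha-Moore group -/

/-- `t ↦ t + 1`. -/
def lmA : ℝ ≃o ℝ := OrderIso.addRight (1 : ℝ)

/-- The map `t` for `t ≤ 0`, `t / (1 - t)` on `[0, 1/2]`, `3 - 1/t` on `[1/2, 1]`, `t + 1` for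
`t ≥ 1`. -/
def lmBfun (t : ℝ) : ℝ :=
  if t ≤ 0 then t else if t ≤ 1 / 2 then t / (1 - t) else if t ≤ 1 then 3 - 1 / t else t + 1

/-- The inverse of `lmBfun`. -/
def lmBinv (s : ℝ) : ℝ :=
  if s ≤ 0 then s else if s ≤ 1 then s / (1 + s) else if s ≤ 2 then 1 / (3 - s) else s - 1

/-- The map `2 t / (1 + t)` on `[0,1]`, the identity outside. -/
def lmCfun (t : ℝ) : ℝ := if t ≤ 0 then t else if t ≤ 1 then 2 * t / (1 + t) else t

/-- The inverse of `lmCfun`. -/
def lmCinv (s : ℝ) : ℝ := if s ≤ 0 then s else if s ≤ 1 then s / (2 - s) else s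

end Pool.Agent.MP_46876e_al_PP
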