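import Pool.Agent.Lib.MP_46876e_al_PP.RDefs

/-!
# MP_46876e_al, project PP, second stage, module RHom: free words and ring homomorphisms
-/

set_option autoImplicit false

noncomputable section

namespace Pool.Agent.MP_46876e_al_PP

open MeasureTheory MulOpposite Filter Topology Pool.Agent.Forest46876e
open scoped ENNReal

private theorem rhom_ltr {R S : Type*} [CommRing R] [CommRing S] (σ : R →+* S)
    (M : ℕ → Matrix (Fin 2) (Fin 2) R) (u : ℕ × Bool) :
    Ltr (fun n => (M n).map σ) u = σ.mapMatrix (Ltr M u) := by
  unfold Ltr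
  split_ifs
  · rfl
  · rw [RingHom.map_adjugate]
    rfl

private theorem rhom_prod {R S : Type*} [CommRing R] [CommRing S] (σ : R →+* S)
    (M : ℕ → Matrix (Fin 2) (Fin 2) R) (L : List (ℕ × Bool)) :
    (L.map (Ltr fun n => (M n).map σ)).prod = σ.mapMatrix (L.map (Ltr M)).prod := by
  induction L with
  | nil => simp
  | cons u L ih => rw [List.map_cons, List.prod_cons, ih, rhom_ltr, List.map_cons, List.prod_cons,
      map_mul]

/-- Proof: apply `σ` to the entries (`RingHom.mapMatrix`, adjugate commutes with it:
`RingHom.map_adjugate`): `(L.map (Ltr M)).prod = c • 1` would give the same for the images. -/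
theorem wfree_of_hom {R S : Type*} [CommRing R] [CommRing S] (σ : R →+* S)
    (M : ℕ → Matrix (Fin 2) (Fin 2) R) (h : WFree fun n => (M n).map σ) : WFree M := by
  intro L hL hR c hc
  refine h L hL hR (σ c) ?_
  rw [rhom_prod, hc]
  ext i j
  simp only [RingHom.mapMatrix_apply, Matrix.map_apply, Matrix.smul_apply, smul_eq_mul, map_mul]
  by_cases hij : i = j
  · subst hij
    simp
  · simp [Matrix.one_apply_ne hij]

/-- Proof: if the product of the images is `c • 1` then `c` is the image of the entry `0 0` of the
product over `R`, and injectivity gives that the product over `R` is scalar. -/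
theorem wfree_map {R S : Type*} [CommRing R] [CommRing S] (σ : R →+* S)
    (hσ : Function.Injective σ) (M : ℕ → Matrix (Fin 2) (Fin 2) R) (h : WFree M) :
    WFree fun n => (M n).map σ := by
  intro L hL hR c hc
  rw [rhom_prod] at hc
  obtain ⟨N, hN⟩ : ∃ N, N = (L.map (Ltr M)).prod := ⟨_, rfl⟩
  rw [← hN] at hc
  have he : ∀ i j, σ (N i j) = (c • (1 : Matrix (Fin 2) (Fin 2) S)) i j := fun i j => by
    rw [← hc]
    rfl
  have h00 : σ (N 0 0) = c := by simpa using he 0 0
  have h11 : σ (N 1 1) = c := by simpa using he 1 1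
  have h01 : N 0 1 = 0 := hσ (by simpa using he 0 1)
  have h10 : N 1 0 = 0 := hσ (by simpa using he 1 0)
  have h2 : N 1 1 = N 0 0 := hσ (h11.trans h00.symm)
  refine h L hL hR (N 0 0) ?_
  rw [← hN]
  ext i j
  fin_cases i <;> fin_cases j
  · simp
  · simpa using h01
  · simpa using h10
  · simpa using h2

private theorem rhom_adj_adj {R : Type*} [CommRing R] (P : Matrix (Fin 2) (Fin 2) R) :
    P.adjugate.adjugate = P := by
  ext i j
  fin_cases i <;> fin_cases j <;> simp [Matrix.adjugate_fin_two]

private theorem rhom_conj_prod {R : Type*} [CommRing R] (P : Matrix (Fin 2) (Fin 2) R)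
    (hP : P.det = 1) (M : ℕ → Matrix (Fin 2) (Fin 2) R) (L : List (ℕ × Bool)) :
    (L.map (Ltr fun n => P.adjugate * M n * P)).prod =
      P.adjugate * (L.map (Ltr M)).prod * P := by
  have h1 : P.adjugate * P = 1 := by rw [Matrix.adjugate_mul, hP, one_smul]
  have h2 : P * P.adjugate = 1 := by rw [Matrix.mul_adjugate, hP, one_smul]
  have hl : ∀ u : ℕ × Bool, Ltr (fun n => P.adjugate * M n * P) u =
      P.adjugate * Ltr M u * P := by
    intro u
    unfold Ltr
    split_ifs
    · rfl
    · rw [Matrix.adjugate_mul_distrib, Matrix.adjugate_mul_distrib, rhom_adj_adj, mul_assoc]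
  induction L with
  | nil => simp [h1]
  | cons u L ih =>
    rw [List.map_cons, List.prod_cons, ih, hl, List.map_cons, List.prod_cons]
    calc P.adjugate * Ltr M u * P * (P.adjugate * (List.map (Ltr M) L).prod * P)
        = P.adjugate * Ltr M u * (P * P.adjugate) * (List.map (Ltr M) L).prod * P := by
          simp only [mul_assoc]
      _ = P.adjugate * (Ltr M u * (List.map (Ltr M) L).prod) * P := by
          rw [h2]
          simp only [mul_assoc, mul_one, one_mul]

/-- Proof: the word in the conjugates is the conjugate of the word (`adjugate_mul_distrib`;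
`P` has determinant one, so `P.adjugate = P⁻¹`); scalars are central. -/
theorem wfree_conj {R : Type*} [CommRing R] (P : Matrix (Fin 2) (Fin 2) R) (hP : P.det = 1)
    (M : ℕ → Matrix (Fin 2) (Fin 2) R) (h : WFree M) :
    WFree fun n => P.adjugate * M n * P := by
  intro L hL hR c hc
  rw [rhom_conj_prod P hP] at hc
  have h2 : P * P.adjugate = 1 := by rw [Matrix.mul_adjugate, hP, one_smul]
  refine h L hL hR c ?_
  obtain ⟨N, hN⟩ : ∃ N, N = (L.map (Ltr M)).prod := ⟨_, rfl⟩
  rw [← hN] at hc ⊢
  calc N = (P * P.adjugate) * N * (P * P.adjugate) := by rw [h2, one_mul, mul_one]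
    _ = P * (P.adjugate * N * P) * P.adjugate := by simp only [mul_assoc]
    _ = c • (1 : Matrix (Fin 2) (Fin 2) R) := by
      rw [hc, mul_smul_comm, mul_one, smul_mul_assoc, h2]

end Pool.Agent.MP_46876e_al_PP
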