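import Pool.Agent.Lib.MP_46876e_al_PP.RLMDefs

/-!
# MP_46876e_al, project PP, second stage, module RLM: elements of the Lodha-Moore group close to
the identity
-/

set_option autoImplicit false

noncomputable section

namespace Pool.Agent.MP_46876e_al_PP

open MeasureTheory MulOpposite Filter Topology Pool.Agent.Forest46876e
open scoped ENNReal

private theorem rlm_id {f : ℝ → ℝ} {x : ℝ} (h : ∀ᶠ y in 𝓝 x, f y = y) : LocMob f x := by
  refine ⟨1, 0, 0, 1, by norm_num, ?_⟩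
  filter_upwards [h] with y hy
  refine ⟨by norm_num, ?_⟩
  rw [hy]
  simp

private theorem rlm_add {f : ℝ → ℝ} {x : ℝ} (h : ∀ᶠ y in 𝓝 x, f y = y + 1) : LocMob f x := by
  refine ⟨1, 1, 0, 1, by norm_num, ?_⟩
  filter_upwards [h] with y hy
  refine ⟨by norm_num, ?_⟩
  rw [hy]
  simp

private theorem rlm_A : lmA ∈ PPH :=
  ⟨∅, Set.finite_empty, fun _ _ => rlm_add (Eventually.of_forall fun _ => rfl)⟩

private theorem rlm_B : lmB ∈ PPH := by
  refine ⟨{0, 1 / 2, 1}, (Set.finite_singleton _).insert _ |>.insert _, fun x hx => ?_⟩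
  simp only [Set.mem_insert_iff, Set.mem_singleton_iff, not_or] at hx
  obtain ⟨h0, h1, h2⟩ := hx
  rcases lt_or_gt_of_ne h0 with h0 | h0
  · refine rlm_id ?_
    filter_upwards [Iio_mem_nhds h0] with y hy
    rw [lmB_apply, lmBfun, if_pos (le_of_lt hy)]
  rcases lt_or_gt_of_ne h1 with h1 | h1
  · refine ⟨1, 0, -1, 1, by norm_num, ?_⟩
    filter_upwards [Ioo_mem_nhds h0 h1] with y hy
    have hy1 : 1 - y ≠ 0 := by linarith [hy.2]
    refine ⟨?_, ?_⟩
    · intro h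
      exact hy1 (by linarith)
    · rw [lmB_apply, lmBfun, if_neg (not_le.mpr hy.1), if_pos hy.2.le]
      congr 1 <;> ring
  rcases lt_or_gt_of_ne h2 with h2 | h2
  · refine ⟨3, -1, 1, 0, by norm_num, ?_⟩
    filter_upwards [Ioo_mem_nhds h1 h2] with y hy
    have hy0 : 0 < y := by linarith [hy.1]
    refine ⟨?_, ?_⟩
    · rw [one_mul, add_zero]
      exact hy0.ne'
    · rw [lmB_apply, lmBfun, if_neg (not_le.mpr hy0), if_neg (not_le.mpr hy.1), if_pos hy.2.le]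
      field_simp
      ring
  · refine rlm_add ?_
    filter_upwards [Ioi_mem_nhds h2] with y hy
    have hy' : (1 : ℝ) < y := hy
    rw [lmB_apply, lmBfun, if_neg (by linarith), if_neg (by linarith), if_neg (by linarith)]

private theorem rlm_C : lmC ∈ PPH := by
  refine ⟨{0, 1}, (Set.finite_singleton _).insert _, fun x hx => ?_⟩
  simp only [Set.mem_insert_iff, Set.mem_singleton_iff, not_or] at hx
  obtain ⟨h0, h1⟩ := hx
  rcases lt_or_gt_of_ne h0 with h0 | h0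
  · refine rlm_id ?_
    filter_upwards [Iio_mem_nhds h0] with y hy
    rw [lmC_apply, lmCfun, if_pos (le_of_lt hy)]
  rcases lt_or_gt_of_ne h1 with h1 | h1
  · have hs : √(2 : ℝ) ≠ 0 := by positivity
    have hs2 : √(2 : ℝ) * √2 = 2 := Real.mul_self_sqrt (by norm_num)
    refine ⟨√2, 0, 1 / √2, 1 / √2, ?_, ?_⟩
    · rw [zero_mul, sub_zero]
      exact mul_one_div_cancel hs
    · filter_upwards [Ioo_mem_nhds h0 h1] with y hy
      have hy1 : 1 + y ≠ 0 := by linarith [hy.1]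
      have e : 1 / √2 * y + 1 / √2 = (1 + y) / √2 := by ring
      refine ⟨?_, ?_⟩
      · rw [e]
        exact div_ne_zero hy1 hs
      · rw [lmC_apply, lmCfun, if_neg (not_le.mpr hy.1), if_pos hy.2.le, e, add_zero,
          div_div_eq_mul_div]
        congr 1
        linear_combination (-y) * hs2
  · refine rlm_id ?_
    filter_upwards [Ioi_mem_nhds h1] with y hy
    have hy' : (1 : ℝ) < y := hy
    rw [lmC_apply, lmCfun, if_neg (by linarith), if_neg (by linarith)]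

/-- Proof: `lmA, lmB, lmC` are locally Möbius maps off `{0, 1/2, 1}`: matrices `(1, 1; 0, 1)`,
`(1, 0; -1, 1)`, `(3, -1; 1, 0)` (`3 - 1/t`), and for `2 t / (1 + t)`:
`(√2, 0; 1/√2, 1/√2)`. `Subgroup.closure_le`. -/
theorem LM_le : LMGrp ≤ PPH := by
  rw [LMGrp, Subgroup.closure_le]
  intro f hf
  rcases hf with rfl | rfl | rfl
  · exact rlm_A
  · exact rlm_B
  · exact rlm_C

/-- The matrix `(1 - y + y², y; y², 1 + y)`: the conjugate of `bm y` by `(1, 0; -1, 1)`. -/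
def lmM (y : ℝ) : Matrix (Fin 2) (Fin 2) ℝ := !![1 - y + y ^ 2, y; y ^ 2, 1 + y]

theorem lmM_eq (y : ℝ) : lmM y = (!![1, 0; -1, 1] : Matrix (Fin 2) (Fin 2) ℝ).adjugate * bm y *
    !![1, 0; -1, 1] := by
  rw [Matrix.adjugate_fin_two_of, bm, lmM, Matrix.mul_fin_two, Matrix.mul_fin_two]
  congr 1
  ext i j
  fin_cases i <;> fin_cases j <;> simp <;> ring

/-- The coordinate: `t = s / (1 + s)`. -/
private def rlmS (s : ℝ) : ℝ := s / (1 + s)

private theorem rlmS_pos {s : ℝ} (hs : 0 < s) : 0 < rlmS s := div_pos hs (by linarith)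

private theorem rlmS_lt {s : ℝ} (hs : 0 < s) : rlmS s < 1 := by
  rw [rlmS, div_lt_one (by linarith)]
  linarith

private theorem rlm_cc {s : ℝ} (hs : 0 < s) : lmC (rlmS s) = rlmS (2 * s) := by
  have h1 := rlmS_pos hs
  have h2 := rlmS_lt hs
  rw [lmC_apply, lmCfun, if_neg (not_le.mpr h1), if_pos h2.le]
  have h3 : 1 + s ≠ 0 := by linarith
  have h4 : 1 + 2 * s ≠ 0 := by linarith
  have h5 : 1 + rlmS s = (1 + 2 * s) / (1 + s) := by
    rw [rlmS]
    field_simp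
    ring
  rw [h5, rlmS, rlmS]
  field_simp

private theorem rlm_cci {s : ℝ} (hs : 0 < s) : lmC⁻¹ (rlmS s) = rlmS (s / 2) := by
  have h := rlm_cc (s := s / 2) (by linarith)
  have e : 2 * (s / 2) = s := by ring
  rw [e] at h
  rw [← h]
  exact lmC.symm_apply_apply _

private theorem rlm_ccpow (k : ℕ) {s : ℝ} (hs : 0 < s) : (lmC ^ k) (rlmS s) = rlmS (2 ^ k * s) := by
  induction k generalizing s with
  | zero =>
    rw [pow_zero, pow_zero, one_mul]
    rfl
  | succ k ih =>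
    have e : (lmC ^ (k + 1)) (rlmS s) = (lmC ^ k) (lmC (rlmS s)) := by
      rw [pow_succ]
      rfl
    rw [e, rlm_cc hs, ih (by linarith)]
    congr 1
    ring

private theorem rlm_ccipow (k : ℕ) {s : ℝ} (hs : 0 < s) :
    (lmC⁻¹ ^ k) (rlmS s) = rlmS ((1 / 2) ^ k * s) := by
  induction k generalizing s with
  | zero =>
    rw [pow_zero, pow_zero, one_mul]
    rfl
  | succ k ih =>
    have e : (lmC⁻¹ ^ (k + 1)) (rlmS s) = (lmC⁻¹ ^ k) (lmC⁻¹ (rlmS s)) := by
      rw [pow_succ]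
      rfl
    rw [e, rlm_cci hs, ih (by linarith)]
    congr 1
    ring

private theorem rlm_bi {s : ℝ} (hs : 0 < s) : lmB⁻¹ (rlmS s) = rlmS (s / (1 + s)) := by
  have h1 : 0 < s / (1 + s) := div_pos hs (by linarith)
  have h2 : s / (1 + s) < 1 := rlmS_lt hs
  obtain ⟨u, hu⟩ : ∃ u, u = s / (1 + s) := ⟨_, rfl⟩
  rw [← hu] at h1 h2
  have h3 : lmB (rlmS u) = u := by
    rw [lmB_apply, lmBfun, if_neg (not_le.mpr (rlmS_pos h1)), if_pos]
    · have h4 : 1 + u ≠ 0 := by linarith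
      have h5 : 1 - rlmS u = 1 / (1 + u) := by
        rw [rlmS]
        field_simp
        ring
      rw [h5, rlmS]
      field_simp
    · rw [rlmS, div_le_div_iff₀ (by linarith) (by norm_num)]
      linarith
  have h4 : rlmS s = u := hu.symm
  rw [h4, ← hu]
  have h5 : lmB⁻¹ u = lmB⁻¹ (lmB (rlmS u)) := by rw [h3]
  rw [h5]
  exact lmB.symm_apply_apply _

private theorem rlm_bia {s : ℝ} (hs : 0 < s) : lmB⁻¹ (lmA (rlmS s)) = rlmS (s + 1) := by
  have h3 : lmB (rlmS (s + 1)) = lmA (rlmS s) := by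
    have h4 : 1 + (s + 1) ≠ 0 := by linarith
    have h5 : s + 1 ≠ 0 := by linarith
    have h6 : 1 + s ≠ 0 := by linarith
    rw [lmB_apply, lmBfun, if_neg (not_le.mpr (rlmS_pos (by linarith))), if_neg,
      if_pos (rlmS_lt (by linarith)).le]
    · change 3 - 1 / rlmS (s + 1) = rlmS s + 1
      rw [rlmS, rlmS]
      field_simp
      ring
    · rw [not_le, rlmS, div_lt_div_iff₀ (by norm_num) (by linarith)]
      linarith
  rw [← h3]
  exact lmB.symm_apply_apply _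

/-- Proof: let `s = t / (1 - t)` for `0 < t < 1` (so `t = s / (1 + s)`, `s > 0`). In the coordinate
`s`:
`lmC : s ↦ 2 s` (all `s > 0`), `lmB⁻¹ : s ↦ s / (1 + s)` (all `s > 0`), and
`lmA⁻¹ * lmB : s ↦ s - 1` for
`s > 1`, so `lmB⁻¹ * lmA : s ↦ s + 1` for `s > 0` (directly: for `0 < t < 1`,
`lmB⁻¹ (t + 1) = 1/(2-t)`).
Hence for `g = lmC⁻ᵏ * (lmB⁻¹ * lmA) * lmC^(2k) * lmB⁻¹ * lmC⁻ᵏ`, `y = 2⁻ᵏ`:
`s ↦ y s ↦ y s / (1 + y s) ↦ s / (y (1 + y s)) · ... `: explicitly `lmC⁻ᵏ : s ↦ y s`,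
`lmB⁻¹ : ↦ y s / (1 + y s)`, `lmC^(2k) : ↦ y⁻¹ s / (1 + y s)`,
`lmB⁻¹ lmA : ↦ y⁻¹ s / (1 + y s) + 1`,
`lmC⁻ᵏ : ↦ s / (1 + y s) + y`, which is `bm y`; back in the coordinate `t` this is `rmob (lmM y)`.
-/
theorem LM_elem (k : ℕ) : ∃ g ∈ LMGrp, ∀ t ∈ Set.Ioo (0 : ℝ) 1,
    g t = rmob (lmM ((1 / 2 : ℝ) ^ k)) t := by
  obtain ⟨y, hy⟩ : ∃ y : ℝ, y = (1 / 2) ^ k := ⟨_, rfl⟩
  have hy0 : 0 < y := by
    rw [hy]
    positivity
  have hA : lmA ∈ LMGrp := Subgroup.subset_closure (Or.inl rfl)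
  have hB : lmB ∈ LMGrp := Subgroup.subset_closure (Or.inr (Or.inl rfl))
  have hC : lmC ∈ LMGrp := Subgroup.subset_closure (Or.inr (Or.inr rfl))
  refine ⟨lmC⁻¹ ^ k * ((lmB⁻¹ * lmA) * (lmC ^ (2 * k) * (lmB⁻¹ * lmC⁻¹ ^ k))), ?_, ?_⟩
  · have hC' := LMGrp.pow_mem (LMGrp.inv_mem hC) k
    exact LMGrp.mul_mem hC' (LMGrp.mul_mem (LMGrp.mul_mem (LMGrp.inv_mem hB) hA)
      (LMGrp.mul_mem (LMGrp.pow_mem hC _) (LMGrp.mul_mem (LMGrp.inv_mem hB) hC')))
  · intro t ht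
    obtain ⟨ht0, ht1⟩ := ht
    obtain ⟨s, hs⟩ : ∃ s, s = t / (1 - t) := ⟨_, rfl⟩
    have h1t : 0 < 1 - t := by linarith
    have hs0 : 0 < s := by
      rw [hs]
      exact div_pos ht0 h1t
    have hst : t = rlmS s := by
      have h1 : 1 + s = 1 / (1 - t) := by
        rw [hs]
        field_simp
        ring
      rw [rlmS, h1, hs]
      field_simp
    change (lmC⁻¹ ^ k) (lmB⁻¹ (lmA ((lmC ^ (2 * k)) (lmB⁻¹ ((lmC⁻¹ ^ k) t))))) = _
    have hys : 0 < y * s := mul_pos hy0 hs0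
    have hu : 0 < y * s / (1 + y * s) := div_pos hys (by linarith)
    have hw : 0 < 2 ^ (2 * k) * (y * s / (1 + y * s)) := mul_pos (by positivity) hu
    have hp : (2 : ℝ) ^ (2 * k) * (y * y) = 1 := by
      rw [hy, ← pow_two, ← pow_mul, mul_comm k 2, ← mul_pow]
      norm_num
    rw [hst, rlm_ccipow k hs0, ← hy, rlm_bi hys, rlm_ccpow (2 * k) hu, rlm_bia hw,
      rlm_ccipow k (by linarith), ← hy, ← hst]
    have e1 : y * (2 ^ (2 * k) * (y * s / (1 + y * s)) + 1) = s / (1 + y * s) + y := by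
      have h1 : y * (2 ^ (2 * k) * (y * s / (1 + y * s)) + 1) =
          (2 ^ (2 * k) * (y * y)) * (s / (1 + y * s)) + y := by ring
      rw [h1, hp, one_mul]
    have h2 : 1 + y * s ≠ 0 := by linarith
    have h3 : 1 - t ≠ 0 := h1t.ne'
    have hys2 : 1 + y * s = (1 - t + y * t) / (1 - t) := by
      rw [hs]
      field_simp
    have h4 : 0 < 1 - t + y * t := by
      have := mul_pos hy0 ht0
      linarith
    have h5 : 0 < y ^ 2 * t + (1 + y) := by positivity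
    have e2 : s / (1 + y * s) + y = ((1 - y + y ^ 2) * t + y) / (1 - t + y * t) := by
      rw [hys2, hs, div_div_div_cancel_right₀ h3, eq_div_iff h4.ne', add_mul,
        div_mul_cancel₀ _ h4.ne']
      ring
    have e3 : 1 + ((1 - y + y ^ 2) * t + y) / (1 - t + y * t) =
        (y ^ 2 * t + (1 + y)) / (1 - t + y * t) := by
      rw [eq_div_iff h4.ne', add_mul, div_mul_cancel₀ _ h4.ne']
      ring
    rw [e1, e2, rlmS, e3, div_div_div_cancel_right₀ h4.ne']
    rfl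

end Pool.Agent.MP_46876e_al_PP
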