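import Pool.Agent.Lib.MP_46876e_al_PP.RDefs

/-!
# MP_46876e_al, project PP, second stage, module RPing: ping-pong over a valued field
-/

set_option autoImplicit false

noncomputable section

namespace Pool.Agent.MP_46876e_al_PP

open MeasureTheory MulOpposite Filter Topology Pool.Agent.Forest46876e
open scoped ENNReal

section rping

variable {K : Type*} [Field K] (v : AbsoluteValue K ℝ)

/-- One step for the matrix `bm y`. -/
private theorem rping_bm {y a c : K} (hY : 100 ≤ v y) (h0 : a ≠ 0 ∨ c ≠ 0)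
    (h : ¬ (c ≠ 0 ∧ 4 * v y * v (a + c / y) ≤ v c)) :
    (1 + y ^ 2) * a + y * c ≠ 0 ∧
      4 * v y * v ((y * a + c) - ((1 + y ^ 2) * a + y * c) / y) ≤ v ((1 + y ^ 2) * a + y * c) := by
  have hy : y ≠ 0 := by
    intro hy
    rw [hy, map_zero] at hY
    norm_num at hY
  have hYp : 0 < v y := v.pos hy
  obtain ⟨e, he⟩ : ∃ e, e = y * a + c := ⟨_, rfl⟩
  have ha' : (1 + y ^ 2) * a + y * c = y * e - (-a) := by
    rw [he]
    ring
  have hd : (y * a + c) - ((1 + y ^ 2) * a + y * c) / y = - (a / y) := by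
    field_simp
    ring
  have hmain : 0 < v e ∧ v y * v a ≤ 5 * v e := by
    by_cases hc : c = 0
    · have ha : a ≠ 0 := by
        rcases h0 with h0 | h0
        · exact h0
        · exact absurd hc h0
      have h1 : e = y * a := by rw [he, hc, add_zero]
      have h2 : 0 < v e := by
        rw [h1]
        exact v.pos (mul_ne_zero hy ha)
      refine ⟨h2, ?_⟩
      rw [← map_mul, ← h1]
      linarith
    · have h1 : v c < 4 * v y * v (a + c / y) := by
        by_contra hcon
        exact h ⟨hc, not_lt.mp hcon⟩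
      have h2 : v y * v (a + c / y) = v e := by
        rw [← map_mul, he]
        congr 1
        field_simp
      have h3 : v c < 4 * v e := by
        rw [mul_assoc, h2] at h1
        exact h1
      have h4 : 0 < v e := by
        have := v.nonneg c
        linarith
      refine ⟨h4, ?_⟩
      have h5 : y * a = e - c := by
        rw [he]
        ring
      have h6 : v (e - c) ≤ v e + v c := by
        have := v.add_le e (-c)
        rwa [v.map_neg, ← sub_eq_add_neg] at this
      rw [← map_mul, h5]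
      linarith
  obtain ⟨he0, hea⟩ := hmain
  have h7 : v (y * e) - v (-a) ≤ v (y * e - (-a)) := v.le_sub _ _
  rw [map_mul, v.map_neg] at h7
  have hva : 0 ≤ v a := v.nonneg a
  have h8 : 100 * v a ≤ v y * v a := mul_le_mul_of_nonneg_right hY hva
  have h9 : 100 * v e ≤ v y * v e := mul_le_mul_of_nonneg_right hY he0.le
  rw [ha']
  constructor
  · intro h10
    rw [h10, map_zero] at h7
    linarith
  · rw [← ha', hd, v.map_neg, map_div₀, mul_assoc, mul_div_cancel₀ _ hYp.ne', ha']
    linarith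

/-- The cones. -/
private def rpingC (X : K) (u : ℕ × Bool) (a c : K) : Prop :=
  if u.2 then a ≠ 0 ∧ 4 * v (X ^ (u.1 + 1)) * v (c - a / X ^ (u.1 + 1)) ≤ v a
  else c ≠ 0 ∧ 4 * v (X ^ (u.1 + 1)) * v (a + c / X ^ (u.1 + 1)) ≤ v c

private theorem rpingC_true {X : K} {n : ℕ} {a c : K} :
    rpingC v X (n, true) a c ↔
      a ≠ 0 ∧ 4 * v (X ^ (n + 1)) * v (c - a / X ^ (n + 1)) ≤ v a := by
  unfold rpingC
  rw [if_pos rfl]

private theorem rpingC_false {X : K} {n : ℕ} {a c : K} :
    rpingC v X (n, false) a c ↔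
      c ≠ 0 ∧ 4 * v (X ^ (n + 1)) * v (a + c / X ^ (n + 1)) ≤ v c := by
  unfold rpingC
  rw [if_neg (by simp)]

/-- Symmetry. -/
private theorem rpingC_symm {X : K} {n : ℕ} {a c : K} :
    rpingC v X (n, false) a c ↔ rpingC v X (n, true) c (-a) := by
  rw [rpingC_true, rpingC_false]
  have : v (-a - c / X ^ (n + 1)) = v (a + c / X ^ (n + 1)) := by
    rw [← v.map_neg]
    congr 1
    ring
  rw [this]

private theorem rping_ge {X : K} (hX : 100 ≤ v X) (n : ℕ) : 100 ≤ v (X ^ (n + 1)) := by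
  rw [map_pow, pow_succ]
  have h1 : 1 ≤ v X ^ n := one_le_pow₀ (by linarith)
  nlinarith

private theorem rping_grow {X : K} (hX : 100 ≤ v X) {n m : ℕ} (h : n < m) :
    100 * v (X ^ (n + 1)) ≤ v (X ^ (m + 1)) := by
  obtain ⟨k, rfl⟩ := Nat.exists_eq_add_of_lt h
  have e : X ^ (n + k + 1 + 1) = X ^ (n + 1) * X ^ (k + 1) := by ring
  rw [e, map_mul]
  have h1 := rping_ge v hX k
  have h2 : 0 ≤ v (X ^ (n + 1)) := v.nonneg _
  nlinarith

private theorem rping_lt {X : K} (hX : 100 ≤ v X) {n : ℕ} {a c : K}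
    (h : rpingC v X (n, true) a c) : v c < v a := by
  rw [rpingC_true] at h
  obtain ⟨ha, h⟩ := h
  have hY := rping_ge v hX n
  have hp : 0 < v a := v.pos ha
  obtain ⟨y, hy⟩ : ∃ y, y = X ^ (n + 1) := ⟨_, rfl⟩
  rw [← hy] at hY h
  have h1 : v c ≤ v (c - a / y) + v (a / y) := by
    have := v.add_le (c - a / y) (a / y)
    rwa [sub_add_cancel] at this
  have h2 : v (a / y) = v a / v y := map_div₀ _ _ _
  have hYp : 0 < v y := by linarith
  have h3 : v y * (v a / v y) = v a := mul_div_cancel₀ _ hYp.ne'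
  have h4 : 0 ≤ v (c - a / y) := v.nonneg _
  have h5 : v y * v (a / y) = v a := by rw [h2, h3]
  have h6 : 0 ≤ v (a / y) := v.nonneg _
  nlinarith

private theorem rping_inj_true {X : K} (hX : 100 ≤ v X) {n m : ℕ} (hnm : n < m) {a c : K}
    (h : rpingC v X (n, true) a c) (h' : rpingC v X (m, true) a c) : False := by
  rw [rpingC_true] at h h'
  obtain ⟨ha, h⟩ := h
  obtain ⟨_, h'⟩ := h'
  have hp : 0 < v a := v.pos ha
  have hY := rping_ge v hX n
  have hG := rping_grow v hX hnm
  obtain ⟨y, hy⟩ : ∃ y, y = X ^ (n + 1) := ⟨_, rfl⟩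
  obtain ⟨z, hz⟩ : ∃ z, z = X ^ (m + 1) := ⟨_, rfl⟩
  rw [← hy] at hY hG h
  rw [← hz] at hG h'
  have hYp : 0 < v y := by linarith
  have hZp : 0 < v z := by linarith
  have hy0 : y ≠ 0 := by
    intro e
    rw [e, map_zero] at hYp
    exact lt_irrefl _ hYp
  have hz0 : z ≠ 0 := by
    intro e
    rw [e, map_zero] at hZp
    exact lt_irrefl _ hZp
  have h1 : v (a / y) ≤ v (c - a / y) + v (c - a / z) + v (a / z) := by
    have e : a / y = -(c - a / y) + ((c - a / z) + a / z) := by ring
    have h2 := v.add_le (-(c - a / y)) ((c - a / z) + a / z)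
    have h3 := v.add_le (c - a / z) (a / z)
    rw [← e, v.map_neg] at h2
    linarith
  have hay : v y * v (a / y) = v a := by
    rw [← map_mul, mul_div_cancel₀ _ hy0]
  have haz : v z * v (a / z) = v a := by
    rw [← map_mul, mul_div_cancel₀ _ hz0]
  obtain ⟨p, hp'⟩ : ∃ p, p = v (c - a / y) := ⟨_, rfl⟩
  obtain ⟨q, hq'⟩ : ∃ q, q = v (c - a / z) := ⟨_, rfl⟩
  obtain ⟨r, hr'⟩ : ∃ r, r = v (a / z) := ⟨_, rfl⟩
  rw [← hp'] at h h1
  rw [← hq'] at h' h1
  rw [← hr'] at haz h1
  have hp0 : 0 ≤ p := by rw [hp']; exact v.nonneg _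
  have hq0 : 0 ≤ q := by rw [hq']; exact v.nonneg _
  have hr0 : 0 ≤ r := by rw [hr']; exact v.nonneg _
  have k1 : v y * v (a / y) ≤ v y * (p + q + r) := mul_le_mul_of_nonneg_left h1 hYp.le
  have k2 : 100 * v y * q ≤ v z * q := mul_le_mul_of_nonneg_right hG hq0
  have k3 : 100 * v y * r ≤ v z * r := mul_le_mul_of_nonneg_right hG hr0
  nlinarith

private theorem rping_inj {X : K} (hX : 100 ≤ v X) {u w : ℕ × Bool} {a c : K}
    (h : rpingC v X u a c) (h' : rpingC v X w a c) : u = w := by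
  obtain ⟨n, s⟩ := u
  obtain ⟨m, t⟩ := w
  rcases s with _ | _ <;> rcases t with _ | _
  · rw [rpingC_symm] at h h'
    rcases lt_trichotomy n m with hnm | hnm | hnm
    · exact (rping_inj_true v hX hnm h h').elim
    · rw [hnm]
    · exact (rping_inj_true v hX hnm h' h).elim
  · rw [rpingC_symm] at h
    have h1 := rping_lt v hX h
    have h2 := rping_lt v hX h'
    rw [v.map_neg] at h1
    exact absurd h1 (not_lt.mpr h2.le)
  · rw [rpingC_symm] at h'
    have h1 := rping_lt v hX h'
    have h2 := rping_lt v hX h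
    rw [v.map_neg] at h1
    exact absurd h1 (not_lt.mpr h2.le)
  · rcases lt_trichotomy n m with hnm | hnm | hnm
    · exact (rping_inj_true v hX hnm h h').elim
    · rw [hnm]
    · exact (rping_inj_true v hX hnm h' h).elim

/-- The vectors `(c, c)` are in no cone. -/
private theorem rping_diag {X : K} (hX : 100 ≤ v X) (u : ℕ × Bool) (c : K) :
    ¬ rpingC v X u c c := by
  intro h
  obtain ⟨n, s⟩ := u
  rcases s with _ | _
  · rw [rpingC_symm] at h
    have h1 := rping_lt v hX h
    rw [v.map_neg] at h1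
    exact lt_irrefl _ h1
  · exact lt_irrefl _ (rping_lt v hX h)

private theorem rping_ne {X : K} {u : ℕ × Bool} {a c : K} (h : rpingC v X u a c) :
    a ≠ 0 ∨ c ≠ 0 := by
  obtain ⟨n, s⟩ := u
  rcases s with _ | _
  · rw [rpingC_false] at h
    exact Or.inr h.1
  · rw [rpingC_true] at h
    exact Or.inl h.1

private theorem rping_step {X : K} (hX : 100 ≤ v X) (u : ℕ × Bool) (w : Fin 2 → K)
    (h0 : w 0 ≠ 0 ∨ w 1 ≠ 0) (h : ¬ rpingC v X (u.1, !u.2) (w 0) (w 1)) :
    rpingC v X u ((Ltr (bseq X) u).mulVec w 0) ((Ltr (bseq X) u).mulVec w 1) := by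
  obtain ⟨n, s⟩ := u
  have hY := rping_ge v hX n
  rcases s with _ | _
  · have e0 : (Ltr (bseq X) (n, false)).mulVec w 0 = 1 * w 0 + -(X ^ (n + 1)) * w 1 := by
      simp [Ltr, bseq, bm, Matrix.adjugate_fin_two_of]
      rfl
    have e1 : (Ltr (bseq X) (n, false)).mulVec w 1 =
        -(X ^ (n + 1)) * w 0 + (1 + (X ^ (n + 1)) ^ 2) * w 1 := by
      simp [Ltr, bseq, bm, Matrix.adjugate_fin_two_of]
      rfl
    rw [e0, e1, rpingC_symm, rpingC_true]
    have h' : ¬ (-(w 0) ≠ 0 ∧ 4 * v (X ^ (n + 1)) * v (w 1 + -(w 0) / X ^ (n + 1)) ≤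
        v (-(w 0))) := by
      intro hh
      apply h
      change rpingC v X (n, true) (w 0) (w 1)
      rw [rpingC_true]
      refine ⟨neg_ne_zero.mp hh.1, ?_⟩
      have h2 := hh.2
      rw [v.map_neg] at h2
      have e : w 1 + -(w 0) / X ^ (n + 1) = w 1 - w 0 / X ^ (n + 1) := by ring
      rwa [e] at h2
    have h3 := rping_bm v hY (a := w 1) (c := -(w 0))
      (by
        rcases h0 with h0 | h0
        · exact Or.inr (neg_ne_zero.mpr h0)
        · exact Or.inl h0) h'
    have e2 : (1 + (X ^ (n + 1)) ^ 2) * w 1 + X ^ (n + 1) * -(w 0) =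
        -(X ^ (n + 1)) * w 0 + (1 + (X ^ (n + 1)) ^ 2) * w 1 := by ring
    have e3 : X ^ (n + 1) * w 1 + -(w 0) = -(1 * w 0 + -(X ^ (n + 1)) * w 1) := by ring
    rw [e2, e3] at h3
    exact h3
  · have e0 : (Ltr (bseq X) (n, true)).mulVec w 0 =
        (1 + (X ^ (n + 1)) ^ 2) * w 0 + X ^ (n + 1) * w 1 := by
      simp [Ltr, bseq, bm]
      rfl
    have e1 : (Ltr (bseq X) (n, true)).mulVec w 1 = X ^ (n + 1) * w 0 + w 1 := by
      simp [Ltr, bseq, bm]
      rfl
    rw [e0, e1, rpingC_true]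
    exact rping_bm v hY h0 fun hh => h ((rpingC_false v).mpr hh)

private theorem rping_word {X : K} (hX : 100 ≤ v X) (L : List (ℕ × Bool)) (u : ℕ × Bool)
    (hL : Red (u :: L)) :
    rpingC v X u (((u :: L).map (Ltr (bseq X))).prod.mulVec ![1, 1] 0)
      (((u :: L).map (Ltr (bseq X))).prod.mulVec ![1, 1] 1) := by
  induction L generalizing u with
  | nil =>
    rw [List.map_cons, List.map_nil, List.prod_cons, List.prod_nil, mul_one]
    refine rping_step v hX u ![1, 1] (Or.inl ?_) (rping_diag v hX _ _)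
    exact one_ne_zero
  | cons u' L ih =>
    have hred := List.isChain_cons_cons.mp hL
    have h1 := ih u' hred.2
    rw [List.map_cons, List.prod_cons, ← Matrix.mulVec_mulVec]
    refine rping_step v hX u _ (rping_ne v h1) fun h2 => ?_
    have h3 := rping_inj v hX h1 h2
    apply hred.1
    rw [h3]
    exact ⟨rfl, by simp⟩

end rping

/-- Proof (paper text, section Q). `Y n = v (X ^ (n+1)) ≥ 100`. For vectors `(a, c)` of `K²` let
`C (n, true)` be the cone `4 Y n * v (c - a / X ^ (n+1)) ≤ v a`, `(a, c) ≠ 0`, and `C (n, false)`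
the
cone `4 Y n * v (a + c / X ^ (n+1)) ≤ v c`, `(a, c) ≠ 0`. (1) Different cones are disjoint: in
`C (n, true)` `v c < v a`, in `C (n, false)` `v a < v c`; for `n < n'` and `a ≠ 0`,
`v (a / X ^ (n+1) - a / X ^ (n'+1)) ≥ v a * (1 / Y n - 1 / Y n') > v a / (4 Y n) + v a / (4 Y n')`.
(2) `(1, 1)` is in no cone. (3) `bm y`, `y = X ^ (n+1)`, maps every nonzero `(a, c)` outside
`C (n, false)` into `C (n, true)`: `a' = (1 + y²) a + y c`, `c' = y a + c`,
`c' - a' / y = - a / y`, and
`v a' ≥ 4 v a`: if `c = 0` clear; if `c ≠ 0` put `e = y a + c`, `v e > v c / 4`, `a = (e - c) / y`,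
`v a ≤ 5 v e / Y`, `a' = y e + a`, `v a' ≥ (Y - 1) v e ≥ 4 v a`. (4) The adjugate
`(1, -y; -y, 1 + y²)` maps every nonzero `(a, c)` outside `C (n, true)` into `C (n, false)`
(symmetric computation). (5) By induction on a nonempty reduced word its matrix maps `(1, 1)` into
the
cone of its first letter (the head of the list, which is applied last), so it is not scalar: a
scalar matrix maps `(1, 1)` to `(c, c)`, and cones are invariant under scaling, so `(1,1)` would be
in the cone (or the image is zero). -/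
theorem ping {K : Type*} [Field K] (v : AbsoluteValue K ℝ) (X : K) (hX : 100 ≤ v X) :
    WFree (bseq X) := by
  intro L hL hred c hc
  obtain ⟨u, L, rfl⟩ := List.exists_cons_of_ne_nil hL
  have h := rping_word v hX L u hred
  rw [hc] at h
  have e : ∀ i : Fin 2, (c • (1 : Matrix (Fin 2) (Fin 2) K)).mulVec ![1, 1] i = c := by
    intro i
    rw [Matrix.smul_mulVec, Matrix.one_mulVec]
    fin_cases i
    · exact mul_one c
    · exact mul_one c
  rw [e, e] at h
  exact rping_diag v hX u c h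

end Pool.Agent.MP_46876e_al_PP
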