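import Pool.Agent.Lib.MP_46876e_al_PP.RDefs

/-!
# MP_46876e_al, project PP, second stage, module RPlace: a place where x is large
-/

set_option autoImplicit false

noncomputable section

namespace Pool.Agent.MP_46876e_al_PP

open MeasureTheory MulOpposite Filter Topology Pool.Agent.Forest46876e
open scoped ENNReal

/-- Proof. If `x` is transcendental over `ℚ` (or `ℤ`): `Subring.closure {x}` is isomorphic to `ℤ[T]`
(`Polynomial.aeval x` is injective with this range), evaluate at `T = 2` in `K = ℝ` (or `ℚ`) with
the
usual absolute value. If `x` is algebraic: `K = ℚ⟮x⟯` (`IntermediateField.adjoin ℚ {x}`, a number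
field), `σ` the inclusion of `Subring.closure {x}` in `K`. The product formula
`NumberField.prod_abs_eq_one` (Mathlib.NumberTheory.NumberField.ProductFormula): the product over
the
infinite places `w x ^ mult w` times the product over the finite places `w x` is `1`. The infinite
place of the inclusion `K → ℝ → ℂ` has `w x = x < 1`; if all places had `w x ≤ 1` the product would
be `< 1`. So some place (an `AbsoluteValue K ℝ`) has `w x > 1`. -/
theorem exists_place (x : ℝ) (hx0 : 0 < x) (hx1 : x < 1) :
    ∃ (K : Type) (_ : Field K) (v : AbsoluteValue K ℝ) (σ : Subring.closure {x} →+* K),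
      1 < v (σ ⟨x, Subring.subset_closure (Set.mem_singleton x)⟩) := by
  by_cases hal : IsAlgebraic ℤ x
  · have halq : IsAlgebraic ℚ x := hal.extendScalars Int.cast_injective
    have hint : IsIntegral ℚ x := halq.isIntegral
    have hfd : FiniteDimensional ℚ (IntermediateField.adjoin ℚ {x}) :=
      IntermediateField.adjoin.finiteDimensional hint
    have hnf : NumberField (IntermediateField.adjoin ℚ {x}) :=
      { to_charZero := inferInstance, to_finiteDimensional := hfd }
    have hxK : x ∈ IntermediateField.adjoin ℚ {x} :=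
      IntermediateField.mem_adjoin_simple_self ℚ x
    have hle : Subring.closure {x} ≤ (IntermediateField.adjoin ℚ {x}).toSubalgebra.toSubring := by
      rw [Subring.closure_le]
      intro y hy
      rw [Set.mem_singleton_iff.1 hy]
      exact hxK
    let σ : Subring.closure {x} →+* IntermediateField.adjoin ℚ {x} :=
      (Subring.closure {x}).subtype.codRestrict (IntermediateField.adjoin ℚ {x})
        fun y => hle y.2
    have hσ : σ ⟨x, Subring.subset_closure (Set.mem_singleton x)⟩ = ⟨x, hxK⟩ := rfl
    have hx0' : (⟨x, hxK⟩ : IntermediateField.adjoin ℚ {x}) ≠ 0 := by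
      intro h
      exact hx0.ne' (congrArg Subtype.val h)
    have hprod := NumberField.prod_abs_eq_one hx0'
    by_contra hcon
    push Not at hcon
    have hinf : ∀ w : NumberField.InfinitePlace (IntermediateField.adjoin ℚ {x}),
        w ⟨x, hxK⟩ ≤ 1 := fun w => hcon _ _ w.val σ
    have hfin : ∀ w : NumberField.FinitePlace (IntermediateField.adjoin ℚ {x}),
        w ⟨x, hxK⟩ ≤ 1 := fun w => hcon _ _ w.val σ
    have h1 : 0 ≤ (∏ᶠ w : NumberField.FinitePlace (IntermediateField.adjoin ℚ {x}),
        w ⟨x, hxK⟩) ∧ (∏ᶠ w : NumberField.FinitePlace (IntermediateField.adjoin ℚ {x}),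
        w ⟨x, hxK⟩) ≤ 1 := by
      refine finprod_induction (fun y : ℝ => 0 ≤ y ∧ y ≤ 1) ⟨zero_le_one, le_rfl⟩ ?_ ?_
      · exact fun a b ha hb => ⟨mul_nonneg ha.1 hb.1, mul_le_one₀ ha.2 hb.1 hb.2⟩
      · exact fun w => ⟨apply_nonneg w _, hfin w⟩
    let φ : IntermediateField.adjoin ℚ {x} →+* ℂ :=
      (algebraMap ℝ ℂ).comp (algebraMap (IntermediateField.adjoin ℚ {x}) ℝ)
    let w0 := NumberField.InfinitePlace.mk φ
    have hw0 : w0 ⟨x, hxK⟩ = x := by
      change (NumberField.InfinitePlace.mk φ) ⟨x, hxK⟩ = x
      rw [NumberField.InfinitePlace.apply]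
      change ‖((x : ℝ) : ℂ)‖ = x
      rw [Complex.norm_real, Real.norm_of_nonneg hx0.le]
    have h2 : ∏ w : NumberField.InfinitePlace (IntermediateField.adjoin ℚ {x}),
        w ⟨x, hxK⟩ ^ w.mult < 1 := by
      classical
      rw [← Finset.mul_prod_erase Finset.univ _ (Finset.mem_univ w0)]
      have h3 : ∏ w ∈ Finset.univ.erase w0, w ⟨x, hxK⟩ ^ w.mult ≤ 1 :=
        Finset.prod_le_one (fun w _ => pow_nonneg (apply_nonneg w _) _)
          fun w _ => pow_le_one₀ (apply_nonneg w _) (hinf w)
      have h4 : 0 ≤ w0 ⟨x, hxK⟩ ^ w0.mult := pow_nonneg (apply_nonneg w0 _) _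
      have h5 : w0 ⟨x, hxK⟩ ^ w0.mult < 1 := by
        rw [hw0]
        exact pow_lt_one₀ hx0.le hx1 NumberField.InfinitePlace.mult_ne_zero
      calc _ ≤ w0 ⟨x, hxK⟩ ^ w0.mult * 1 := mul_le_mul_of_nonneg_left h3 h4
        _ < 1 := by rw [mul_one]; exact h5
    have h6 : 0 ≤ ∏ w : NumberField.InfinitePlace (IntermediateField.adjoin ℚ {x}),
        w ⟨x, hxK⟩ ^ w.mult :=
      Finset.prod_nonneg fun w _ => pow_nonneg (apply_nonneg w _) _
    have h7 : (∏ w : NumberField.InfinitePlace (IntermediateField.adjoin ℚ {x}),
        w ⟨x, hxK⟩ ^ w.mult) * (∏ᶠ w : NumberField.FinitePlace (IntermediateField.adjoin ℚ {x}),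
        w ⟨x, hxK⟩) < 1 :=
      (mul_le_mul_of_nonneg_left h1.2 h6).trans_lt (by rw [mul_one]; exact h2)
    exact h7.ne hprod
  · have hinj : Function.Injective (Polynomial.aeval x : Polynomial ℤ →ₐ[ℤ] ℝ) :=
      transcendental_iff_injective.1 hal
    let A : Polynomial ℤ →+* ℝ := (Polynomial.aeval x : Polynomial ℤ →ₐ[ℤ] ℝ).toRingHom
    have hAX : A Polynomial.X = x := Polynomial.aeval_X x
    have hle : Subring.closure {x} ≤ A.range := by
      rw [Subring.closure_le]
      intro y hy
      rw [Set.mem_singleton_iff.1 hy]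
      exact ⟨Polynomial.X, hAX⟩
    have hmem : ∀ P, A P ∈ Subring.closure {x} := by
      intro P
      induction P using Polynomial.induction_on' with
      | add p q hp hq =>
        rw [map_add]
        exact add_mem hp hq
      | monomial n a =>
        have h1 : A (Polynomial.monomial n a) = (a : ℝ) * x ^ n := by
          change Polynomial.aeval x (Polynomial.monomial n a) = _
          rw [Polynomial.aeval_monomial]
          simp
        rw [h1]
        exact mul_mem (intCast_mem _ a)
          (pow_mem (Subring.subset_closure (Set.mem_singleton x)) n)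
    let B : Polynomial ℤ →+* Subring.closure {x} := A.codRestrict (Subring.closure {x}) hmem
    have hB : Function.Bijective B := by
      constructor
      · intro P Q hPQ
        exact hinj (congrArg Subtype.val hPQ)
      · intro y
        obtain ⟨P, hP⟩ := hle y.2
        exact ⟨P, Subtype.ext hP⟩
    let e : Polynomial ℤ ≃+* Subring.closure {x} := RingEquiv.ofBijective B hB
    have he : e.symm ⟨x, Subring.subset_closure (Set.mem_singleton x)⟩ = Polynomial.X := by
      rw [RingEquiv.symm_apply_eq]
      apply Subtype.ext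
      exact hAX.symm
    refine ⟨ℝ, inferInstance, AbsoluteValue.abs,
      (Polynomial.eval₂RingHom (Int.castRingHom ℝ) 2).comp
        (e.symm : Subring.closure {x} →+* Polynomial ℤ), ?_⟩
    rw [RingHom.comp_apply]
    change 1 < |Polynomial.eval₂RingHom (Int.castRingHom ℝ) 2
      (e.symm ⟨x, Subring.subset_closure (Set.mem_singleton x)⟩)|
    rw [he, Polynomial.coe_eval₂RingHom, Polynomial.eval₂_X]
    norm_num

end Pool.Agent.MP_46876e_al_PP
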