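import Pool.Agent.Lib.MP_46876e_al_PP.RDefs
import Pool.Agent.Lib.MP_46876e_al_PP.RPing
import Pool.Agent.Lib.MP_46876e_al_PP.RHom
import Pool.Agent.Lib.MP_46876e_al_PP.RPlace

/-!
# MP_46876e_al, project PP, second stage, module RReal: free words for small real x
-/

set_option autoImplicit false

noncomputable section

namespace Pool.Agent.MP_46876e_al_PP

open MeasureTheory MulOpposite Filter Topology Pool.Agent.Forest46876e
open scoped ENNReal

private theorem RReal_map {R S : Type*} [CommRing R] [CommRing S] (σ : R →+* S) (X : R) (n : ℕ) :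
    (bseq X n).map σ = bseq (σ X) n := by
  unfold bseq bm
  ext i j
  fin_cases i <;> fin_cases j <;> simp

/-- Proof: `exists_place` gives `v (σ x) > 1`, so `v (σ (x ^ m)) = v (σ x) ^ m ≥ 100` for `m ≥ m0`.
With
`R = Subring.closure {x}`, `ξ : R` the element `x`: `(bseq (ξ ^ m)) n` mapped by `σ` is
`bseq (σ ξ ^ m) n`; `ping`, `wfree_of_hom`, and `wfree_map` for the inclusion `R → ℝ`. -/
theorem real_wfree (x : ℝ) (hx0 : 0 < x) (hx1 : x < 1) :
    ∃ m0 : ℕ, ∀ m, m0 ≤ m → WFree (bseq (x ^ m)) := by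
  obtain ⟨K, hK, v, σ, hv⟩ := exists_place x hx0 hx1
  obtain ⟨m0, hm0⟩ := pow_unbounded_of_one_lt 100 hv
  refine ⟨m0, fun m hm => ?_⟩
  generalize hξ : (⟨x, Subring.subset_closure (Set.mem_singleton x)⟩ : Subring.closure {x}) = ξ
    at hv hm0
  have h1 : 100 ≤ v (σ (ξ ^ m)) := by
    rw [map_pow, map_pow]
    exact hm0.le.trans (pow_le_pow_right₀ hv.le hm)
  have h2 : WFree fun n => (bseq (ξ ^ m) n).map σ := by
    have h3 := ping v (σ (ξ ^ m)) h1
    have e : (fun n => (bseq (ξ ^ m) n).map σ) = bseq (σ (ξ ^ m)) := by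
      funext n
      exact RReal_map σ _ n
    rw [e]
    exact h3
  have h4 := wfree_map (Subring.closure {x}).subtype (Subring.subtype_injective _)
    (bseq (ξ ^ m)) (wfree_of_hom σ _ h2)
  have e : (fun n => (bseq (ξ ^ m) n).map (Subring.closure {x}).subtype) = bseq (x ^ m) := by
    funext n
    rw [RReal_map, map_pow, ← hξ]
    rfl
  rw [e] at h4
  exact h4

/-- Proof: determinant one. -/
theorem bseq_det {R : Type*} [CommRing R] (X : R) (n : ℕ) : (bseq X n).det = 1 := by
  unfold bseq bm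
  rw [Matrix.det_fin_two_of]
  ring

end Pool.Agent.MP_46876e_al_PP
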