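import Pool.Agent.Lib.MP_46876e_al_PP.RLMDefs
import Pool.Agent.Lib.MP_46876e_al_PP.RLM
import Pool.Agent.Lib.MP_46876e_al_PP.RReal
import Pool.Agent.Lib.MP_46876e_al_PP.RHom

/-!
# MP_46876e_al, project PP, second stage, module RLM2: estimates for the Lodha-Moore family
-/

set_option autoImplicit false

noncomputable section

namespace Pool.Agent.MP_46876e_al_PP

open MeasureTheory MulOpposite Filter Topology Pool.Agent.Forest46876e
open scoped ENNReal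

private theorem rlm2_det (y : ℝ) : (lmM y).det = 1 := by
  unfold lmM
  rw [Matrix.det_fin_two_of]
  ring

private theorem rlm2_rmob (y q : ℝ) :
    rmob (lmM y) q = ((1 - y + y ^ 2) * q + y) / (y ^ 2 * q + (1 + y)) := by
  unfold rmob lmM
  rfl

private theorem rlm2_den {y q : ℝ} (hy : 0 < y) (hq : 0 < q) : 1 ≤ y ^ 2 * q + (1 + y) := by
  have h : 0 < y ^ 2 * q := by positivity
  linarith

private theorem rlm2_est {y q : ℝ} (hy : 0 < y) (hy1 : y ≤ 1) (hq : 1 / 2 ≤ q) (hq1 : q ≤ 2 / 3) :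
    |rmob (lmM y) q - q| ≤ 6 * y := by
  have hD := rlm2_den hy (q := q) (by linarith)
  have hD0 : 0 < y ^ 2 * q + (1 + y) := by linarith
  have e : rmob (lmM y) q - q = y * (1 - 2 * q + y * q * (1 - q)) / (y ^ 2 * q + (1 + y)) := by
    rw [rlm2_rmob, eq_div_iff hD0.ne', sub_mul, div_mul_cancel₀ _ hD0.ne']
    ring
  have h1 : |1 - 2 * q + y * q * (1 - q)| ≤ 2 := by
    have h2 : 0 ≤ y * q * (1 - q) := by
      refine mul_nonneg (mul_nonneg hy.le (by linarith)) (by linarith)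
    have h3 : y * q * (1 - q) ≤ 1 := by
      have h4 : y * q ≤ 1 := by nlinarith
      have h5 : 0 ≤ y * q := mul_nonneg hy.le (by linarith)
      nlinarith
    rw [abs_le]
    constructor <;> linarith
  rw [e, abs_div, abs_mul, abs_of_pos hy, abs_of_pos hD0, div_le_iff₀ hD0]
  have h6 : y * |1 - 2 * q + y * q * (1 - q)| ≤ y * 2 := mul_le_mul_of_nonneg_left h1 hy.le
  nlinarith

private theorem rlm2_deriv {y q : ℝ} (hy : 0 < y) (hq : 0 < q) :
    HasDerivAt (rmob (lmM y)) (1 / (y ^ 2 * q + (1 + y)) ^ 2) q := by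
  have hD0 : 0 < y ^ 2 * q + (1 + y) := by linarith [rlm2_den hy hq]
  have h1 : HasDerivAt (fun t : ℝ => (1 - y + y ^ 2) * t + y) (1 - y + y ^ 2) q := by
    simpa using ((hasDerivAt_id q).const_mul (1 - y + y ^ 2)).add_const y
  have h2 : HasDerivAt (fun t : ℝ => y ^ 2 * t + (1 + y)) (y ^ 2) q := by
    simpa using ((hasDerivAt_id q).const_mul (y ^ 2)).add_const (1 + y)
  have h3 := h1.div h2 hD0.ne'
  have e1 : rmob (lmM y) = fun t : ℝ => ((1 - y + y ^ 2) * t + y) / (y ^ 2 * t + (1 + y)) := by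
    funext t
    exact rlm2_rmob y t
  have e2 : (1 - y + y ^ 2) * (y ^ 2 * q + (1 + y)) - ((1 - y + y ^ 2) * q + y) * y ^ 2 = 1 := by
    ring
  rw [e1]
  rw [e2] at h3
  exact h3

private theorem rlm2_dlow {y q : ℝ} (hy : 0 < y) (hy1 : y ≤ 1) (hq : 0 < q) (hq1 : q ≤ 1) :
    1 - 6 * y ≤ 1 / (y ^ 2 * q + (1 + y)) ^ 2 := by
  have hD := rlm2_den hy hq
  obtain ⟨D, hDe⟩ : ∃ D, D = y ^ 2 * q + (1 + y) := ⟨_, rfl⟩
  rw [← hDe] at hD ⊢
  have hy2 : y ^ 2 * q ≤ y := by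
    have : y ^ 2 * q ≤ y ^ 2 * 1 := mul_le_mul_of_nonneg_left hq1 (by positivity)
    nlinarith
  have hD2 : D ≤ 1 + 2 * y := by linarith
  rw [le_div_iff₀ (by positivity)]
  rcases le_or_gt (1 - 6 * y) 0 with h | h
  · have : (1 - 6 * y) * D ^ 2 ≤ 0 := mul_nonpos_of_nonpos_of_nonneg h (by positivity)
    linarith
  · have h1 : D ^ 2 ≤ (1 + 2 * y) ^ 2 := pow_le_pow_left₀ (by linarith) hD2 2
    have h2 : (1 - 6 * y) * D ^ 2 ≤ (1 - 6 * y) * (1 + 2 * y) ^ 2 :=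
      mul_le_mul_of_nonneg_left h1 h.le
    have h3 : (1 - 6 * y) * (1 + 2 * y) ^ 2 ≤ 1 := by
      have : 0 < y ^ 3 := by positivity
      nlinarith [sq_nonneg y]
    linarith

/-- Proof: `real_wfree` with `x = 1/2`: for some `m ≥ 10`, `WFree (bseq ((1/2)^m))`; let
`y n = ((1/2)^m)^(n+1)`, `M n = lmM (y n)`: `wfree_conj`, `lmM_eq`. `f n` from `LM_elem` with
`k = m (n+1)`. On `[1/2, 2/3]`: denominator `y² t + 1 + y ≥ 1`, `|f t - t| ≤ 4 y`, derivative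
`1 / (y² t + 1 + y)² ≥ 1 - 6 y`. `δ n = 6 y n`. -/
theorem LM_family : ∃ (M : ℕ → Matrix (Fin 2) (Fin 2) ℝ) (f : ℕ → (ℝ ≃o ℝ)) (δ : ℕ → ℝ),
    (∀ n, (M n).det = 1) ∧ WFree M ∧ (∀ n, f n ∈ LMGrp) ∧ Tendsto δ atTop (𝓝 0) ∧
    ∀ n, (∀ q ∈ Set.Icc (1 / 2 : ℝ) (2 / 3), M n 1 0 * q + M n 1 1 ≠ 0 ∧
      f n q = rmob (M n) q ∧ |f n q - q| ≤ δ n) ∧
      ∀ q ∈ Set.Ioo (1 / 2 : ℝ) (2 / 3), DifferentiableAt ℝ (f n) q ∧ 1 - δ n ≤ deriv (f n) q := by
  obtain ⟨m0, hm0⟩ := real_wfree (1 / 2) (by norm_num) (by norm_num)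
  obtain ⟨m, hm, hm1⟩ : ∃ m, m0 ≤ m ∧ 1 ≤ m := ⟨max m0 1, le_max_left _ _, le_max_right _ _⟩
  have hX0 : (0 : ℝ) < (1 / 2) ^ m := by positivity
  have hX1 : ((1 : ℝ) / 2) ^ m < 1 := pow_lt_one₀ (by norm_num) (by norm_num) (by omega)
  obtain ⟨y, hy⟩ : ∃ y : ℕ → ℝ, y = fun n => ((1 / 2 : ℝ) ^ m) ^ (n + 1) := ⟨_, rfl⟩
  have hy0 : ∀ n, 0 < y n := by
    intro n
    rw [hy]
    positivity
  have hy1 : ∀ n, y n ≤ 1 := by
    intro n
    rw [hy]
    exact pow_le_one₀ hX0.le hX1.le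
  have hel : ∀ n, ∃ g ∈ LMGrp, ∀ t ∈ Set.Ioo (0 : ℝ) 1, g t = rmob (lmM (y n)) t := by
    intro n
    have h := LM_elem (m * (n + 1))
    rw [pow_mul] at h
    rw [hy]
    exact h
  choose f hf hft using hel
  have hwf : WFree fun n => lmM (y n) := by
    have h := wfree_conj (!![1, 0; -1, 1] : Matrix (Fin 2) (Fin 2) ℝ)
      (by rw [Matrix.det_fin_two_of]; norm_num) _ (hm0 m hm)
    have e : (fun n => lmM (y n)) = fun n => (!![1, 0; -1, 1] : Matrix (Fin 2) (Fin 2) ℝ).adjugate *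
        bseq ((1 / 2 : ℝ) ^ m) n * !![1, 0; -1, 1] := by
      funext n
      rw [lmM_eq, hy, bseq]
    rw [e]
    exact h
  refine ⟨fun n => lmM (y n), f, fun n => 6 * y n, fun n => rlm2_det _, hwf, hf, ?_, ?_⟩
  · have h1 : Tendsto (fun n : ℕ => ((1 / 2 : ℝ) ^ m) ^ (n + 1)) atTop (𝓝 0) :=
      (tendsto_pow_atTop_nhds_zero_of_lt_one hX0.le hX1).comp (tendsto_add_atTop_nat 1)
    have h2 := h1.const_mul 6
    rw [mul_zero] at h2
    rw [hy]
    exact h2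
  · intro n
    refine ⟨fun q hq => ?_, fun q hq => ?_⟩
    · obtain ⟨hq1, hq2⟩ := hq
      have hq0 : 0 < q := by linarith
      have hD := rlm2_den (hy0 n) hq0
      refine ⟨?_, ?_, ?_⟩
      · change y n ^ 2 * q + (1 + y n) ≠ 0
        intro h
        linarith
      · exact hft n q ⟨hq0, by linarith⟩
      · rw [hft n q ⟨hq0, by linarith⟩]
        exact rlm2_est (hy0 n) (hy1 n) hq1 hq2
    · obtain ⟨hq1, hq2⟩ := hq
      have hq0 : 0 < q := by linarith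
      have hd := rlm2_deriv (hy0 n) hq0
      have hev : (fun t => f n t) =ᶠ[𝓝 q] rmob (lmM (y n)) := by
        filter_upwards [Ioo_mem_nhds hq0 (by linarith : q < 1)] with t ht
        exact hft n t ht
      have hd2 := hd.congr_of_eventuallyEq hev
      refine ⟨hd2.differentiableAt, ?_⟩
      have e : deriv (f n) q = 1 / (y n ^ 2 * q + (1 + y n)) ^ 2 := hd2.deriv
      rw [e]
      exact rlm2_dlow (hy0 n) (hy1 n) hq0 (by linarith)

end Pool.Agent.MP_46876e_al_PP
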