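import Pool.Agent.Lib.MP_46876e_al_PP.RDefs

/-!
# MP_46876e_al, project PP, second stage: the generators of the Lodha-Moore group
-/

set_option autoImplicit false

noncomputable section

namespace Pool.Agent.MP_46876e_al_PP

open MeasureTheory MulOpposite Filter Topology

theorem lmBfun_strictMono : StrictMono lmBfun := by
  intro x y hxy
  unfold lmBfun
  split_ifs with h1 h2 h3 h4 h5 h6 h7 h8 h9
  · exact hxy
  · have : 0 < y / (1 - y) := div_pos (by linarith) (by linarith)
    linarith
  · have : 1 / y ≤ 2 := by
      rw [div_le_iff₀ (by linarith)]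
      linarith
    linarith
  · linarith
  · exact absurd h6 (by linarith)
  · rw [div_lt_div_iff₀ (by linarith) (by linarith)]
    nlinarith
  · have h8 : x / (1 - x) ≤ 1 := by
      rw [div_le_iff₀ (by linarith)]
      linarith
    have : 1 / y < 2 := by
      rw [div_lt_iff₀ (by linarith)]
      linarith
    linarith
  · have h8 : x / (1 - x) ≤ 1 := by
      rw [div_le_iff₀ (by linarith)]
      linarith
    linarith
  all_goals first | (exfalso; linarith) | skip
  · have : 1 / y < 1 / x := one_div_lt_one_div_of_lt (by linarith) hxy
    linarith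
  · have : 1 ≤ 1 / x := by
      rw [le_div_iff₀ (by linarith)]
      linarith
    linarith
  · linarith

theorem lmBfun_inv : Function.RightInverse lmBinv lmBfun := by
  intro s
  unfold lmBinv
  split_ifs with h1 h2 h3
  · unfold lmBfun
    rw [if_pos h1]
  · have h4 : 0 < s / (1 + s) := div_pos (by linarith) (by linarith)
    have h5 : s / (1 + s) ≤ 1 / 2 := by
      rw [div_le_div_iff₀ (by linarith) (by norm_num)]
      linarith
    unfold lmBfun
    rw [if_neg (by linarith), if_pos h5]
    have h6 : 1 + s ≠ 0 := by linarith
    have h7 : 1 - s / (1 + s) = 1 / (1 + s) := by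
      field_simp
      ring
    rw [h7]
    field_simp
  · have h4 : 1 / 2 < 1 / (3 - s) := by
      rw [div_lt_div_iff₀ (by norm_num) (by linarith)]
      linarith
    have h5 : 1 / (3 - s) ≤ 1 := by
      rw [div_le_iff₀ (by linarith)]
      linarith
    unfold lmBfun
    rw [if_neg (by linarith), if_neg (by linarith), if_pos h5, one_div_one_div]
    ring
  · unfold lmBfun
    rw [if_neg (by linarith), if_neg (by linarith), if_neg (by linarith)]
    ring

/-- The map `b` of Lodha and Moore. -/
def lmB : ℝ ≃o ℝ := lmBfun_strictMono.orderIsoOfRightInverse lmBfun lmBinv lmBfun_inv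

theorem lmB_apply (t : ℝ) : lmB t = lmBfun t := rfl

theorem lmCfun_strictMono : StrictMono lmCfun := by
  intro x y hxy
  unfold lmCfun
  split_ifs with h1 h2 h3 h4 h5 h6
  · exact hxy
  · have : 0 < 2 * y / (1 + y) := div_pos (by linarith) (by linarith)
    linarith
  · linarith
  · exfalso
    linarith
  · rw [div_lt_div_iff₀ (by linarith) (by linarith)]
    nlinarith
  · have : 2 * x / (1 + x) ≤ 1 := by
      rw [div_le_iff₀ (by linarith)]
      linarith
    linarith
  all_goals first | (exfalso; linarith) | linarith

theorem lmCfun_inv : Function.RightInverse lmCinv lmCfun := by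
  intro s
  unfold lmCinv
  split_ifs with h1 h2
  · unfold lmCfun
    rw [if_pos h1]
  · have h4 : 0 < s / (2 - s) := div_pos (by linarith) (by linarith)
    have h5 : s / (2 - s) ≤ 1 := by
      rw [div_le_iff₀ (by linarith)]
      linarith
    unfold lmCfun
    rw [if_neg (by linarith), if_pos h5]
    have h6 : 2 - s ≠ 0 := by linarith
    have h7 : 1 + s / (2 - s) = 2 / (2 - s) := by
      field_simp
      ring
    rw [h7]
    field_simp
  · unfold lmCfun
    rw [if_neg (by linarith), if_neg (by linarith)]

/-- The map `c` of Lodha and Moore. -/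
def lmC : ℝ ≃o ℝ := lmCfun_strictMono.orderIsoOfRightInverse lmCfun lmCinv lmCfun_inv

theorem lmC_apply (t : ℝ) : lmC t = lmCfun t := rfl

/-- The group of Lodha and Moore, generated by `a, b, c`: finitely presented, non-amenable, without
free subgroups of rank two (Lodha, Moore 2016). -/
def LMGrp : Subgroup (ℝ ≃o ℝ) := Subgroup.closure {lmA, lmB, lmC}

end Pool.Agent.MP_46876e_al_PP
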