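import Pool.Agent.Lib.MP_46876e_al_PP.RDefs

/-!
# MP_46876e_al, project PP, second stage, module RLtil: the maps t/(1+xt) cut off by translations
-/

set_option autoImplicit false

noncomputable section

namespace Pool.Agent.MP_46876e_al_PP

open MeasureTheory MulOpposite Filter Topology Pool.Agent.Forest46876e
open scoped ENNReal

/-- The cut off map, as a function. -/
private def RLtilFun (x t1 t2 t : ℝ) : ℝ :=
  if t ≤ t1 then t - 4 * x else if t ≤ t2 then t / (1 + x * t) else t - 4 * x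

/-- Proof: `t1 = 2 x - 2 √(1 + x²)`, `t2 = 2 x + 2 √(1 + x²)` are the roots of
`t² - 4 x t - 4 = 0`, that
is of `t / (1 + x t) = t - 4 x`. `1 + x t > 0` on `[t1, t2]`. The function is `t - 4 x` outside and
`t / (1 + x t)` on `[t1, t2]`: strictly increasing, continuous, surjective. -/
theorem exists_ltil (x : ℝ) (hx0 : 0 < x) (hx1 : x ≤ 1 / 100) :
    ∃ (f : ℝ ≃o ℝ) (t1 t2 : ℝ), t1 ≤ -1 ∧ 2 ≤ t2 ∧
      (∀ t ∈ Set.Icc t1 t2, 0 < 1 + x * t ∧ f t = t / (1 + x * t)) ∧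
      (∀ t, t ≤ t1 → f t = t - 4 * x) ∧ ∀ t, t2 ≤ t → f t = t - 4 * x := by
  obtain ⟨s, hs1, hs2, hs3⟩ : ∃ s : ℝ, 1 ≤ s ∧ s ≤ 2 ∧ s ^ 2 = 1 + x ^ 2 := by
    refine ⟨Real.sqrt (1 + x ^ 2), ?_, ?_, Real.sq_sqrt (by positivity)⟩
    · rw [Real.one_le_sqrt]
      nlinarith
    · rw [Real.sqrt_le_left (by norm_num)]
      nlinarith
  obtain ⟨t1, ht1⟩ : ∃ t1 : ℝ, t1 = 2 * x - 2 * s := ⟨_, rfl⟩
  obtain ⟨t2, ht2⟩ : ∃ t2 : ℝ, t2 = 2 * x + 2 * s := ⟨_, rfl⟩
  have h1 : t1 ≤ -1 := by rw [ht1]; linarith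
  have h2 : 2 ≤ t2 := by rw [ht2]; linarith
  have h12 : t1 ≤ t2 := by linarith
  have h12' : t1 < t2 := by linarith
  have hq1 : t1 ^ 2 - 4 * x * t1 - 4 = 0 := by
    rw [ht1]
    linear_combination 4 * hs3
  have hq2 : t2 ^ 2 - 4 * x * t2 - 4 = 0 := by
    rw [ht2]
    linear_combination 4 * hs3
  have hpos : ∀ t ∈ Set.Icc t1 t2, 0 < 1 + x * t := by
    intro t ht
    have h3 : -4 ≤ t := by
      have := ht.1
      linarith
    nlinarith
  have he1 : t1 / (1 + x * t1) = t1 - 4 * x := by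
    rw [div_eq_iff (hpos t1 ⟨le_refl _, h12⟩).ne']
    linear_combination (-x) * hq1
  have he2 : t2 / (1 + x * t2) = t2 - 4 * x := by
    rw [div_eq_iff (hpos t2 ⟨h12, le_refl _⟩).ne']
    linear_combination (-x) * hq2
  have hf1 : ∀ t, t ≤ t1 → RLtilFun x t1 t2 t = t - 4 * x := fun t ht => if_pos ht
  have hf2 : ∀ t ∈ Set.Icc t1 t2, RLtilFun x t1 t2 t = t / (1 + x * t) := by
    intro t ht
    rcases ht.1.eq_or_lt with h | h
    · rw [← h, hf1 t1 (le_refl _), he1]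
    · rw [RLtilFun, if_neg (not_le.2 h), if_pos ht.2]
  have hf3 : ∀ t, t2 ≤ t → RLtilFun x t1 t2 t = t - 4 * x := by
    intro t ht
    rcases ht.eq_or_lt with h | h
    · rw [← h, hf2 t2 ⟨h12, le_refl _⟩, he2]
    · rw [RLtilFun, if_neg (not_le.2 (h12'.trans h)), if_neg (not_le.2 h)]
  have hm1 : StrictMonoOn (RLtilFun x t1 t2) (Set.Iic t1) := by
    intro a ha b hb hab
    rw [hf1 a ha, hf1 b hb]
    linarith
  have hm2 : StrictMonoOn (RLtilFun x t1 t2) (Set.Icc t1 t2) := by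
    intro a ha b hb hab
    rw [hf2 a ha, hf2 b hb, div_lt_div_iff₀ (hpos a ha) (hpos b hb)]
    nlinarith
  have hm3 : StrictMonoOn (RLtilFun x t1 t2) (Set.Ici t2) := by
    intro a ha b hb hab
    rw [hf3 a ha, hf3 b hb]
    linarith
  have hm4 : StrictMonoOn (RLtilFun x t1 t2) (Set.Iic t2) := by
    rw [← Set.Iic_union_Icc_eq_Iic h12]
    exact hm1.union hm2 isGreatest_Iic (isLeast_Icc h12)
  have hm : StrictMono (RLtilFun x t1 t2) := hm4.Iic_union_Ici hm3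
  have hsurj : Function.Surjective (RLtilFun x t1 t2) := by
    intro u
    rcases le_total u (t1 - 4 * x) with h | h
    · refine ⟨u + 4 * x, ?_⟩
      rw [hf1 _ (by linarith)]
      ring
    · rcases le_total u (t2 - 4 * x) with h' | h'
      · have hc : ContinuousOn (fun t : ℝ => t / (1 + x * t)) (Set.Icc t1 t2) := by
          refine continuousOn_id.div ?_ fun t ht => (hpos t ht).ne'
          fun_prop
        have h3 := intermediate_value_Icc h12 hc
        have h4 : u ∈ Set.Icc (t1 / (1 + x * t1)) (t2 / (1 + x * t2)) := by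
          rw [he1, he2]
          exact ⟨h, h'⟩
        obtain ⟨t, ht, htu⟩ := h3 h4
        exact ⟨t, by rw [hf2 t ht]; exact htu⟩
      · refine ⟨u + 4 * x, ?_⟩
        rw [hf3 _ (by linarith)]
        ring
  refine ⟨hm.orderIsoOfSurjective _ hsurj, t1, t2, h1, h2, ?_, ?_, ?_⟩
  · intro t ht
    refine ⟨hpos t ht, ?_⟩
    rw [StrictMono.coe_orderIsoOfSurjective]
    exact hf2 t ht
  · intro t ht
    rw [StrictMono.coe_orderIsoOfSurjective]
    exact hf1 t ht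
  · intro t ht
    rw [StrictMono.coe_orderIsoOfSurjective]
    exact hf3 t ht

/-- Proof: `exists_ltil` with `y = x ^ (n + 1)`: off `{t1, t2}` the map `l` is locally a Möbius map
with
matrix `(1, 0; y, 1)` or `(1, -4 y; 0, 1)`, entries in `A`; `f t = l t + y` (composition with the
translation by `y`). On `[0,1]`: `t / (1 + y t) + y = rmob (bm y) t`,
`|f t - t| = |y² t + y - y t²| / (1 + y t) ≤ 3 y`, derivative `1 / (1 + y t)² ≥ 1 - 3 y`. -/
theorem monod_family (A : Subring ℝ) (x : ℝ) (hxA : x ∈ A) (hx0 : 0 < x) (hx1 : x ≤ 1 / 100)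
    (n : ℕ) : ∃ f : ℝ ≃o ℝ, f ∈ MonodGrp A ∧
      (∀ t ∈ Set.Icc (0 : ℝ) 1, f t = rmob (bseq x n) t) ∧
      (∀ t ∈ Set.Icc (0 : ℝ) 1, |f t - t| ≤ 3 * x ^ (n + 1)) ∧
      ∀ t ∈ Set.Ioo (0 : ℝ) 1, DifferentiableAt ℝ f t ∧ 1 - 3 * x ^ (n + 1) ≤ deriv f t := by
  obtain ⟨y, hy⟩ : ∃ y : ℝ, y = x ^ (n + 1) := ⟨_, rfl⟩
  have hyA : y ∈ A := hy ▸ A.pow_mem hxA _
  have hy0 : 0 < y := hy ▸ pow_pos hx0 _
  have hy1 : y ≤ 1 / 100 := by
    rw [hy]
    refine le_trans ?_ hx1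
    exact pow_le_of_le_one hx0.le (by linarith) (Nat.succ_ne_zero n)
  obtain ⟨l, t1, t2, h1, h2, h3, h4, h5⟩ := exists_ltil y hy0 hy1
  have hf : ∀ t, (l.trans (OrderIso.addRight y)) t = l t + y := fun t => rfl
  have hmid : ∀ t ∈ Set.Icc t1 t2, (l.trans (OrderIso.addRight y)) t =
      ((1 + y ^ 2) * t + y) / (y * t + 1) := by
    intro t ht
    obtain ⟨h6, h7⟩ := h3 t ht
    have h8 : y * t + 1 ≠ 0 := by linarith
    rw [hf, h7, add_comm 1 (y * t), eq_div_iff h8, add_mul, div_mul_cancel₀ _ h8]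
    ring
  refine ⟨l.trans (OrderIso.addRight y), ⟨{t1, t2}, Set.toFinite _, ?_⟩, ?_, ?_, ?_⟩
  · intro t ht
    rw [Set.mem_insert_iff, Set.mem_singleton_iff, not_or] at ht
    rcases lt_or_gt_of_ne ht.1 with h6 | h6
    · refine ⟨1, A.one_mem, -(3 * y), ?_, 0, A.zero_mem, 1, A.one_mem, by norm_num, ?_⟩
      · have : (3 : ℝ) = ((3 : ℕ) : ℝ) := by norm_num
        rw [this]
        exact A.neg_mem (A.mul_mem (natCast_mem A 3) hyA)
      · filter_upwards [Iio_mem_nhds h6] with u hu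
        refine ⟨by norm_num, ?_⟩
        rw [hf, h4 u (le_of_lt hu)]
        ring
    · rcases lt_or_gt_of_ne ht.2 with h7 | h7
      · refine ⟨1 + y ^ 2, A.add_mem A.one_mem (A.pow_mem hyA 2), y, hyA, y, hyA, 1, A.one_mem,
          by ring, ?_⟩
        filter_upwards [Ioo_mem_nhds h6 h7] with u hu
        have hu' : u ∈ Set.Icc t1 t2 := ⟨hu.1.le, hu.2.le⟩
        refine ⟨?_, hmid u hu'⟩
        have := (h3 u hu').1
        linarith
      · refine ⟨1, A.one_mem, -(3 * y), ?_, 0, A.zero_mem, 1, A.one_mem, by norm_num, ?_⟩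
        · have : (3 : ℝ) = ((3 : ℕ) : ℝ) := by norm_num
          rw [this]
          exact A.neg_mem (A.mul_mem (natCast_mem A 3) hyA)
        · filter_upwards [Ioi_mem_nhds h7] with u hu
          refine ⟨by norm_num, ?_⟩
          rw [hf, h5 u (le_of_lt hu)]
          ring
  · intro t ht
    rw [hmid t ⟨by linarith [ht.1], by linarith [ht.2]⟩, rmob, bseq, ← hy, bm]
    simp
  · intro t ht
    rw [hmid t ⟨by linarith [ht.1], by linarith [ht.2]⟩, ← hy]
    have h6 : 0 < y * t + 1 := by nlinarith [ht.1, mul_nonneg hy0.le ht.1]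
    have h7 : ((1 + y ^ 2) * t + y) / (y * t + 1) - t =
        (y ^ 2 * t + y - y * t ^ 2) / (y * t + 1) := by
      rw [eq_div_iff h6.ne', sub_mul, div_mul_cancel₀ _ h6.ne']
      ring
    have h8 : 0 ≤ y * t := mul_nonneg hy0.le ht.1
    have h9 : t ^ 2 ≤ 1 := by nlinarith [ht.1, ht.2]
    have h10 : 0 ≤ y ^ 2 * t + y - y * t ^ 2 := by nlinarith [mul_nonneg hy0.le h8]
    rw [h7, abs_of_nonneg (div_nonneg h10 h6.le), div_le_iff₀ h6]
    have h11 : y ^ 2 * t ≤ y := by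
      have : y * t ≤ 1 := by nlinarith [ht.1, ht.2]
      nlinarith
    have h12 : 0 ≤ y * t ^ 2 := mul_nonneg hy0.le (sq_nonneg t)
    nlinarith
  · intro t ht
    have ht' : t ∈ Set.Ioo t1 t2 := ⟨by linarith [ht.1], by linarith [ht.2]⟩
    have h6 : 0 < y * t + 1 := by nlinarith [ht.1, mul_nonneg hy0.le ht.1.le]
    have h7 : HasDerivAt (fun u : ℝ => ((1 + y ^ 2) * u + y) / (y * u + 1))
        (((1 + y ^ 2) * (y * t + 1) - ((1 + y ^ 2) * t + y) * y) / (y * t + 1) ^ 2) t := by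
      have e1 : HasDerivAt (fun u : ℝ => (1 + y ^ 2) * u + y) (1 + y ^ 2) t := by
        have := ((hasDerivAt_id t).const_mul (1 + y ^ 2)).add_const y
        simpa using this
      have e2 : HasDerivAt (fun u : ℝ => y * u + 1) y t := by
        have := ((hasDerivAt_id t).const_mul y).add_const 1
        simpa using this
      exact e1.div e2 h6.ne'
    have h8 : (⇑(l.trans (OrderIso.addRight y)) : ℝ → ℝ) =ᶠ[𝓝 t]
        fun u : ℝ => ((1 + y ^ 2) * u + y) / (y * u + 1) := by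
      filter_upwards [Ioo_mem_nhds ht'.1 ht'.2] with u hu
      exact hmid u ⟨hu.1.le, hu.2.le⟩
    have h9 := h7.congr_of_eventuallyEq h8
    refine ⟨h9.differentiableAt, ?_⟩
    rw [h9.deriv, ← hy]
    have h10 : (1 + y ^ 2) * (y * t + 1) - ((1 + y ^ 2) * t + y) * y = 1 := by ring
    rw [h10, le_div_iff₀ (pow_pos h6 2)]
    have h11 : y * t ≤ y := by nlinarith [ht.1, ht.2]
    have h12 : (y * t + 1) ^ 2 ≤ (y + 1) ^ 2 := by
      have : 0 ≤ y * t := mul_nonneg hy0.le ht.1.le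
      nlinarith
    have h13 : 0 ≤ 1 - 3 * y := by linarith
    calc (1 - 3 * y) * (y * t + 1) ^ 2 ≤ (1 - 3 * y) * (y + 1) ^ 2 :=
          mul_le_mul_of_nonneg_left h12 h13
      _ ≤ 1 := by nlinarith [pow_pos hy0 2, pow_pos hy0 3]

/-- Proof: `x` minus its integer part is in `A` and in `(0, 1)`; take powers. -/
theorem exists_small (A : Subring ℝ) (hA : ∃ x ∈ A, ∀ k : ℤ, x ≠ k) :
    ∃ x ∈ A, 0 < x ∧ x < 1 := by
  obtain ⟨x, hx, h⟩ := hA
  refine ⟨Int.fract x, ?_, ?_, Int.fract_lt_one x⟩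
  · rw [Int.fract]
    exact A.sub_mem hx (intCast_mem A _)
  · refine lt_of_le_of_ne (Int.fract_nonneg x) fun h0 => h ⌊x⌋ ?_
    have h1 := Int.floor_add_fract x
    rw [← h0, add_zero] at h1
    exact h1.symm

end Pool.Agent.MP_46876e_al_PP
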