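import Pool.Agent.Lib.MP_46876e_al_PP.RDefs

/-!
# MP_46876e_al, project PP, second stage, module ROver: overgroups
-/

set_option autoImplicit false

noncomputable section

namespace Pool.Agent.MP_46876e_al_PP

open MeasureTheory MulOpposite Filter Topology Pool.Agent.Forest46876e
open scoped ENNReal

/-- Representatives `r` of the right cosets of the image of `φ`, and `k g` with
`φ (k g) * r g = g`. -/
structure ROverSect {L G : Type} [Group L] [Group G] (φ : L →* G) where
  /-- the representative -/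
  r : G → G
  /-- the factor -/
  k : G → L
  mul_r : ∀ g, φ (k g) * r g = g
  r_mul : ∀ l g, r (φ l * g) = r g
  k_mul : ∀ l g, k (φ l * g) = l * k g
  r_one : r 1 = 1
  k_one : k 1 = 1

theorem ROver_exists {L G : Type} [Group L] [Group G] (φ : L →* G)
    (hφ : Function.Injective φ) : Nonempty (ROverSect φ) := by
  classical
  let s := QuotientGroup.rightRel φ.range
  have hrel : ∀ a b : G, (Quotient.mk s a = Quotient.mk s b) ↔ ∃ l, φ l = b * a⁻¹ := by
    intro a b
    rw [Quotient.eq]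
    change (QuotientGroup.rightRel φ.range).r a b ↔ _
    exact QuotientGroup.rightRel_apply
  let r : G → G := fun g => if ∃ l, φ l = g then 1 else (Quotient.mk s g).out
  have hr : ∀ g, ∃ l, φ l * r g = g := by
    intro g
    by_cases h : ∃ l, φ l = g
    · obtain ⟨l, hl⟩ := h
      refine ⟨l, ?_⟩
      have : r g = 1 := if_pos ⟨l, hl⟩
      rw [this, mul_one, hl]
    · have h1 : r g = (Quotient.mk s g).out := if_neg h
      have h2 : Quotient.mk s (r g) = Quotient.mk s g := by
        rw [h1]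
        exact Quotient.out_eq _
      obtain ⟨l, hl⟩ := (hrel _ _).1 h2
      exact ⟨l, by rw [hl, inv_mul_cancel_right]⟩
  choose k hk using hr
  have hmem : ∀ l g, (∃ l', φ l' = φ l * g) ↔ ∃ l', φ l' = g := by
    intro l g
    constructor
    · rintro ⟨l', h⟩
      exact ⟨l⁻¹ * l', by rw [map_mul, h, map_inv, inv_mul_cancel_left]⟩
    · rintro ⟨l', h⟩
      exact ⟨l * l', by rw [map_mul, h]⟩
  have hrm : ∀ l g, r (φ l * g) = r g := by
    intro l g
    have h0 : Quotient.mk s (φ l * g) = Quotient.mk s g := by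
      rw [hrel]
      exact ⟨l⁻¹, by rw [map_inv, mul_inv_rev, mul_inv_cancel_left]⟩
    by_cases h : ∃ l', φ l' = g
    · have h1 : r g = 1 := if_pos h
      have h2 : r (φ l * g) = 1 := if_pos ((hmem l g).2 h)
      rw [h1, h2]
    · have h1 : r g = (Quotient.mk s g).out := if_neg h
      have h2 : r (φ l * g) = (Quotient.mk s (φ l * g)).out := if_neg fun h' => h ((hmem l g).1 h')
      rw [h1, h2, h0]
  have hr1 : r 1 = 1 := if_pos ⟨1, map_one φ⟩
  refine ⟨⟨r, k, hk, hrm, ?_, hr1, ?_⟩⟩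
  · intro l g
    apply hφ
    have h1 := hk (φ l * g)
    rw [hrm] at h1
    have h2 := hk g
    rw [map_mul]
    apply mul_right_cancel (b := r g)
    rw [h1, mul_assoc, h2]
  · apply hφ
    have h1 := hk 1
    rw [hr1, mul_one] at h1
    rw [h1, map_one]

namespace ROverSect

variable {L G : Type} [Group L] [Group G] {φ : L →* G} (S : ROverSect φ)

theorem r_r (g : G) : S.r (S.r g) = S.r g := by
  have := S.r_mul (S.k g) (S.r g)
  rw [S.mul_r] at this
  exact this.symm

theorem r_r_mul (g h : G) : S.r (S.r g * h) = S.r (g * h) := by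
  have := S.r_mul (S.k g) (S.r g * h)
  rw [← mul_assoc, S.mul_r] at this
  exact this.symm

theorem k_mul' (g h : G) : S.k g * S.k (S.r g * h) = S.k (g * h) := by
  have := S.k_mul (S.k g) (S.r g * h)
  rw [← mul_assoc, S.mul_r] at this
  exact this.symm

theorem k_of_r (t : G) (ht : S.r t = t) : S.k t = 1 := by
  have := S.k_mul (S.k t) (S.r t)
  rw [S.mul_r, ht] at this
  exact mul_right_cancel (this.symm.trans (one_mul _).symm) |>.symm ▸ rfl

theorem r_phi (l : L) : S.r (φ l) = 1 := by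
  have := S.r_mul l 1
  rwa [mul_one, S.r_one] at this

theorem k_phi (l : L) : S.k (φ l) = l := by
  have := S.k_mul l 1
  rwa [mul_one, S.k_one, mul_one] at this

/-- The representatives. -/
def T : Type := {t : G // S.r t = t}

instance : MeasurableSpace S.T := ⊤

instance : MeasurableSingletonClass S.T := ⟨fun _ => trivial⟩

instance [Countable G] : Countable S.T := inferInstanceAs (Countable {t : G // S.r t = t})

/-- The trivial coset. -/
def t1 : S.T := ⟨1, S.r_one⟩

/-- The action on the cosets. -/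
def tm (t : S.T) (g : G) : S.T := ⟨S.r (t.1 * g), S.r_r _⟩

theorem tm_one (t : S.T) : S.tm t 1 = t := Subtype.ext (by
  change S.r (t.1 * 1) = t.1
  rw [mul_one, t.2])

theorem tm_mul (t : S.T) (g h : G) : S.tm t (g * h) = S.tm (S.tm t g) h := Subtype.ext (by
  change S.r (t.1 * (g * h)) = S.r (S.r (t.1 * g) * h)
  rw [S.r_r_mul, mul_assoc])

/-- The permutation of the cosets. -/
def te (g : G) : S.T ≃ S.T where
  toFun t := S.tm t g
  invFun t := S.tm t g⁻¹
  left_inv t := by
    change S.tm (S.tm t g) g⁻¹ = t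
    rw [← S.tm_mul, mul_inv_cancel, S.tm_one]
  right_inv t := by
    change S.tm (S.tm t g⁻¹) g = t
    rw [← S.tm_mul, inv_mul_cancel, S.tm_one]

/-- The induced space. -/
def Z' (Z : Type) : Type := S.T × Z

instance (Z : Type) [MeasurableSpace Z] : MeasurableSpace (S.Z' Z) :=
  inferInstanceAs (MeasurableSpace (S.T × Z))

instance (Z : Type) [MulAction Lᵐᵒᵖ Z] : MulAction Gᵐᵒᵖ (S.Z' Z) where
  smul a p := (S.tm p.1 a.unop, op (S.k (p.1.1 * a.unop)) • p.2)
  one_smul p := by
    obtain ⟨t, z⟩ := p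
    change (S.tm t 1, op (S.k (t.1 * 1)) • z) = (t, z)
    rw [S.tm_one, mul_one, S.k_of_r _ t.2, op_one, one_smul]
  mul_smul a b p := by
    obtain ⟨t, z⟩ := p
    change (S.tm t (b.unop * a.unop), op (S.k (t.1 * (b.unop * a.unop))) • z) =
      (S.tm (S.tm t b.unop) a.unop,
        op (S.k (S.r (t.1 * b.unop) * a.unop)) • op (S.k (t.1 * b.unop)) • z)
    rw [S.tm_mul, smul_smul, ← op_mul, S.k_mul', mul_assoc]

theorem tm_eq_t1 (t : S.T) (l : L) : S.tm t (φ l) = S.t1 ↔ t = S.t1 := by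
  have h : S.tm S.t1 (φ l) = S.t1 := Subtype.ext (by
    change S.r (1 * φ l) = 1
    rw [one_mul, S.r_phi])
  constructor
  · intro h'
    exact (S.te (φ l)).injective (h'.trans h.symm)
  · rintro rfl
    exact h

/-- The inclusion of a copy of `Z`. -/
def inc {Z : Type} (t : S.T) (z : Z) : S.Z' Z := (t, z)

theorem measurable_inc {Z : Type} [MeasurableSpace Z] (t : S.T) :
    Measurable (S.inc t : Z → S.Z' Z) := measurable_prodMk_left

theorem measurable_of_inc [Countable G] {Z Y : Type} [MeasurableSpace Z] [MeasurableSpace Y]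
    (f : S.Z' Z → Y) (h : ∀ t, Measurable fun z => f (S.inc t z)) : Measurable f :=
  measurable_from_prod_countable_right (α := S.T) (β := Z) h

theorem measurableEmbedding_inc {Z : Type} [MeasurableSpace Z] (t : S.T) :
    MeasurableEmbedding (S.inc t : Z → S.Z' Z) :=
  MeasurableEmbedding.prodMk_left (α := S.T) t (MeasurableEmbedding.id (α := Z))

/-- The measure on the induced space. -/
def ms {Z : Type} [MeasurableSpace Z] (ζ : Measure Z) : Measure (S.Z' Z) :=
  Measure.sum fun t : S.T => ζ.map (S.inc t)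

theorem ms_apply {Z : Type} [MeasurableSpace Z] (ζ : Measure Z) {E : Set (S.Z' Z)}
    (hE : MeasurableSet E) : S.ms ζ E = ∑' t : S.T, ζ (S.inc t ⁻¹' E) := by
  rw [ms, Measure.sum_apply _ hE]
  exact tsum_congr fun t => Measure.map_apply (S.measurable_inc t) hE

theorem measurePreserving [Countable G] {Z : Type} [MeasurableSpace Z] [MulAction Lᵐᵒᵖ Z]
    (ζ : Measure Z) (h : ∀ l : L, MeasurePreserving (fun z : Z => op l • z) ζ ζ) (g : G) :
    MeasurePreserving (fun z : S.Z' Z => op g • z) (S.ms ζ) (S.ms ζ) := by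
  have hm : Measurable (fun z : S.Z' Z => op g • z) := by
    refine S.measurable_of_inc _ fun t => ?_
    exact (S.measurable_inc (S.tm t g)).comp (h (S.k (t.1 * g))).measurable
  refine ⟨hm, ?_⟩
  ext E hE
  rw [Measure.map_apply hm hE, S.ms_apply ζ (hm hE), S.ms_apply ζ hE,
    ← (S.te g).tsum_eq fun t => ζ (S.inc t ⁻¹' E)]
  refine tsum_congr fun t => ?_
  have h1 : S.inc t ⁻¹' ((fun z : S.Z' Z => op g • z) ⁻¹' E) =
      (fun z : Z => op (S.k (t.1 * g)) • z) ⁻¹' (S.inc (S.te g t) ⁻¹' E) := rfl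
  rw [h1]
  exact (h (S.k (t.1 * g))).measure_preimage ((S.measurable_inc _ hE).nullMeasurableSet)

/-- The copy of a set over the trivial coset. -/
def cp {Z : Type} (E : Set Z) : Set (S.Z' Z) := {p | p.1 = S.t1 ∧ p.2 ∈ E}

theorem measurableSet_cp {Z : Type} [MeasurableSpace Z] {E : Set Z} (hE : MeasurableSet E) :
    MeasurableSet (S.cp E) := by
  have h1 : Measurable (fun p : S.Z' Z => p.1) := measurable_fst (α := S.T) (β := Z)
  have h2 : Measurable (fun p : S.Z' Z => p.2) := measurable_snd (α := S.T) (β := Z)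
  exact (h1 (measurableSet_singleton S.t1)).inter (h2 hE)

theorem ms_cp {Z : Type} [MeasurableSpace Z] (ζ : Measure Z) {E : Set Z} (hE : MeasurableSet E) :
    S.ms ζ (S.cp E) = ζ E := by
  rw [S.ms_apply ζ (S.measurableSet_cp hE), tsum_eq_single S.t1]
  · congr 1
    ext z
    exact ⟨fun h => h.2, fun h => ⟨rfl, h⟩⟩
  · intro t ht
    have : S.inc t ⁻¹' S.cp E = (∅ : Set Z) := by
      ext z
      exact ⟨fun h => ht h.1, fun h => h.elim⟩
    rw [this, measure_empty]

theorem win_cp {Z : Type} [MulAction Lᵐᵒᵖ Z] (B : Set Z) (l : L) :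
    Win (S.cp B) (φ l) = S.cp (Win B l) := by
  ext p
  obtain ⟨t, z⟩ := p
  change ((t = S.t1 ∧ z ∈ B) ∨ (S.tm t (φ l) = S.t1 ∧ op (S.k (t.1 * φ l)) • z ∈ B)) ↔
    (t = S.t1 ∧ (z ∈ B ∨ op l • z ∈ B))
  rw [S.tm_eq_t1]
  constructor
  · rintro (⟨rfl, h⟩ | ⟨rfl, h⟩)
    · exact ⟨rfl, Or.inl h⟩
    · refine ⟨rfl, Or.inr ?_⟩
      change op (S.k (1 * φ l)) • z ∈ B at h
      rwa [one_mul, S.k_phi] at h
  · rintro ⟨rfl, h | h⟩
    · exact Or.inl ⟨rfl, h⟩
    · refine Or.inr ⟨rfl, ?_⟩
      change op (S.k (1 * φ l)) • z ∈ B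
      rwa [one_mul, S.k_phi]

end ROverSect

/-- A graph all of whose edges are images of edges of an acyclic graph under an injective map is
acyclic. -/
theorem ROver_acyclic {V W : Type} (Γ : SimpleGraph V) (Δ : SimpleGraph W) (j : V → W)
    (q : W → V) (hq : ∀ v, q (j v) = v) (hΓ : Γ.IsAcyclic)
    (h : ∀ x y, Δ.Adj x y → ∃ a b, Γ.Adj a b ∧ j a = x ∧ j b = y) : Δ.IsAcyclic := by
  rw [SimpleGraph.isAcyclic_iff_forall_adj_isBridge] at hΓ ⊢
  intro x y hxy
  obtain ⟨a, b, hab, rfl, rfl⟩ := h x y hxy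
  have h1 := hΓ hab
  rw [SimpleGraph.isBridge_iff] at h1 ⊢
  intro hr
  apply h1
  let f : (Δ.deleteEdges {s(j a, j b)}) →g (Γ.deleteEdges {s(a, b)}) := ⟨q, by
    intro u v huv
    rw [SimpleGraph.deleteEdges_adj] at huv ⊢
    obtain ⟨c, d, hcd, rfl, rfl⟩ := h u v huv.1
    rw [hq, hq]
    refine ⟨hcd, fun h' => huv.2 ?_⟩
    rw [Set.mem_singleton_iff] at h' ⊢
    rcases Sym2.eq_iff.1 h' with ⟨rfl, rfl⟩ | ⟨rfl, rfl⟩
    · rfl
    · exact Sym2.eq_swap⟩
  have h2 := hr.map f
  change (Γ.deleteEdges {s(a, b)}).Reachable (q (j a)) (q (j b)) at h2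
  rwa [hq, hq] at h2

/-- Proof (induced action). Let `H = φ.range`, `Q` the right cosets `H g`
(`Quotient (QuotientGroup.rightRel H)`), `s : Q → G` a section with `s [1] = 1`, `Q` with the
sigma-algebra `⊤` and counting measure. For `q : Q`, `g : G` let `q · g = [s q * g]` and
`κ q g : L` the
element with `φ (κ q g) = s q * g * (s (q · g))⁻¹`. `Z' = Z × Q` with `ζ' = ζ.prod count` (or the
sum over `q` of copies of `ζ`; `Q` is countable) and the right action `(z, q) g = (z κ q g, q · g)`;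
`κ q (g h) = κ q g * κ (q · g) h`. `B' = B × {[1]}`, `A' g = {(z, [1]) | ∃ l, φ l = g ∧ z ∈ A l}`.
Then
`Win B' (φ l) = Win B l × {[1]}`, `A' (φ l) = A l × {[1]}` (`φ` injective). For `(z, q)`: `(z, q) x`
is in `A' (φ l)` iff `s q * x = φ k` for some `k` (then `q · x = [1]`, `κ q x = k`) and
`z k ∈ A l`; so
the edges of `orbGraph A' (z, q)` are the images of the edges of `orbGraph A z` under the injective
map `k ↦ (s q)⁻¹ * φ k`: acyclic for almost every `(z, q)`. -/
theorem data_over (L G : Type) [Group L] [Group G] [Countable G] (φ : L →* G)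
    (hφ : Function.Injective φ) (m : L → ℝ≥0∞) (m' : G → ℝ≥0∞) (h : HasData L m)
    (hm : ∀ l, m' (φ l) = m l) (hm0 : ∀ g, (∀ l, φ l ≠ g) → m' g = 0) : HasData G m' := by
  classical
  obtain ⟨Z, mZ, aZ, ζ, B, A, hmp, hB, hBf, hA, hAB, hAB', hac, hms⟩ := h
  obtain ⟨S⟩ := ROver_exists φ hφ
  let A' : G → Set (S.Z' Z) := fun g => {p | p.1 = S.t1 ∧ ∃ l, φ l = g ∧ p.2 ∈ A l}
  have hA' : ∀ l, A' (φ l) = S.cp (A l) := by
    intro l
    ext p
    constructor
    · rintro ⟨h1, l', h2, h3⟩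
      rw [hφ h2] at h3
      exact ⟨h1, h3⟩
    · rintro ⟨h1, h3⟩
      exact ⟨h1, l, rfl, h3⟩
  have hA0 : ∀ g, (∀ l, φ l ≠ g) → A' g = ∅ := by
    intro g hg
    ext p
    constructor
    · rintro ⟨_, l, h2, _⟩
      exact (hg l h2).elim
    · exact fun h => h.elim
  refine ⟨S.Z' Z, inferInstance, inferInstance, S.ms ζ, S.cp B, A', S.measurePreserving ζ hmp,
    S.measurableSet_cp hB, ?_, ?_, ?_, ?_, ?_, ?_⟩
  · rw [S.ms_cp ζ hB]
    exact hBf
  · intro g
    by_cases hg : ∃ l, φ l = g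
    · obtain ⟨l, rfl⟩ := hg
      rw [hA']
      exact S.measurableSet_cp (hA l)
    · rw [hA0 g fun l hl => hg ⟨l, hl⟩]
      exact MeasurableSet.empty
  · rintro g p ⟨h1, l, _, h3⟩
    exact ⟨h1, hAB l h3⟩
  · rintro g ⟨t, z⟩ ⟨h1, l, rfl, h3⟩
    change t = S.t1 at h1
    subst h1
    refine ⟨(S.tm_eq_t1 _ l).2 rfl, ?_⟩
    change op (S.k (1 * φ l)) • z ∈ B
    rw [one_mul, S.k_phi]
    exact hAB' l z h3
  · rw [ROverSect.ms, Measure.ae_sum_iff]
    intro t
    rw [(S.measurableEmbedding_inc t).ae_map_iff]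
    filter_upwards [hac] with z hz
    refine ROver_acyclic (orbGraph A z) _ (fun a => t.1⁻¹ * φ a) (fun x => S.k (t.1 * x)) ?_ hz ?_
    · intro v
      rw [mul_inv_cancel_left, S.k_phi]
    · have key : ∀ x y : G, x ≠ y → (∃ g, op x • (S.inc t z : S.Z' Z) ∈ A' g ∧ y = x * g) →
          ∃ a b, (orbGraph A z).Adj a b ∧ t.1⁻¹ * φ a = x ∧ t.1⁻¹ * φ b = y := by
        rintro x y hne ⟨g, hg, rfl⟩
        obtain ⟨h1, l, rfl, h3⟩ := hg
        change S.tm t x = S.t1 at h1
        change op (S.k (t.1 * x)) • z ∈ A l at h3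
        have h4 : S.r (t.1 * x) = 1 := congrArg Subtype.val h1
        have h5 := S.mul_r (t.1 * x)
        rw [h4, mul_one] at h5
        refine ⟨S.k (t.1 * x), S.k (t.1 * x) * l, ?_, ?_, ?_⟩
        · rw [orbGraph, SimpleGraph.fromRel_adj]
          refine ⟨?_, Or.inl ⟨l, h3, rfl⟩⟩
          intro h6
          apply hne
          have h7 : l = 1 := by
            have := mul_left_cancel ((mul_one _).trans h6)
            exact this.symm
          rw [h7, map_one, mul_one]
        · rw [h5, inv_mul_cancel_left]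
        · rw [map_mul, h5, mul_assoc, inv_mul_cancel_left]
      intro x y hxy
      rw [orbGraph, SimpleGraph.fromRel_adj] at hxy
      obtain ⟨hne, h1 | h1⟩ := hxy
      · exact key x y hne h1
      · obtain ⟨a, b, hab, ha, hb⟩ := key y x hne.symm h1
        exact ⟨b, a, hab.symm, hb, ha⟩
  · intro g
    by_cases hg : ∃ l, φ l = g
    · obtain ⟨l, rfl⟩ := hg
      have hW : MeasurableSet (Win B l) := hB.union ((hmp l).measurable hB)
      rw [hA', S.win_cp, S.ms_cp ζ (hA l), S.ms_cp ζ hW, hm]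
      exact hms l
    · rw [hm0 g fun l hl => hg ⟨l, hl⟩]
      exact zero_le

end Pool.Agent.MP_46876e_al_PP
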