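import Pool.Agent.Lib.MP_46876e_al_PP.RDefs
import Pool.Agent.Lib.MP_46876e_al_PP.PPt
import Pool.Agent.Lib.MP_46876e_al_PP.PSamp
import Pool.Agent.Lib.MP_46876e_al_PP.PEtaMeas

/-!
# MP_46876e_al, project PP, second stage, module RInv: invariance of the law on cylinders (first
point version)
-/

set_option autoImplicit false

noncomputable section

namespace Pool.Agent.MP_46876e_al_PP

open MeasureTheory MulOpposite Filter Topology Pool.Agent.Forest46876e
open scoped ENNReal

variable {G Z : Type*} [Group G] [MeasurableSpace Z] [MulAction Gᵐᵒᵖ Z]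

omit [MeasurableSpace Z] in
private theorem sees_inl (x : G) (S : Set Z) (z : Z) :
    Sees x S (Sum.inl z : Z ⊕ Unit) ↔ op x • z ∈ S := by
  constructor
  · rintro ⟨w, hw, h⟩
    rw [Sum.inl.injEq] at hw
    rw [hw]
    exact h
  · intro h
    exact ⟨z, rfl, h⟩

omit [MeasurableSpace Z] in
private theorem not_sees_inr (x : G) (S : Set Z) : ¬ Sees x S (Sum.inr () : Z ⊕ Unit) := by
  rintro ⟨w, hw, -⟩
  exact absurd hw (by simp)

open scoped Classical in
/-- The type of a sample point, seen from the labels `(h x, l)`, `(x, l) ∈ T`. -/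
private def typ (B : Set Z) (A : G → Set Z) (T : Finset (G × G)) (h : G) (o : Z ⊕ Unit) :
    {t // t ∈ T} → Bool × Bool :=
  fun t => (decide (Sees (h * t.1.1) (A t.1.2) o), decide (Sees (h * t.1.1) (Win B t.1.2) o))

private theorem typ_measurable (hm : ∀ g : G, Measurable (fun z : Z => op g • z))
    (B : Set Z) (hB : MeasurableSet B) (A : G → Set Z) (hA : ∀ g, MeasurableSet (A g))
    (T : Finset (G × G)) (h : G) : Measurable (typ B A T h) := by
  have hW : ∀ k : G, MeasurableSet (Win B k) := fun k => hB.union (hm k hB)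
  refine measurable_pi_iff.2 fun t => ?_
  have h1 : Measurable fun o : Z ⊕ Unit => (typ B A T h o t).1 := by
    refine measurable_to_bool ?_
    have : (fun o : Z ⊕ Unit => (typ B A T h o t).1) ⁻¹' {true} =
        {o | Sees (h * t.1.1) (A t.1.2) o} := by
      ext o
      simp [typ]
    rw [this]
    exact measurableSet_sees hm _ _ (hA _)
  have h2 : Measurable fun o : Z ⊕ Unit => (typ B A T h o t).2 := by
    refine measurable_to_bool ?_
    have : (fun o : Z ⊕ Unit => (typ B A T h o t).2) ⁻¹' {true} =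
        {o | Sees (h * t.1.1) (Win B t.1.2) o} := by
      ext o
      simp [typ]
    rw [this]
    exact measurableSet_sees hm _ _ (hW _)
  exact h1.prodMk h2

open scoped Classical in
/-- The event on types. -/
private def evt (T : Finset (G × G)) (s : G × G → Bool) (N : ℕ) :
    Set (Fin N → ({t // t ∈ T} → Bool × Bool)) :=
  {v | ∀ t : {t // t ∈ T},
    decide (∃ j, (v j t).1 = true ∧ ∀ j', j' < j → (v j' t).2 = false) = s t.1}

omit [MeasurableSpace Z] in
private theorem evt_eq (B : Set Z) (A : G → Set Z) (T : Finset (G × G)) (s : G × G → Bool)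
    (N : ℕ) (h : G) :
    {ω : Fin N → Z ⊕ Unit | ∀ t ∈ T, etaL B A ω (h * t.1, t.2) = s t} =
      {ω | (fun j => typ B A T h (ω j)) ∈ evt T s N} := by
  ext ω
  simp only [Set.mem_ofPred_eq, evt, Subtype.forall]
  refine forall₂_congr fun t ht => ?_
  have e : (∃ j, Sees (h * t.1) (A t.2) (ω j) ∧
      ∀ j', j' < j → ¬ Sees (h * t.1) (Win B t.2) (ω j')) ↔
      (∃ j, (typ B A T h (ω j) ⟨t, ht⟩).1 = true ∧
        ∀ j', j' < j → (typ B A T h (ω j') ⟨t, ht⟩).2 = false) := by
    simp only [typ, decide_eq_true_eq, decide_eq_false_iff_not]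
  have e' : etaL B A ω (h * t.1, t.2) = true ↔ ∃ j, Sees (h * t.1) (A t.2) (ω j) ∧
      ∀ j', j' < j → ¬ Sees (h * t.1) (Win B t.2) (ω j') := etaL_eq_true B A ω _
  have e'' : etaL B A ω (h * t.1, t.2) = decide (∃ j, (typ B A T h (ω j) ⟨t, ht⟩).1 = true ∧
      ∀ j', j' < j → (typ B A T h (ω j') ⟨t, ht⟩).2 = false) := by
    rw [Bool.eq_iff_iff, e', e, decide_eq_true_eq]
  rw [e'']

omit [MeasurableSpace Z] in
private theorem typ_shift (B : Set Z) (A : G → Set Z) (T : Finset (G × G)) (g : G) (z : Z) :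
    typ B A T g (Sum.inl z) = typ B A T 1 (Sum.inl (op g • z)) := by
  funext t
  have key : ∀ x : G, op (g * x) • z = op (1 * x) • (op g • z) := by
    intro x
    rw [one_mul, op_mul, mul_smul]
  refine Prod.ext ?_ ?_
  · refine decide_eq_decide.2 ?_
    rw [sees_inl, sees_inl, key]
  · refine decide_eq_decide.2 ?_
    rw [sees_inl, sees_inl, key]


/-- Proof: as `eta_inv` (PEtaInv.lean, copy it), with `j' < j` in place of `j' ≠ j` and
`ptLaw ζ U K`. -/
theorem etaL_inv (ζ : Measure Z) (hmp : ∀ g : G, MeasurePreserving (fun z : Z => op g • z) ζ ζ)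
    (U : Set Z) (K N : ℕ) (hK : K ≠ 0) (hU : ζ U ≤ K) (B : Set Z) (hB : MeasurableSet B)
    (A : G → Set Z) (hA : ∀ g, MeasurableSet (A g)) (hAB : ∀ g, A g ⊆ B)
    (T : Finset (G × G)) (s : G × G → Bool) (g : G)
    (hT : ∀ t ∈ T, ∀ z : Z, op t.1 • z ∈ Win B t.2 → z ∈ U)
    (hT' : ∀ t ∈ T, ∀ z : Z, op (g * t.1) • z ∈ Win B t.2 → z ∈ U) :
    sampLawK ζ U K N {ω | ∀ t ∈ T, etaL B A ω t = s t} =
      sampLawK ζ U K N {ω | ∀ t ∈ T, etaL B A ω (g * t.1, t.2) = s t} := by
  have hm : ∀ g : G, Measurable (fun z : Z => op g • z) := fun g => (hmp g).measurable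
  have := ptLaw_prob ζ U K hK hU
  have hc1 := typ_measurable hm B hB A hA T 1
  have hcg := typ_measurable hm B hB A hA T g
  have hinr : ∀ h : G, typ B A T h (Sum.inr ()) = fun _ => (false, false) := by
    intro h
    funext t
    simp only [typ, not_sees_inr, decide_false]
  have hUU : ∀ h : G, (∀ t ∈ T, ∀ z : Z, op (h * t.1) • z ∈ Win B t.2 → z ∈ U) →
      ∀ z, typ B A T h (Sum.inl z) ≠ typ B A T h (Sum.inr ()) → z ∈ U := by
    intro h hh z hz
    by_contra hzU
    refine hz ?_
    rw [hinr]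
    funext t
    have h1 : op (h * t.1.1) • z ∉ Win B t.1.2 := fun H => hzU (hh t.1 t.2 z H)
    have h2 : op (h * t.1.1) • z ∉ A t.1.2 := fun H => h1 (Or.inl (hAB _ H))
    simp only [typ, sees_inl, h1, h2, decide_false]
  have hmap : (ptLaw ζ U K).map (typ B A T 1) = (ptLaw ζ U K).map (typ B A T g) := by
    refine ptLaw_map_eq ζ U K hK hU _ _ hc1 hcg ?_ ?_ ?_ ?_
    · rw [hinr, hinr]
    · refine hUU 1 fun t ht z hz => hT t ht z ?_
      rwa [one_mul] at hz
    · exact hUU g hT'
    · intro q _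
      have e : {z : Z | typ B A T g (Sum.inl z) = q} =
          (fun z : Z => op g • z) ⁻¹' {z : Z | typ B A T 1 (Sum.inl z) = q} := by
        ext z
        simp only [Set.mem_ofPred_eq, Set.mem_preimage, typ_shift B A T g z]
      rw [e]
      refine ((hmp g).measure_preimage ?_).symm
      refine MeasurableSet.nullMeasurableSet ?_
      exact (hc1.comp measurable_inl) (measurableSet_singleton q)
  have hE : MeasurableSet (evt T s N) := (Set.toFinite _).measurableSet
  have h := pi_law_eq (ptLaw ζ U K) N (typ B A T 1) (typ B A T g) hc1 hcg hmap (evt T s N) hE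
  rw [← evt_eq, ← evt_eq] at h
  simp only [one_mul] at h
  exact h

end Pool.Agent.MP_46876e_al_PP
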