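import Pool.Agent.Lib.MP_46876e_al_PP.RDefs

/-!
# MP_46876e_al, project PP, second stage, module RHit: the first point seen
-/

set_option autoImplicit false

noncomputable section

namespace Pool.Agent.MP_46876e_al_PP

open MeasureTheory MulOpposite Filter Topology Pool.Agent.Forest46876e
open scoped ENNReal

variable {Ω : Type*} [MeasurableSpace Ω]

/-- Proof: the set is the disjoint union over `j : Fin N` of the boxes
`{ω | ω j ∈ D, ω j' ∉ V for j' < j}` (disjoint because `D ⊆ V`), of measure `π D * (π Vᶜ) ^ j`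
(`Measure.pi_pi`; compare `one_hit` in PSamp.lean). -/
theorem first_hit (π : Measure Ω) [IsProbabilityMeasure π] (N : ℕ) (D V : Set Ω)
    (hD : MeasurableSet D) (hV : MeasurableSet V) (hDV : D ⊆ V) :
    Measure.pi (fun _ : Fin N => π) {ω | ∃ j, ω j ∈ D ∧ ∀ j', j' < j → ω j' ∉ V} =
      ∑ i ∈ Finset.range N, π D * (π Vᶜ) ^ i := by
  classical
  have h1 : {ω : Fin N → Ω | ∃ j, ω j ∈ D ∧ ∀ j', j' < j → ω j' ∉ V} =
      ⋃ j : Fin N, Set.pi Set.univ
        (fun j' => if j' = j then D else if j' < j then Vᶜ else Set.univ) := by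
    ext ω
    simp only [Set.mem_ofPred_eq, Set.mem_iUnion, Set.mem_pi, Set.mem_univ, true_implies]
    refine exists_congr fun j => ⟨fun hj j' => ?_, fun hj => ⟨?_, fun j' hj' => ?_⟩⟩
    · by_cases hjj : j' = j
      · rw [if_pos hjj, hjj]
        exact hj.1
      · rw [if_neg hjj]
        split_ifs with h
        · exact hj.2 j' h
        · exact Set.mem_univ _
    · have h2 := hj j
      rwa [if_pos rfl] at h2
    · have h2 := hj j'
      rwa [if_neg hj'.ne, if_pos hj'] at h2
  have haux : ∀ j k : Fin N, j < k → ∀ ω : Fin N → Ω,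
      ω ∈ Set.pi Set.univ (fun j' => if j' = j then D else if j' < j then Vᶜ else Set.univ) →
      ω ∈ Set.pi Set.univ (fun j' => if j' = k then D else if j' < k then Vᶜ else Set.univ) →
      False := by
    intro j k hjk ω hω hω'
    have h2 := hω j (Set.mem_univ _)
    have h3 := hω' j (Set.mem_univ _)
    simp only [if_true] at h2
    simp only [if_neg hjk.ne, if_pos hjk] at h3
    exact h3 (hDV h2)
  have hdisj : Pairwise (Function.onFun Disjoint
      (fun j : Fin N => Set.pi Set.univ
        (fun j' : Fin N => if j' = j then D else if j' < j then Vᶜ else Set.univ))) := by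
    intro j k hjk
    rw [Function.onFun, Set.disjoint_left]
    intro ω hω hω'
    rcases lt_or_gt_of_ne hjk with h | h
    · exact haux j k h ω hω hω'
    · exact haux k j h ω hω' hω
  have hmeas : ∀ j : Fin N, MeasurableSet
      (Set.pi Set.univ
        (fun j' : Fin N => if j' = j then D else if j' < j then Vᶜ else Set.univ)) := by
    intro j
    refine MeasurableSet.univ_pi fun j' => ?_
    split_ifs
    · exact hD
    · exact hV.compl
    · exact MeasurableSet.univ
  have hbox : ∀ j : Fin N, Measure.pi (fun _ : Fin N => π)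
      (Set.pi Set.univ
        (fun j' : Fin N => if j' = j then D else if j' < j then Vᶜ else Set.univ)) =
        π D * (π Vᶜ) ^ (j : ℕ) := by
    intro j
    rw [Measure.pi_pi, ← Finset.mul_prod_erase Finset.univ _ (Finset.mem_univ j), if_pos rfl]
    congr 1
    have h2 : ∀ x ∈ Finset.univ.erase j,
        π (if x = j then D else if x < j then Vᶜ else Set.univ) =
          if x < j then π Vᶜ else 1 := by
      intro x hx
      rw [if_neg (Finset.ne_of_mem_erase hx)]
      split_ifs
      · rfl
      · exact measure_univ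
    rw [Finset.prod_congr rfl h2, Finset.prod_ite, Finset.prod_const, Finset.prod_const_one,
      mul_one]
    congr 1
    have h3 : (Finset.univ.erase j).filter (fun x => x < j) = Finset.Iio j := by
      ext x
      simp only [Finset.mem_filter, Finset.mem_erase, Finset.mem_univ, and_true,
        Finset.mem_Iio]
      exact ⟨fun h => h.2, fun h => ⟨h.ne, h⟩⟩
    rw [h3, Fin.card_Iio]
  rw [h1, measure_iUnion hdisj hmeas, tsum_fintype, Finset.sum_congr rfl fun j _ => hbox j,
    Finset.sum_range]

/-- Proof: geometric sum in `ℝ≥0∞` (all numbers at most one): with `v = π V`, `π Vᶜ = 1 - v`,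
`v * ∑ i < N, (1 - v) ^ i = 1 - (1 - v) ^ N`; divide by `v ≠ 0`. -/
theorem geom_hit (d v : ℝ≥0∞) (hv : v ≠ 0) (hv1 : v ≤ 1) (N : ℕ) :
    ∑ i ∈ Finset.range N, d * (1 - v) ^ i = d / v * (1 - (1 - v) ^ N) := by
  have hvt : v ≠ ⊤ := ne_top_of_le_ne_top ENNReal.one_ne_top hv1
  have hone : (1 : ℝ≥0∞) - v ≤ 1 := tsub_le_self
  have key : ∀ n : ℕ, v * ∑ i ∈ Finset.range n, (1 - v) ^ i + (1 - v) ^ n = 1 := by
    intro n
    induction n with
    | zero => simp
    | succ n ih =>
      rw [Finset.sum_range_succ, mul_add, pow_succ', add_assoc, ← add_mul,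
        add_tsub_cancel_of_le hv1, one_mul]
      exact ih
  have h2 : 1 - (1 - v) ^ N = v * ∑ i ∈ Finset.range N, (1 - v) ^ i := by
    refine ENNReal.sub_eq_of_eq_add ?_ (key N).symm
    exact ENNReal.pow_ne_top (ne_top_of_le_ne_top ENNReal.one_ne_top hone)
  rw [h2, ← mul_assoc, ENNReal.div_mul_cancel hv hvt, Finset.mul_sum]

end Pool.Agent.MP_46876e_al_PP
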