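import Pool.Agent.Lib.MP_46876e_al_PP.RDefs
import Pool.Agent.Lib.MP_46876e_al_PP.RAcyc
import Pool.Agent.Lib.MP_46876e_al_PP.PEtaMeas

/-!
# MP_46876e_al, project PP, second stage, module RMeas: measurability and almost sure forests
(first point version)
-/

set_option autoImplicit false

noncomputable section

namespace Pool.Agent.MP_46876e_al_PP

open MeasureTheory MulOpposite Filter Topology Pool.Agent.Forest46876e
open scoped ENNReal

variable {G Z : Type*} [Group G] [MeasurableSpace Z] [MulAction Gᵐᵒᵖ Z]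

/-- Proof: as `measurable_eta` (PEtaMeas.lean). -/
theorem measurable_etaL (hm : ∀ g : G, Measurable (fun z : Z => op g • z)) (B : Set Z)
    (hB : MeasurableSet B) (A : G → Set Z) (hA : ∀ g, MeasurableSet (A g)) (N : ℕ) :
    Measurable (fun ω : Fin N → Z ⊕ Unit => etaL B A ω) := by
  have hwin : ∀ g : G, MeasurableSet (Win B g) := fun g => hB.union (hm g hB)
  have hs : ∀ (x : G) (S : Set Z) (j : Fin N), MeasurableSet S →
      MeasurableSet {ω : Fin N → Z ⊕ Unit | Sees x S (ω j)} := fun x S j hS =>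
    (measurable_pi_apply (X := fun _ : Fin N => Z ⊕ Unit) j) (measurableSet_sees hm x S hS)
  change Measurable (fun ω : Fin N → Z ⊕ Unit => (etaL B A ω : G × G → Bool))
  refine measurable_pi_iff.2 fun p => measurable_to_bool ?_
  have h : (fun ω : Fin N → Z ⊕ Unit => etaL B A ω p) ⁻¹' {true} =
      ⋃ j, ({ω | Sees p.1 (A p.2) (ω j)} ∩
        ⋂ j', ⋂ _ : j' < j, {ω | Sees p.1 (Win B p.2) (ω j')}ᶜ) := by
    ext ω
    simp only [Set.mem_preimage, Set.mem_singleton_iff, etaL_eq_true, Set.mem_iUnion,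
      Set.mem_inter_iff, Set.mem_ofPred_eq, Set.mem_iInter, Set.mem_compl_iff]
  rw [h]
  refine MeasurableSet.iUnion fun j => (hs _ _ _ (hA _)).inter ?_
  exact MeasurableSet.iInter fun j' => MeasurableSet.iInter fun _ => (hs _ _ _ (hwin _)).compl

/-- Proof: as `eta_ae_acyclic` (PEtaMeas.lean). -/
theorem etaL_ae_acyclic (ζ : Measure Z) (U : Set Z) (K N : ℕ) (hK : K ≠ 0) (hU : ζ U ≤ K)
    (B : Set Z) (A : G → Set Z) (hAB : ∀ g, A g ⊆ B) (hAg : ∀ g, ∀ z ∈ A g, op g • z ∈ B)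
    (hac : ∀ᵐ z ∂ζ, (orbGraph A z).IsAcyclic) :
    ∀ᵐ ω ∂(sampLawK ζ U K N), (confGraph (etaL B A ω)).IsAcyclic := by
  have := ptLaw_prob ζ U K hK hU
  have h1 : ∀ᵐ o ∂(ptLaw ζ U K), ∀ z, o = Sum.inl z → (orbGraph A z).IsAcyclic := by
    rw [ae_iff]
    refine measure_mono_null ?_ (ptLaw_null ζ U K {z | ¬ (orbGraph A z).IsAcyclic} hac)
    intro o ho
    simp only [Set.mem_ofPred_eq, not_forall] at ho
    obtain ⟨z, hz, hbad⟩ := ho
    exact ⟨z, hbad, hz.symm⟩
  have h2 : ∀ j : Fin N, ∀ᵐ ω ∂(sampLawK ζ U K N),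
      ∀ z, ω j = Sum.inl z → (orbGraph A z).IsAcyclic := fun j =>
    (Measure.tendsto_eval_ae_ae (μ := fun _ : Fin N => ptLaw ζ U K) (i := j)).eventually h1
  filter_upwards [ae_all_iff.2 h2] with ω hω
  exact etaL_acyclic B A hAB hAg ω hω

end Pool.Agent.MP_46876e_al_PP
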