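import Pool.Agent.Lib.MP_46876e_al_PP.RDefs
import Pool.Agent.Lib.MP_46876e_al_PP.RHit
import Pool.Agent.Lib.MP_46876e_al_PP.RMeas
import Pool.Agent.Lib.MP_46876e_al_PP.PPt

/-!
# MP_46876e_al, project PP, second stage, module RMass: lower bound for the mass of an edge (first
point version)
-/

set_option autoImplicit false

noncomputable section

namespace Pool.Agent.MP_46876e_al_PP

open MeasureTheory MulOpposite Filter Topology Pool.Agent.Forest46876e
open scoped ENNReal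

variable {G Z : Type*} [Group G] [MeasurableSpace Z] [MulAction Gᵐᵒᵖ Z]

omit [MeasurableSpace Z] in
private theorem RMass_sees_one (S : Set Z) (o : Z ⊕ Unit) :
    Sees (1 : G) S o ↔ o ∈ (Sum.inl '' S : Set (Z ⊕ Unit)) := by
  unfold Sees
  constructor
  · rintro ⟨z, rfl, hz⟩
    rw [op_one, one_smul] at hz
    exact ⟨z, hz, rfl⟩
  · rintro ⟨z, hz, rfl⟩
    refine ⟨z, rfl, ?_⟩
    rw [op_one, one_smul]
    exact hz

/-- Proof: as `eta_mass` (PEtaMass.lean): the set is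
`{ω | ∃ j, ω j ∈ inl '' A g ∧ ∀ j' < j, ω j' ∉ inl '' Win B g}`; `first_hit`, `ptLaw_apply` and
`geom_hit` with `d = ζ (A g) / K`, `v = ζ (Win B g) / K` (`v ≤ 1` because `Win B g ⊆ U`),
`d / v = ζ (A g) / ζ (Win B g)` (`ζ (Win B g) ≠ 0, ∞`). -/
theorem etaL_mass (ζ : Measure Z) (hmp : ∀ g : G, MeasurePreserving (fun z : Z => op g • z) ζ ζ)
    (U : Set Z) (K N : ℕ) (hK : K ≠ 0) (hU : ζ U ≤ K) (B : Set Z)
    (hB : MeasurableSet B) (A : G → Set Z) (hA : ∀ g, MeasurableSet (A g))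
    (hAB : ∀ g, A g ⊆ B) (g : G) (hg : Win B g ⊆ U) (hw : ζ (Win B g) ≠ 0) :
    sampLawK ζ U K N {ω | etaL B A ω (1, g) = true} =
      ζ (A g) / ζ (Win B g) * (1 - (1 - ζ (Win B g) / K) ^ N) := by
  have := ptLaw_prob ζ U K hK hU
  have hWm : MeasurableSet (Win B g) := hB.union ((hmp g).measurable hB)
  have hset : {ω : Fin N → Z ⊕ Unit | etaL B A ω (1, g) = true} =
      {ω | ∃ j, ω j ∈ (Sum.inl '' A g : Set (Z ⊕ Unit)) ∧
        ∀ j', j' < j → ω j' ∉ (Sum.inl '' Win B g : Set (Z ⊕ Unit))} := by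
    ext ω
    rw [Set.mem_ofPred_eq, Set.mem_ofPred_eq, etaL_eq_true]
    simp only [RMass_sees_one]
  have hAW : A g ⊆ Win B g := fun z hz => Or.inl (hAB g hz)
  have hm := first_hit (ptLaw ζ U K) N (Sum.inl '' A g) (Sum.inl '' Win B g)
    (hA g).inl_image hWm.inl_image (Set.image_mono hAW)
  have hK0 : (K : ℝ≥0∞) ≠ 0 := by exact_mod_cast hK
  have hv : ptLaw ζ U K (Sum.inl '' Win B g) = ζ (Win B g) / K :=
    ptLaw_apply ζ U K (Win B g) hWm hg
  have hv0 : ζ (Win B g) / K ≠ 0 :=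
    ENNReal.div_ne_zero.2 ⟨hw, ENNReal.natCast_ne_top K⟩
  have hv1 : ζ (Win B g) / K ≤ 1 := by
    rw [← hv]
    exact prob_le_one
  unfold sampLawK
  rw [hset, hm, ptLaw_apply ζ U K (A g) (hA g) (hAW.trans hg),
    prob_compl_eq_one_sub hWm.inl_image, hv, geom_hit _ _ hv0 hv1, div_eq_mul_inv (ζ (A g)),
    div_eq_mul_inv (ζ (Win B g)) (K : ℝ≥0∞),
    ENNReal.mul_div_mul_right _ _ (ENNReal.inv_ne_zero.2 (ENNReal.natCast_ne_top K))
      (ENNReal.inv_ne_top.2 hK0)]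

/-- Proof: with `t = w / K`, `0 < t ≤ 1` and `1 - t ≤ exp (-t)`: `(1 - t) ^ (n K) ≤ exp (-n w)`. Any
proof is fine, e.g. `(1 - t) ^ (n K) ≤ ((1 - t) ^ K) ^ n` and `(1 - w/K) ^ K ≤ exp (-w)`. -/
theorem pow_small (w : ℝ≥0∞) (hw : w ≠ 0) (K : ℕ → ℕ) (hK : ∀ n, K n ≠ 0)
    (hwK : ∀ᶠ n in atTop, w ≤ K n) :
    Tendsto (fun n : ℕ => (1 - w / K n) ^ (n * K n)) atTop (𝓝 0) := by
  have hwtop : w ≠ ⊤ := by
    obtain ⟨n, hn⟩ := hwK.exists
    exact ne_top_of_le_ne_top (ENNReal.natCast_ne_top _) hn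
  obtain ⟨r, hr⟩ : ∃ r : ℝ, r = w.toReal := ⟨_, rfl⟩
  have hr0 : 0 < r := by
    rw [hr]
    exact ENNReal.toReal_pos hw hwtop
  have hwr : w = ENNReal.ofReal r := by
    rw [hr, ENNReal.ofReal_toReal hwtop]
  have hlim : Tendsto (fun n : ℕ => ENNReal.ofReal (Real.exp (-((n : ℝ) * r)))) atTop
      (𝓝 0) := by
    rw [← ENNReal.ofReal_zero]
    refine ENNReal.tendsto_ofReal ?_
    refine Real.tendsto_exp_neg_atTop_nhds_zero.comp ?_
    exact Tendsto.atTop_mul_const hr0 tendsto_natCast_atTop_atTop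
  refine tendsto_of_tendsto_of_tendsto_of_le_of_le' tendsto_const_nhds hlim
    (Eventually.of_forall fun n => zero_le) ?_
  filter_upwards [hwK] with n hn
  have hKpos : (0 : ℝ) < K n := by exact_mod_cast Nat.pos_of_ne_zero (hK n)
  have hle : r ≤ K n := by
    rw [hwr] at hn
    have h := ENNReal.toReal_mono (ENNReal.natCast_ne_top _) hn
    rwa [ENNReal.toReal_ofReal hr0.le, ENNReal.toReal_natCast] at h
  have h1 : 1 - w / K n = ENNReal.ofReal (1 - r / K n) := by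
    rw [ENNReal.ofReal_sub _ (by positivity), ENNReal.ofReal_one,
      ENNReal.ofReal_div_of_pos hKpos, ENNReal.ofReal_natCast, ← hwr]
  have h2 : 0 ≤ 1 - r / K n := by
    rw [sub_nonneg, div_le_one hKpos]
    exact hle
  rw [h1, ← ENNReal.ofReal_pow h2]
  refine ENNReal.ofReal_le_ofReal ?_
  have h3 : 1 - r / K n ≤ Real.exp (-(r / K n)) := Real.one_sub_le_exp_neg _
  calc (1 - r / K n) ^ (n * K n) ≤ Real.exp (-(r / K n)) ^ (n * K n) :=
        pow_le_pow_left₀ h2 h3 _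
    _ = Real.exp (-((n : ℝ) * r)) := by
      rw [← Real.exp_nat_mul]
      congr 1
      push_cast
      field_simp

end Pool.Agent.MP_46876e_al_PP
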