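import Pool.Agent.Lib.MP_46876e_al_PP.RDefs
import Pool.Agent.Lib.MP_46876e_al_PP.PLim
import Pool.Agent.Lib.MP_46876e_al_PP.PExt
import Pool.Agent.Lib.MP_46876e_al_PP.PCyc
import Pool.Agent.Lib.MP_46876e_al_PP.PProd
import Pool.Agent.Lib.MP_46876e_al_PP.RMass
import Pool.Agent.Lib.MP_46876e_al_PP.RMeas
import Pool.Agent.Lib.MP_46876e_al_PP.RInv

/-!
# MP_46876e_al, project PP, second stage, module RTau: the invariant law on forests (first point
version), sharp transfer
-/

set_option autoImplicit false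

noncomputable section

namespace Pool.Agent.MP_46876e_al_PP

open MeasureTheory MulOpposite Filter Topology Pool.Agent.Forest46876e
open scoped ENNReal

variable {G Z : Type*} [Group G] [MeasurableSpace Z] [MulAction Gᵐᵒᵖ Z]

private theorem RTau_win_meas (ζ : Measure Z)
    (hmp : ∀ g : G, MeasurePreserving (fun z : Z => op g • z) ζ ζ) (B : Set Z)
    (hB : MeasurableSet B) (g : G) : MeasurableSet (Win B g) := by
  have h : Win B g = B ∪ (fun z : Z => op g • z) ⁻¹' B := rfl
  rw [h]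
  exact hB.union ((hmp g).measurable hB)

private theorem RTau_win_lt (ζ : Measure Z)
    (hmp : ∀ g : G, MeasurePreserving (fun z : Z => op g • z) ζ ζ) (B : Set Z)
    (hB : MeasurableSet B) (hB1 : ζ B < ⊤) (x g : G) :
    ζ {z | op x • z ∈ Win B g} < ⊤ := by
  have h1 : ζ {z | op x • z ∈ Win B g} = ζ (Win B g) :=
    (hmp x).measure_preimage (RTau_win_meas ζ hmp B hB g).nullMeasurableSet
  have h2 : ζ ((fun z : Z => op g • z) ⁻¹' B) = ζ B :=
    (hmp g).measure_preimage hB.nullMeasurableSet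
  rw [h1]
  calc ζ (Win B g) ≤ ζ B + ζ ((fun z : Z => op g • z) ⁻¹' B) := measure_union_le _ _
    _ < ⊤ := by
        rw [h2]
        exact ENNReal.add_lt_top.2 ⟨hB1, hB1⟩

/-- The windows of the first `n` labels. -/
private def RTau_U (B : Set Z) (e : ℕ → G × G) (n : ℕ) : Set Z :=
  ⋃ k ∈ Finset.range n, {z | op (e k).1 • z ∈ Win B (e k).2}

private theorem RTau_U_lt (ζ : Measure Z)
    (hmp : ∀ g : G, MeasurePreserving (fun z : Z => op g • z) ζ ζ) (B : Set Z)
    (hB : MeasurableSet B) (hB1 : ζ B < ⊤) (e : ℕ → G × G) (n : ℕ) :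
    ζ (RTau_U B e n) < ⊤ := by
  calc ζ (RTau_U B e n) ≤ ∑ k ∈ Finset.range n, ζ {z | op (e k).1 • z ∈ Win B (e k).2} :=
        measure_biUnion_finset_le _ _
    _ < ⊤ := ENNReal.sum_lt_top.2 fun k _ => RTau_win_lt ζ hmp B hB hB1 _ _

private theorem RTau_K (ζ : Measure Z)
    (hmp : ∀ g : G, MeasurePreserving (fun z : Z => op g • z) ζ ζ) (B : Set Z)
    (hB : MeasurableSet B) (hB1 : ζ B < ⊤) (e : ℕ → G × G) :
    ∃ K : ℕ → ℕ, ∀ n, K n ≠ 0 ∧ ζ (RTau_U B e n) ≤ K n := by
  have h : ∀ n, ∃ k : ℕ, k ≠ 0 ∧ ζ (RTau_U B e n) ≤ k := by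
    intro n
    obtain ⟨k, hk⟩ := ENNReal.exists_nat_gt (RTau_U_lt ζ hmp B hB hB1 e n).ne
    refine ⟨k, fun h0 => ?_, hk.le⟩
    rw [h0, Nat.cast_zero] at hk
    exact not_lt_zero hk
  choose K hK using h
  exact ⟨K, hK⟩

omit [MeasurableSpace Z] in
private theorem RTau_mem (B : Set Z) (e : ℕ → G × G) {n k : ℕ} (hk : k < n) {t : G × G}
    (ht : e k = t) {z : Z} (hz : op t.1 • z ∈ Win B t.2) : z ∈ RTau_U B e n := by
  refine Set.mem_biUnion (Finset.mem_coe.2 (Finset.mem_range.2 hk)) ?_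
  rw [Set.mem_ofPred_eq, ht]
  exact hz

/-- The laws of the samples. -/
private def RTau_law (ζ : Measure Z) (B : Set Z) (A : G → Set Z) (e : ℕ → G × G) (K : ℕ → ℕ)
    (n : ℕ) : Measure (Conf G) :=
  (sampLawK ζ (RTau_U B e n) (K n) (n * K n)).map
    (fun ω : Fin (n * K n) → Z ⊕ Unit => etaL B A ω)

private theorem RTau_law_apply [Countable G] (ζ : Measure Z)
    (hmp : ∀ g : G, MeasurePreserving (fun z : Z => op g • z) ζ ζ) (B : Set Z)
    (hB : MeasurableSet B) (A : G → Set Z) (hA : ∀ g, MeasurableSet (A g))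
    (e : ℕ → G × G) (K : ℕ → ℕ) (n : ℕ) (C : Set (Conf G)) (hC : MeasurableSet C) :
    RTau_law ζ B A e K n C =
      sampLawK ζ (RTau_U B e n) (K n) (n * K n) {ω | etaL B A ω ∈ C} :=
  Measure.map_apply (measurable_etaL (fun g => (hmp g).measurable) B hB A hA _) hC

private theorem RTau_cyl_smul (T : Finset (G × G)) (s : G × G → Bool) (g : G) :
    IsClopen {η : Conf G | ∀ t ∈ T, η (g * t.1, t.2) = s t} := by
  classical
  have h : {η : Conf G | ∀ t ∈ T, η (g * t.1, t.2) = s t} =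
      {η : Conf G | ∀ t ∈ T.image (fun t : G × G => (g * t.1, t.2)),
        η t = (fun t : G × G => s (g⁻¹ * t.1, t.2)) t} := by
    ext η
    simp only [Set.mem_ofPred_eq, Finset.mem_image, forall_exists_index, and_imp]
    constructor
    · rintro H _ t ht rfl
      simpa using H t ht
    · intro H t ht
      simpa using H _ t ht rfl
  rw [h]
  exact cyl_clopen _ _

/-- Proof: as `exists_tau` (PTau.lean, copy it), with `U n` the union of the first `n` windows,
`K n` a
natural number `≥ ζ (U n)`, `K n ≠ 0`, and `n * K n` sample points of law `ptLaw ζ (U n) (K n)`.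
Each
window has measure `≤ 2 ζ B < ∞`. Mass: if `ζ (Win B g) = 0` the left side is `0 / 0 = 0`
(`ζ (A g) = 0`); otherwise for `n` large the mass is
`ζ (A g) / ζ (Win B g) * (1 - (1 - ζ (Win B g) / K n) ^ (n * K n))`, which tends to
`ζ (A g) / ζ (Win B g)` (`etaL_mass`, `pow_small`). -/
theorem exists_tauL [Countable G] (ζ : Measure Z)
    (hmp : ∀ g : G, MeasurePreserving (fun z : Z => op g • z) ζ ζ) (B : Set Z)
    (hB : MeasurableSet B) (hB1 : ζ B < ⊤) (A : G → Set Z) (hA : ∀ g, MeasurableSet (A g))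
    (hAB : ∀ g, A g ⊆ B) (hAg : ∀ g, ∀ z ∈ A g, op g • z ∈ B)
    (hac : ∀ᵐ z ∂ζ, (orbGraph A z).IsAcyclic) :
    ∃ τ : Measure (Conf G), IsProbabilityMeasure τ ∧
      (∀ g : G, MeasurePreserving (fun η : Conf G => op g • η) τ τ) ∧
      (∀ᵐ η ∂τ, (confGraph η).IsAcyclic) ∧
      ∀ g, ζ (A g) / ζ (Win B g) ≤ τ {η | η (1, g) = true} := by
  obtain ⟨e, he⟩ := exists_surjective_nat (G × G)
  have hm : ∀ g : G, Measurable (fun z : Z => op g • z) := fun g => (hmp g).measurable
  obtain ⟨K, hK⟩ := RTau_K ζ hmp B hB hB1 e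
  have hprob : ∀ n, IsProbabilityMeasure (RTau_law ζ B A e K n) := by
    intro n
    have h1 : IsProbabilityMeasure (ptLaw ζ (RTau_U B e n) (K n)) :=
      ptLaw_prob ζ _ _ (hK n).1 (hK n).2
    have h2 : IsProbabilityMeasure (sampLawK ζ (RTau_U B e n) (K n) (n * K n)) := by
      unfold sampLawK
      infer_instance
    exact Measure.isProbabilityMeasure_map (measurable_etaL hm B hB A hA _).aemeasurable
  obtain ⟨τ, u, hτ, hu, hlim⟩ := exists_limit (RTau_law ζ B A e K) hprob
  have hev0 : ∀ t : G × G, ∀ᶠ n in atTop, ∀ z : Z, op t.1 • z ∈ Win B t.2 →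
      z ∈ RTau_U B e n := by
    intro t
    obtain ⟨k, hk⟩ := he t
    filter_upwards [eventually_gt_atTop k] with n hn z hz
    exact RTau_mem B e hn hk hz
  have hev : ∀ t : G × G, ∀ᶠ n in (u : Filter ℕ), ∀ z : Z, op t.1 • z ∈ Win B t.2 →
      z ∈ RTau_U B e n := fun t => hu (hev0 t)
  refine ⟨τ, hτ, ?_, ?_, ?_⟩
  · intro g
    refine ⟨measurable_conf_smul g, ?_⟩
    have hpm : IsProbabilityMeasure (τ.map (fun η : Conf G => op g • η)) :=
      Measure.isProbabilityMeasure_map (measurable_conf_smul g).aemeasurable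
    refine conf_ext _ _ fun T s => ?_
    have hc1 := cyl_clopen T s
    have hc2 := RTau_cyl_smul T s g
    have hm1 : MeasurableSet {η : Conf G | ∀ t ∈ T, η t = s t} := hc1.1.measurableSet
    have hm2 : MeasurableSet {η : Conf G | ∀ t ∈ T, η (g * t.1, t.2) = s t} :=
      hc2.1.measurableSet
    rw [Measure.map_apply (measurable_conf_smul g) hm1]
    have hpre : (fun η : Conf G => op g • η) ⁻¹' {η | ∀ t ∈ T, η t = s t} =
        {η : Conf G | ∀ t ∈ T, η (g * t.1, t.2) = s t} := rfl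
    rw [hpre]
    refine tendsto_nhds_unique (hlim _ hc2) ((hlim _ hc1).congr' ?_)
    have h1 : ∀ᶠ n in (u : Filter ℕ), ∀ t ∈ T, ∀ z : Z, op t.1 • z ∈ Win B t.2 →
        z ∈ RTau_U B e n :=
      (Filter.eventually_all_finset T).2 fun t _ => hev t
    have h2 : ∀ᶠ n in (u : Filter ℕ), ∀ t ∈ T, ∀ z : Z, op (g * t.1) • z ∈ Win B t.2 →
        z ∈ RTau_U B e n :=
      (Filter.eventually_all_finset T).2 fun t _ => hev (g * t.1, t.2)
    filter_upwards [h1, h2] with n hn1 hn2
    rw [RTau_law_apply ζ hmp B hB A hA e K n _ hm1,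
      RTau_law_apply ζ hmp B hB A hA e K n _ hm2]
    exact etaL_inv ζ hmp (RTau_U B e n) (K n) (n * K n) (hK n).1 (hK n).2 B hB A hA hAB T s g
      hn1 hn2
  · refine limit_acyclic (RTau_law ζ B A e K) τ u hlim fun n => ?_
    exact (ae_map_iff (measurable_etaL hm B hB A hA _).aemeasurable measurableSet_acyclic).2
      (etaL_ae_acyclic ζ (RTau_U B e n) (K n) (n * K n) (hK n).1 (hK n).2 B A hAB hAg hac)
  · intro g
    by_cases hw : ζ (Win B g) = 0
    · have hA0 : ζ (A g) = 0 := by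
        refine measure_mono_null (fun z hz => ?_) hw
        exact Or.inl (hAB g hz)
      rw [hA0, ENNReal.zero_div]
      exact zero_le
    have hC : IsClopen {η : Conf G | η (1, g) = true} := by
      have h := cyl_clopen ({(1, g)} : Finset (G × G)) (fun _ => true)
      simpa using h
    have hCm : MeasurableSet {η : Conf G | η (1, g) = true} := hC.1.measurableSet
    have hsub : ∀ᶠ n in atTop, Win B g ⊆ RTau_U B e n := by
      filter_upwards [hev0 (1, g)] with n hn z hz
      refine hn z ?_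
      rw [op_one, one_smul]
      exact hz
    have hwK : ∀ᶠ n in atTop, ζ (Win B g) ≤ K n := by
      filter_upwards [hsub] with n hn
      exact (measure_mono hn).trans (hK n).2
    have hp := pow_small (ζ (Win B g)) hw K (fun n => (hK n).1) hwK
    have hlim2 : Tendsto (fun n : ℕ => ζ (A g) / ζ (Win B g) *
        (1 - (1 - ζ (Win B g) / K n) ^ (n * K n))) atTop (𝓝 (ζ (A g) / ζ (Win B g))) := by
      have hA1 : ζ (A g) / ζ (Win B g) ≠ ⊤ := by
        refine ne_top_of_le_ne_top ENNReal.one_ne_top ?_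
        refine ENNReal.div_le_of_le_mul ?_
        rw [one_mul]
        exact measure_mono fun z hz => Or.inl (hAB g hz)
      have h1 : Tendsto (fun n : ℕ => 1 - (1 - ζ (Win B g) / K n) ^ (n * K n)) atTop
          (𝓝 (1 - 0)) := ENNReal.Tendsto.sub tendsto_const_nhds hp (Or.inl ENNReal.one_ne_top)
      rw [tsub_zero] at h1
      have h2 := ENNReal.Tendsto.const_mul (a := ζ (A g) / ζ (Win B g)) h1
        (Or.inr hA1)
      rwa [mul_one] at h2
    refine le_of_eq (tendsto_nhds_unique ((hlim2.mono_left hu).congr' ?_) (hlim _ hC))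
    filter_upwards [hu hsub] with n hn
    rw [RTau_law_apply ζ hmp B hB A hA e K n _ hCm]
    exact (etaL_mass ζ hmp (RTau_U B e n) (K n) (n * K n) (hK n).1 (hK n).2 B hB A hA hAB g hn
      hw).symm

/-- Proof: `Y = Conf G` with `τ` from `exists_tauL`, and `prod_forest` (see PTransfer.lean). -/
theorem transferL (G : Type) [Group G] [Countable G] (m : G → ℝ≥0∞) (h : HasData G m) :
    ForestExtension G m := by
  obtain ⟨Z, _, _, ζ, B, A, hmp, hB, hB1, hA, hAB, hAg, hac, hm0⟩ := h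
  obtain ⟨τ, hτ, hτmp, hτac, hτm⟩ := exists_tauL ζ hmp B hB hB1 A hA hAB hAg hac
  refine ⟨Conf G, inferInstance, inferInstance, inferInstance, τ, hτ, hτmp, ?_⟩
  intro W _ _ _ μ _ hμ hfree
  obtain ⟨A', hA', hm⟩ := prod_forest τ hτac μ hμ hfree
  exact ⟨A', hA', fun g hg => ((hm0 g).trans (hτm g)).trans (hm g hg)⟩

end Pool.Agent.MP_46876e_al_PP
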