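import Pool.Agent.Lib.MP_46876e_al_PP.RDefs
import Pool.Agent.Lib.MP_46876e_al_PP.RLMDefs
import Pool.Agent.Lib.MP_46876e_al_PP.RTau
import Pool.Agent.Lib.MP_46876e_al_PP.ROver
import Pool.Agent.Lib.MP_46876e_al_PP.RData
import Pool.Agent.Lib.MP_46876e_al_PP.RLtil
import Pool.Agent.Lib.MP_46876e_al_PP.RReal
import Pool.Agent.Lib.MP_46876e_al_PP.RLM2

/-!
# MP_46876e_al, project PP, second stage, module RFin: Monod groups, the Lodha-Moore group and
their overgroups
-/

set_option autoImplicit false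

noncomputable section

namespace Pool.Agent.MP_46876e_al_PP

open MeasureTheory MulOpposite Filter Topology Pool.Agent.Forest46876e
open scoped ENNReal

/-- `G` has one probability measure preserving action `Y` such that for all essentially free `W` the
product `Y × W` has a forest family `A` with `μ (A (h n)) → 1` for a sequence of different group
elements `h n`. -/
def HasLargeForests (G : Type) [Group G] : Prop :=
  ∃ (h : ℕ → G) (m : G → ℝ≥0∞), Function.Injective h ∧ ForestExtension G m ∧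
    Tendsto (fun n => m (h n)) atTop (𝓝 1)

/-- Proof: `data_over` with `m' g = m l` if `g = φ l` and `0` otherwise, `transferL`, and
`h' n = φ (h n)`. -/
theorem large_over (L G : Type) [Group L] [Group G] [Countable G] (φ : L →* G)
    (hφ : Function.Injective φ) (h : ℕ → L) (m : L → ℝ≥0∞) (hh : Function.Injective h)
    (hd : HasData L m) (hm : Tendsto (fun n => m (h n)) atTop (𝓝 1)) : HasLargeForests G := by
  classical
  let m' : G → ℝ≥0∞ := fun g => if hg : ∃ l, φ l = g then m (Classical.choose hg) else 0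
  have hm' : ∀ l, m' (φ l) = m l := by
    intro l
    have hex : ∃ l', φ l' = φ l := ⟨l, rfl⟩
    have h1 : m' (φ l) = m (Classical.choose hex) := dif_pos hex
    rw [h1, hφ (Classical.choose_spec hex)]
  have hm0 : ∀ g, (∀ l, φ l ≠ g) → m' g = 0 := by
    intro g hg
    exact dif_neg (fun ⟨l, hl⟩ => hg l hl)
  refine ⟨fun n => φ (h n), m', fun a b hab => hh (hφ hab),
    transferL G m' (data_over L G φ hφ m m' hd hm' hm0), ?_⟩
  simp only [hm']
  exact hm

/-- Proof: `L = MonodGrp A` is countable (it embeds in `G`). `exists_small`, `real_wfree` and a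
power
give `x ∈ A`, `0 < x ≤ 1/100` with `WFree (bseq x)`. `monod_family` gives the `f n`;
`data_of_family` with `α = 0`, `β = 1`, `M = bseq x`, `δ n = 3 x ^ (n+1)`; `large_over`. -/
theorem monod_large (A : Subring ℝ) (hA : ∃ x ∈ A, ∀ k : ℤ, x ≠ k) (G : Type) [Group G]
    [Countable G] (φ : MonodGrp A →* G) (hφ : Function.Injective φ) : HasLargeForests G := by
  have hcount : Countable (MonodGrp A) := hφ.countable
  obtain ⟨x₀, hx₀A, hx₀0, hx₀1⟩ := exists_small A hA
  obtain ⟨m0, hm0⟩ := real_wfree x₀ hx₀0 hx₀1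
  obtain ⟨N, hN⟩ := exists_pow_lt_of_lt_one (show (0 : ℝ) < 1 / 100 by norm_num) hx₀1
  have hW : WFree (bseq (x₀ ^ (max m0 N))) := hm0 _ (le_max_left _ _)
  have hx1 : x₀ ^ (max m0 N) ≤ 1 / 100 :=
    (pow_le_pow_of_le_one hx₀0.le hx₀1.le (le_max_right _ _)).trans hN.le
  have hx0 : 0 < x₀ ^ (max m0 N) := pow_pos hx₀0 _
  have hxA : x₀ ^ (max m0 N) ∈ A := A.pow_mem hx₀A _
  generalize x₀ ^ (max m0 N) = x at hW hx1 hx0 hxA
  choose f hfA hf1 hf2 hf3 using monod_family A x hxA hx0 hx1
  have hδ : Tendsto (fun n : ℕ => 3 * x ^ (n + 1)) atTop (𝓝 0) := by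
    have h1 : Tendsto (fun n : ℕ => x ^ (n + 1)) atTop (𝓝 0) :=
      (tendsto_pow_atTop_nhds_zero_of_lt_one hx0.le (by linarith)).comp (tendsto_add_atTop_nat 1)
    simpa using h1.const_mul 3
  obtain ⟨h, m, hh, hd, hm⟩ := data_of_family (MonodGrp A) (monodGrp_le A) 0 1 zero_lt_one
    (bseq x) (bseq_det x) hW (by
      intro n q hq
      have h1 : (bseq x n) 1 0 = x ^ (n + 1) := rfl
      have h2 : (bseq x n) 1 1 = 1 := rfl
      rw [h1, h2]
      have h3 : 0 ≤ x ^ (n + 1) * q := mul_nonneg (pow_pos hx0 _).le hq.1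
      linarith)
    (fun n => ⟨f n, hfA n⟩) (fun n y hy => hf1 n y hy) (fun n : ℕ => 3 * x ^ (n + 1)) hδ
    (fun n y hy => hf2 n y hy) (fun n y hy => hf3 n y hy)
  exact large_over (MonodGrp A) G φ hφ h m hh hd hm

/-- Proof: `LM_family`, `LM_le`, `data_of_family` with `α = 1/2`, `β = 2/3`; `large_over`. (`LMGrp`
is
countable because it embeds in `G`.) -/
theorem LM_large (G : Type) [Group G] [Countable G] (φ : LMGrp →* G)
    (hφ : Function.Injective φ) : HasLargeForests G := by
  have hcount : Countable LMGrp := hφ.countable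
  obtain ⟨M, f, δ, hdet, hW, hfm, hδ, hprop⟩ := LM_family
  obtain ⟨h, m, hh, hd, hm⟩ := data_of_family LMGrp LM_le (1 / 2) (2 / 3) (by norm_num)
    M hdet hW (fun n q hq => ((hprop n).1 q hq).1) (fun n => ⟨f n, hfm n⟩)
    (fun n q hq => ((hprop n).1 q hq).2.1) δ hδ (fun n q hq => ((hprop n).1 q hq).2.2)
    (fun n q hq => (hprop n).2 q hq)
  exact large_over LMGrp G φ hφ h m hh hd hm

end Pool.Agent.MP_46876e_al_PP
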