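import Pool.Agent.Lib.MP_46876e_al_PP.PDefs
import Pool.Agent.Lib.MP_46876e_al_PP.PCyc
import Pool.Agent.Lib.MP_46876e_al_PP.PProd

/-!
# MP_46876e_al, project PP, module TFac: forest families in the free extensions of a random forest
-/

set_option autoImplicit false

noncomputable section

namespace Pool.Agent.MP_46876e_al_PP

open MeasureTheory MulOpposite Filter Topology Pool.Agent.Forest46876e
open scoped ENNReal

variable {G X : Type*} [Group G]

private theorem TFac_adj_iff (η : Conf G) (x y : G) :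
    (confGraph η).Adj x y ↔ x ≠ y ∧ ((∃ g, η (x, g) = true ∧ y = x * g) ∨
      ∃ g, η (y, g) = true ∧ x = y * g) := SimpleGraph.fromRel_adj _ _ _

/-- The good points: free, and `π` is equivariant along the orbit with values in the forests. -/
def goodPts [MulAction Gᵐᵒᵖ X] (π : X → Conf G) : Set X :=
  {x | (∀ g : G, g ≠ 1 → op g • x ≠ x) ∧ (∀ g : G, π (op g • x) = op g • π x) ∧
    (confGraph (π x)).IsAcyclic}

theorem goodPts_smul [MulAction Gᵐᵒᵖ X] {π : X → Conf G} {x : X} (hx : x ∈ goodPts π) (h : G) :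
    op h • x ∈ goodPts π := by
  obtain ⟨h1, h2, h3⟩ := hx
  refine ⟨fun g hg he => ?_, fun g => ?_, ?_⟩
  · refine h1 (h * g * h⁻¹) (fun h' => hg ?_) ?_
    · have : h * g = h := by
        rw [mul_inv_eq_one] at h'
        exact h'
      exact mul_eq_left.1 this
    · have h4 : op (h * g * h⁻¹) • x = op h⁻¹ • op g • op h • x := by
        rw [op_mul, mul_smul, op_mul, mul_smul]
      rw [h4, he, ← mul_smul, ← op_mul, mul_inv_cancel, op_one, one_smul]
  · rw [← mul_smul, ← op_mul, h2, h2 h, op_mul, mul_smul]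
  · rw [h2 h]
    exact (confGraph_smul_acyclic h (π x)).2 h3

private theorem TFac_inj [MulAction Gᵐᵒᵖ X] {w : X} (hw : ∀ g : G, g ≠ 1 → op g • w ≠ w)
    {x y : G} (h : op x • w = op y • w) : x = y := by
  by_contra hne
  refine hw (x * y⁻¹) (fun h' => hne (mul_inv_eq_one.mp h')) ?_
  rw [op_mul, mul_smul, h, ← mul_smul, ← op_mul, mul_inv_cancel, op_one, one_smul]

/-- The family over the good points. -/
def facFam [MulAction Gᵐᵒᵖ X] (π : X → Conf G) (g : G) : Set X :=
  {x | g ≠ 1 ∧ x ∈ goodPts π ∧ π x (1, g) = true}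

private theorem TFac_step [MulAction Gᵐᵒᵖ X] {π : X → Conf G} {p r : X} (hp : p ∈ goodPts π)
    {x : G} (h : (edgeGraph (facFam π)).Adj (op x • p) r) :
    ∃ y, r = op y • p ∧ (confGraph (π p)).Adj x y := by
  rw [edgeGraph, SimpleGraph.fromRel_adj] at h
  obtain ⟨-, ⟨g, hg, rfl⟩ | ⟨g, hg, he⟩⟩ := h
  · refine ⟨x * g, by rw [op_mul, mul_smul], (TFac_adj_iff _ _ _).2 ⟨fun h => ?_, Or.inl
      ⟨g, ?_, rfl⟩⟩⟩
    · exact hg.1 (left_eq_mul.1 h)
    · have h1 := hg.2.2
      rw [hp.2.1 x, conf_smul, mul_one] at h1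
      exact h1
  · have hr : r = op (x * g⁻¹) • p := by
      rw [op_mul, mul_smul, he, ← mul_smul, ← op_mul, mul_inv_cancel, op_one, one_smul]
    refine ⟨x * g⁻¹, hr, (TFac_adj_iff _ _ _).2 ⟨fun h => ?_, Or.inr
      ⟨g, ?_, by rw [inv_mul_cancel_right]⟩⟩⟩
    · exact hg.1 (inv_eq_one.1 (left_eq_mul.1 h))
    · have h1 := hg.2.2
      rw [hr, hp.2.1 (x * g⁻¹), conf_smul, mul_one] at h1
      exact h1

theorem facFam_acyclic [MulAction Gᵐᵒᵖ X] (π : X → Conf G) :
    (edgeGraph (facFam π)).IsAcyclic := by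
  rw [SimpleGraph.isAcyclic_iff_forall_adj_isBridge]
  intro p q hpq
  have hp : p ∈ goodPts π := by
    have h := hpq
    rw [edgeGraph, SimpleGraph.fromRel_adj] at h
    obtain ⟨-, ⟨g, hg, -⟩ | ⟨g, hg, he⟩⟩ := h
    · exact hg.2.1
    · rw [he]
      exact goodPts_smul hg.2.1 g
  obtain ⟨xq, hxq, hadj⟩ : ∃ y, q = op y • p ∧ (confGraph (π p)).Adj 1 y := by
    apply TFac_step hp
    rwa [op_one, one_smul]
  rw [SimpleGraph.isBridge_iff, SimpleGraph.reachable_iff_reflTransGen]
  intro hreach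
  have key : ∀ r, Relation.ReflTransGen ((edgeGraph (facFam π)).deleteEdges {s(p, q)}).Adj p r →
      ∃ x, r = op x • p ∧ ((confGraph (π p)).deleteEdges {s(1, xq)}).Reachable 1 x := by
    intro r hr
    induction hr with
    | refl => exact ⟨1, by rw [op_one, one_smul], SimpleGraph.Reachable.refl _⟩
    | tail _ h2 ih =>
      obtain ⟨x, rfl, hx⟩ := ih
      rw [SimpleGraph.deleteEdges_adj] at h2
      obtain ⟨y, rfl, hy⟩ := TFac_step hp h2.1
      refine ⟨y, rfl, hx.trans (SimpleGraph.Adj.reachable ?_)⟩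
      rw [SimpleGraph.deleteEdges_adj]
      refine ⟨hy, fun hmem => h2.2 ?_⟩
      rw [Set.mem_singleton_iff] at hmem ⊢
      have h3 := congrArg (Sym2.map fun g : G => op g • p) hmem
      rw [Sym2.map_mk, Sym2.map_mk] at h3
      change s(op x • p, op y • p) = s(op (1 : G) • p, op xq • p) at h3
      rw [h3, op_one, one_smul, hxq]
  obtain ⟨x, hx1, hx2⟩ := key q hreach
  rw [hxq] at hx1
  have hxx : xq = x := TFac_inj hp.1 hx1
  rw [← hxx] at hx2
  exact SimpleGraph.isBridge_iff.1
    (SimpleGraph.isAcyclic_iff_forall_adj_isBridge.1 hp.2.2 hadj) hx2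

/-- Let `τ` be a law of random forests on `G`. Every essentially free action on `X` with an almost
everywhere equivariant measure preserving map `π` to `(Conf G, τ)` has a forest family whose masses
are those of `τ`. -/
theorem factor_forest [Countable G] [MeasurableSpace X] [StandardBorelSpace X]
    [MulAction Gᵐᵒᵖ X] (τ : Measure (Conf G)) (hac : ∀ᵐ η ∂τ, (confGraph η).IsAcyclic)
    (μ : Measure X)
    (hmp : ∀ g : G, MeasurePreserving (fun x : X => op g • x) μ μ)
    (hfree : ∀ᵐ x ∂μ, ∀ g : G, g ≠ 1 → op g • x ≠ x) (π : X → Conf G)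
    (hπ : MeasurePreserving π μ τ) (heq : ∀ g : G, ∀ᵐ x ∂μ, π (op g • x) = op g • π x) :
    IsForestFamily (facFam π) ∧
      ∀ g : G, g ≠ 1 → τ {η | η (1, g) = true} ≤ μ (facFam π g) := by
  have hm1 : MeasurableSet {x : X | ∀ g : G, g ≠ 1 → op g • x ≠ x} := by
    have : {x : X | ∀ g : G, g ≠ 1 → op g • x ≠ x} =
        ⋂ g : {g : G // g ≠ 1}, {x : X | op (g : G) • x = x}ᶜ := by
      ext x
      simp
    rw [this]
    exact MeasurableSet.iInter fun g =>
      (measurableSet_eq_fun (hmp g).measurable measurable_id).compl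
  have hm2 : MeasurableSet {x : X | ∀ g : G, π (op g • x) = op g • π x} := by
    have : {x : X | ∀ g : G, π (op g • x) = op g • π x} =
        ⋂ g : G, {x : X | π (op g • x) = op g • π x} := by
      ext x
      simp
    rw [this]
    exact MeasurableSet.iInter fun g =>
      measurableSet_eq_fun (hπ.measurable.comp (hmp g).measurable)
        ((measurable_conf_smul g).comp hπ.measurable)
  have hm3 : MeasurableSet {x : X | (confGraph (π x)).IsAcyclic} :=
    hπ.measurable measurableSet_acyclic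
  have hm : MeasurableSet (goodPts π : Set X) := hm1.inter (hm2.inter hm3)
  have hlab : ∀ g : G, Measurable fun η : Conf G => η (1, g) := fun g =>
    measurable_pi_apply (X := fun _ : G × G => Bool) (1, g)
  refine ⟨⟨?_, ?_, facFam_acyclic π⟩, ?_⟩
  · intro g
    exact (MeasurableSet.const _).inter (hm.inter
      (((hlab g).comp hπ.measurable) (measurableSet_singleton true)))
  · rintro g x ⟨hg, hx, -⟩
    exact hx.1 g hg
  · intro g hg
    have h1 : τ {η | η (1, g) = true} = μ {x | π x (1, g) = true} := by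
      have h2 : MeasurableSet {η : Conf G | η (1, g) = true} :=
        (hlab g) (measurableSet_singleton true)
      exact (hπ.measure_preimage h2.nullMeasurableSet).symm
    rw [h1]
    apply measure_mono_ae
    have h3 : ∀ᵐ x ∂μ, (confGraph (π x)).IsAcyclic := hπ.quasiMeasurePreserving.ae hac
    filter_upwards [hfree, ae_all_iff.2 heq, h3] with x hx1 hx2 hx3 h
    exact ⟨hg, ⟨hx1, hx2, hx3⟩, h⟩

end Pool.Agent.MP_46876e_al_PP
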