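import Pool.Agent.Lib.MP_46876e_al_PP.TFin

/-!
# MP_46876e_al, project PP, module UCore: groups between Monod's minimal group and `MonodGrp A`

Monod defines `H(A)` with a condition on the breakpoints: they are fixed points of hyperbolic
elements of `PSL₂(A)`, and there is a break at infinity only if infinity is such a fixed point. The
results hold for every group of piecewise `PSL₂(A)` maps which contains all maps with breakpoints
fixed by hyperbolic elements and no break at infinity.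
-/

set_option autoImplicit false

noncomputable section

namespace Pool.Agent.MP_46876e_al_PP

open MeasureTheory MulOpposite Filter Topology Pool.Agent.Forest46876e
open scoped ENNReal

/-- The real fixed points of the hyperbolic matrices `(a, b; c, d)` of determinant one with entries
in `A`: the trace has absolute value greater than two. -/
def HypFix (A : Subring ℝ) : Set ℝ :=
  {x | ∃ a ∈ A, ∃ b ∈ A, ∃ c ∈ A, ∃ d ∈ A, a * d - b * c = 1 ∧ 2 < |a + d| ∧ c * x + d ≠ 0 ∧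
    (a * x + b) / (c * x + d) = x}

/-- `f` is off a finite set of fixed points of hyperbolic matrices over `A` locally the Möbius map
of a matrix over `A` of determinant one, and there is one affine map `(a t + b) / d` over `A`,
`a * d = 1`, which is equal to `f` near minus infinity and near infinity. -/
def MonodCore (A : Subring ℝ) (f : ℝ ≃o ℝ) : Prop :=
  (∃ S : Set ℝ, S.Finite ∧ S ⊆ HypFix A ∧ ∀ x ∉ S, LocMobIn A f x) ∧
    ∃ a ∈ A, ∃ b ∈ A, ∃ d ∈ A, a * d = 1 ∧ ∃ R : ℝ, ∀ t : ℝ, R ≤ |t| → f t = (a * t + b) / d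

/-- Proof: as in `monod_family`. The breakpoints are the roots of `t² - 4 y t - 4 = 0`, the
fixed points of the matrix `(1 + 4 y², 4 y; y, 1)`; the map is `t - 3 y` outside. -/
theorem core_family (A : Subring ℝ) (x : ℝ) (hxA : x ∈ A) (hx0 : 0 < x) (hx1 : x ≤ 1 / 100)
    (n : ℕ) : ∃ f : ℝ ≃o ℝ, MonodCore A f ∧
      (∀ t ∈ Set.Icc (0 : ℝ) 1, f t = rmob (bseq x n) t) ∧
      (∀ t ∈ Set.Icc (0 : ℝ) 1, |f t - t| ≤ 3 * x ^ (n + 1)) ∧
      ∀ t ∈ Set.Ioo (0 : ℝ) 1, DifferentiableAt ℝ f t ∧ 1 - 3 * x ^ (n + 1) ≤ deriv f t := by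
  obtain ⟨y, hy⟩ : ∃ y : ℝ, y = x ^ (n + 1) := ⟨_, rfl⟩
  have hyA : y ∈ A := hy ▸ A.pow_mem hxA _
  have hy0 : 0 < y := hy ▸ pow_pos hx0 _
  have hy1 : y ≤ 1 / 100 := by
    rw [hy]
    refine le_trans ?_ hx1
    exact pow_le_of_le_one hx0.le (by linarith) (Nat.succ_ne_zero n)
  have h3A : (3 : ℝ) ∈ A := by
    have : (3 : ℝ) = ((3 : ℕ) : ℝ) := by norm_num
    rw [this]
    exact natCast_mem A 3
  have h4A : (4 : ℝ) ∈ A := by
    have : (4 : ℝ) = ((4 : ℕ) : ℝ) := by norm_num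
    rw [this]
    exact natCast_mem A 4
  obtain ⟨l, t1, t2, h1, h2, h3, h4, h5⟩ := exists_ltil y hy0 hy1
  have h12 : t1 ≤ t2 := by linarith
  have hf : ∀ t, (l.trans (OrderIso.addRight y)) t = l t + y := fun t => rfl
  have hmid : ∀ t ∈ Set.Icc t1 t2, (l.trans (OrderIso.addRight y)) t =
      ((1 + y ^ 2) * t + y) / (y * t + 1) := by
    intro t ht
    obtain ⟨h6, h7⟩ := h3 t ht
    have h8 : y * t + 1 ≠ 0 := by linarith
    rw [hf, h7, add_comm 1 (y * t), eq_div_iff h8, add_mul, div_mul_cancel₀ _ h8]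
    ring
  have hI : ∀ t ∈ Set.Icc (0 : ℝ) 1, (l.trans (OrderIso.addRight y)) t = rmob (bseq x n) t := by
    intro t ht
    rw [hmid t ⟨by linarith [ht.1], by linarith [ht.2]⟩, rmob, bseq, ← hy, bm]
    simp
  obtain ⟨g, -, hg1, hg2, hg3⟩ := monod_family A x hxA hx0 hx1 n
  -- the breakpoints
  have hhyp : ∀ t ∈ Set.Icc t1 t2, l t = t - 4 * y → t ∈ HypFix A := by
    intro t ht h6
    obtain ⟨h7, h8⟩ := h3 t ht
    have h9 : y * t + 1 ≠ 0 := by linarith
    rw [h6, eq_div_iff h7.ne'] at h8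
    refine ⟨1 + 4 * y ^ 2, A.add_mem A.one_mem (A.mul_mem h4A (A.pow_mem hyA 2)), 4 * y,
      A.mul_mem h4A hyA, y, hyA, 1, A.one_mem, by ring, ?_, h9, ?_⟩
    · have h10 : 0 < y ^ 2 := pow_pos hy0 2
      rw [abs_of_pos (by linarith)]
      linarith
    · rw [div_eq_iff h9]
      linear_combination (-1) * h8
  have hin1 : t1 ∈ HypFix A := hhyp t1 ⟨le_rfl, h12⟩ (h4 t1 le_rfl)
  have hin2 : t2 ∈ HypFix A := hhyp t2 ⟨h12, le_rfl⟩ (h5 t2 le_rfl)
  refine ⟨l.trans (OrderIso.addRight y), ⟨⟨{t1, t2}, Set.toFinite _, ?_, ?_⟩, ?_⟩, ?_, ?_, ?_⟩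
  · rintro t (rfl | rfl)
    · exact hin1
    · exact hin2
  · intro t ht
    rw [Set.mem_insert_iff, Set.mem_singleton_iff, not_or] at ht
    rcases lt_or_gt_of_ne ht.1 with h6 | h6
    · refine ⟨1, A.one_mem, -(3 * y), A.neg_mem (A.mul_mem h3A hyA), 0, A.zero_mem, 1, A.one_mem,
        by norm_num, ?_⟩
      filter_upwards [Iio_mem_nhds h6] with u hu
      refine ⟨by norm_num, ?_⟩
      rw [hf, h4 u (le_of_lt hu)]
      ring
    · rcases lt_or_gt_of_ne ht.2 with h7 | h7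
      · refine ⟨1 + y ^ 2, A.add_mem A.one_mem (A.pow_mem hyA 2), y, hyA, y, hyA, 1, A.one_mem,
          by ring, ?_⟩
        filter_upwards [Ioo_mem_nhds h6 h7] with u hu
        have hu' : u ∈ Set.Icc t1 t2 := ⟨hu.1.le, hu.2.le⟩
        refine ⟨?_, hmid u hu'⟩
        have := (h3 u hu').1
        linarith
      · refine ⟨1, A.one_mem, -(3 * y), A.neg_mem (A.mul_mem h3A hyA), 0, A.zero_mem, 1,
          A.one_mem, by norm_num, ?_⟩
        filter_upwards [Ioi_mem_nhds h7] with u hu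
        refine ⟨by norm_num, ?_⟩
        rw [hf, h5 u (le_of_lt hu)]
        ring
  · refine ⟨1, A.one_mem, -(3 * y), A.neg_mem (A.mul_mem h3A hyA), 1, A.one_mem, by norm_num,
      max (-t1) t2, fun t ht => ?_⟩
    rcases le_abs'.1 ht with h6 | h6
    · have h7 : t ≤ t1 := by
        have := le_max_left (-t1) t2
        linarith
      rw [hf, h4 t h7]
      ring
    · have h7 : t2 ≤ t := (le_max_right (-t1) t2).trans h6
      rw [hf, h5 t h7]
      ring
  · exact hI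
  · intro t ht
    rw [hI t ht, ← hg1 t ht]
    exact hg2 t ht
  · intro t ht
    have h6 : (⇑(l.trans (OrderIso.addRight y)) : ℝ → ℝ) =ᶠ[𝓝 t] g := by
      filter_upwards [Ioo_mem_nhds ht.1 ht.2] with u hu
      have hu' : u ∈ Set.Icc (0 : ℝ) 1 := ⟨hu.1.le, hu.2.le⟩
      rw [hI u hu', hg1 u hu']
    obtain ⟨h7, h8⟩ := hg3 t ht
    refine ⟨h7.congr_of_eventuallyEq h6, ?_⟩
    rw [h6.deriv_eq]
    exact h8

/-- As `monod_largeData`, for every group of piecewise `PSL₂(A)` maps which contains all maps with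
`MonodCore A`. -/
theorem core_largeData (A : Subring ℝ) (hA : ∃ x ∈ A, ∀ k : ℤ, x ≠ k) (L : Subgroup (ℝ ≃o ℝ))
    (hLA : L ≤ MonodGrp A) (hL : ∀ f, MonodCore A f → f ∈ L) (G : Type) [Group G]
    [Countable G] (φ : L →* G) (hφ : Function.Injective φ) : HasLargeData G := by
  have hcount : Countable L := hφ.countable
  obtain ⟨x₀, hx₀A, hx₀0, hx₀1⟩ := exists_small A hA
  obtain ⟨m0, hm0⟩ := real_wfree x₀ hx₀0 hx₀1
  obtain ⟨N, hN⟩ := exists_pow_lt_of_lt_one (show (0 : ℝ) < 1 / 100 by norm_num) hx₀1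
  have hW : WFree (bseq (x₀ ^ (max m0 N))) := hm0 _ (le_max_left _ _)
  have hx1 : x₀ ^ (max m0 N) ≤ 1 / 100 :=
    (pow_le_pow_of_le_one hx₀0.le hx₀1.le (le_max_right _ _)).trans hN.le
  have hx0 : 0 < x₀ ^ (max m0 N) := pow_pos hx₀0 _
  have hxA : x₀ ^ (max m0 N) ∈ A := A.pow_mem hx₀A _
  generalize x₀ ^ (max m0 N) = x at hW hx1 hx0 hxA
  choose f hfA hf1 hf2 hf3 using core_family A x hxA hx0 hx1
  have hδ : Tendsto (fun n : ℕ => 3 * x ^ (n + 1)) atTop (𝓝 0) := by
    have h1 : Tendsto (fun n : ℕ => x ^ (n + 1)) atTop (𝓝 0) :=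
      (tendsto_pow_atTop_nhds_zero_of_lt_one hx0.le (by linarith)).comp (tendsto_add_atTop_nat 1)
    simpa using h1.const_mul 3
  obtain ⟨h, m, hh, hd, hm⟩ := data_of_family L (hLA.trans (monodGrp_le A)) 0 1 zero_lt_one
    (bseq x) (bseq_det x) hW (by
      intro n q hq
      have h1 : (bseq x n) 1 0 = x ^ (n + 1) := rfl
      have h2 : (bseq x n) 1 1 = 1 := rfl
      rw [h1, h2]
      have h3 : 0 ≤ x ^ (n + 1) * q := mul_nonneg (pow_pos hx0 _).le hq.1
      linarith)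
    (fun n => ⟨f n, hL _ (hfA n)⟩) (fun n y hy => hf1 n y hy) (fun n : ℕ => 3 * x ^ (n + 1)) hδ
    (fun n y hy => hf2 n y hy) (fun n y hy => hf3 n y hy)
  exact largeData_over L G φ hφ h m hh hd hm

end Pool.Agent.MP_46876e_al_PP
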